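import Mathlib

-- part Pool.Agent.P.MP_b5e666_co.LA0
section

set_option autoImplicit false

open Finset

noncomputable section

namespace Pool.Agent.P.MP_b5e666_co.Lar

/-- filter with a classical decision procedure -/
def flt {α : Type} (s : Finset α) (P : α → Prop) : Finset α :=
  @Finset.filter α P (fun a => Classical.propDecidable (P a)) s

@[simp] theorem mem_flt {α : Type} {s : Finset α} {P : α → Prop} {a : α} :
    a ∈ flt s P ↔ a ∈ s ∧ P a := by
  unfold flt; exact @Finset.mem_filter α P (fun a => Classical.propDecidable (P a)) s a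

theorem flt_eq {α : Type} (s : Finset α) (P : α → Prop) [DecidablePred P] :
    flt s P = s.filter P := by
  ext a; simp

theorem flt_subset {α : Type} (s : Finset α) (P : α → Prop) : flt s P ⊆ s :=
  fun _ h => (mem_flt.1 h).1

theorem card_flt_le {α : Type} (s : Finset α) (P : α → Prop) : (flt s P).card ≤ s.card :=
  card_le_card (flt_subset s P)

theorem flt_mono {α : Type} {s t : Finset α} {P Q : α → Prop} (h : ∀ a, a ∈ s → P a → a ∈ t ∧ Q a) :
    flt s P ⊆ flt t Q := fun a ha => mem_flt.2 (h a (mem_flt.1 ha).1 (mem_flt.1 ha).2)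

/-- real indicator of a proposition -/
def ind (P : Prop) : ℝ := @ite ℝ P (Classical.propDecidable P) 1 0

theorem ind_pos {P : Prop} (h : P) : ind P = 1 := by unfold ind; exact if_pos h
theorem ind_neg {P : Prop} (h : ¬ P) : ind P = 0 := by unfold ind; exact if_neg h
theorem ind_eq (P : Prop) [Decidable P] : ind P = if P then 1 else 0 := by
  by_cases h : P
  · rw [ind_pos h, if_pos h]
  · rw [ind_neg h, if_neg h]
theorem ind_nonneg (P : Prop) : 0 ≤ ind P := by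
  by_cases h : P
  · rw [ind_pos h]; norm_num
  · rw [ind_neg h]
theorem ind_le_one (P : Prop) : ind P ≤ 1 := by
  by_cases h : P
  · rw [ind_pos h]
  · rw [ind_neg h]; norm_num
theorem ind_mono {P Q : Prop} (h : P → Q) : ind P ≤ ind Q := by
  by_cases hp : P
  · rw [ind_pos hp, ind_pos (h hp)]
  · rw [ind_neg hp]; exact ind_nonneg Q
theorem ind_congr {P Q : Prop} (h : P ↔ Q) : ind P = ind Q := by rw [propext h]
theorem ind_and (P Q : Prop) : ind (P ∧ Q) = ind P * ind Q := by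
  by_cases hp : P <;> by_cases hq : Q <;> simp [ind_pos, ind_neg, hp, hq]
theorem ind_not (P : Prop) : ind (¬ P) = 1 - ind P := by
  by_cases hp : P <;> simp [ind_pos, ind_neg, hp]
theorem ind_or_le (P Q : Prop) : ind (P ∨ Q) ≤ ind P + ind Q := by
  by_cases hp : P <;> by_cases hq : Q <;> simp [ind_pos, ind_neg, hp, hq]
theorem ind_forall {α : Type} (s : Finset α) (P : α → Prop) :
    ind (∀ a ∈ s, P a) = ∏ a ∈ s, ind (P a) := by
  by_cases h : ∀ a ∈ s, P a
  · rw [ind_pos h]; exact (prod_eq_one fun a ha => ind_pos (h a ha)).symm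
  · rw [ind_neg h]; push Not at h; obtain ⟨a, ha, hn⟩ := h
    exact (prod_eq_zero ha (ind_neg hn)).symm
theorem ind_exists_le {α : Type} (s : Finset α) (P : α → Prop) :
    ind (∃ a ∈ s, P a) ≤ ∑ a ∈ s, ind (P a) := by
  by_cases h : ∃ a ∈ s, P a
  · rw [ind_pos h]; obtain ⟨a, ha, hp⟩ := h
    calc (1 : ℝ) = ind (P a) := (ind_pos hp).symm
      _ ≤ _ := single_le_sum (f := fun a => ind (P a)) (fun b _ => ind_nonneg _) ha
  · rw [ind_neg h]; exact sum_nonneg fun a _ => ind_nonneg _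
theorem card_flt {α : Type} (s : Finset α) (P : α → Prop) :
    ((flt s P).card : ℝ) = ∑ a ∈ s, ind (P a) := by
  classical
  rw [flt_eq, card_filter]; push_cast
  exact sum_congr rfl fun a _ => (ind_eq _).symm

/-- zero-one value of a bit -/
def bit (b : Bool) : ℝ := if b then 1 else 0
/-- sign of a bit -/
def sg (b : Bool) : ℝ := if b then 1 else -1

@[simp] theorem bit_true : bit true = 1 := rfl
@[simp] theorem bit_false : bit false = 0 := rfl
@[simp] theorem sg_true : sg true = 1 := rfl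
@[simp] theorem sg_false : sg false = -1 := rfl
theorem sg_eq (b : Bool) : sg b = 2 * bit b - 1 := by cases b <;> norm_num
theorem abs_sg (b : Bool) : |sg b| = 1 := by cases b <;> simp
theorem bit_eq_ind (b : Bool) : bit b = ind (b = true) := by
  cases b
  · rw [ind_neg (by simp)]; rfl
  · rw [ind_pos rfl]; rfl

section prob
variable {ι β : Type} [Fintype ι] [DecidableEq ι] [Fintype β]

/-- one probability vector per coordinate -/
def IsP (p : ι → β → ℝ) : Prop := (∀ i c, 0 ≤ p i c) ∧ ∀ i, ∑ c, p i c = 1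

/-- expectation under the product of the weights -/
def Ex (p : ι → β → ℝ) (F : (ι → β) → ℝ) : ℝ := ∑ w : ι → β, (∏ i, p i (w i)) * F w

/-- probability under the product of the weights -/
def Pr (p : ι → β → ℝ) (A : (ι → β) → Prop) : ℝ := Ex p (fun w => ind (A w))

/-- independent coins -/
def bern (σ : ι → ℝ) : ι → Bool → ℝ := fun i b => if b then σ i else 1 - σ i

/-- uniform weights -/
def unif (ι β : Type) [Fintype β] : ι → β → ℝ := fun _ _ => (Fintype.card β : ℝ)⁻¹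

/-- the set of coordinates with value true -/
def supp (ξ : ι → Bool) : Finset ι := flt univ (fun i => ξ i = true)

/-- a function that reads only the coordinates in A -/
def Dep {γ : Type} (F : (ι → β) → γ) (A : Finset ι) : Prop :=
  ∀ w w' : ι → β, (∀ i ∈ A, w i = w' i) → F w = F w'

omit [DecidableEq ι] in
@[simp] theorem mem_supp {ξ : ι → Bool} {i : ι} : i ∈ supp ξ ↔ ξ i = true := by simp [supp]

omit [DecidableEq ι] in
theorem card_supp (ξ : ι → Bool) : ((supp ξ).card : ℝ) = ∑ i, bit (ξ i) := by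
  unfold supp; rw [card_flt]; exact sum_congr rfl fun i _ => (bit_eq_ind _).symm

omit [Fintype ι] [DecidableEq ι] in
theorem isP_bern {σ : ι → ℝ} (h0 : ∀ i, 0 ≤ σ i) (h1 : ∀ i, σ i ≤ 1) : IsP (bern σ) := by
  refine ⟨fun i c => ?_, fun i => ?_⟩
  · cases c
    · simp [bern, h1 i]
    · simp [bern, h0 i]
  · simp [bern]

omit [Fintype ι] [DecidableEq ι] in
theorem isP_unif [Nonempty β] : IsP (unif ι β) := by
  refine ⟨fun i c => by simp [unif], fun i => ?_⟩
  have : (Fintype.card β : ℝ) ≠ 0 := by exact_mod_cast Fintype.card_ne_zero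
  simp [unif, this]

omit [Fintype ι] [DecidableEq ι] in
theorem unif_bool : unif ι Bool = bern (fun _ => 1 / 2) := by
  funext i b; cases b <;> simp [unif, bern]; norm_num

theorem Ex_prod (p : ι → β → ℝ) (φ : ι → β → ℝ) :
    Ex p (fun w => ∏ i, φ i (w i)) = ∏ i, ∑ c, p i c * φ i c := by
  unfold Ex
  rw [Finset.prod_univ_sum]
  simp only [Fintype.piFinset_univ, ← prod_mul_distrib]

theorem Ex_congr (p : ι → β → ℝ) {F G : (ι → β) → ℝ} (h : ∀ w, F w = G w) : Ex p F = Ex p G := by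
  rw [funext h]

theorem Ex_add (p : ι → β → ℝ) (F G : (ι → β) → ℝ) :
    Ex p (fun w => F w + G w) = Ex p F + Ex p G := by
  simp only [Ex, mul_add, sum_add_distrib]

theorem Ex_sub (p : ι → β → ℝ) (F G : (ι → β) → ℝ) :
    Ex p (fun w => F w - G w) = Ex p F - Ex p G := by
  simp only [Ex, mul_sub, sum_sub_distrib]

theorem Ex_const_mul (p : ι → β → ℝ) (c : ℝ) (F : (ι → β) → ℝ) :
    Ex p (fun w => c * F w) = c * Ex p F := by
  simp only [Ex, mul_sum]; exact sum_congr rfl fun w _ => by ring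

theorem Ex_mul_const (p : ι → β → ℝ) (c : ℝ) (F : (ι → β) → ℝ) :
    Ex p (fun w => F w * c) = Ex p F * c := by
  simp only [Ex, sum_mul]; exact sum_congr rfl fun w _ => by ring

theorem Ex_sum {α : Type} (p : ι → β → ℝ) (s : Finset α) (F : α → (ι → β) → ℝ) :
    Ex p (fun w => ∑ a ∈ s, F a w) = ∑ a ∈ s, Ex p (F a) := by
  simp only [Ex, mul_sum]; exact sum_comm

theorem Ex_comm {ι' β' : Type} [Fintype ι'] [DecidableEq ι'] [Fintype β'] (p : ι → β → ℝ)
    (p' : ι' → β' → ℝ) (F : (ι → β) → (ι' → β') → ℝ) :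
    Ex p (fun w => Ex p' (fun v => F w v)) = Ex p' (fun v => Ex p (fun w => F w v)) := by
  simp only [Ex, mul_sum]; rw [sum_comm]
  exact sum_congr rfl fun v _ => sum_congr rfl fun w _ => by ring

theorem Ex_const {p : ι → β → ℝ} (hp : IsP p) (c : ℝ) : Ex p (fun _ => c) = c := by
  have h := Ex_prod p (fun _ _ => (1 : ℝ))
  simp only [prod_const_one, mul_one, hp.2] at h
  have h2 := Ex_const_mul p c (fun _ => 1)
  simpa [h] using h2

theorem Ex_mono {p : ι → β → ℝ} (hp : IsP p) {F G : (ι → β) → ℝ} (h : ∀ w, F w ≤ G w) :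
    Ex p F ≤ Ex p G :=
  sum_le_sum fun w _ => mul_le_mul_of_nonneg_left (h w) (prod_nonneg fun i _ => hp.1 i _)

theorem Ex_nonneg {p : ι → β → ℝ} (hp : IsP p) {F : (ι → β) → ℝ} (h : ∀ w, 0 ≤ F w) :
    0 ≤ Ex p F := by
  have := Ex_mono hp (F := fun _ => 0) h; rwa [Ex_const hp] at this

theorem Ex_le_const {p : ι → β → ℝ} (hp : IsP p) {F : (ι → β) → ℝ} {c : ℝ} (h : ∀ w, F w ≤ c) :
    Ex p F ≤ c := by
  have := Ex_mono hp (G := fun _ => c) h; rwa [Ex_const hp] at this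

theorem abs_Ex_le {p : ι → β → ℝ} (hp : IsP p) (F : (ι → β) → ℝ) :
    |Ex p F| ≤ Ex p (fun w => |F w|) := by
  refine abs_le.2 ⟨?_, Ex_mono hp fun w => le_abs_self _⟩
  have := Ex_mono hp (F := fun w => (-1) * |F w|) (G := F) fun w => by
    have := neg_abs_le (F w); linarith
  rw [Ex_const_mul] at this; linarith

/-- expectation of a function of one coordinate -/
theorem Ex_coord {p : ι → β → ℝ} (hp : IsP p) (i : ι) (φ : β → ℝ) :
    Ex p (fun w => φ (w i)) = ∑ c, p i c * φ c := by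
  have h := Ex_prod p (fun j c => if j = i then φ c else 1)
  have e1 : ∀ w : ι → β, (∏ j, if j = i then φ (w j) else 1) = φ (w i) := fun w => by
    rw [Finset.prod_ite_eq']; simp
  have e2 : (∏ j, ∑ c, p j c * (if j = i then φ c else 1)) = ∑ c, p i c * φ c := by
    rw [Finset.prod_eq_single i]
    · simp
    · intro j _ hj; simp [hj, hp.2 j]
    · simp
  simp only [e1] at h; rw [h, e2]

theorem Ex_bit {σ : ι → ℝ} (h0 : ∀ i, 0 ≤ σ i) (h1 : ∀ i, σ i ≤ 1) (i : ι) :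
    Ex (bern σ) (fun w => bit (w i)) = σ i := by
  rw [Ex_coord (isP_bern h0 h1) i bit]; simp [bern]

theorem Pr_nonneg {p : ι → β → ℝ} (hp : IsP p) (A : (ι → β) → Prop) : 0 ≤ Pr p A :=
  Ex_nonneg hp fun _ => ind_nonneg _

theorem Pr_le_one {p : ι → β → ℝ} (hp : IsP p) (A : (ι → β) → Prop) : Pr p A ≤ 1 :=
  Ex_le_const hp fun _ => ind_le_one _

theorem Pr_mono {p : ι → β → ℝ} (hp : IsP p) {A B : (ι → β) → Prop} (h : ∀ w, A w → B w) :
    Pr p A ≤ Pr p B := Ex_mono hp fun w => ind_mono (h w)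

theorem Pr_congr (p : ι → β → ℝ) {A B : (ι → β) → Prop} (h : ∀ w, A w ↔ B w) :
    Pr p A = Pr p B := Ex_congr p fun w => ind_congr (h w)

theorem Pr_not {p : ι → β → ℝ} (hp : IsP p) (A : (ι → β) → Prop) :
    Pr p (fun w => ¬ A w) = 1 - Pr p A := by
  unfold Pr; simp only [ind_not]; rw [Ex_sub, Ex_const hp]

theorem Pr_or_le {p : ι → β → ℝ} (hp : IsP p) (A B : (ι → β) → Prop) :
    Pr p (fun w => A w ∨ B w) ≤ Pr p A + Pr p B := by
  unfold Pr; rw [← Ex_add]; exact Ex_mono hp fun w => ind_or_le _ _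

theorem Pr_exists_le {α : Type} {p : ι → β → ℝ} (hp : IsP p) (s : Finset α)
    (A : α → (ι → β) → Prop) : Pr p (fun w => ∃ a ∈ s, A a w) ≤ ∑ a ∈ s, Pr p (A a) := by
  unfold Pr; rw [← Ex_sum]; exact Ex_mono hp fun w => ind_exists_le s (fun a => A a w)

theorem Pr_false {p : ι → β → ℝ} (hp : IsP p) {A : (ι → β) → Prop} (h : ∀ w, ¬ A w) :
    Pr p A = 0 := by
  unfold Pr; rw [Ex_congr p (G := fun _ => 0) fun w => ind_neg (h w), Ex_const hp]

theorem Pr_true {p : ι → β → ℝ} (hp : IsP p) {A : (ι → β) → Prop} (h : ∀ w, A w) :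
    Pr p A = 1 := by
  unfold Pr; rw [Ex_congr p (G := fun _ => 1) fun w => ind_pos (h w), Ex_const hp]

theorem exists_of_Pr_lt_one {p : ι → β → ℝ} (hp : IsP p) {A : (ι → β) → Prop} (h : Pr p A < 1) :
    ∃ w, ¬ A w := by
  by_contra hc; push Not at hc; rw [Pr_true hp hc] at h; exact lt_irrefl _ h

theorem markov {p : ι → β → ℝ} (hp : IsP p) {F : (ι → β) → ℝ} (h : ∀ w, 0 ≤ F w) {t : ℝ}
    (ht : 0 < t) : Pr p (fun w => t ≤ F w) ≤ Ex p F / t := by
  rw [div_eq_mul_inv, ← Ex_mul_const]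
  refine Ex_mono hp fun w => ?_
  by_cases hw : t ≤ F w
  · rw [ind_pos hw, ← div_eq_mul_inv, le_div_iff₀ ht]; linarith
  · rw [ind_neg hw]; exact mul_nonneg (h w) (inv_nonneg.2 ht.le)

theorem Ex_unif (F : (ι → β) → ℝ) :
    Ex (unif ι β) F = (∑ w, F w) / (Fintype.card (ι → β) : ℝ) := by
  unfold Ex unif
  rw [Fintype.card_fun, sum_div]
  refine sum_congr rfl fun w _ => ?_
  simp only [prod_const, card_univ]; push_cast
  rw [inv_pow, div_eq_mul_inv, mul_comm]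

/-- the uniform measure is invariant under any bijection of function spaces -/
theorem Ex_unif_equiv {ι' β' : Type} [Fintype ι'] [DecidableEq ι'] [Fintype β']
    (e : (ι → β) ≃ (ι' → β')) (F : (ι' → β') → ℝ) :
    Ex (unif ι β) (fun w => F (e w)) = Ex (unif ι' β') F := by
  rw [Ex_unif, Ex_unif, Fintype.card_congr e, Equiv.sum_comp e F]

theorem Pr_unif_equiv {ι' β' : Type} [Fintype ι'] [DecidableEq ι'] [Fintype β']
    (e : (ι → β) ≃ (ι' → β')) (A : (ι' → β') → Prop) :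
    Pr (unif ι β) (fun w => A (e w)) = Pr (unif ι' β') A :=
  Ex_unif_equiv e (fun w => ind (A w))

omit [Fintype ι] [DecidableEq ι] in
/-- the sum over the values of one coordinate, when the values are themselves functions -/
theorem sum_unif_fun {ι' β' : Type} [Fintype ι'] [DecidableEq ι'] [Fintype β'] (i : ι)
    (F : (ι' → β') → ℝ) : ∑ c, unif ι (ι' → β') i c * F c = Ex (unif ι' β') F := by
  rw [Ex_unif, sum_div]; refine sum_congr rfl fun c _ => ?_
  unfold unif; rw [div_eq_mul_inv, mul_comm]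

omit [Fintype ι] [DecidableEq ι] [Fintype β] in
theorem Dep.mono {γ : Type} {F : (ι → β) → γ} {A B : Finset ι} (h : Dep F A) (hAB : A ⊆ B) :
    Dep F B := fun w w' hw => h w w' fun i hi => hw i (hAB hi)

omit [Fintype ι] [DecidableEq ι] [Fintype β] in
theorem Dep.comp {γ δ : Type} {F : (ι → β) → γ} {A : Finset ι} (h : Dep F A) (g : γ → δ) :
    Dep (fun w => g (F w)) A := fun w w' hw => congrArg g (h w w' hw)

end prob

end Pool.Agent.P.MP_b5e666_co.Lar
end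
end

-- part Pool.Agent.P.MP_b5e666_co.LA1
section

set_option autoImplicit false

open Finset

noncomputable section

namespace Pool.Agent.P.MP_b5e666_co.Lar

variable {ι β : Type} [Fintype ι] [DecidableEq ι] [Fintype β]

/-- exchange of the coordinates outside A between two points -/
theorem swap_LA1 (A : Finset ι) (H : (ι → β) → (ι → β) → ℝ) :
    ∑ w : ι → β, ∑ w' : ι → β, H w w' =
      ∑ w : ι → β, ∑ w' : ι → β, H (A.piecewise w w') (A.piecewise w' w) := by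
  rw [← Fintype.sum_prod_type', ← Fintype.sum_prod_type']
  have hinv : Function.Involutive
      (fun x : (ι → β) × (ι → β) => (A.piecewise x.1 x.2, A.piecewise x.2 x.1)) := by
    intro x
    refine Prod.ext ?_ ?_ <;> funext i <;> by_cases hi : i ∈ A <;>
      simp [Finset.piecewise, hi]
  exact (Equiv.sum_comp hinv.toPerm (fun x => H x.1 x.2)).symm

theorem total_LA1 {p : ι → β → ℝ} (hp : IsP p) : ∑ w : ι → β, ∏ i, p i (w i) = 1 := by
  have := Ex_const hp 1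
  simpa [Ex] using this

/-- functions of disjoint sets of coordinates are independent -/
theorem Ex_mul_of_disjoint {p : ι → β → ℝ} (hp : IsP p) {F G : (ι → β) → ℝ} {A B : Finset ι}
    (hF : Dep F A) (hG : Dep G B) (hAB : Disjoint A B) :
    Ex p (fun w => F w * G w) = Ex p F * Ex p G := by
  have e1 : Ex p F * Ex p G = ∑ w : ι → β, ∑ w' : ι → β,
      ((∏ i, p i (w i)) * F w) * ((∏ i, p i (w' i)) * G w') := by
    unfold Ex; rw [sum_mul_sum]
  rw [e1, swap_LA1 A]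
  unfold Ex
  refine sum_congr rfl fun w _ => ?_
  have e2 : ∀ w' : ι → β,
      ((∏ i, p i (A.piecewise w w' i)) * F (A.piecewise w w')) *
        ((∏ i, p i (A.piecewise w' w i)) * G (A.piecewise w' w)) =
      ((∏ i, p i (w i)) * (F w * G w)) * ∏ i, p i (w' i) := by
    intro w'
    have f1 : F (A.piecewise w w') = F w :=
      hF _ _ fun i hi => by simp [Finset.piecewise, hi]
    have f2 : G (A.piecewise w' w) = G w :=
      hG _ _ fun i hi => by
        have : i ∉ A := fun h => (Finset.disjoint_left.1 hAB h) hi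
        simp [Finset.piecewise, this]
    have f3 : (∏ i, p i (A.piecewise w w' i)) * (∏ i, p i (A.piecewise w' w i)) =
        (∏ i, p i (w i)) * ∏ i, p i (w' i) := by
      rw [← prod_mul_distrib, ← prod_mul_distrib]
      refine prod_congr rfl fun i _ => ?_
      by_cases hi : i ∈ A
      · simp [Finset.piecewise, hi]
      · simp [Finset.piecewise, hi, mul_comm]
    rw [f1, f2]
    calc _ = ((∏ i, p i (A.piecewise w w' i)) * (∏ i, p i (A.piecewise w' w i))) *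
          (F w * G w) := by ring
      _ = _ := by rw [f3]; ring
  simp only [e2]
  rw [← mul_sum, total_LA1 hp, mul_one]

theorem Ex_prod_of_disjoint {J : Type} {p : ι → β → ℝ} (hp : IsP p) (s : Finset J)
    (A : J → Finset ι) (F : J → (ι → β) → ℝ) (hF : ∀ j ∈ s, Dep (F j) (A j))
    (hA : ∀ j ∈ s, ∀ j' ∈ s, j ≠ j' → Disjoint (A j) (A j')) :
    Ex p (fun w => ∏ j ∈ s, F j w) = ∏ j ∈ s, Ex p (F j) := by
  classical
  induction s using Finset.induction_on with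
  | empty => simp [Ex_const hp]
  | insert a s ha ih =>
    have ih' := ih (fun j hj => hF j (mem_insert_of_mem hj))
      (fun j hj j' hj' => hA j (mem_insert_of_mem hj) j' (mem_insert_of_mem hj'))
    simp only [prod_insert ha]
    rw [← ih']
    refine Ex_mul_of_disjoint hp (A := A a) (B := s.biUnion A) (hF a (mem_insert_self _ _)) ?_ ?_
    · intro w w' hw
      exact prod_congr rfl fun j hj => hF j (mem_insert_of_mem hj) w w'
        fun i hi => hw i (mem_biUnion.2 ⟨j, hj, hi⟩)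
    · rw [Finset.disjoint_biUnion_right]
      intro j hj
      exact hA a (mem_insert_self _ _) j (mem_insert_of_mem hj) (fun h => ha (h ▸ hj))

/-- the expectation of a function of the coordinates in A reads only the weights on A -/
theorem Ex_congr_weights {p p' : ι → β → ℝ} (hp : IsP p) (hp' : IsP p') {F : (ι → β) → ℝ}
    {A : Finset ι} (hF : Dep F A) (h : ∀ i ∈ A, p i = p' i) : Ex p F = Ex p' F := by
  have e1 : Ex p F = ∑ w : ι → β, ∑ w' : ι → β,
      ((∏ i, p i (w i)) * F w) * (∏ i, p' i (w' i)) := by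
    unfold Ex
    refine sum_congr rfl fun w _ => ?_
    rw [← mul_sum, total_LA1 hp', mul_one]
  rw [e1, swap_LA1 A]
  unfold Ex
  refine sum_congr rfl fun w _ => ?_
  have e2 : ∀ w' : ι → β,
      ((∏ i, p i (A.piecewise w w' i)) * F (A.piecewise w w')) *
        (∏ i, p' i (A.piecewise w' w i)) =
      ((∏ i, p' i (w i)) * F w) * ∏ i, p i (w' i) := by
    intro w'
    have f1 : F (A.piecewise w w') = F w :=
      hF _ _ fun i hi => by simp [Finset.piecewise, hi]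
    have f3 : (∏ i, p i (A.piecewise w w' i)) * (∏ i, p' i (A.piecewise w' w i)) =
        (∏ i, p' i (w i)) * ∏ i, p i (w' i) := by
      rw [← prod_mul_distrib, ← prod_mul_distrib]
      refine prod_congr rfl fun i _ => ?_
      by_cases hi : i ∈ A
      · simp [Finset.piecewise, hi, h i hi]
      · simp [Finset.piecewise, hi, mul_comm]
    rw [f1]
    calc _ = ((∏ i, p i (A.piecewise w w' i)) * (∏ i, p' i (A.piecewise w' w i))) * F w := by
          ring
      _ = _ := by rw [f3]; ring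
  simp only [e2]
  rw [← mul_sum, total_LA1 hp, mul_one]

theorem expand_LA1 (G : (ι → β) → ℝ) (ξ : ι → β) :
    G ξ = ∑ x : ι → β, (∏ i, ind (ξ i = x i)) * G x := by
  rw [Finset.sum_eq_single ξ]
  · rw [prod_eq_one fun i _ => ind_pos rfl, one_mul]
  · intro x _ hx
    have : ∃ i, ξ i ≠ x i := by
      by_contra hc
      push Not at hc
      exact hx (funext fun i => (hc i).symm)
    obtain ⟨i, hi⟩ := this
    rw [prod_eq_zero (mem_univ i) (ind_neg hi), zero_mul]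
  · simp

theorem Ex_or_LA1 {σ a c : ι → ℝ} (h : ∀ i, 1 - σ i = (1 - a i) * (1 - c i))
    (G : (ι → Bool) → ℝ) :
    Ex (bern σ) G = Ex (bern a) (fun d => Ex (bern c) (fun e => G (fun i => d i || e i))) := by
  have e1 : Ex (bern σ) G =
      ∑ x : ι → Bool, (∏ i, ∑ b, bern σ i b * ind (b = x i)) * G x := by
    rw [Ex_congr _ (expand_LA1 G), Ex_sum]
    refine sum_congr rfl fun x _ => ?_
    rw [Ex_mul_const, Ex_prod (bern σ) (fun i b => ind (b = x i))]
  have e2 : ∀ d : ι → Bool, Ex (bern c) (fun e => G (fun i => d i || e i)) =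
      ∑ x : ι → Bool, (∏ i, ∑ b', bern c i b' * ind ((d i || b') = x i)) * G x := by
    intro d
    rw [Ex_congr _ (fun e : ι → Bool => expand_LA1 G (fun i => d i || e i)), Ex_sum]
    refine sum_congr rfl fun x _ => ?_
    rw [Ex_mul_const, Ex_prod (bern c) (fun i b' => ind ((d i || b') = x i))]
  rw [e1, Ex_congr _ e2, Ex_sum]
  refine sum_congr rfl fun x _ => ?_
  rw [Ex_mul_const,
    Ex_prod (bern a) (fun i b => ∑ b', bern c i b' * ind ((b || b') = x i))]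
  congr 1
  refine prod_congr rfl fun i _ => ?_
  have hi := h i
  cases x i
  · simp [bern, ind_eq]; linarith
  · simp [bern, ind_eq]; linarith

/-- a random set is the union of two independent random sets -/
theorem Ex_union {σ a c : ι → ℝ} (h : ∀ i, 1 - σ i = (1 - a i) * (1 - c i))
    (F : Finset ι → ℝ) :
    Ex (bern σ) (fun ξ => F (supp ξ)) =
      Ex (bern a) (fun d => Ex (bern c) (fun e => F (supp d ∪ supp e))) := by
  have key := Ex_or_LA1 h (fun ξ => F (supp ξ))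
  rw [key]
  refine Ex_congr _ fun d => Ex_congr _ fun e => ?_
  congr 1
  ext i
  simp

/-- biased signs have a product density with respect to fair signs -/
theorem Ex_density (b : ι → ℝ) (F : (ι → Bool) → ℝ) :
    Ex (bern (fun i => (1 + b i) / 2)) F =
      Ex (unif ι Bool) (fun w => F w * ∏ i, (1 + b i * sg (w i))) := by
  unfold Ex
  refine sum_congr rfl fun w _ => ?_
  beta_reduce
  rw [mul_comm (F w), ← mul_assoc, ← prod_mul_distrib]
  congr 1
  refine prod_congr rfl fun i _ => ?_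
  rw [unif_bool]
  cases w i
  · simp [bern]; ring
  · simp [bern]; ring

/-- density bound for an event that reads only T, keeping the factors on T2 -/
theorem Pr_density_le {b : ι → ℝ} {δ : ℝ} (hb : ∀ i, |b i| ≤ δ) (hδ : δ ≤ 1) {T T2 : Finset ι}
    (hT : T2 ⊆ T) {A : (ι → Bool) → Prop} (hA : Dep A T) :
    Pr (bern (fun i => (1 + b i) / 2)) A ≤
      (1 + δ) ^ (T \ T2).card *
        Ex (unif ι Bool) (fun w => ind (A w) * ∏ i ∈ T2, (1 + b i * sg (w i))) := by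
  have hb1 : ∀ i, -1 ≤ b i ∧ b i ≤ 1 := fun i => abs_le.1 ((hb i).trans hδ)
  let b' : ι → ℝ := fun i => if i ∈ T then b i else 0
  have hb' : ∀ i, -1 ≤ b' i ∧ b' i ≤ 1 := fun i => by
    by_cases hi : i ∈ T
    · simpa [b', hi] using hb1 i
    · simp [b', hi]
  have p1 : IsP (bern (fun i => (1 + b i) / 2)) :=
    isP_bern (fun i => by linarith [(hb1 i).1]) (fun i => by linarith [(hb1 i).2])
  have p2 : IsP (bern (fun i => (1 + b' i) / 2)) :=
    isP_bern (fun i => by linarith [(hb' i).1]) (fun i => by linarith [(hb' i).2])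
  unfold Pr
  rw [Ex_congr_weights p1 p2 (hA.comp ind) (fun i hi => by funext c; simp [bern, b', hi]),
    Ex_density, ← Ex_const_mul]
  refine Ex_mono isP_unif fun w => ?_
  have e1 : (∏ i, (1 + b' i * sg (w i))) = ∏ i ∈ T, (1 + b i * sg (w i)) := by
    rw [← prod_subset (subset_univ T)]
    · exact prod_congr rfl fun i hi => by simp [b', hi]
    · intro i _ hi; simp [b', hi]
  have habs : ∀ i, |b i * sg (w i)| ≤ δ := fun i => by rw [abs_mul, abs_sg, mul_one]; exact hb i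
  have h0 : ∀ i, 0 ≤ 1 + b i * sg (w i) := fun i => by
    have := (abs_le.1 (habs i)).1; linarith
  have h1 : ∀ i, 1 + b i * sg (w i) ≤ 1 + δ := fun i => by
    have := (abs_le.1 (habs i)).2; linarith
  have e2 : (∏ i ∈ T \ T2, (1 + b i * sg (w i))) ≤ (1 + δ) ^ (T \ T2).card := by
    rw [← prod_const]
    exact prod_le_prod (fun i _ => h0 i) (fun i _ => h1 i)
  rw [e1, ← prod_sdiff hT]
  have h2 : 0 ≤ ind (A w) * ∏ i ∈ T2, (1 + b i * sg (w i)) :=
    mul_nonneg (ind_nonneg _) (prod_nonneg fun i _ => h0 i)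
  calc _ = (∏ i ∈ T \ T2, (1 + b i * sg (w i))) *
        (ind (A w) * ∏ i ∈ T2, (1 + b i * sg (w i))) := by ring
    _ ≤ _ := mul_le_mul_of_nonneg_right e2 h2

end Pool.Agent.P.MP_b5e666_co.Lar
end
end

-- part Pool.Agent.P.MP_b5e666_co.LB1
section

set_option autoImplicit false

open Finset

noncomputable section

namespace Pool.Agent.P.MP_b5e666_co.Lar

theorem low_in_LB1 {α : Type} (X : Finset α) (hX : X.Nonempty) (R : α → α → Prop) (d : ℕ)
    (h : ∀ x ∈ X, (flt X (fun y => R x y)).card ≤ d) :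
    ∃ v ∈ X, (flt X (fun x => R x v)).card ≤ d := by
  have h1 : ∑ v ∈ X, ((flt X (fun x => R x v)).card : ℝ) ≤ ∑ _v ∈ X, (d : ℝ) := by
    simp only [card_flt]
    rw [sum_comm]
    refine sum_le_sum fun x hx => ?_
    rw [← card_flt]
    exact_mod_cast h x hx
  obtain ⟨v, hv, hd⟩ := exists_le_of_sum_le hX h1
  exact ⟨v, hv, by exact_mod_cast hd⟩

/-- a digraph of out-degree at most d has a proper colouring with 2d+1 colours -/
theorem colour_digraph {α : Type} (X : Finset α) (R : α → α → Prop) (d : ℕ)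
    (h : ∀ x ∈ X, (flt X (fun y => R x y)).card ≤ d) :
    ∃ c : α → Fin (2 * d + 1), ∀ x ∈ X, ∀ y ∈ X, x ≠ y → R x y → c x ≠ c y := by
  classical
  induction X using Finset.strongInduction with
  | H X ih =>
    rcases X.eq_empty_or_nonempty with rfl | hX
    · exact ⟨fun _ => 0, by simp⟩
    obtain ⟨v, hv, hd⟩ := low_in_LB1 X hX R d h
    obtain ⟨c, hc⟩ := ih (X.erase v) (erase_ssubset hv) fun x hx =>
      (card_le_card (flt_mono fun a ha hr => ⟨mem_of_mem_erase ha, hr⟩)).trans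
        (h x (mem_of_mem_erase hx))
    have hlt : ((flt X (fun y => R v y) ∪ flt X (fun x => R x v)).image c).card <
        (univ : Finset (Fin (2 * d + 1))).card := by
      have h1 := card_image_le (s := flt X (fun y => R v y) ∪ flt X (fun x => R x v)) (f := c)
      have h2 := card_union_le (flt X (fun y => R v y)) (flt X (fun x => R x v))
      have h3 := h v hv
      rw [card_univ, Fintype.card_fin]
      omega
    obtain ⟨k, -, hk⟩ := exists_mem_notMem_of_card_lt_card hlt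
    refine ⟨Function.update c v k, fun x hx y hy hxy hr => ?_⟩
    by_cases h1 : x = v
    · subst h1
      rw [Function.update_self, Function.update_of_ne (Ne.symm hxy)]
      rintro rfl
      exact hk (mem_image_of_mem c (mem_union_left _ (mem_flt.2 ⟨hy, hr⟩)))
    by_cases h2 : y = v
    · subst h2
      rw [Function.update_self, Function.update_of_ne hxy]
      rintro rfl
      exact hk (mem_image_of_mem c (mem_union_right _ (mem_flt.2 ⟨hx, hr⟩)))
    rw [Function.update_of_ne h1, Function.update_of_ne h2]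
    exact hc x (mem_erase.2 ⟨h1, hx⟩) y (mem_erase.2 ⟨h2, hy⟩) hxy hr

theorem indep_of_outdeg {α : Type} (X : Finset α) (R : α → α → Prop) (d : ℕ)
    (h : ∀ x ∈ X, (flt X (fun y => R x y)).card ≤ d) :
    ∃ X1 ⊆ X, X.card ≤ (2 * d + 1) * X1.card ∧ ∀ x ∈ X1, ∀ y ∈ X1, x ≠ y → ¬ R x y := by
  classical
  obtain ⟨c, hc⟩ := colour_digraph X R d h
  obtain ⟨k, -, hk⟩ := exists_max_image (univ : Finset (Fin (2 * d + 1)))
    (fun k => (X.filter fun x => c x = k).card) univ_nonempty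
  refine ⟨X.filter fun x => c x = k, filter_subset _ _, ?_, fun x hx y hy hxy hr => ?_⟩
  · rw [card_eq_sum_card_fiberwise (s := X) (t := univ) (f := c) (fun _ _ => mem_univ _)]
    refine (sum_le_card_nsmul _ _ _ fun j hj => hk j hj).trans ?_
    rw [card_univ, Fintype.card_fin, smul_eq_mul]
  · rw [mem_filter] at hx hy
    exact hc x hx.1 y hy.1 hxy hr (hx.2.trans hy.2.symm)

/-- greedy removal of popular points -/
theorem greedy {Y Pt : Type} (X : Finset Y) (A : Y → Finset Pt) (Pa : Finset Pt) {κ : ℝ}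
    (hκ : 0 < κ) (s : ℕ) (hs : (X.card : ℝ) < Real.exp (κ * s)) :
    ∃ Cov ⊆ Pa, Cov.card ≤ s ∧ ∀ p ∈ Pa,
      ((flt X (fun y => (∀ c ∈ Cov, c ∉ A y) ∧ p ∈ A y)).card : ℝ) ≤
        κ * (flt X (fun y => ∀ c ∈ Cov, c ∉ A y)).card := by
  classical
  have key : ∀ m : ℕ, ∃ Cov ⊆ Pa, Cov.card ≤ m ∧ ((∀ p ∈ Pa,
      ((flt X (fun y => (∀ c ∈ Cov, c ∉ A y) ∧ p ∈ A y)).card : ℝ) ≤
        κ * (flt X (fun y => ∀ c ∈ Cov, c ∉ A y)).card) ∨
      ((flt X (fun y => ∀ c ∈ Cov, c ∉ A y)).card : ℝ) * Real.exp (κ * m) ≤ X.card) := by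
    intro m
    induction m with
    | zero =>
      refine ⟨∅, empty_subset _, le_rfl, Or.inr ?_⟩
      rw [Nat.cast_zero, mul_zero, Real.exp_zero, mul_one]
      exact_mod_cast card_flt_le _ _
    | succ m ih =>
      obtain ⟨Cov, h1, h2, h3⟩ := ih
      by_cases hc : ∀ p ∈ Pa,
        ((flt X (fun y => (∀ c ∈ Cov, c ∉ A y) ∧ p ∈ A y)).card : ℝ) ≤
          κ * (flt X (fun y => ∀ c ∈ Cov, c ∉ A y)).card
      · exact ⟨Cov, h1, by omega, Or.inl hc⟩
      have h4 := h3.resolve_left hc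
      push Not at hc
      obtain ⟨p, hp, hlt⟩ := hc
      refine ⟨insert p Cov, insert_subset hp h1, (card_insert_le _ _).trans (by omega), Or.inr ?_⟩
      have e : ((flt X (fun y => ∀ c ∈ insert p Cov, c ∉ A y)).card : ℝ) +
          (flt X (fun y => (∀ c ∈ Cov, c ∉ A y) ∧ p ∈ A y)).card =
          (flt X (fun y => ∀ c ∈ Cov, c ∉ A y)).card := by
        simp only [card_flt]
        rw [← sum_add_distrib]
        refine sum_congr rfl fun y _ => ?_
        rw [ind_congr (forall_mem_insert p Cov (fun c => c ∉ A y)), ind_and, ind_and, ind_not]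
        ring
      have hr : (0 : ℝ) ≤ (flt X (fun y => ∀ c ∈ Cov, c ∉ A y)).card := Nat.cast_nonneg _
      have h5 : ((flt X (fun y => ∀ c ∈ insert p Cov, c ∉ A y)).card : ℝ) ≤
          Real.exp (-κ) * (flt X (fun y => ∀ c ∈ Cov, c ∉ A y)).card := by
        have := mul_le_mul_of_nonneg_right (Real.add_one_le_exp (-κ)) hr
        linarith
      refine (mul_le_mul_of_nonneg_right h5 (Real.exp_pos _).le).trans (le_of_eq_of_le ?_ h4)
      have : Real.exp (κ * m) = Real.exp (-κ) * Real.exp (κ * ((m + 1 : ℕ) : ℝ)) := by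
        rw [← Real.exp_add]; push_cast; ring_nf
      rw [this]; ring
  obtain ⟨Cov, h1, h2, h3 | h3⟩ := key s
  · exact ⟨Cov, h1, h2, h3⟩
  refine ⟨Cov, h1, h2, fun p _ => ?_⟩
  have h4 : ((flt X (fun y => ∀ c ∈ Cov, c ∉ A y)).card : ℝ) < 1 := by
    have := h3.trans_lt hs
    rwa [mul_lt_iff_lt_one_left (Real.exp_pos _)] at this
  have h5 : (flt X (fun y => ∀ c ∈ Cov, c ∉ A y)).card = 0 := by
    have : (flt X (fun y => ∀ c ∈ Cov, c ∉ A y)).card < 1 := by exact_mod_cast h4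
    omega
  have h6 : (flt X (fun y => (∀ c ∈ Cov, c ∉ A y) ∧ p ∈ A y)).card ≤
      (flt X (fun y => ∀ c ∈ Cov, c ∉ A y)).card :=
    card_le_card (flt_mono fun a ha hr => ⟨ha, hr.1⟩)
  rw [h5] at h6 ⊢
  rw [Nat.le_zero.1 h6]
  simp

end Pool.Agent.P.MP_b5e666_co.Lar
end
end

-- part Pool.Agent.P.MP_b5e666_co.LB2
section

set_option autoImplicit false

open Finset

noncomputable section

namespace Pool.Agent.P.MP_b5e666_co.Lar

variable {Y Pt : Type} [Fintype Y] [DecidableEq Pt]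

/-- union bound for counting -/
theorem union_bound_LB2 {κ : Type} (S : Finset κ) (P : κ → Y → Prop) (R : Y → Prop) {β : ℝ}
    (hP : ∀ k ∈ S, ((flt univ (P k)).card : ℝ) ≤ β) (hR : ∀ y, R y → ∃ k ∈ S, P k y) :
    ((flt univ R).card : ℝ) ≤ S.card * β := by
  rw [card_flt]
  calc ∑ y, ind (R y) ≤ ∑ y, ∑ k ∈ S, ind (P k y) :=
        sum_le_sum fun y _ => (ind_mono (hR y)).trans (ind_exists_le S fun k => P k y)
    _ = ∑ k ∈ S, ∑ y, ind (P k y) := sum_comm
    _ ≤ ∑ _k ∈ S, β := sum_le_sum fun k hk => by rw [← card_flt]; exact hP k hk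
    _ = S.card * β := by rw [sum_const, nsmul_eq_mul]

theorem card_powersetCard_le_LB2 {κ : Type} (Q : Finset κ) (j : ℕ) {m : ℕ} (hQ : Q.card ≤ m) :
    ((Q.powersetCard j).card : ℝ) ≤ (m : ℝ) ^ j := by
  rw [card_powersetCard]
  exact_mod_cast (Nat.choose_le_pow _ _).trans (Nat.pow_le_pow_left hQ j)

/-- few sets contain j points of a small set -/
theorem count_j (A : Y → Finset Pt) (j : ℕ) {β : ℝ}
    (h : ∀ Q : Finset Pt, Q.card = j → ((flt univ (fun y => Q ⊆ A y)).card : ℝ) ≤ β)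
    (hβ : 0 ≤ β) (Q : Finset Pt) {m : ℕ} (hQ : Q.card ≤ m) :
    ((flt univ (fun y => j ≤ (A y ∩ Q).card)).card : ℝ) ≤ (m : ℝ) ^ j * β := by
  refine (union_bound_LB2 (Q.powersetCard j) (fun K y => K ⊆ A y) _
    (fun K hK => h K (mem_powersetCard.1 hK).2) fun y hy => ?_).trans
    (mul_le_mul_of_nonneg_right (card_powersetCard_le_LB2 Q j hQ) hβ)
  obtain ⟨K, hK, hc⟩ := exists_subset_card_eq hy
  exact ⟨K, mem_powersetCard.2 ⟨hK.trans inter_subset_right, hc⟩, hK.trans inter_subset_left⟩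

/-- the ends of a set of edges -/
def ends_LB2 (M : Finset (Pt × Pt)) : Finset Pt := M.biUnion fun e => {e.1, e.2}

theorem exists_match_LB2 (B : Finset Pt) (j : ℕ) (Hs : Finset (Pt × Pt))
    (hH : ∀ e ∈ Hs, e.1 ≠ e.2)
    (hn : ¬ ∃ T0 : Finset Pt, T0.card ≤ 2 * j ∧
      ∀ e ∈ Hs, e.1 ∈ B → e.2 ∈ B → e.1 ∈ T0 ∨ e.2 ∈ T0) (r : ℕ) (hr : r ≤ j) :
    ∃ M : Finset (Pt × Pt), M ⊆ Hs ∧ M.card = r ∧ (ends_LB2 M).card = 2 * r ∧ ends_LB2 M ⊆ B := by
  induction r with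
  | zero => exact ⟨∅, by simp, by simp, by simp [ends_LB2], by simp [ends_LB2]⟩
  | succ r ih =>
    obtain ⟨M, hM, hc, he, hB⟩ := ih (by omega)
    have hex : ∃ e ∈ Hs, e.1 ∈ B ∧ e.2 ∈ B ∧ e.1 ∉ ends_LB2 M ∧ e.2 ∉ ends_LB2 M := by
      by_contra hcon
      refine hn ⟨ends_LB2 M, by omega, fun e he1 h1 h2 => ?_⟩
      by_contra h3
      rw [not_or] at h3
      exact hcon ⟨e, he1, h1, h2, h3.1, h3.2⟩
    obtain ⟨e, heH, h1, h2, h3, h4⟩ := hex
    have heM : e ∉ M := fun hm => h3 (mem_biUnion.2 ⟨e, hm, by simp⟩)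
    have hends : ends_LB2 (insert e M) = insert e.1 (insert e.2 (ends_LB2 M)) := by
      unfold ends_LB2
      rw [biUnion_insert, insert_union, singleton_union]
    refine ⟨insert e M, insert_subset heH hM, by rw [card_insert_of_notMem heM, hc], ?_, ?_⟩
    · rw [hends, card_insert_of_notMem, card_insert_of_notMem h4, he]
      · ring
      · rw [mem_insert, not_or]
        exact ⟨hH e heH, h3⟩
    · rw [hends]
      exact insert_subset h1 (insert_subset h2 hB)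

/-- few sets contain a matching of size j of a sparse graph -/
theorem count_match (A : Y → Finset Pt) (j : ℕ) {β : ℝ}
    (h : ∀ Q : Finset Pt, Q.card = 2 * j → ((flt univ (fun y => Q ⊆ A y)).card : ℝ) ≤ β)
    (hβ : 0 ≤ β) (Hs : Finset (Pt × Pt)) (hH : ∀ e ∈ Hs, e.1 ≠ e.2) {m : ℕ} (hm : Hs.card ≤ m) :
    ((flt univ (fun y => ¬ ∃ T0 : Finset Pt, T0.card ≤ 2 * j ∧
        ∀ e ∈ Hs, e.1 ∈ A y → e.2 ∈ A y → e.1 ∈ T0 ∨ e.2 ∈ T0)).card : ℝ) ≤ (m : ℝ) ^ j * β := by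
  refine (union_bound_LB2 (flt (Hs.powersetCard j) fun M => (ends_LB2 M).card = 2 * j)
    (fun M y => ends_LB2 M ⊆ A y) _ (fun M hM => h _ (mem_flt.1 hM).2) fun y hy => ?_).trans
    (mul_le_mul_of_nonneg_right ?_ hβ)
  · obtain ⟨M, hM, hc, he, hB⟩ := exists_match_LB2 (A y) j Hs hH hy j le_rfl
    exact ⟨M, mem_flt.2 ⟨mem_powersetCard.2 ⟨hM, hc⟩, he⟩, hB⟩
  · exact le_trans (by exact_mod_cast card_flt_le _ _) (card_powersetCard_le_LB2 Hs j hm)

/-- weighted incidences with a small set -/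
theorem sum_inter_le (A : Y → Finset Pt) (σ : Y → ℝ) (j : ℕ) {smax D b : ℝ}
    (h0 : ∀ y, 0 ≤ σ y) (h1 : ∀ y, σ y ≤ smax) (hD : ∑ y, σ y ≤ D) (Q : Finset Pt)
    (hb : ((flt univ (fun y => j ≤ (A y ∩ Q).card)).card : ℝ) ≤ b) (hs : 0 ≤ smax) :
    ∑ p ∈ Q, ∑ y, σ y * ind (p ∈ A y) ≤ j * D + Q.card * smax * b := by
  have e1 : ∀ y, ∑ p ∈ Q, σ y * ind (p ∈ A y) = σ y * ((A y ∩ Q).card : ℝ) := by
    intro y
    rw [← mul_sum, ← card_flt]
    congr 3
    ext p
    simp [and_comm]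
  have e2 : ∀ y, σ y * ((A y ∩ Q).card : ℝ) ≤
      j * σ y + Q.card * smax * ind (j ≤ (A y ∩ Q).card) := by
    intro y
    have a0 := h0 y
    by_cases hj : j ≤ (A y ∩ Q).card
    · rw [ind_pos hj, mul_one]
      have a1 : ((A y ∩ Q).card : ℝ) ≤ Q.card := by exact_mod_cast card_le_card inter_subset_right
      have a2 : σ y * ((A y ∩ Q).card : ℝ) ≤ smax * Q.card :=
        mul_le_mul (h1 y) a1 (Nat.cast_nonneg _) hs
      have a3 : (0 : ℝ) ≤ j * σ y := mul_nonneg (Nat.cast_nonneg _) a0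
      linarith
    · rw [ind_neg hj, mul_zero, add_zero, mul_comm]
      have a1 : ((A y ∩ Q).card : ℝ) ≤ j := by exact_mod_cast (not_le.1 hj).le
      exact mul_le_mul_of_nonneg_right a1 a0
  rw [sum_comm, sum_congr rfl fun y _ => e1 y]
  refine (sum_le_sum fun y _ => e2 y).trans ?_
  rw [sum_add_distrib, ← mul_sum, ← mul_sum, ← card_flt]
  exact add_le_add (mul_le_mul_of_nonneg_left hD (Nat.cast_nonneg _))
    (mul_le_mul_of_nonneg_left hb (mul_nonneg (Nat.cast_nonneg _) hs))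

omit [Fintype Y] in
theorem card_markov_LB2 (X : Finset Y) (F : Y → ℕ) (t : ℕ) {c : ℝ} (ht : 0 < t)
    (h : (∑ y ∈ X, (F y : ℝ)) ≤ t * c) : ((flt X (fun y => t < F y)).card : ℝ) ≤ c := by
  have ht' : (0 : ℝ) < t := by exact_mod_cast ht
  refine le_of_mul_le_mul_left (le_trans ?_ h) ht'
  rw [card_flt, mul_sum]
  refine sum_le_sum fun y _ => ?_
  by_cases hy : t < F y
  · rw [ind_pos hy, mul_one]; exact_mod_cast hy.le
  · rw [ind_neg hy, mul_zero]; exact Nat.cast_nonneg _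

/-- Markov for counting -/
theorem card_markov (X : Finset Y) (F : Y → ℕ) (t : ℕ) {c : ℝ} (ht : 0 < t)
    (h : (∑ y ∈ X, (F y : ℝ)) ≤ t * c) : ((flt X (fun y => t < F y)).card : ℝ) ≤ c :=
  card_markov_LB2 X F t ht h

end Pool.Agent.P.MP_b5e666_co.Lar
end
end

-- part Pool.Agent.P.MP_b5e666_co.LP0
section

set_option autoImplicit false

open Finset

noncomputable section

namespace Pool.Agent.P.MP_b5e666_co.Lar

/-- all numerical parameters -/
structure Par where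
  (N k q i G j L Mr c1 c2 lam2 s iu nu ml mu du lx l l2 z0 z1 z2 z3 z4 J g e0 mu0 mu1 R : ℕ)
  (eps del lam V Del th smax be1 be2 be3 : ℝ)

namespace Par
variable (P : Par)
/-- number of points and colours -/
def n : ℕ := 2 * P.k * P.q
/-- number of nodes of a tree -/
def s2 : ℕ := 13 * P.s ^ 2
/-- bound on the number of universes through m cells -/
def bq (m : ℕ) : ℝ := 6 * P.N / (P.q : ℝ) ^ m
def b2 : ℝ := (P.z2 : ℝ) ^ P.j * P.bq P.j
def b3 : ℝ := (P.z3 : ℝ) ^ P.j * P.bq P.j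
def b4 : ℝ := ((P.k * P.g : ℕ) : ℝ) ^ P.j * P.bq (2 * P.j)
/-- mass of the survivors of one target -/
def kb : ℝ := 3 / 2 * (Real.exp (2 * P.lam - P.lam2) + P.L * P.lam ^ P.L * Real.exp (-(P.lam / 2)) +
  Real.exp 2 * ((1 + P.del) ^ (3 * P.j) / 2) ^ P.L)

/-- all numerical side conditions -/
structure Ok : Prop where
  hN : 1 ≤ P.N
  hq : 2 ≤ P.q
  hi : 1 ≤ P.i
  hk : P.k = P.i * P.q
  hG : 1 ≤ P.G
  hj : 2 ≤ P.j
  hL : 1 ≤ P.L
  hMr : 1 ≤ P.Mr
  hc1 : 1 ≤ P.c1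
  hc2 : 1 ≤ P.c2
  hs : 1 ≤ P.s
  hiu : 1 ≤ P.iu
  hnu : 1 ≤ P.nu
  hmu : 1 ≤ P.mu
  hdu : 1 ≤ P.du
  hlx : 3 ≤ P.lx
  hz0 : 1 ≤ P.z0
  hz1 : 1 ≤ P.z1
  hz3 : 1 ≤ P.z3
  hz4 : 1 ≤ P.z4
  hmu0 : 1 ≤ P.mu0
  hmu1 : P.mu0 ≤ P.mu1
  hR : 1 ≤ P.R
  heps : 0 < P.eps
  heps4 : P.eps ≤ 1 / 4
  hdel : 2 * P.eps ≤ P.del
  hdel1 : P.del ≤ 1
  hlam : 1 ≤ P.lam
  hV : 0 < P.V
  hDel : 0 < P.Del
  hth : 0 < P.th
  hsmax0 : 0 ≤ P.smax
  hsmax : P.smax ≤ 1 / 2
  hbe1 : 0 ≤ P.be1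
  hbe1' : P.be1 ≤ 1
  hbe2 : 0 ≤ P.be2
  hbe2' : P.be2 * P.c1 ≤ 1
  hbe3 : 1 ≤ P.be3
  hbe3' : P.be3 * P.eps ≤ 1
  f1 : (P.N : ℝ) ^ 2 * Real.exp (-(P.iu : ℝ) + 2 * P.i) ≤ 1 / 10
  f1' : (P.N : ℝ) ^ 2 * Real.exp (-((P.i : ℝ) / 10)) ≤ 1 / 10
  f2a : P.k ≤ P.q ^ 2
  f2 : (P.N : ℝ) ^ 3 * Real.exp 1 * ((P.k : ℝ) / (P.q : ℝ) ^ 2) ^ P.c1 ≤ 1 / 10
  f3 : ((P.k : ℝ) * P.q + 1) ^ (2 * P.j) * Real.exp (-(3 * P.N / (P.q : ℝ) ^ (2 * P.j))) ≤ 1 / 10
  f4a : P.z4 ^ 2 ≤ P.q
  f4 : 20 * (P.N : ℝ) * P.k * ((P.z4 : ℝ) ^ 2 / P.q) ^ P.c2 ≤ 1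
  f9 : 20 * (P.N : ℝ) ^ 2 * Real.exp (P.l2 - 3 / 5 * ((P.k : ℝ) / (P.q + P.du))) ≤ 1
  g6 : 20 * (P.N : ℝ) ^ 2 * Real.exp (P.lx - 3 / 10 * (P.l2 : ℝ)) ≤ 1
  g7 : (P.N : ℝ) ^ P.Mr * ((P.k : ℝ) + 1) ^ 4 *
    Real.exp (-(3 / 20 * ((P.Mr.choose 2 : ℕ) : ℝ))) ≤ 1 / 10
  h5 : (P.N : ℝ) ^ 2 * (Real.exp (P.ml - 3 / 10 * ((P.i : ℝ) / P.G)) +
    Real.exp (-(P.mu : ℝ) + 2 * ((P.iu : ℝ) / P.G))) ≤ 1 / 10
  h8a : 2 * P.c2 ≤ P.nu
  h8b : 4 * P.c2 * P.z1 ≤ P.nu * P.J
  h8c : 2 * P.z1 ≤ P.z4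
  h8d : P.J + 1 ≤ P.z4
  h8e : 2 * (P.c2 : ℝ) * P.J / P.G + 4 * (P.c2 : ℝ) ^ 2 * P.z1 / (P.G : ℝ) ^ 2 ≤ P.nu / 40
  h8f : (2 * (P.J : ℝ) + 1) * (((P.k : ℝ) * P.q) ^ 2 + 1) ^ P.e0 *
    Real.exp (-(P.N / (20 * (2 * (P.J : ℝ) + 1)))) ≤ 1 / 10
  t1 : (P.N : ℝ) < Real.exp (P.s / (64 * (P.Mr : ℝ) * P.j))
  t2 : 128 * P.Mr * P.z0 * P.j ≤ P.z2
  t3 : P.z2 * P.b2 ≤ P.mu0
  x1 : 10 * P.n * P.s2 * (8 * P.Mr * P.mu0) ≤ P.N
  x2 : 120 * P.n * (13 * P.s ^ 3) ≤ P.q ^ 3
  x3 : 2 * P.n * P.s2 ≤ P.e0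
  x4 : 60 * P.e0 ≤ P.z1 * P.q ^ 2
  x5 : 10 * P.n * P.s2 * (8 * P.Mr * P.mu1) ≤ P.R * P.N
  m1 : 2 * P.z1 ≤ P.z0
  m2 : (P.R : ℝ) * P.s2 * P.lam ≤ P.Del / 2
  m3 : 8 * (P.N : ℝ) * P.lam ≤ 3 * P.Del * P.mu1
  m4 : 2 * P.Del ≤ P.smax * P.mu0
  m5 : P.mu0 ≤ P.N
  m6 : 7 * (P.nu : ℝ) + 1 ≤ P.eps * P.ml
  m7 : 2 * (P.du + 1) < P.N
  c1a : P.j * P.Del + P.z3 * P.smax * P.b3 ≤ P.V * P.z3
  c2a : P.V * P.iu ≤ P.th * P.g
  c3a : 20 * P.Del ≤ P.du
  c3b : 40 * (P.k : ℝ) * Real.exp (-(P.be1 * (P.del / (2 * P.eps))) + P.be1 ^ 2 * P.V) ≤ 1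
  c3c : 20 * (P.N : ℝ) * Real.exp (-(P.be2 * (P.nu / P.eps)) +
    P.be2 ^ 2 * (P.c1 * P.mu * P.V)) ≤ 1
  c4a : P.du * P.del ^ P.l ≤ 1 / 4
  c4b : P.l + P.c1 * P.L ≤ P.lx
  c5a : P.nu ≤ 4 * P.mu
  c5b : 60 * (P.N : ℝ) * Real.exp (-((P.nu : ℝ) ^ 2 / (16 * P.mu))) ≤ 1
  c6a : P.L * P.iu * (1 + P.g) ≤ P.z0
  c6b : 8 * (P.b3 + P.b4 + P.L) ≤ P.mu0
  c7a : ((P.L : ℝ) * P.iu) ^ 2 * P.th ≤ 1
  c7b : 4 * P.eps * (P.lam2 * P.c1 * P.L + P.lam2 * P.smax * P.iu + P.lam + 1) ≤ 1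
  c7c : 2 * P.eps * (P.c1 * P.L) ≤ 1
  c7e : 2 * (P.L : ℝ) * P.iu * Real.exp (-(P.be3 / 2) + P.be3 ^ 2 * P.eps ^ 2 * P.V) ≤ 1
  c8 : 20 * ((P.n * P.s2 : ℕ) : ℝ) * P.kb ≤ 1

end Par

end Pool.Agent.P.MP_b5e666_co.Lar
end
end

-- part Pool.Agent.P.MP_b5e666_co.LA2
section

set_option autoImplicit false

open Finset

noncomputable section

namespace Pool.Agent.P.MP_b5e666_co.Lar

variable {ι β : Type} [Fintype ι] [DecidableEq ι] [Fintype β]

theorem expo_LA2 {p : ι → β → ℝ} (hp : IsP p) {A : (ι → β) → Prop} (c : ℝ) (Y : (ι → β) → ℝ)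
    (h : ∀ w, A w → 0 ≤ c + Y w) {b : ℝ} (hb : Ex p (fun w => Real.exp (Y w)) ≤ Real.exp b) :
    Pr p A ≤ Real.exp (c + b) := by
  have h1 : Pr p A ≤ Ex p (fun w => Real.exp c * Real.exp (Y w)) := by
    refine Ex_mono hp fun w => ?_
    rw [← Real.exp_add]
    by_cases hw : A w
    · rw [ind_pos hw]; exact Real.one_le_exp (h w hw)
    · rw [ind_neg hw]; exact (Real.exp_pos _).le
  rw [Ex_const_mul] at h1
  rw [Real.exp_add]
  exact h1.trans (mul_le_mul_of_nonneg_left hb (Real.exp_pos _).le)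

theorem exp_ind_LA2 (t : ℝ) (P : Prop) : Real.exp (t * ind P) = 1 + (Real.exp t - 1) * ind P := by
  by_cases h : P
  · rw [ind_pos h]; simp
  · rw [ind_neg h]; simp

theorem mgf_cnt_LA2 {p : ι → β → ℝ} (hp : IsP p) (W : Finset ι) (A : ι → β → Prop) (t : ℝ) :
    Ex p (fun w => Real.exp (t * ((flt W (fun i => A i (w i))).card : ℝ))) ≤
      Real.exp ((Real.exp t - 1) * ∑ i ∈ W, ∑ c, p i c * ind (A i c)) := by
  have e : ∀ w : ι → β, Real.exp (t * ((flt W (fun i => A i (w i))).card : ℝ)) =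
      ∏ i, (if i ∈ W then Real.exp (t * ind (A i (w i))) else 1) := by
    intro w
    rw [card_flt, mul_sum, Real.exp_sum, prod_ite_mem, univ_inter]
  rw [Ex_congr p e, Ex_prod p (fun i c => if i ∈ W then Real.exp (t * ind (A i c)) else 1),
    mul_sum, Real.exp_sum, ← univ_inter W, ← prod_ite_mem, univ_inter]
  refine prod_le_prod (fun i _ => sum_nonneg fun c _ => mul_nonneg (hp.1 i c) ?_) fun i _ => ?_
  · split_ifs
    · exact (Real.exp_pos _).le
    · exact zero_le_one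
  · split_ifs
    · simp only [exp_ind_LA2, mul_add, mul_one, sum_add_distrib, hp.2 i, mul_left_comm _
        (Real.exp t - 1), ← mul_sum]
      linarith [Real.add_one_le_exp ((Real.exp t - 1) * ∑ c, p i c * ind (A i c))]
    · simp [hp.2 i]

theorem mgf_bern {σ t : ι → ℝ} (h0 : ∀ i, 0 ≤ σ i) (h1 : ∀ i, σ i ≤ 1) (ht : ∀ i, |t i| ≤ 1) :
    Ex (bern σ) (fun w => Real.exp (∑ i, t i * (bit (w i) - σ i))) ≤
      Real.exp (∑ i, σ i * t i ^ 2) := by
  simp only [Real.exp_sum]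
  rw [Ex_prod (bern σ) (fun i c => Real.exp (t i * (bit c - σ i)))]
  refine prod_le_prod (fun i _ => sum_nonneg fun c _ =>
    mul_nonneg ((isP_bern h0 h1).1 i c) (Real.exp_pos _).le) fun i _ => ?_
  have h2 := (abs_le.1 (Real.abs_exp_sub_one_sub_id_le (ht i))).2
  have h3 := Real.add_one_le_exp (σ i * (Real.exp (t i) - 1))
  have h4 : ∑ c, bern σ i c * Real.exp (t i * (bit c - σ i)) =
      Real.exp (-(t i * σ i)) * (σ i * (Real.exp (t i) - 1) + 1) := by
    rw [Fintype.sum_bool]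
    simp only [bern, bit_true, bit_false, if_true, Bool.false_eq_true, if_false]
    rw [show t i * (1 - σ i) = -(t i * σ i) + t i by ring,
      show t i * (0 - σ i) = -(t i * σ i) by ring, Real.exp_add]
    ring
  rw [h4]
  refine (mul_le_mul_of_nonneg_left h3 (Real.exp_pos _).le).trans ?_
  rw [← Real.exp_add]
  refine Real.exp_le_exp.2 ?_
  have h5 := mul_le_mul_of_nonneg_left h2 (h0 i)
  linarith

theorem tail_bern {σ c : ι → ℝ} (h0 : ∀ i, 0 ≤ σ i) (h1 : ∀ i, σ i ≤ 1) {t u v : ℝ} (ht : 0 ≤ t)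
    (hc : ∀ i, t * |c i| ≤ 1) (hv : ∑ i, σ i * c i ^ 2 ≤ v) :
    Pr (bern σ) (fun w => u ≤ ∑ i, c i * (bit (w i) - σ i)) ≤
      Real.exp (-(t * u) + t ^ 2 * v) := by
  refine expo_LA2 (isP_bern h0 h1) _ (fun w => ∑ i, t * c i * (bit (w i) - σ i))
    (fun w hw => ?_) ((mgf_bern h0 h1 fun i => ?_).trans (Real.exp_le_exp.2 ?_))
  · have h2 := mul_le_mul_of_nonneg_left hw ht
    rw [mul_sum] at h2
    simp only [mul_assoc]
    linarith
  · rw [abs_mul, abs_of_nonneg ht]; exact hc i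
  · have h2 := mul_le_mul_of_nonneg_left hv (sq_nonneg t)
    rw [mul_sum] at h2
    exact le_trans (le_of_eq (sum_congr rfl fun i _ => by ring)) h2

theorem mgf_bern_pos {σ t : ι → ℝ} (h0 : ∀ i, 0 ≤ σ i) (h1 : ∀ i, σ i ≤ 1) (ht0 : ∀ i, 0 ≤ t i)
    (ht : ∀ i, t i ≤ 1) :
    Ex (bern σ) (fun w => Real.exp (∑ i, t i * bit (w i))) ≤ Real.exp (2 * ∑ i, σ i * t i) := by
  simp only [mul_sum, Real.exp_sum]
  rw [Ex_prod (bern σ) (fun i c => Real.exp (t i * bit c))]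
  refine prod_le_prod (fun i _ => sum_nonneg fun c _ =>
    mul_nonneg ((isP_bern h0 h1).1 i c) (Real.exp_pos _).le) fun i _ => ?_
  have h2 := (abs_le.1 (Real.abs_exp_sub_one_sub_id_le
    (show |t i| ≤ 1 by rw [abs_of_nonneg (ht0 i)]; exact ht i))).2
  have h3 := Real.add_one_le_exp (2 * (σ i * t i))
  rw [Fintype.sum_bool]
  simp only [bern, bit_true, bit_false, if_true, Bool.false_eq_true, if_false, mul_one, mul_zero,
    Real.exp_zero]
  have h4 : Real.exp (t i) - 1 ≤ 2 * t i := by nlinarith [ht0 i, ht i]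
  have h5 := mul_le_mul_of_nonneg_left h4 (h0 i)
  linarith

/-- the truncated factor of one group -/
theorem Ex_max_le {σ : ι → ℝ} (h0 : ∀ i, 0 ≤ σ i) (h1 : ∀ i, σ i ≤ 1) (A : Finset ι)
    {e t v : ℝ} (ht : 1 ≤ t) (hte : t * |e| ≤ 1) (hv : ∑ i ∈ A, σ i ≤ v) :
    Ex (bern σ) (fun w => max (1 - e * ∑ i ∈ A, (bit (w i) - σ i)) (1 / 2)) ≤
      1 + Real.exp (-(t / 2) + t ^ 2 * e ^ 2 * v) := by
  have hp := isP_bern h0 h1
  have h2 : Ex (bern σ) (fun w => max (1 - e * ∑ i ∈ A, (bit (w i) - σ i)) (1 / 2)) ≤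
      Ex (bern σ) (fun w => (1 - e * ∑ i ∈ A, (bit (w i) - σ i)) + Real.exp (-(t / 2)) *
        Real.exp (∑ i, (if i ∈ A then t * e else 0) * (bit (w i) - σ i))) := by
    refine Ex_mono hp fun w => ?_
    have e1 : ∑ i, (if i ∈ A then t * e else 0) * (bit (w i) - σ i) =
        t * (e * ∑ i ∈ A, (bit (w i) - σ i)) := by
      simp only [ite_mul, zero_mul, sum_ite_mem, univ_inter, ← mul_sum, mul_assoc]
    rw [e1, ← Real.exp_add]
    generalize e * ∑ i ∈ A, (bit (w i) - σ i) = z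
    have h3 := Real.exp_pos (-(t / 2) + t * z)
    have h4 := Real.add_one_le_exp (-(t / 2) + t * z)
    refine max_le (by linarith) ?_
    rcases le_total z (1 / 2) with h | h
    · linarith
    · nlinarith
  have h3 : Ex (bern σ) (fun w => ∑ i ∈ A, (bit (w i) - σ i)) = 0 := by
    rw [Ex_sum]
    refine sum_eq_zero fun i _ => ?_
    rw [Ex_sub, Ex_bit h0 h1, Ex_const hp, sub_self]
  rw [Ex_add, Ex_sub, Ex_const hp, Ex_const_mul, Ex_const_mul, h3, mul_zero, sub_zero] at h2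
  have h4 := mgf_bern (t := fun i => if i ∈ A then t * e else 0) h0 h1 fun i => by
    split_ifs
    · rw [abs_mul, abs_of_nonneg (by linarith : 0 ≤ t)]; exact hte
    · simp
  have h5 : ∑ i, σ i * (if i ∈ A then t * e else 0) ^ 2 ≤ t ^ 2 * e ^ 2 * v := by
    refine le_trans (le_of_eq ?_) (mul_le_mul_of_nonneg_left hv (by positivity))
    rw [mul_sum, ← univ_inter A, ← sum_ite_mem, univ_inter]
    refine sum_congr rfl fun i _ => ?_
    split_ifs <;> ring
  rw [Real.exp_add]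
  have h6 := mul_le_mul_of_nonneg_left (h4.trans (Real.exp_le_exp.2 h5))
    (Real.exp_pos (-(t / 2))).le
  linarith

theorem chern_up {p : ι → β → ℝ} (hp : IsP p) (W : Finset ι) (A : ι → β → Prop) {π t u : ℝ}
    (hπ : ∀ i ∈ W, ∑ c, p i c * ind (A i c) ≤ π) (ht : 0 ≤ t) :
    Pr p (fun w => u ≤ ((flt W (fun i => A i (w i))).card : ℝ)) ≤
      Real.exp (-(t * u) + (Real.exp t - 1) * π * W.card) := by
  refine expo_LA2 hp _ _ (fun w hw => ?_)
    ((mgf_cnt_LA2 hp W A t).trans (Real.exp_le_exp.2 ?_))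
  · have := mul_le_mul_of_nonneg_left hw ht
    linarith
  · have h1 := sum_le_card_nsmul W _ π hπ
    rw [nsmul_eq_mul] at h1
    have h2 := mul_le_mul_of_nonneg_left h1 (sub_nonneg.2 (Real.one_le_exp ht))
    linarith

theorem chern_lo {p : ι → β → ℝ} (hp : IsP p) (W : Finset ι) (A : ι → β → Prop) {π u : ℝ}
    (hπ : ∀ i ∈ W, π ≤ ∑ c, p i c * ind (A i c)) :
    Pr p (fun w => ((flt W (fun i => A i (w i))).card : ℝ) ≤ u) ≤
      Real.exp (u - 3 / 5 * π * W.card) := by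
  rw [sub_eq_add_neg]
  refine expo_LA2 hp _ _ (fun w hw => ?_)
    ((mgf_cnt_LA2 hp W A (-1)).trans (Real.exp_le_exp.2 ?_))
  · linarith
  · have h1 := card_nsmul_le_sum W _ π hπ
    rw [nsmul_eq_mul] at h1
    have h2 : 0 ≤ ∑ i ∈ W, ∑ c, p i c * ind (A i c) :=
      sum_nonneg fun i _ => sum_nonneg fun c _ => mul_nonneg (hp.1 i c) (ind_nonneg _)
    have h3 : Real.exp (-1) - 1 ≤ -(3 / 5) := by linarith [Real.exp_neg_one_lt_d9]
    have h4 := mul_le_mul_of_nonneg_right h3 h2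
    linarith

theorem chern_groups {J : Type} {p : ι → β → ℝ} (hp : IsP p) (s : Finset J) (A : J → Finset ι)
    (B : J → (ι → β) → Prop) (hB : ∀ j ∈ s, Dep (B j) (A j))
    (hA : ∀ j ∈ s, ∀ j' ∈ s, j ≠ j' → Disjoint (A j) (A j')) {ρ u : ℝ}
    (hρ : ∀ j ∈ s, Pr p (B j) ≤ ρ) :
    Pr p (fun w => u ≤ ((flt s (fun j => B j w)).card : ℝ)) ≤
      Real.exp (-u + 2 * ρ * s.card) := by
  refine expo_LA2 hp _ (fun w => ((flt s (fun j => B j w)).card : ℝ)) (fun w hw => by linarith) ?_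
  have e : ∀ w : ι → β, Real.exp ((flt s (fun j => B j w)).card : ℝ) =
      ∏ j ∈ s, (1 + (Real.exp 1 - 1) * ind (B j w)) := by
    intro w
    rw [card_flt, Real.exp_sum]
    exact prod_congr rfl fun j _ => by rw [← exp_ind_LA2, one_mul]
  have h1 : 0 ≤ Real.exp 1 - 1 := sub_nonneg.2 (Real.one_le_exp zero_le_one)
  have h2 : Real.exp 1 - 1 ≤ 2 := by linarith [Real.exp_one_lt_d9]
  rw [Ex_congr p e, Ex_prod_of_disjoint hp s A (fun j w => 1 + (Real.exp 1 - 1) * ind (B j w))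
    (fun j hj => (hB j hj).comp fun P => 1 + (Real.exp 1 - 1) * ind P) hA,
    mul_comm, Real.exp_nat_mul, ← prod_const]
  refine prod_le_prod (fun j _ => Ex_nonneg hp fun w => ?_) fun j hj => ?_
  · have := mul_nonneg h1 (ind_nonneg (B j w))
    linarith
  · rw [Ex_add, Ex_const hp, Ex_const_mul]
    have h3 := hρ j hj
    have h4 := Pr_nonneg hp (B j)
    have h5 := Real.add_one_le_exp (2 * ρ)
    have h6 := mul_le_mul_of_nonneg_right h2 h4
    unfold Pr at h3 h4 h6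
    linarith

end Pool.Agent.P.MP_b5e666_co.Lar
end
end

-- part Pool.Agent.P.MP_b5e666_co.LP1
section

set_option autoImplicit false

open Finset

noncomputable section

namespace Pool.Agent.P.MP_b5e666_co.Lar

/-- the parameters as powers of one number -/
def par_LP1 (l : ℕ) : Par where
  N := l ^ 6652801
  k := l ^ 218 * l ^ 1008
  q := l ^ 1008
  i := l ^ 218
  G := l ^ 76
  j := 3300
  L := l
  Mr := l
  c1 := l
  c2 := l
  lam2 := l ^ 4
  s := l ^ 3
  iu := l ^ 219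
  nu := l ^ 77
  ml := 8 * l ^ 141
  mu := l ^ 144
  du := l ^ 1130
  lx := l ^ 3
  l := l
  l2 := l ^ 4
  z0 := l ^ 1004
  z1 := l ^ 226
  z2 := l ^ 1007
  z3 := l ^ 1007
  z4 := l ^ 227
  J := l ^ 151
  g := l ^ 783
  e0 := l ^ 2241
  mu0 := l ^ 6650558
  mu1 := l ^ 6651676
  R := l ^ 1118
  eps := 1 / (l : ℝ) ^ 64
  del := 1 / (l : ℝ)
  lam := (l : ℝ) ^ 3
  V := (l : ℝ) ^ 124
  Del := (l : ℝ) ^ 1129
  th := 1 / (l : ℝ) ^ 440
  smax := 1 / (l : ℝ) ^ 6649428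
  be1 := 1 / (l : ℝ) ^ 62
  be2 := 1 / (l : ℝ) ^ 138
  be3 := (l : ℝ) ^ 2

theorem exists_l_LP1 (E : ℕ) : ∃ l : ℕ, 10 ^ 9 ≤ l ∧ (l : ℝ) ^ E ≤ Real.exp (l / 100) := by
  have h1 := (Real.tendsto_exp_div_pow_atTop E).comp
    (tendsto_natCast_atTop_atTop.atTop_div_const (show (0 : ℝ) < 100 by norm_num))
  obtain ⟨l, h2, h3⟩ := ((h1.eventually_ge_atTop ((100 : ℝ) ^ E)).and
    (Filter.eventually_ge_atTop (10 ^ 9))).exists
  refine ⟨l, h3, ?_⟩
  have h4 : (0 : ℝ) < l := by exact_mod_cast lt_of_lt_of_le (by norm_num) h3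
  simp only [Function.comp] at h2
  rw [le_div_iff₀ (by positivity), ← mul_pow] at h2
  rwa [show (100 : ℝ) * (l / 100) = l by ring] at h2

theorem pw_LP1 {x : ℝ} (hx : 10 ^ 9 ≤ x) (c : ℝ) (a b : ℕ) (hc : c ≤ 10 ^ 9) (hab : a < b) :
    c * x ^ a ≤ x ^ b := by
  have h1 : (1 : ℝ) ≤ x := le_trans (by norm_num) hx
  calc c * x ^ a ≤ x * x ^ a := mul_le_mul_of_nonneg_right (hc.trans hx) (by positivity)
    _ = x ^ (a + 1) := (pow_succ' x a).symm
    _ ≤ x ^ b := pow_le_pow_right₀ h1 hab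

theorem pn_LP1 {l : ℕ} (hl : 10 ^ 9 ≤ l) (c a b : ℕ) (hc : c ≤ 10 ^ 9) (hab : a < b) :
    c * l ^ a ≤ l ^ b := by
  have h1 : 1 ≤ l := le_trans (by norm_num) hl
  calc c * l ^ a ≤ l * l ^ a := Nat.mul_le_mul_right _ (hc.trans hl)
    _ = l ^ (a + 1) := (pow_succ' l a).symm
    _ ≤ l ^ b := Nat.pow_le_pow_right h1 hab

theorem fin1_LP1 {A u v : ℝ} (hA : A ≤ Real.exp u) (h : u + v ≤ 0) : A * Real.exp v ≤ 1 := by
  refine (mul_le_mul_of_nonneg_right hA (Real.exp_pos v).le).trans ?_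
  rw [← Real.exp_add]
  exact Real.exp_le_one_iff.2 h

theorem fin_LP1 {A u v : ℝ} (hA : A ≤ Real.exp u) (h : u + v + 20 ≤ 0) :
    A * Real.exp v ≤ 1 / 20 := by
  refine (mul_le_mul_of_nonneg_right hA (Real.exp_pos v).le).trans ?_
  rw [← Real.exp_add]
  refine (Real.exp_le_exp.2 (show u + v ≤ -20 by linarith)).trans ?_
  rw [Real.exp_neg, one_div]
  exact inv_anti₀ (by norm_num) (by linarith [Real.add_one_le_exp (20 : ℝ)])

theorem pe_LP1 {A u : ℝ} (h0 : 0 ≤ A) (hA : A ≤ Real.exp u) (m : ℕ) :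
    A ^ m ≤ Real.exp (m * u) := by
  rw [Real.exp_nat_mul]
  exact pow_le_pow_left₀ h0 hA m

theorem me_LP1 {A B u v : ℝ} (h0 : 0 ≤ B) (hA : A ≤ Real.exp u) (hB : B ≤ Real.exp v) :
    A * B ≤ Real.exp (u + v) := by
  rw [Real.exp_add]
  exact mul_le_mul hA hB h0 (Real.exp_pos u).le

theorem sm_LP1 {r : ℝ} (h0 : 0 ≤ r) (h : 3 * r ≤ 1) (m : ℕ) : r ^ m ≤ Real.exp (-(m : ℝ)) := by
  have h1 : r ≤ Real.exp (-1) := by
    have h2 := Real.exp_one_lt_d9
    have h3 := Real.exp_pos 1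
    rw [Real.exp_neg, ← one_div, le_div_iff₀ h3]
    nlinarith
  simpa using pe_LP1 h0 h1 m

theorem half_LP1 {x : ℝ} (hx : 0 < x) (m l : ℕ) : Real.exp 2 * ((1 + 1 / x) ^ m / 2) ^ l ≤
    Real.exp (2 + l * (m * (1 / x) + -(1 / 2))) := by
  refine me_LP1 (by positivity) le_rfl (pe_LP1 (by positivity) ?_ l)
  rw [div_eq_mul_one_div]
  refine me_LP1 (by norm_num) (pe_LP1 (by positivity)
    (by linarith [Real.add_one_le_exp (1 / x)]) m) ?_
  linarith [Real.add_one_le_exp (-(1 / 2 : ℝ))]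

theorem dv_LP1 {x : ℝ} (hx : 0 < x) (a b c : ℕ) (h : a = b + c) : x ^ a / x ^ b = x ^ c := by
  rw [h, pow_add, mul_div_cancel_left₀ _ (by positivity)]

theorem dw_LP1 {x : ℝ} (hx : 0 < x) (a b c : ℕ) (h : a = b + c) : 1 / x ^ b * x ^ a = x ^ c := by
  rw [← dv_LP1 hx a b c h]; ring

theorem bb_LP1 {x : ℝ} (hx : 0 < x) (a b m m' E c : ℕ) (h : a * m + E = b * m' + c) :
    (x ^ a) ^ m * (6 * x ^ E / (x ^ b) ^ m') = 6 * x ^ c := by
  rw [← pow_mul, ← pow_mul, ← dv_LP1 hx _ _ c h, pow_add]; ring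

section
variable {l : ℕ} (hl : 10 ^ 9 ≤ l) (hE : (l : ℝ) ^ 6652801 ≤ Real.exp (l / 100))
include hl

theorem f2a_LP1 : (par_LP1 l).k ≤ (par_LP1 l).q ^ 2 := by
  have P := pn_LP1 hl
  simp only [par_LP1]
  calc _ = 1 * l ^ 1226 := by ring
    _ ≤ l ^ 2016 := P 1 1226 2016 (by norm_num) (by norm_num)
    _ = _ := by ring

theorem f4a_LP1 : (par_LP1 l).z4 ^ 2 ≤ (par_LP1 l).q := by
  have P := pn_LP1 hl
  simp only [par_LP1]
  calc _ = 1 * l ^ 454 := by ring
    _ ≤ l ^ 1008 := P 1 454 1008 (by norm_num) (by norm_num)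
    _ = _ := by ring

theorem h8a_LP1 : 2 * (par_LP1 l).c2 ≤ (par_LP1 l).nu := by
  have P := pn_LP1 hl
  simp only [par_LP1]
  calc _ = 2 * l ^ 1 := by ring
    _ ≤ l ^ 77 := P 2 1 77 (by norm_num) (by norm_num)
    _ = _ := by ring

theorem h8b_LP1 : 4 * (par_LP1 l).c2 * (par_LP1 l).z1 ≤ (par_LP1 l).nu * (par_LP1 l).J := by
  have P := pn_LP1 hl
  simp only [par_LP1]
  calc _ = 4 * l ^ 227 := by ring
    _ ≤ l ^ 228 := P 4 227 228 (by norm_num) (by norm_num)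
    _ = _ := by ring

theorem h8c_LP1 : 2 * (par_LP1 l).z1 ≤ (par_LP1 l).z4 := by
  have P := pn_LP1 hl
  simp only [par_LP1]
  calc _ = 2 * l ^ 226 := by ring
    _ ≤ l ^ 227 := P 2 226 227 (by norm_num) (by norm_num)
    _ = _ := by ring

theorem h8d_LP1 : (par_LP1 l).J + 1 ≤ (par_LP1 l).z4 := by
  have P := pn_LP1 hl
  simp only [par_LP1]
  have a0 := P 2 151 227 (by norm_num) (by norm_num)
  have a1 := P 1 0 151 (by norm_num) (by norm_num)
  linarith

theorem t2_LP1 : 128 * (par_LP1 l).Mr * (par_LP1 l).z0 * (par_LP1 l).j ≤ (par_LP1 l).z2 := by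
  have P := pn_LP1 hl
  simp only [par_LP1]
  calc _ = 422400 * l ^ 1005 := by ring
    _ ≤ l ^ 1007 := P 422400 1005 1007 (by norm_num) (by norm_num)
    _ = _ := by ring

theorem x1_LP1 : 10 * (par_LP1 l).n * (par_LP1 l).s2 * (8 * (par_LP1 l).Mr * (par_LP1 l).mu0) ≤ (par_LP1 l).N := by
  have P := pn_LP1 hl
  simp only [Par.n, Par.s2, par_LP1]
  calc _ = 2080 * l ^ 6652799 := by ring
    _ ≤ l ^ 6652801 := P 2080 6652799 6652801 (by norm_num) (by norm_num)
    _ = _ := by ring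

theorem x2_LP1 : 120 * (par_LP1 l).n * (13 * (par_LP1 l).s ^ 3) ≤ (par_LP1 l).q ^ 3 := by
  have P := pn_LP1 hl
  simp only [Par.n, par_LP1]
  calc _ = 3120 * l ^ 2243 := by ring
    _ ≤ l ^ 3024 := P 3120 2243 3024 (by norm_num) (by norm_num)
    _ = _ := by ring

theorem x3_LP1 : 2 * (par_LP1 l).n * (par_LP1 l).s2 ≤ (par_LP1 l).e0 := by
  have P := pn_LP1 hl
  simp only [Par.n, Par.s2, par_LP1]
  calc _ = 52 * l ^ 2240 := by ring
    _ ≤ l ^ 2241 := P 52 2240 2241 (by norm_num) (by norm_num)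
    _ = _ := by ring

theorem x4_LP1 : 60 * (par_LP1 l).e0 ≤ (par_LP1 l).z1 * (par_LP1 l).q ^ 2 := by
  have P := pn_LP1 hl
  simp only [par_LP1]
  calc _ = 60 * l ^ 2241 := by ring
    _ ≤ l ^ 2242 := P 60 2241 2242 (by norm_num) (by norm_num)
    _ = _ := by ring

theorem x5_LP1 : 10 * (par_LP1 l).n * (par_LP1 l).s2 * (8 * (par_LP1 l).Mr * (par_LP1 l).mu1) ≤ (par_LP1 l).R * (par_LP1 l).N := by
  have P := pn_LP1 hl
  simp only [Par.n, Par.s2, par_LP1]
  calc _ = 2080 * l ^ 6653917 := by ring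
    _ ≤ l ^ 6653919 := P 2080 6653917 6653919 (by norm_num) (by norm_num)
    _ = _ := by ring

theorem m1_LP1 : 2 * (par_LP1 l).z1 ≤ (par_LP1 l).z0 := by
  have P := pn_LP1 hl
  simp only [par_LP1]
  calc _ = 2 * l ^ 226 := by ring
    _ ≤ l ^ 1004 := P 2 226 1004 (by norm_num) (by norm_num)
    _ = _ := by ring

theorem m5_LP1 : (par_LP1 l).mu0 ≤ (par_LP1 l).N := by
  have P := pn_LP1 hl
  simp only [par_LP1]
  calc _ = 1 * l ^ 6650558 := by ring
    _ ≤ l ^ 6652801 := P 1 6650558 6652801 (by norm_num) (by norm_num)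
    _ = _ := by ring

theorem hmu1_LP1 : (par_LP1 l).mu0 ≤ (par_LP1 l).mu1 := by
  have P := pn_LP1 hl
  simp only [par_LP1]
  calc _ = 1 * l ^ 6650558 := by ring
    _ ≤ l ^ 6651676 := P 1 6650558 6651676 (by norm_num) (by norm_num)
    _ = _ := by ring

theorem m7_LP1 : 2 * ((par_LP1 l).du + 1) < (par_LP1 l).N := by
  have P := pn_LP1 hl
  simp only [par_LP1]
  have a0 := P 5 1130 6652801 (by norm_num) (by norm_num)
  have a1 := P 1 0 1130 (by norm_num) (by norm_num)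
  linarith

theorem c4b_LP1 : (par_LP1 l).l + (par_LP1 l).c1 * (par_LP1 l).L ≤ (par_LP1 l).lx := by
  have P := pn_LP1 hl
  simp only [par_LP1]
  have a0 := P 2 2 3 (by norm_num) (by norm_num)
  have a1 := P 1 1 2 (by norm_num) (by norm_num)
  linarith

theorem c5a_LP1 : (par_LP1 l).nu ≤ 4 * (par_LP1 l).mu := by
  have P := pn_LP1 hl
  simp only [par_LP1]
  have a0 := P 1 77 144 (by norm_num) (by norm_num)
  have a1 := P 0 0 144 (by norm_num) (by norm_num)
  linarith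

theorem c6a_LP1 : (par_LP1 l).L * (par_LP1 l).iu * (1 + (par_LP1 l).g) ≤ (par_LP1 l).z0 := by
  have P := pn_LP1 hl
  simp only [par_LP1]
  have a0 := P 2 1003 1004 (by norm_num) (by norm_num)
  have a1 := P 1 220 1003 (by norm_num) (by norm_num)
  linarith

theorem hq_LP1 : 2 ≤ (par_LP1 l).q := by
  have P := pn_LP1 hl
  simp only [par_LP1]
  have a0 := P 2 0 1008 (by norm_num) (by norm_num)
  linarith

theorem hlx_LP1 : 3 ≤ (par_LP1 l).lx := by
  have P := pn_LP1 hl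
  simp only [par_LP1]
  have a0 := P 3 0 3 (by norm_num) (by norm_num)
  linarith

theorem heps4_LP1 : (par_LP1 l).eps ≤ 1 / 4 := by
  have hx : (10 : ℝ) ^ 9 ≤ l := by exact_mod_cast hl
  have x0 : (0 : ℝ) < l := lt_of_lt_of_le (by norm_num) hx
  have P := pw_LP1 hx
  simp only [par_LP1]
  have a0 := P 4 0 64 (by norm_num) (by norm_num)
  rw [div_le_div_iff₀ (by positivity) (by norm_num)]
  linarith

theorem hdel_LP1 : 2 * (par_LP1 l).eps ≤ (par_LP1 l).del := by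
  have hx : (10 : ℝ) ^ 9 ≤ l := by exact_mod_cast hl
  have x0 : (0 : ℝ) < l := lt_of_lt_of_le (by norm_num) hx
  have P := pw_LP1 hx
  simp only [par_LP1]
  have a0 := P 2 1 64 (by norm_num) (by norm_num)
  rw [mul_one_div, div_le_div_iff₀ (by positivity) x0]
  linarith

theorem hdel1_LP1 : (par_LP1 l).del ≤ 1 := by
  have hx : (10 : ℝ) ^ 9 ≤ l := by exact_mod_cast hl
  have x0 : (0 : ℝ) < l := lt_of_lt_of_le (by norm_num) hx
  have P := pw_LP1 hx
  simp only [par_LP1]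
  rw [div_le_one x0]
  linarith

theorem hlam_LP1 : 1 ≤ (par_LP1 l).lam := by
  have hx : (10 : ℝ) ^ 9 ≤ l := by exact_mod_cast hl
  have x0 : (0 : ℝ) < l := lt_of_lt_of_le (by norm_num) hx
  have P := pw_LP1 hx
  simp only [par_LP1]
  have a0 := P 1 0 3 (by norm_num) (by norm_num)
  linarith

theorem hsmax_LP1 : (par_LP1 l).smax ≤ 1 / 2 := by
  have hx : (10 : ℝ) ^ 9 ≤ l := by exact_mod_cast hl
  have x0 : (0 : ℝ) < l := lt_of_lt_of_le (by norm_num) hx
  have P := pw_LP1 hx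
  simp only [par_LP1]
  have a0 := P 2 0 6649428 (by norm_num) (by norm_num)
  rw [div_le_div_iff₀ (by positivity) (by norm_num)]
  linarith

theorem hbe1'_LP1 : (par_LP1 l).be1 ≤ 1 := by
  have hx : (10 : ℝ) ^ 9 ≤ l := by exact_mod_cast hl
  have x0 : (0 : ℝ) < l := lt_of_lt_of_le (by norm_num) hx
  have P := pw_LP1 hx
  simp only [par_LP1]
  have a0 := P 1 0 62 (by norm_num) (by norm_num)
  rw [div_le_one (by positivity)]
  linarith

theorem hbe2'_LP1 : (par_LP1 l).be2 * (par_LP1 l).c1 ≤ 1 := by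
  have hx : (10 : ℝ) ^ 9 ≤ l := by exact_mod_cast hl
  have x0 : (0 : ℝ) < l := lt_of_lt_of_le (by norm_num) hx
  have P := pw_LP1 hx
  simp only [par_LP1]
  have a0 := P 1 1 138 (by norm_num) (by norm_num)
  rw [div_mul_eq_mul_div, div_le_one (by positivity)]
  linarith

theorem hbe3_LP1 : 1 ≤ (par_LP1 l).be3 := by
  have hx : (10 : ℝ) ^ 9 ≤ l := by exact_mod_cast hl
  have x0 : (0 : ℝ) < l := lt_of_lt_of_le (by norm_num) hx
  have P := pw_LP1 hx
  simp only [par_LP1]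
  have a0 := P 1 0 2 (by norm_num) (by norm_num)
  linarith

theorem hbe3'_LP1 : (par_LP1 l).be3 * (par_LP1 l).eps ≤ 1 := by
  have hx : (10 : ℝ) ^ 9 ≤ l := by exact_mod_cast hl
  have x0 : (0 : ℝ) < l := lt_of_lt_of_le (by norm_num) hx
  have P := pw_LP1 hx
  simp only [par_LP1]
  have a0 := P 1 2 64 (by norm_num) (by norm_num)
  rw [mul_one_div, div_le_one (by positivity)]
  linarith

include hE in
theorem f1_LP1 : ((par_LP1 l).N : ℝ) ^ 2 * Real.exp (-((par_LP1 l).iu : ℝ) + 2 * (par_LP1 l).i) ≤ 1 / 10 := by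
  have hx : (10 : ℝ) ^ 9 ≤ l := by exact_mod_cast hl
  have x0 : (0 : ℝ) < l := lt_of_lt_of_le (by norm_num) hx
  have P := pw_LP1 hx
  simp only [par_LP1]
  push_cast
  have a0 := P 3 218 219 (by norm_num) (by norm_num)
  have a1 := P 1 1 218 (by norm_num) (by norm_num)
  refine (fin_LP1 (pe_LP1 (by positivity) hE 2) ?_).trans (by norm_num)
  push_cast
  linarith

include hE in
theorem f1'_LP1 : ((par_LP1 l).N : ℝ) ^ 2 * Real.exp (-(((par_LP1 l).i : ℝ) / 10)) ≤ 1 / 10 := by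
  have hx : (10 : ℝ) ^ 9 ≤ l := by exact_mod_cast hl
  have x0 : (0 : ℝ) < l := lt_of_lt_of_le (by norm_num) hx
  have P := pw_LP1 hx
  simp only [par_LP1]
  push_cast
  have a0 := P 1 1 218 (by norm_num) (by norm_num)
  refine (fin_LP1 (pe_LP1 (by positivity) hE 2) ?_).trans (by norm_num)
  push_cast
  linarith

include hE in
theorem f2_LP1 : ((par_LP1 l).N : ℝ) ^ 3 * Real.exp 1 * (((par_LP1 l).k : ℝ) / ((par_LP1 l).q : ℝ) ^ 2) ^ (par_LP1 l).c1 ≤ 1 / 10 := by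
  have hx : (10 : ℝ) ^ 9 ≤ l := by exact_mod_cast hl
  have x0 : (0 : ℝ) < l := lt_of_lt_of_le (by norm_num) hx
  have P := pw_LP1 hx
  simp only [par_LP1]
  push_cast
  have a0 := P 3 1226 2016 (by norm_num) (by norm_num)
  have b0 : ((l : ℝ) ^ 218 * (l : ℝ) ^ 1008 / ((l : ℝ) ^ 1008) ^ 2) ^ l ≤ Real.exp (-(l : ℝ)) := by
    refine sm_LP1 (by positivity) ?_ l
    rw [← mul_div_assoc, div_le_one (by positivity)]
    linarith
  refine (mul_le_mul_of_nonneg_left b0 (by positivity)).trans ?_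
  refine (fin_LP1 (me_LP1 (Real.exp_pos 1).le (pe_LP1 (by positivity) hE 3) le_rfl) ?_).trans
    (by norm_num)
  push_cast
  linarith

include hE in
theorem f3_LP1 : (((par_LP1 l).k : ℝ) * (par_LP1 l).q + 1) ^ (2 * (par_LP1 l).j) * Real.exp (-(3 * (par_LP1 l).N / ((par_LP1 l).q : ℝ) ^ (2 * (par_LP1 l).j))) ≤ 1 / 10 := by
  have hx : (10 : ℝ) ^ 9 ≤ l := by exact_mod_cast hl
  have x0 : (0 : ℝ) < l := lt_of_lt_of_le (by norm_num) hx
  have P := pw_LP1 hx
  simp only [par_LP1]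
  push_cast
  have a0 := P 2 2234 2235 (by norm_num) (by norm_num)
  have a1 := P 1 0 2234 (by norm_num) (by norm_num)
  have b0 : (l : ℝ) ^ 218 * (l : ℝ) ^ 1008 * (l : ℝ) ^ 1008 + 1 ≤ (l : ℝ) ^ 2235 := by linarith
  have b1 : ((l : ℝ) ^ 2235) ^ 6600 ≤ ((l : ℝ) ^ 6652801) ^ 3 := by
    rw [← pow_mul, ← pow_mul]
    exact pow_le_pow_right₀ (by linarith) (by norm_num)
  have b2 : 3 * (l : ℝ) ^ 6652801 / ((l : ℝ) ^ 1008) ^ 6600 = 3 * (l : ℝ) ^ 1 := by
    rw [← pow_mul, mul_div_assoc, dv_LP1 x0 _ _ 1 (by norm_num)]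
  rw [b2]
  refine (fin_LP1 (((pow_le_pow_left₀ (by positivity) b0 6600).trans b1).trans
    (pe_LP1 (by positivity) hE 3)) ?_).trans (by norm_num)
  push_cast
  linarith

include hE in
theorem f4_LP1 : 20 * ((par_LP1 l).N : ℝ) * (par_LP1 l).k * (((par_LP1 l).z4 : ℝ) ^ 2 / (par_LP1 l).q) ^ (par_LP1 l).c2 ≤ 1 := by
  have hx : (10 : ℝ) ^ 9 ≤ l := by exact_mod_cast hl
  have x0 : (0 : ℝ) < l := lt_of_lt_of_le (by norm_num) hx
  have P := pw_LP1 hx
  simp only [par_LP1]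
  push_cast
  have a0 := P 3 454 1008 (by norm_num) (by norm_num)
  have a1 := P 20 1226 6652801 (by norm_num) (by norm_num)
  have b0 : (((l : ℝ) ^ 227) ^ 2 / (l : ℝ) ^ 1008) ^ l ≤ Real.exp (-(l : ℝ)) := by
    refine sm_LP1 (by positivity) ?_ l
    rw [← mul_div_assoc, div_le_one (by positivity)]
    linarith
  refine (mul_le_mul_of_nonneg_left b0 (by positivity)).trans ?_
  have b1 := me_LP1 (by positivity) (a1.trans hE) hE
  refine fin1_LP1 (le_trans (le_of_eq (by ring)) b1) ?_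
  linarith

include hE in
theorem f9_LP1 : 20 * ((par_LP1 l).N : ℝ) ^ 2 * Real.exp ((par_LP1 l).l2 - 3 / 5 * (((par_LP1 l).k : ℝ) / ((par_LP1 l).q + (par_LP1 l).du))) ≤ 1 := by
  have hx : (10 : ℝ) ^ 9 ≤ l := by exact_mod_cast hl
  have x0 : (0 : ℝ) < l := lt_of_lt_of_le (by norm_num) hx
  have P := pw_LP1 hx
  simp only [par_LP1]
  push_cast
  have a0 := P 20 0 6652801 (by norm_num) (by norm_num)
  have a1 := P 1 1008 1130 (by norm_num) (by norm_num)
  have a2 := P 10 4 96 (by norm_num) (by norm_num)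
  have a3 := P 1 1 4 (by norm_num) (by norm_num)
  have b0 : (l : ℝ) ^ 96 / 2 ≤ (l : ℝ) ^ 218 * (l : ℝ) ^ 1008 / ((l : ℝ) ^ 1008 + (l : ℝ) ^ 1130) := by
    rw [div_le_div_iff₀ (by norm_num) (by positivity)]
    have b1 := mul_le_mul_of_nonneg_left a1 (show (0 : ℝ) ≤ (l : ℝ) ^ 96 by positivity)
    linarith
  refine fin1_LP1 (me_LP1 (by positivity) ((show (20 : ℝ) ≤ (l : ℝ) ^ 6652801 by linarith).trans hE)
    (pe_LP1 (by positivity) hE 2)) ?_
  push_cast
  linarith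

include hE in
theorem g6_LP1 : 20 * ((par_LP1 l).N : ℝ) ^ 2 * Real.exp ((par_LP1 l).lx - 3 / 10 * ((par_LP1 l).l2 : ℝ)) ≤ 1 := by
  have hx : (10 : ℝ) ^ 9 ≤ l := by exact_mod_cast hl
  have x0 : (0 : ℝ) < l := lt_of_lt_of_le (by norm_num) hx
  have P := pw_LP1 hx
  simp only [par_LP1]
  push_cast
  have a0 := P 20 0 6652801 (by norm_num) (by norm_num)
  have a1 := P 10 3 4 (by norm_num) (by norm_num)
  have a2 := P 1 1 3 (by norm_num) (by norm_num)
  refine fin1_LP1 (me_LP1 (by positivity) ((show (20 : ℝ) ≤ (l : ℝ) ^ 6652801 by linarith).trans hE)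
    (pe_LP1 (by positivity) hE 2)) ?_
  push_cast
  linarith

include hE in
theorem g7_LP1 : ((par_LP1 l).N : ℝ) ^ (par_LP1 l).Mr * (((par_LP1 l).k : ℝ) + 1) ^ 4 *
    Real.exp (-(3 / 20 * (((par_LP1 l).Mr.choose 2 : ℕ) : ℝ))) ≤ 1 / 10 := by
  have hx : (10 : ℝ) ^ 9 ≤ l := by exact_mod_cast hl
  have x0 : (0 : ℝ) < l := lt_of_lt_of_le (by norm_num) hx
  have P := pw_LP1 hx
  simp only [par_LP1]
  push_cast
  have a0 := P 2 1226 1227 (by norm_num) (by norm_num)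
  have a1 := P 1 0 1226 (by norm_num) (by norm_num)
  have a2 := P 1000 1 2 (by norm_num) (by norm_num)
  have b0 : (l : ℝ) ^ 218 * (l : ℝ) ^ 1008 + 1 ≤ (l : ℝ) ^ 1227 := by linarith
  have b1 : ((l : ℝ) ^ 1227) ^ 4 ≤ (l : ℝ) ^ 6652801 := by
    rw [← pow_mul]
    exact pow_le_pow_right₀ (by linarith) (by norm_num)
  refine (fin_LP1 (me_LP1 (by positivity) (pe_LP1 (by positivity) hE l)
    (((pow_le_pow_left₀ (by positivity) b0 4).trans b1).trans hE)) ?_).trans (by norm_num)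
  rw [Nat.cast_choose_two]
  linarith

include hE in
theorem h5_LP1 : ((par_LP1 l).N : ℝ) ^ 2 * (Real.exp ((par_LP1 l).ml - 3 / 10 * (((par_LP1 l).i : ℝ) / (par_LP1 l).G)) +
    Real.exp (-((par_LP1 l).mu : ℝ) + 2 * (((par_LP1 l).iu : ℝ) / (par_LP1 l).G))) ≤ 1 / 10 := by
  have hx : (10 : ℝ) ^ 9 ≤ l := by exact_mod_cast hl
  have x0 : (0 : ℝ) < l := lt_of_lt_of_le (by norm_num) hx
  have P := pw_LP1 hx
  simp only [par_LP1]
  push_cast
  have a0 := P 100 141 142 (by norm_num) (by norm_num)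
  have a1 := P 1 1 141 (by norm_num) (by norm_num)
  have a2 := P 3 143 144 (by norm_num) (by norm_num)
  have a3 := P 1 1 143 (by norm_num) (by norm_num)
  rw [dv_LP1 x0 218 76 142 (by norm_num), dv_LP1 x0 219 76 143 (by norm_num), mul_add]
  refine (add_le_add (fin_LP1 (pe_LP1 (by positivity) hE 2) ?_)
    (fin_LP1 (pe_LP1 (by positivity) hE 2) ?_)).trans (by norm_num)
  · push_cast
    linarith
  · push_cast
    linarith

theorem h8e_LP1 : 2 * ((par_LP1 l).c2 : ℝ) * (par_LP1 l).J / (par_LP1 l).G + 4 * ((par_LP1 l).c2 : ℝ) ^ 2 * (par_LP1 l).z1 / ((par_LP1 l).G : ℝ) ^ 2 ≤ (par_LP1 l).nu / 40 := by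
  have hx : (10 : ℝ) ^ 9 ≤ l := by exact_mod_cast hl
  have x0 : (0 : ℝ) < l := lt_of_lt_of_le (by norm_num) hx
  have P := pw_LP1 hx
  simp only [par_LP1]
  push_cast
  have a0 := P 240 76 77 (by norm_num) (by norm_num)
  have b0 : 2 * (l : ℝ) * (l : ℝ) ^ 151 / (l : ℝ) ^ 76 = 2 * (l : ℝ) ^ 76 := by
    field_simp
  have b1 : 4 * (l : ℝ) ^ 2 * (l : ℝ) ^ 226 / ((l : ℝ) ^ 76) ^ 2 = 4 * (l : ℝ) ^ 76 := by
    rw [← pow_mul, mul_assoc, ← pow_add, mul_div_assoc, dv_LP1 x0 _ _ 76 (by norm_num)]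
  rw [b0, b1]
  linarith

include hE in
theorem h8f_LP1 : (2 * ((par_LP1 l).J : ℝ) + 1) * ((((par_LP1 l).k : ℝ) * (par_LP1 l).q) ^ 2 + 1) ^ (par_LP1 l).e0 *
    Real.exp (-((par_LP1 l).N / (20 * (2 * ((par_LP1 l).J : ℝ) + 1)))) ≤ 1 / 10 := by
  have hx : (10 : ℝ) ^ 9 ≤ l := by exact_mod_cast hl
  have x0 : (0 : ℝ) < l := lt_of_lt_of_le (by norm_num) hx
  have P := pw_LP1 hx
  simp only [par_LP1]
  push_cast
  have a0 := P 60 151 152 (by norm_num) (by norm_num)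
  have a1 := P 1 0 151 (by norm_num) (by norm_num)
  have a2 := P 1 152 6652801 (by norm_num) (by norm_num)
  have a3 := P 2 4468 6652801 (by norm_num) (by norm_num)
  have a4 := P 1 0 4468 (by norm_num) (by norm_num)
  have a5 := P 1 1 2242 (by norm_num) (by norm_num)
  have a6 := P 1 2242 6652649 (by norm_num) (by norm_num)
  have b0 : 2 * (l : ℝ) ^ 151 + 1 ≤ (l : ℝ) ^ 6652801 := by linarith
  have b1 : ((l : ℝ) ^ 218 * (l : ℝ) ^ 1008 * (l : ℝ) ^ 1008) ^ 2 + 1 ≤ (l : ℝ) ^ 6652801 := by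
    linarith
  have b2 : (l : ℝ) ^ 6652649 ≤ (l : ℝ) ^ 6652801 / (20 * (2 * (l : ℝ) ^ 151 + 1)) := by
    rw [← dv_LP1 x0 6652801 152 6652649 (by norm_num)]
    exact div_le_div_of_nonneg_left (by positivity) (by positivity) (by linarith)
  refine (fin_LP1 (me_LP1 (by positivity) (b0.trans hE)
    (pe_LP1 (by positivity) (b1.trans hE) _)) ?_).trans (by norm_num)
  push_cast
  generalize (l : ℝ) ^ 6652801 / (20 * (2 * (l : ℝ) ^ 151 + 1)) = z at b2 ⊢
  linarith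

include hE in
theorem t1_LP1 : ((par_LP1 l).N : ℝ) < Real.exp ((par_LP1 l).s / (64 * ((par_LP1 l).Mr : ℝ) * (par_LP1 l).j)) := by
  have hx : (10 : ℝ) ^ 9 ≤ l := by exact_mod_cast hl
  have x0 : (0 : ℝ) < l := lt_of_lt_of_le (by norm_num) hx
  have P := pw_LP1 hx
  simp only [par_LP1]
  push_cast
  refine hE.trans_lt (Real.exp_lt_exp.2 ?_)
  rw [div_lt_div_iff₀ (by norm_num) (by positivity)]
  have b0 : (0 : ℝ) < (l : ℝ) ^ 2 := by positivity
  have a0 := P 2113 2 3 (by norm_num) (by norm_num)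
  linarith

theorem t3_LP1 : (par_LP1 l).z2 * (par_LP1 l).b2 ≤ (par_LP1 l).mu0 := by
  have hx : (10 : ℝ) ^ 9 ≤ l := by exact_mod_cast hl
  have x0 : (0 : ℝ) < l := lt_of_lt_of_le (by norm_num) hx
  have P := pw_LP1 hx
  simp only [Par.b2, Par.bq, par_LP1]
  push_cast
  rw [bb_LP1 x0 1007 1008 3300 3300 6652801 6649501 (by norm_num)]
  have a0 := P 6 6650508 6650558 (by norm_num) (by norm_num)
  linarith

theorem m2_LP1 : ((par_LP1 l).R : ℝ) * (par_LP1 l).s2 * (par_LP1 l).lam ≤ (par_LP1 l).Del / 2 := by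
  have hx : (10 : ℝ) ^ 9 ≤ l := by exact_mod_cast hl
  have x0 : (0 : ℝ) < l := lt_of_lt_of_le (by norm_num) hx
  have P := pw_LP1 hx
  simp only [Par.s2, par_LP1]
  push_cast
  have a0 := P 26 1127 1129 (by norm_num) (by norm_num)
  linarith

theorem m3_LP1 : 8 * ((par_LP1 l).N : ℝ) * (par_LP1 l).lam ≤ 3 * (par_LP1 l).Del * (par_LP1 l).mu1 := by
  have hx : (10 : ℝ) ^ 9 ≤ l := by exact_mod_cast hl
  have x0 : (0 : ℝ) < l := lt_of_lt_of_le (by norm_num) hx
  have P := pw_LP1 hx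
  simp only [par_LP1]
  push_cast
  have a0 := P 8 6652804 6652805 (by norm_num) (by norm_num)
  have a1 := P 0 0 6652805 (by norm_num) (by norm_num)
  linarith

theorem m4_LP1 : 2 * (par_LP1 l).Del ≤ (par_LP1 l).smax * (par_LP1 l).mu0 := by
  have hx : (10 : ℝ) ^ 9 ≤ l := by exact_mod_cast hl
  have x0 : (0 : ℝ) < l := lt_of_lt_of_le (by norm_num) hx
  have P := pw_LP1 hx
  simp only [par_LP1]
  push_cast
  rw [dw_LP1 x0 6650558 6649428 1130 (by norm_num)]
  exact P 2 1129 1130 (by norm_num) (by norm_num)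

theorem m6_LP1 : 7 * ((par_LP1 l).nu : ℝ) + 1 ≤ (par_LP1 l).eps * (par_LP1 l).ml := by
  have hx : (10 : ℝ) ^ 9 ≤ l := by exact_mod_cast hl
  have x0 : (0 : ℝ) < l := lt_of_lt_of_le (by norm_num) hx
  have P := pw_LP1 hx
  simp only [par_LP1]
  push_cast
  have a0 := P 1 0 77 (by norm_num) (by norm_num)
  rw [mul_left_comm, dw_LP1 x0 141 64 77 (by norm_num)]
  linarith

theorem c1a_LP1 : (par_LP1 l).j * (par_LP1 l).Del + (par_LP1 l).z3 * (par_LP1 l).smax * (par_LP1 l).b3 ≤ (par_LP1 l).V * (par_LP1 l).z3 := by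
  have hx : (10 : ℝ) ^ 9 ≤ l := by exact_mod_cast hl
  have x0 : (0 : ℝ) < l := lt_of_lt_of_le (by norm_num) hx
  have P := pw_LP1 hx
  simp only [Par.b3, Par.bq, par_LP1]
  push_cast
  rw [bb_LP1 x0 1007 1008 3300 3300 6652801 6649501 (by norm_num), mul_assoc, mul_left_comm _ 6,
    dw_LP1 x0 6649501 6649428 73 (by norm_num)]
  have a0 := P 3306 1129 1131 (by norm_num) (by norm_num)
  have a1 := P 1 1080 1129 (by norm_num) (by norm_num)
  linarith

theorem c2a_LP1 : (par_LP1 l).V * (par_LP1 l).iu ≤ (par_LP1 l).th * (par_LP1 l).g := by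
  have hx : (10 : ℝ) ^ 9 ≤ l := by exact_mod_cast hl
  have x0 : (0 : ℝ) < l := lt_of_lt_of_le (by norm_num) hx
  have P := pw_LP1 hx
  simp only [par_LP1]
  push_cast
  rw [dw_LP1 x0 783 440 343 (by norm_num)]
  exact le_of_eq (by ring)

theorem c3a_LP1 : 20 * (par_LP1 l).Del ≤ (par_LP1 l).du := by
  have hx : (10 : ℝ) ^ 9 ≤ l := by exact_mod_cast hl
  have x0 : (0 : ℝ) < l := lt_of_lt_of_le (by norm_num) hx
  have P := pw_LP1 hx
  simp only [par_LP1]
  push_cast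
  exact P 20 1129 1130 (by norm_num) (by norm_num)

include hE in
theorem c3b_LP1 : 40 * ((par_LP1 l).k : ℝ) * Real.exp (-((par_LP1 l).be1 * ((par_LP1 l).del / (2 * (par_LP1 l).eps))) + (par_LP1 l).be1 ^ 2 * (par_LP1 l).V) ≤ 1 := by
  have hx : (10 : ℝ) ^ 9 ≤ l := by exact_mod_cast hl
  have x0 : (0 : ℝ) < l := lt_of_lt_of_le (by norm_num) hx
  have P := pw_LP1 hx
  simp only [par_LP1]
  push_cast
  have a0 := P 40 1226 6652801 (by norm_num) (by norm_num)
  have b0 : 1 / (l : ℝ) ^ 62 * (1 / (l : ℝ) / (2 * (1 / (l : ℝ) ^ 64))) = l / 2 := by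
    field_simp
  have b1 : (1 / (l : ℝ) ^ 62) ^ 2 * (l : ℝ) ^ 124 = 1 := by
    field_simp
  rw [b0, b1]
  refine fin1_LP1 (le_trans (le_of_eq (by ring)) (a0.trans hE)) ?_
  linarith

include hE in
theorem c3c_LP1 : 20 * ((par_LP1 l).N : ℝ) * Real.exp (-((par_LP1 l).be2 * ((par_LP1 l).nu / (par_LP1 l).eps)) +
    (par_LP1 l).be2 ^ 2 * ((par_LP1 l).c1 * (par_LP1 l).mu * (par_LP1 l).V)) ≤ 1 := by
  have hx : (10 : ℝ) ^ 9 ≤ l := by exact_mod_cast hl
  have x0 : (0 : ℝ) < l := lt_of_lt_of_le (by norm_num) hx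
  have P := pw_LP1 hx
  simp only [par_LP1]
  push_cast
  have a0 := P 20 0 6652801 (by norm_num) (by norm_num)
  have a1 := P 1 0 7 (by norm_num) (by norm_num)
  have a2 := P 1 1 3 (by norm_num) (by norm_num)
  have b0 : 1 / (l : ℝ) ^ 138 * ((l : ℝ) ^ 77 / (1 / (l : ℝ) ^ 64)) = (l : ℝ) ^ 3 := by
    field_simp
  have b1 : (1 / (l : ℝ) ^ 138) ^ 2 * ((l : ℝ) * (l : ℝ) ^ 144 * (l : ℝ) ^ 124) = 1 / (l : ℝ) ^ 7 := by
    field_simp
  have b2 : 1 / (l : ℝ) ^ 7 ≤ 1 := by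
    rw [div_le_one (by positivity)]
    linarith
  rw [b0, b1]
  refine fin1_LP1 (me_LP1 (by positivity) ((show (20 : ℝ) ≤ (l : ℝ) ^ 6652801 by linarith).trans hE) hE) ?_
  linarith

theorem c4a_LP1 : (par_LP1 l).du * (par_LP1 l).del ^ (par_LP1 l).l ≤ 1 / 4 := by
  have hx : (10 : ℝ) ^ 9 ≤ l := by exact_mod_cast hl
  have x0 : (0 : ℝ) < l := lt_of_lt_of_le (by norm_num) hx
  have P := pw_LP1 hx
  simp only [par_LP1]
  push_cast
  have a0 := P 4 1130 l (by norm_num) (lt_of_lt_of_le (by norm_num) hl)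
  rw [one_div_pow, mul_one_div, div_le_div_iff₀ (by positivity) (by norm_num)]
  linarith

include hE in
theorem c5b_LP1 : 60 * ((par_LP1 l).N : ℝ) * Real.exp (-(((par_LP1 l).nu : ℝ) ^ 2 / (16 * (par_LP1 l).mu))) ≤ 1 := by
  have hx : (10 : ℝ) ^ 9 ≤ l := by exact_mod_cast hl
  have x0 : (0 : ℝ) < l := lt_of_lt_of_le (by norm_num) hx
  have P := pw_LP1 hx
  simp only [par_LP1]
  push_cast
  have a0 := P 60 0 6652801 (by norm_num) (by norm_num)
  have a1 := P 1 1 10 (by norm_num) (by norm_num)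
  have b0 : ((l : ℝ) ^ 77) ^ 2 / (16 * (l : ℝ) ^ 144) = (l : ℝ) ^ 10 / 16 := by
    field_simp
  rw [b0]
  refine fin1_LP1 (me_LP1 (by positivity) ((show (60 : ℝ) ≤ (l : ℝ) ^ 6652801 by linarith).trans hE) hE) ?_
  linarith

theorem c6b_LP1 : 8 * ((par_LP1 l).b3 + (par_LP1 l).b4 + (par_LP1 l).L) ≤ (par_LP1 l).mu0 := by
  have hx : (10 : ℝ) ^ 9 ≤ l := by exact_mod_cast hl
  have x0 : (0 : ℝ) < l := lt_of_lt_of_le (by norm_num) hx
  have P := pw_LP1 hx
  simp only [Par.b3, Par.b4, Par.bq, par_LP1]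
  push_cast
  rw [bb_LP1 x0 1007 1008 3300 3300 6652801 6649501 (by norm_num), ← pow_add, ← pow_add,
    bb_LP1 x0 _ 1008 3300 _ 6652801 6629701 (by norm_num)]
  have a0 := P 104 6649501 6650558 (by norm_num) (by norm_num)
  have a1 := P 1 6629701 6649501 (by norm_num) (by norm_num)
  have a2 := P 1 1 6649501 (by norm_num) (by norm_num)
  linarith

theorem c7a_LP1 : (((par_LP1 l).L : ℝ) * (par_LP1 l).iu) ^ 2 * (par_LP1 l).th ≤ 1 := by
  have hx : (10 : ℝ) ^ 9 ≤ l := by exact_mod_cast hl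
  have x0 : (0 : ℝ) < l := lt_of_lt_of_le (by norm_num) hx
  have P := pw_LP1 hx
  simp only [par_LP1]
  push_cast
  rw [mul_one_div, div_le_one (by positivity)]
  exact le_of_eq (by ring)

theorem c7b_LP1 : 4 * (par_LP1 l).eps * ((par_LP1 l).lam2 * (par_LP1 l).c1 * (par_LP1 l).L + (par_LP1 l).lam2 * (par_LP1 l).smax * (par_LP1 l).iu + (par_LP1 l).lam + 1) ≤ 1 := by
  have hx : (10 : ℝ) ^ 9 ≤ l := by exact_mod_cast hl
  have x0 : (0 : ℝ) < l := lt_of_lt_of_le (by norm_num) hx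
  have P := pw_LP1 hx
  simp only [par_LP1]
  push_cast
  have a0 := P 16 6 64 (by norm_num) (by norm_num)
  have a1 := P 1 3 6 (by norm_num) (by norm_num)
  have a2 := P 1 0 6 (by norm_num) (by norm_num)
  have a3 := P 1 223 6649428 (by norm_num) (by norm_num)
  have b0 : (l : ℝ) ^ 4 * (1 / (l : ℝ) ^ 6649428) * (l : ℝ) ^ 219 ≤ 1 := by
    rw [mul_one_div, div_mul_eq_mul_div, div_le_one (by positivity)]
    linarith
  generalize (l : ℝ) ^ 4 * (1 / (l : ℝ) ^ 6649428) * (l : ℝ) ^ 219 = z at b0 ⊢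
  rw [mul_one_div, div_mul_eq_mul_div, div_le_one (by positivity)]
  linarith

theorem c7c_LP1 : 2 * (par_LP1 l).eps * ((par_LP1 l).c1 * (par_LP1 l).L) ≤ 1 := by
  have hx : (10 : ℝ) ^ 9 ≤ l := by exact_mod_cast hl
  have x0 : (0 : ℝ) < l := lt_of_lt_of_le (by norm_num) hx
  have P := pw_LP1 hx
  simp only [par_LP1]
  have a0 := P 2 2 64 (by norm_num) (by norm_num)
  rw [mul_one_div, div_mul_eq_mul_div, div_le_one (by positivity)]
  linarith

include hE in
theorem c7e_LP1 : 2 * ((par_LP1 l).L : ℝ) * (par_LP1 l).iu * Real.exp (-((par_LP1 l).be3 / 2) + (par_LP1 l).be3 ^ 2 * (par_LP1 l).eps ^ 2 * (par_LP1 l).V) ≤ 1 := by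
  have hx : (10 : ℝ) ^ 9 ≤ l := by exact_mod_cast hl
  have x0 : (0 : ℝ) < l := lt_of_lt_of_le (by norm_num) hx
  have P := pw_LP1 hx
  simp only [par_LP1]
  push_cast
  have a0 := P 2 220 6652801 (by norm_num) (by norm_num)
  have a1 := P 1 1 2 (by norm_num) (by norm_num)
  have b0 : ((l : ℝ) ^ 2) ^ 2 * (1 / (l : ℝ) ^ 64) ^ 2 * (l : ℝ) ^ 124 = 1 := by
    field_simp
  rw [b0]
  refine fin1_LP1 (le_trans (le_of_eq (by ring)) (a0.trans hE)) ?_
  linarith

include hE in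
theorem c8_LP1 : 20 * (((par_LP1 l).n * (par_LP1 l).s2 : ℕ) : ℝ) * (par_LP1 l).kb ≤ 1 := by
  have hx : (10 : ℝ) ^ 9 ≤ l := by exact_mod_cast hl
  have x0 : (0 : ℝ) < l := lt_of_lt_of_le (by norm_num) hx
  have P := pw_LP1 hx
  simp only [Par.n, Par.s2, Par.kb, par_LP1]
  push_cast
  have a0 := P 2340 2240 6652801 (by norm_num) (by norm_num)
  have a1 := P 3 3 4 (by norm_num) (by norm_num)
  have a2 := P 1 1 3 (by norm_num) (by norm_num)
  have a3 := P 1 1 6652801 (by norm_num) (by norm_num)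
  have a4 := P 1 3 6652801 (by norm_num) (by norm_num)
  have a5 := P 1 1 2 (by norm_num) (by norm_num)
  have a6 := P 1 2 3 (by norm_num) (by norm_num)
  have b0 : Real.exp (2 * (l : ℝ) ^ 3 - (l : ℝ) ^ 4) ≤ Real.exp (-((l : ℝ) / 100)) :=
    Real.exp_le_exp.2 (by linarith)
  have b1 : (l : ℝ) * ((l : ℝ) ^ 3) ^ l * Real.exp (-((l : ℝ) ^ 3 / 2)) ≤
      Real.exp (-((l : ℝ) / 100)) := by
    refine (me_LP1 (Real.exp_pos _).le (me_LP1 (by positivity)
      ((show (l : ℝ) ≤ (l : ℝ) ^ 6652801 by linarith).trans hE)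
      (pe_LP1 (by positivity) ((show (l : ℝ) ^ 3 ≤ (l : ℝ) ^ 6652801 by linarith).trans hE) l))
      le_rfl).trans (Real.exp_le_exp.2 ?_)
    linarith
  have b3 : Real.exp 2 * ((1 + 1 / (l : ℝ)) ^ 9900 / 2) ^ l ≤ Real.exp (-((l : ℝ) / 100)) := by
    refine (half_LP1 x0 9900 l).trans (Real.exp_le_exp.2 ?_)
    rw [mul_add, mul_left_comm, mul_one_div_cancel x0.ne']
    push_cast
    linarith only [hx]
  have b4 := fin1_LP1 (a0.trans hE) (add_neg_cancel ((l : ℝ) / 100)).le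
  have b5 := add_le_add (add_le_add b0 b1) b3
  generalize Real.exp (2 * (l : ℝ) ^ 3 - (l : ℝ) ^ 4) +
    (l : ℝ) * ((l : ℝ) ^ 3) ^ l * Real.exp (-((l : ℝ) ^ 3 / 2)) +
    Real.exp 2 * ((1 + 1 / (l : ℝ)) ^ 9900 / 2) ^ l = z at b5 ⊢
  have b6 := mul_le_mul_of_nonneg_left b5 (show (0 : ℝ) ≤ 780 * (l : ℝ) ^ 2240 by positivity)
  linarith only [b4, b6]

include hE in
theorem ok_LP1 : (par_LP1 l).Ok := by
  have l1 : 1 ≤ l := le_trans (by norm_num) hl
  have x0 : (0 : ℝ) < l := by exact_mod_cast l1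
  have o : ∀ a : ℕ, 1 ≤ l ^ a := fun a => Nat.one_le_pow _ _ l1
  have w : ∀ a : ℕ, (0 : ℝ) < (l : ℝ) ^ a := fun a => pow_pos x0 a
  have w' : ∀ a : ℕ, (0 : ℝ) < 1 / (l : ℝ) ^ a := fun a => one_div_pos.2 (w a)
  exact {
    hN := o _
    hq := hq_LP1 hl
    hi := o _
    hk := rfl
    hG := o _
    hj := show 2 ≤ 3300 by norm_num
    hL := l1
    hMr := l1
    hc1 := l1
    hc2 := l1
    hs := o _
    hiu := o _
    hnu := o _
    hmu := o _
    hdu := o _
    hlx := hlx_LP1 hl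
    hz0 := o _
    hz1 := o _
    hz3 := o _
    hz4 := o _
    hmu0 := o _
    hmu1 := hmu1_LP1 hl
    hR := o _
    heps := w' _
    heps4 := heps4_LP1 hl
    hdel := hdel_LP1 hl
    hdel1 := hdel1_LP1 hl
    hlam := hlam_LP1 hl
    hV := w _
    hDel := w _
    hth := w' _
    hsmax0 := (w' _).le
    hsmax := hsmax_LP1 hl
    hbe1 := (w' _).le
    hbe1' := hbe1'_LP1 hl
    hbe2 := (w' _).le
    hbe2' := hbe2'_LP1 hl
    hbe3 := hbe3_LP1 hl
    hbe3' := hbe3'_LP1 hl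
    f1 := f1_LP1 hl hE
    f1' := f1'_LP1 hl hE
    f2a := f2a_LP1 hl
    f2 := f2_LP1 hl hE
    f3 := f3_LP1 hl hE
    f4a := f4a_LP1 hl
    f4 := f4_LP1 hl hE
    f9 := f9_LP1 hl hE
    g6 := g6_LP1 hl hE
    g7 := g7_LP1 hl hE
    h5 := h5_LP1 hl hE
    h8a := h8a_LP1 hl
    h8b := h8b_LP1 hl
    h8c := h8c_LP1 hl
    h8d := h8d_LP1 hl
    h8e := h8e_LP1 hl
    h8f := h8f_LP1 hl hE
    t1 := t1_LP1 hl hE
    t2 := t2_LP1 hl
    t3 := t3_LP1 hl
    x1 := x1_LP1 hl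
    x2 := x2_LP1 hl
    x3 := x3_LP1 hl
    x4 := x4_LP1 hl
    x5 := x5_LP1 hl
    m1 := m1_LP1 hl
    m2 := m2_LP1 hl
    m3 := m3_LP1 hl
    m4 := m4_LP1 hl
    m5 := m5_LP1 hl
    m6 := m6_LP1 hl
    m7 := m7_LP1 hl
    c1a := c1a_LP1 hl
    c2a := c2a_LP1 hl
    c3a := c3a_LP1 hl
    c3b := c3b_LP1 hl hE
    c3c := c3c_LP1 hl hE
    c4a := c4a_LP1 hl
    c4b := c4b_LP1 hl
    c5a := c5a_LP1 hl
    c5b := c5b_LP1 hl hE
    c6a := c6a_LP1 hl
    c6b := c6b_LP1 hl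
    c7a := c7a_LP1 hl
    c7b := c7b_LP1 hl
    c7c := c7c_LP1 hl
    c7e := c7e_LP1 hl hE
    c8 := c8_LP1 hl hE }

end

theorem exists_par : ∃ P : Par, P.Ok := by
  obtain ⟨l, hl, hE⟩ := exists_l_LP1 6652801
  exact ⟨_, ok_LP1 hl hE⟩

end Pool.Agent.P.MP_b5e666_co.Lar
end
end

-- part Pool.Agent.P.MP_b5e666_co.LA3
section

set_option autoImplicit false

open Finset

noncomputable section

namespace Pool.Agent.P.MP_b5e666_co.Lar

/-- weighted count of the nonempty subsets -/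
theorem sum_pow_card_le {α : Type} [Fintype α] {η : ℝ} (h0 : 0 ≤ η)
    (h1 : (Fintype.card α : ℝ) * η ≤ 1) :
    ∑ V ∈ flt (univ : Finset (Finset α)) (fun V => V.Nonempty), η ^ V.card ≤
      2 * Fintype.card α * η := by
  classical
  have e1 : ∑ V : Finset α, η ^ V.card = (1 + η) ^ Fintype.card α := by
    have := Finset.prod_one_add (f := fun _ : α => η) (univ : Finset α)
    simp only [prod_const, card_univ, powerset_univ] at this
    exact this.symm
  have e2 : flt (univ : Finset (Finset α)) (fun V => V.Nonempty) = univ.erase ∅ := by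
    ext V; simp [nonempty_iff_ne_empty]
  have e3 := Finset.add_sum_erase (univ : Finset (Finset α)) (fun V => η ^ V.card) (mem_univ ∅)
  rw [e2]
  simp only [card_empty, pow_zero] at e3
  have hx0 : 0 ≤ (Fintype.card α : ℝ) * η := by positivity
  have h2 : (1 + η) ^ Fintype.card α ≤ Real.exp ((Fintype.card α : ℝ) * η) := by
    rw [Real.exp_nat_mul]
    exact pow_le_pow_left₀ (by linarith) (by linarith [Real.add_one_le_exp η]) _
  have h3 := Real.abs_exp_sub_one_sub_id_le (x := (Fintype.card α : ℝ) * η)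
    (by rw [abs_of_nonneg hx0]; exact h1)
  have h4 := (abs_le.1 h3).2
  nlinarith

/-- number of small subsets -/
theorem card_small_le (α : Type) [Fintype α] (e : ℕ) :
    (flt (univ : Finset (Finset α)) (fun V => V.card ≤ e)).card ≤ (Fintype.card α + 1) ^ e := by
  classical
  have hc : (Fintype.card α + 1) ^ e = (univ : Finset (Fin e → Option α)).card := by simp
  rw [hc]
  refine card_le_card_of_surjOn
    (fun f : Fin e → Option α => flt univ (fun a => ∃ i, f i = some a)) ?_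
  intro V hV
  have hVe : V.card ≤ e := (mem_flt.1 (mem_coe.1 hV)).2
  refine ⟨fun i => if h : (i : ℕ) < V.card then some (V.equivFin.symm ⟨i, h⟩ : α) else none,
    by simp, ?_⟩
  ext a
  simp only [mem_flt, mem_univ, true_and]
  constructor
  · rintro ⟨i, hi⟩
    split_ifs at hi with h
    rw [← Option.some.inj hi]
    exact (V.equivFin.symm ⟨i, h⟩).2
  · intro ha
    refine ⟨⟨V.equivFin ⟨a, ha⟩, lt_of_lt_of_le (V.equivFin ⟨a, ha⟩).2 hVe⟩, ?_⟩
    simp

variable {ι : Type} [Fintype ι] [DecidableEq ι]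

/-- a hereditary-type process finds a clean subfamily of size L in a random subset of the pool -/
theorem Pr_no_clean (Pl : Finset ι) (Cl : Finset ι → Prop) (L : ℕ) {lam : ℝ} (hlam : 1 ≤ lam)
    (hle : lam ≤ Pl.card) (h0 : Cl ∅)
    (hext : ∀ Ds ⊆ Pl, Cl Ds → Ds.card < L → ∃ Ac ⊆ Pl, Disjoint Ac Ds ∧ Pl.card ≤ 2 * Ac.card ∧
      ∀ y ∈ Ac, Cl (insert y Ds)) :
    Pr (bern (fun y => if y ∈ Pl then lam / Pl.card else 0))
        (fun d => ¬ ∃ Ds ⊆ supp d, Ds ⊆ Pl ∧ Cl Ds ∧ Ds.card = L) ≤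
      L * lam ^ L * Real.exp (-(lam / 2)) := by
  classical
  have hn : (0 : ℝ) < Pl.card := by linarith
  set a : ℝ := lam / Pl.card with ha
  have ha0 : 0 ≤ a := by positivity
  have ha1 : a ≤ 1 := (div_le_one hn).2 hle
  have hal : a * Pl.card = lam := div_mul_cancel₀ _ hn.ne'
  have hP : IsP (bern (fun y => if y ∈ Pl then a else 0)) :=
    isP_bern (fun i => by split_ifs <;> simp [ha0]) (fun i => by split_ifs <;> simp [ha1])
  choose! Ac hAc using hext
  set Fam : Finset (Finset ι) := flt Pl.powerset (fun Ds => Cl Ds ∧ Ds.card < L) with hFam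
  have hF : ∀ Ds ∈ Fam, Ds ⊆ Pl ∧ Cl Ds ∧ Ds.card < L := fun Ds h =>
    ⟨mem_powerset.1 (mem_flt.1 h).1, (mem_flt.1 h).2⟩
  have step1 : ∀ d : ι → Bool, (¬ ∃ Ds ⊆ supp d, Ds ⊆ Pl ∧ Cl Ds ∧ Ds.card = L) →
      ∃ Ds ∈ Fam, (∀ y ∈ Ds, d y = true) ∧ ∀ y ∈ Ac Ds, d y = false := by
    intro d hd
    obtain ⟨Ds, hDs, hmax⟩ := exists_max_image
      (flt Pl.powerset (fun Ds => Ds ⊆ supp d ∧ Cl Ds ∧ Ds.card ≤ L)) card
      ⟨∅, mem_flt.2 ⟨by simp, by simp, h0, by simp⟩⟩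
    obtain ⟨h1, h2, h3, h4⟩ := mem_flt.1 hDs
    have h1' := mem_powerset.1 h1
    have hlt : Ds.card < L := lt_of_le_of_ne h4 fun he => hd ⟨Ds, h2, h1', h3, he⟩
    obtain ⟨g1, g2, -, g4⟩ := hAc Ds h1' h3 hlt
    refine ⟨Ds, mem_flt.2 ⟨h1, h3, hlt⟩, fun y hy => mem_supp.1 (h2 hy), fun y hy => ?_⟩
    by_contra hc
    have hy1 : d y = true := by simpa using hc
    have hy2 : y ∉ Ds := disjoint_left.1 g2 hy
    have hcard := card_insert_of_notMem hy2
    have := hmax (insert y Ds) (mem_flt.2 ⟨mem_powerset.2 (insert_subset (g1 hy) h1'),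
      insert_subset (mem_supp.2 hy1) h2, g4 y hy, by omega⟩)
    omega
  have step2 : ∀ Ds ∈ Fam, Pr (bern (fun y => if y ∈ Pl then a else 0))
      (fun d => (∀ y ∈ Ds, d y = true) ∧ ∀ y ∈ Ac Ds, d y = false) ≤
      a ^ Ds.card * Real.exp (-(lam / 2)) := by
    intro Ds hDs
    obtain ⟨h1, h2, h3⟩ := hF Ds hDs
    obtain ⟨g1, g2, g3, -⟩ := hAc Ds h1 h2 h3
    have e1 := Ex_prod (bern (fun y => if y ∈ Pl then a else 0))
      (fun i c => (if i ∈ Ds then bit c else 1) * (if i ∈ Ac Ds then 1 - bit c else 1))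
    have e2 : ∀ i, ∑ c, bern (fun y => if y ∈ Pl then a else 0) i c *
        ((if i ∈ Ds then bit c else 1) * (if i ∈ Ac Ds then 1 - bit c else 1)) =
        (if i ∈ Ds then a else 1) * (if i ∈ Ac Ds then 1 - a else 1) := by
      intro i
      by_cases hi : i ∈ Ds
      · have hi2 : i ∉ Ac Ds := fun h => disjoint_left.1 g2 h hi
        simp [bern, hi, hi2, h1 hi]
      · by_cases hi2 : i ∈ Ac Ds
        · simp [bern, hi, hi2, g1 hi2]
        · simp [bern, hi, hi2]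
    simp only [e2] at e1
    rw [prod_mul_distrib, Fintype.prod_ite_mem, Fintype.prod_ite_mem, prod_const, prod_const] at e1
    have hb : ∀ c : Bool, 0 ≤ bit c ∧ bit c ≤ 1 := fun c => by cases c <;> simp
    calc _ ≤ a ^ Ds.card * (1 - a) ^ (Ac Ds).card := by
          rw [← e1]
          refine Ex_mono hP fun d => ?_
          by_cases hd : (∀ y ∈ Ds, d y = true) ∧ ∀ y ∈ Ac Ds, d y = false
          · rw [ind_pos hd]
            refine le_of_eq (prod_eq_one fun i _ => ?_).symm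
            by_cases hi : i ∈ Ds
            · have hi2 : i ∉ Ac Ds := fun h => disjoint_left.1 g2 h hi
              simp [hi, hi2, hd.1 i hi]
            · by_cases hi2 : i ∈ Ac Ds
              · simp [hi, hi2, hd.2 i hi2]
              · simp [hi, hi2]
          · rw [ind_neg hd]
            refine prod_nonneg fun i _ => mul_nonneg ?_ ?_
            · split_ifs
              · exact (hb _).1
              · exact zero_le_one
            · split_ifs
              · linarith [(hb (d i)).2]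
              · exact zero_le_one
      _ ≤ a ^ Ds.card * Real.exp (-(lam / 2)) := by
          refine mul_le_mul_of_nonneg_left ?_ (pow_nonneg ha0 _)
          have g3' : (Pl.card : ℝ) ≤ 2 * (Ac Ds).card := by exact_mod_cast g3
          calc (1 - a) ^ (Ac Ds).card ≤ Real.exp (-a) ^ (Ac Ds).card :=
                pow_le_pow_left₀ (by linarith) (by linarith [Real.add_one_le_exp (-a)]) _
            _ = Real.exp (((Ac Ds).card : ℝ) * (-a)) := (Real.exp_nat_mul _ _).symm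
            _ ≤ Real.exp (-(lam / 2)) := Real.exp_le_exp.2 (by nlinarith)
  have step3 : ∑ Ds ∈ Fam, a ^ Ds.card ≤ L * lam ^ L := by
    rw [← sum_fiberwise_of_maps_to (s := Fam) (t := range L) (g := card)
      (fun Ds h => mem_range.2 (hF Ds h).2.2)]
    have : ∀ l ∈ range L, ∑ Ds ∈ Fam with Ds.card = l, a ^ Ds.card ≤ lam ^ L := by
      intro l hl
      have hsub : Fam.filter (fun Ds => Ds.card = l) ⊆ powersetCard l Pl := fun Ds h =>
        mem_powersetCard.2 ⟨(hF Ds (mem_filter.1 h).1).1, (mem_filter.1 h).2⟩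
      have hcard : ((Fam.filter (fun Ds => Ds.card = l)).card : ℝ) ≤ (Pl.card : ℝ) ^ l := by
        have := (card_le_card hsub).trans_eq (card_powersetCard l Pl)
        exact_mod_cast this.trans (Nat.choose_le_pow _ _)
      calc ∑ Ds ∈ Fam with Ds.card = l, a ^ Ds.card = ∑ Ds ∈ Fam with Ds.card = l, a ^ l :=
            sum_congr rfl fun Ds h => by rw [(mem_filter.1 h).2]
        _ = ((Fam.filter (fun Ds => Ds.card = l)).card : ℝ) * a ^ l := by
            rw [sum_const, nsmul_eq_mul]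
        _ ≤ (Pl.card : ℝ) ^ l * a ^ l := mul_le_mul_of_nonneg_right hcard (pow_nonneg ha0 _)
        _ = lam ^ l := by rw [← mul_pow, mul_comm, hal]
        _ ≤ lam ^ L := pow_le_pow_right₀ hlam (mem_range.1 hl).le
    calc _ ≤ ∑ _l ∈ range L, lam ^ L := sum_le_sum this
      _ = L * lam ^ L := by rw [sum_const, card_range, nsmul_eq_mul]
  calc _ ≤ Pr (bern (fun y => if y ∈ Pl then a else 0))
          (fun d => ∃ Ds ∈ Fam, (∀ y ∈ Ds, d y = true) ∧ ∀ y ∈ Ac Ds, d y = false) :=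
        Pr_mono hP step1
    _ ≤ _ := Pr_exists_le hP Fam
        (fun Ds d => (∀ y ∈ Ds, d y = true) ∧ ∀ y ∈ Ac Ds, d y = false)
    _ ≤ ∑ Ds ∈ Fam, a ^ Ds.card * Real.exp (-(lam / 2)) := sum_le_sum step2
    _ = (∑ Ds ∈ Fam, a ^ Ds.card) * Real.exp (-(lam / 2)) := (sum_mul _ _ _).symm
    _ ≤ _ := mul_le_mul_of_nonneg_right step3 (Real.exp_pos _).le

theorem Pr_supp_big (Pl : Finset ι) {lam : ℝ} (hlam : 0 ≤ lam) (hle : lam ≤ Pl.card) (m : ℕ) :
    Pr (bern (fun y => if y ∈ Pl then lam / Pl.card else 0)) (fun d => m < (supp d).card) ≤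
      Real.exp (2 * lam - m) := by
  have ha0 : 0 ≤ lam / Pl.card := by positivity
  have ha1 : lam / Pl.card ≤ 1 := div_le_one_of_le₀ hle (by positivity)
  have h0 : ∀ i, 0 ≤ (if i ∈ Pl then lam / (Pl.card : ℝ) else 0) :=
    fun i => by split_ifs <;> simp [ha0]
  have h1 : ∀ i, (if i ∈ Pl then lam / (Pl.card : ℝ) else 0) ≤ 1 :=
    fun i => by split_ifs <;> simp [ha1]
  have hs : ∑ i, (if i ∈ Pl then lam / (Pl.card : ℝ) else 0) = lam := by
    rw [Fintype.sum_ite_mem, sum_const, nsmul_eq_mul]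
    rcases eq_or_ne (Pl.card : ℝ) 0 with h | h
    · rw [h] at hle ⊢
      linarith
    · exact mul_div_cancel₀ _ h
  have ht := tail_bern (c := fun _ => 1) (t := 1) (u := m - lam) (v := lam) h0 h1 zero_le_one
    (fun _ => by simp) (by simp only [one_pow, mul_one]; exact hs.le)
  refine le_trans (Pr_mono (isP_bern h0 h1) fun d hd => ?_) (ht.trans (le_of_eq ?_))
  · simp only [one_mul]
    rw [sum_sub_distrib, hs, ← card_supp]
    have : (m : ℝ) < (supp d).card := by exact_mod_cast hd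
    linarith
  · congr 1
    ring

/-- symmetric difference of a family of sets -/
def xr {Y : Type} (Z : Y → Finset ι) (U : Finset Y) : Finset ι :=
  flt univ (fun a => Odd (flt U (fun y => a ∈ Z y)).card)

/-- parity constraints on a set of views -/
def par {Y : Type} (Z : Y → Finset ι) (cp : Y → ℕ) (S : Finset Y) (w : ι → Bool) : Prop :=
  ∀ y ∈ S, Even ((flt (Z y) (fun a => w a = false)).card + cp y)

end Pool.Agent.P.MP_b5e666_co.Lar
end
end

-- part Pool.Agent.P.MP_b5e666_co.LA4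
section

set_option autoImplicit false

open Finset

noncomputable section

namespace Pool.Agent.P.MP_b5e666_co.Lar

variable {ι : Type} [Fintype ι] [DecidableEq ι]

omit [Fintype ι] [DecidableEq ι] in
theorem prod_sg_LA4 (A : Finset ι) (w : ι → Bool) :
    ∏ a ∈ A, sg (w a) = (-1 : ℝ) ^ (flt A (fun a => w a = false)).card := by
  rw [flt_eq, ← prod_const, prod_filter]
  refine prod_congr rfl fun a _ => ?_
  cases w a <;> simp

omit [Fintype ι] [DecidableEq ι] in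
theorem two_pow_par_LA4 {Y : Type} (Z : Y → Finset ι) (cp : Y → ℕ) (S : Finset Y) (w : ι → Bool) :
    2 ^ S.card * ind (par Z cp S w) =
      ∏ y ∈ S, (1 + (-1 : ℝ) ^ cp y * ∏ a ∈ Z y, sg (w a)) := by
  unfold par
  rw [ind_forall, ← prod_const, ← prod_mul_distrib]
  refine prod_congr rfl fun y _ => ?_
  rw [prod_sg_LA4, ← pow_add, add_comm (cp y)]
  rcases Nat.even_or_odd ((flt (Z y) (fun a => w a = false)).card + cp y) with h | h
  · rw [ind_pos h, h.neg_one_pow]; norm_num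
  · rw [ind_neg (Nat.not_even_iff_odd.2 h), h.neg_one_pow]; norm_num

theorem prod_xr_LA4 {Y : Type} (Z : Y → Finset ι) (U : Finset Y) (w : ι → Bool) :
    ∏ y ∈ U, ∏ a ∈ Z y, sg (w a) = ∏ a ∈ xr Z U, sg (w a) := by
  classical
  have e1 : ∀ y, ∏ a ∈ Z y, sg (w a) = ∏ a, if a ∈ Z y then sg (w a) else 1 := fun y => by
    rw [← prod_filter]; simp
  simp only [e1]
  rw [prod_comm]
  unfold xr
  rw [flt_eq univ, prod_filter]
  refine prod_congr rfl fun a _ => ?_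
  rw [← prod_filter, prod_const, flt_eq U]
  split_ifs with h
  · cases w a
    · simp [h.neg_one_pow]
    · simp
  · have h' := Nat.not_odd_iff_even.1 h
    cases w a
    · simp [h'.neg_one_pow]
    · simp

theorem Ex_sg_LA4 (b : ι → ℝ) (A : Finset ι) :
    Ex (bern (fun i => (1 + b i) / 2)) (fun w => ∏ a ∈ A, sg (w a)) = ∏ a ∈ A, b a := by
  have h := Ex_prod (bern (fun i => (1 + b i) / 2)) (fun i c => if i ∈ A then sg c else 1)
  have e1 : ∀ w : ι → Bool, (∏ i, if i ∈ A then sg (w i) else 1) = ∏ a ∈ A, sg (w a) := fun w => by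
    rw [← prod_filter]; simp
  simp only [e1] at h
  rw [h]
  have e2 : (∏ a ∈ A, b a) = ∏ i, if i ∈ A then b i else 1 := by
    rw [← prod_filter]; simp
  rw [e2]
  refine prod_congr rfl fun i _ => ?_
  split_ifs
  · simp [bern]; ring
  · simp [bern]

theorem term_LA4 (X T : Finset ι) {b : ι → ℝ} {δ : ℝ} (hb : ∀ i, |b i| ≤ δ) (hδ : δ ≤ 1)
    {F : (ι → Bool) → ℝ} (hF0 : ∀ w, 0 ≤ F w) (hF : Dep F T) :
    |Ex (bern (fun i => (1 + b i) / 2)) (fun w => F w * ∏ a ∈ X, sg (w a))| ≤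
      Ex (bern (fun i => (1 + b i) / 2)) F * δ ^ (X \ T).card := by
  have hp : IsP (bern (fun i => (1 + b i) / 2)) :=
    isP_bern (fun i => by have := (abs_le.1 (hb i)).1; linarith)
      (fun i => by have := (abs_le.1 (hb i)).2; linarith)
  have e1 : ∀ w : ι → Bool, F w * ∏ a ∈ X, sg (w a) =
      (F w * ∏ a ∈ X ∩ T, sg (w a)) * ∏ a ∈ X \ T, sg (w a) := fun w => by
    rw [mul_assoc, prod_inter_mul_prod_sdiff]
  rw [Ex_congr _ e1, Ex_mul_of_disjoint hp (A := T) (B := X \ T) ?_ ?_ disjoint_sdiff, abs_mul,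
    Ex_sg_LA4]
  · refine mul_le_mul ?_ ?_ (abs_nonneg _) (Ex_nonneg hp hF0)
    · refine (abs_Ex_le hp _).trans (le_of_eq (Ex_congr _ fun w => ?_))
      rw [abs_mul, abs_prod, abs_of_nonneg (hF0 w)]
      simp [abs_sg]
    · rw [abs_prod, ← prod_const]
      exact prod_le_prod (fun i _ => abs_nonneg _) fun i _ => hb i
  · intro w w' hw
    show F w * _ = F w' * _
    rw [hF w w' hw]
    congr 1
    exact prod_congr rfl fun a ha => by rw [hw a (mem_inter.1 ha).2]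
  · intro w w' hw
    exact prod_congr rfl fun a ha => by rw [hw a ha]

theorem fourier_LA4 {Y : Type} (Z : Y → Finset ι) (cp : Y → ℕ) (S : Finset Y) (T : Finset ι)
    {b : ι → ℝ} {δ : ℝ} (hb : ∀ i, |b i| ≤ δ) (hδ0 : 0 ≤ δ) (hδ : δ ≤ 1) (l : ℕ)
    (hx : ∀ U ⊆ S, l * U.card ≤ (xr Z U \ T).card) (hS : S.card * δ ^ l ≤ 1 / 4)
    {F : (ι → Bool) → ℝ} (hF0 : ∀ w, 0 ≤ F w) (hF : Dep F T) :
    |2 ^ S.card * Ex (bern (fun i => (1 + b i) / 2)) (fun w => F w * ind (par Z cp S w)) -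
        Ex (bern (fun i => (1 + b i) / 2)) F| ≤ Ex (bern (fun i => (1 + b i) / 2)) F / 2 := by
  classical
  have hp : IsP (bern (fun i => (1 + b i) / 2)) :=
    isP_bern (fun i => by have := (abs_le.1 (hb i)).1; linarith)
      (fun i => by have := (abs_le.1 (hb i)).2; linarith)
  set p := bern (fun i => (1 + b i) / 2) with hpdef
  have hE := Ex_nonneg hp hF0
  set t : Finset Y → ℝ := fun U =>
    (∏ y ∈ U, (-1 : ℝ) ^ cp y) * Ex p (fun w => F w * ∏ a ∈ xr Z U, sg (w a)) with ht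
  have e1 : 2 ^ S.card * Ex p (fun w => F w * ind (par Z cp S w)) = ∑ U ∈ S.powerset, t U := by
    rw [← Ex_const_mul]
    simp only [ht, ← Ex_const_mul]
    rw [← Ex_sum]
    refine Ex_congr _ fun w => ?_
    rw [mul_left_comm, two_pow_par_LA4, prod_one_add, mul_sum]
    refine sum_congr rfl fun U _ => ?_
    rw [prod_mul_distrib, prod_xr_LA4]
    ring
  have e0 : t ∅ = Ex p F := by
    have : xr Z (∅ : Finset Y) = ∅ := by
      ext a; simp [xr, flt_eq]
    simp [ht, this]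
  have hbound : ∀ U ∈ S.powerset, |t U| ≤ Ex p F * (δ ^ l) ^ U.card := by
    intro U hU
    have h1 : |∏ y ∈ U, (-1 : ℝ) ^ cp y| = 1 := by
      rw [abs_prod]; simp
    rw [ht]
    simp only
    rw [abs_mul, h1, one_mul]
    refine (term_LA4 _ T hb hδ hF0 hF).trans (mul_le_mul_of_nonneg_left ?_ hE)
    rw [← pow_mul]
    exact pow_le_pow_of_le_one hδ0 hδ (hx U (mem_powerset.1 hU))
  have hmem : (∅ : Finset Y) ∈ S.powerset := empty_mem_powerset S
  have e2 : ∑ U ∈ S.powerset, (δ ^ l) ^ U.card = (1 + δ ^ l) ^ S.card := by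
    rw [← prod_const, prod_one_add]
    exact sum_congr rfl fun U _ => (prod_const _).symm
  have e3 : (1 + δ ^ l) ^ S.card ≤ 3 / 2 := by
    have h1 : (1 + δ ^ l) ^ S.card ≤ Real.exp (δ ^ l) ^ S.card :=
      pow_le_pow_left₀ (by positivity) (by linarith [Real.add_one_le_exp (δ ^ l)]) _
    rw [← Real.exp_nat_mul] at h1
    have h2 := Real.exp_le_exp.2 hS
    have h3 := (abs_le.1 (Real.abs_exp_sub_one_sub_id_le (x := 1 / 4) (by norm_num [abs_le]))).2
    linarith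
  rw [e1, ← add_sum_erase _ _ hmem, e0, add_sub_cancel_left]
  rw [← add_sum_erase _ _ hmem, card_empty, pow_zero] at e2
  calc |∑ U ∈ S.powerset.erase ∅, t U| ≤ ∑ U ∈ S.powerset.erase ∅, |t U| := abs_sum_le_sum_abs _ _
    _ ≤ ∑ U ∈ S.powerset.erase ∅, Ex p F * (δ ^ l) ^ U.card :=
        sum_le_sum fun U hU => hbound U (mem_of_mem_erase hU)
    _ = Ex p F * ((1 + δ ^ l) ^ S.card - 1) := by rw [← mul_sum, ← e2]; ring
    _ ≤ Ex p F * (1 / 2) := mul_le_mul_of_nonneg_left (by linarith) hE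
    _ = Ex p F / 2 := by ring

/-- conditioning on many parity constraints barely changes what is seen on T -/
theorem fourier {Y : Type} (Z : Y → Finset ι) (cp : Y → ℕ) (S : Finset Y) (T : Finset ι)
    {b : ι → ℝ} {δ : ℝ} (hb : ∀ i, |b i| ≤ δ) (hδ : δ ≤ 1) (l : ℕ)
    (hx : ∀ U ⊆ S, l * U.card ≤ (xr Z U \ T).card) (hS : S.card * δ ^ l ≤ 1 / 4)
    {F : (ι → Bool) → ℝ} (hF0 : ∀ w, 0 ≤ F w) (hF : Dep F T) :
    |2 ^ S.card * Ex (bern (fun i => (1 + b i) / 2)) (fun w => F w * ind (par Z cp S w)) -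
        Ex (bern (fun i => (1 + b i) / 2)) F| ≤ Ex (bern (fun i => (1 + b i) / 2)) F / 2 := by
  refine fourier_LA4 Z cp S T (δ := max δ 0) (fun i => (hb i).trans (le_max_left _ _))
    (le_max_right _ _) (max_le hδ zero_le_one) l hx ?_ hF0 hF
  rcases le_total 0 δ with h | h
  · rwa [max_eq_left h]
  · rw [max_eq_right h]
    rcases Nat.eq_zero_or_pos l with hl | hl
    · rw [hl, pow_zero] at hS ⊢; exact hS
    · rw [zero_pow hl.ne']; norm_num

end Pool.Agent.P.MP_b5e666_co.Lar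
end
end

-- part Pool.Agent.P.MP_b5e666_co.LD0
section

set_option autoImplicit false

open Finset

noncomputable section

namespace Pool.Agent.P.MP_b5e666_co.Lar

section fam
variable {N k q : ℕ}

/-- the view of two universes (empty on the diagonal) -/
def vw (f : Fin N → Fin k → Fin q) (x y : Fin N) : Finset (Fin k) :=
  flt univ (fun a => x ≠ y ∧ f x a = f y a)

/-- the cells of a universe -/
def cel (f : Fin N → Fin k → Fin q) (x : Fin N) : Finset (Fin k × Fin q) :=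
  flt univ (fun p => f x p.1 = p.2)

/-- the edges of a graph on cells that lie inside a universe -/
def edg (f : Fin N → Fin k → Fin q) (Γ : Finset ((Fin k × Fin q) × (Fin k × Fin q))) (x : Fin N) :
    Finset ((Fin k × Fin q) × (Fin k × Fin q)) :=
  flt Γ (fun e => e.1 ∈ cel f x ∧ e.2 ∈ cel f x)

theorem mem_vw {f : Fin N → Fin k → Fin q} {x y : Fin N} {a : Fin k} :
    a ∈ vw f x y ↔ x ≠ y ∧ f x a = f y a := by simp [vw]

theorem mem_cel {f : Fin N → Fin k → Fin q} {x : Fin N} {p : Fin k × Fin q} :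
    p ∈ cel f x ↔ f x p.1 = p.2 := by simp [cel]

theorem vw_symm (f : Fin N → Fin k → Fin q) (x y : Fin N) : vw f x y = vw f y x := by
  ext a; simp only [mem_vw]; constructor <;> exact fun h => ⟨h.1.symm, h.2.symm⟩

theorem vw_self (f : Fin N → Fin k → Fin q) (x : Fin N) : vw f x x = ∅ := by
  ext a; simp [mem_vw]

def V1 (f : Fin N → Fin k → Fin q) (iu : ℕ) : Prop := ∀ x y, (vw f x y).card ≤ iu
def V1' (f : Fin N → Fin k → Fin q) (i : ℕ) : Prop := ∀ x y, x ≠ y → i ≤ 2 * (vw f x y).card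
def V2 (f : Fin N → Fin k → Fin q) (c1 : ℕ) : Prop :=
  ∀ x y y', y ≠ y' → (vw f x y ∩ vw f x y').card ≤ c1
def V3 (f : Fin N → Fin k → Fin q) (jm : ℕ) : Prop :=
  ∀ Q : Finset (Fin k × Fin q), Q.card ≤ jm →
    ((flt univ (fun y => Q ⊆ cel f y)).card : ℝ) ≤ 6 * N / (q : ℝ) ^ Q.card
def V4 (f : Fin N → Fin k → Fin q) (z4 c2 : ℕ) : Prop :=
  ∀ (x : Fin N) (W : Finset (Fin k)) (Y : Finset (Fin N)), W.card ≤ z4 → Y.card ≤ z4 →
    ∑ y ∈ Y, (W ∩ vw f x y).card ≤ c2 * (W.card + Y.card)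
def V9 (f : Fin N → Fin k → Fin q) (du l2 : ℕ) : Prop :=
  ∀ (x : Fin N) (U : Finset (Fin N)), x ∉ U → U.card ≤ du →
    l2 * U.card ≤ (U.biUnion (vw f x)).card
def V5 (M : Fin N → Fin N → Finset (Fin k)) (ml mu : ℕ) : Prop :=
  ∀ x y, x ≠ y → ml ≤ (M x y).card ∧ (M x y).card ≤ mu
def V6 (Z : Fin N → Fin N → Finset (Fin k)) (du lx : ℕ) : Prop :=
  ∀ (x : Fin N) (U : Finset (Fin N)), x ∉ U → U.card ≤ du → lx * U.card ≤ (xr (Z x) U).card
def V7 (f : Fin N → Fin k → Fin q) (Z : Fin N → Fin N → Finset (Fin k)) (Mr : ℕ) : Prop :=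
  ∀ X : Finset (Fin N), Mr ≤ X.card → ∀ A1 A0 : Finset (Fin k), Disjoint A1 A0 →
    A1.card + A0.card ≤ 2 → ∃ x ∈ X, ∃ y ∈ X, x ≠ y ∧
      (∀ a ∈ A1, a ∈ vw f x y → a ∈ Z x y) ∧ ∀ a ∈ A0, a ∉ Z x y
/-- a good set of zero columns -/
def Zer (f : Fin N → Fin k → Fin q) (M : Fin N → Fin N → Finset (Fin k))
    (Γ : Finset ((Fin k × Fin q) × (Fin k × Fin q))) (z1 nu : ℕ) (x : Fin N) (C : Finset (Fin k)) :
    Prop :=
  C.card ≤ 2 * z1 ∧ (∀ e ∈ edg f Γ x, e.1.1 ∈ C ∨ e.2.1 ∈ C) ∧ ∀ y, (C ∩ M x y).card ≤ nu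
def V8 (f : Fin N → Fin k → Fin q) (M : Fin N → Fin N → Finset (Fin k)) (e0 z1 nu : ℕ) : Prop :=
  ∀ Γ : Finset ((Fin k × Fin q) × (Fin k × Fin q)), Γ.card ≤ e0 → (∀ e ∈ Γ, e.1.1 ≠ e.2.1) →
    10 * (flt univ (fun x => (edg f Γ x).card ≤ z1 ∧ ¬ ∃ C, Zer f M Γ z1 nu x C)).card ≤ N

/-- the part of the views selected by symmetric labels -/
def lab {β : Type} (f : Fin N → Fin k → Fin q) (h : Sym2 (Fin N) → Fin k → β) (b : β)
    (x y : Fin N) : Finset (Fin k) := flt (vw f x y) (fun a => h s(x, y) a = b)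

end fam

/-- universes with their parity and majority parts -/
structure Fam (P : Par) where
  f : Fin P.N → Fin P.k → Fin P.q
  Z : Fin P.N → Fin P.N → Finset (Fin P.k)
  M : Fin P.N → Fin P.N → Finset (Fin P.k)

structure Fam.Ok {P : Par} (Φ : Fam P) : Prop where
  Zs : ∀ x y, Φ.Z x y ⊆ vw Φ.f x y
  Ms : ∀ x y, Φ.M x y ⊆ vw Φ.f x y
  Zc : ∀ x y, Φ.Z x y = Φ.Z y x
  Mc : ∀ x y, Φ.M x y = Φ.M y x
  v1 : V1 Φ.f P.iu
  v2 : V2 Φ.f P.c1
  v3 : V3 Φ.f (2 * P.j)
  v5 : V5 Φ.M P.ml P.mu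
  v6 : V6 Φ.Z P.du P.lx
  v7 : V7 Φ.f Φ.Z P.Mr
  v8 : V8 Φ.f Φ.M P.e0 P.z1 P.nu

/-- plus signs minus the rest -/
def score {k : ℕ} (A : Finset (Fin k)) (s : Fin k → SignType) : ℤ :=
  ∑ a ∈ A, if s a = 1 then 1 else -1

namespace Fam
variable {P : Par} (Φ : Fam P)

def cp (x y : Fin P.N) : ℕ := if x < y then 0 else (Φ.Z x y).card + 1

def Pary (x y : Fin P.N) (s : Fin P.k → SignType) : Prop :=
  Even ((flt (Φ.Z x y) (fun a => s a = -1)).card + Φ.cp x y)

def Big (x y : Fin P.N) (s : Fin P.k → SignType) : Prop :=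
  3 * (P.nu : ℤ) + 1 ≤ score (Φ.M x y) s

def Win (x y : Fin P.N) (s : Fin P.k → SignType) : Prop :=
  Φ.Big x y s ∨ (-(3 * (P.nu : ℤ)) ≤ score (Φ.M x y) s ∧ (∀ a ∈ Φ.Z x y, s a ≠ 0) ∧ Φ.Pary x y s)

def Valid (x : Fin P.N) (s : Fin P.k → SignType) : Prop :=
  (∀ y, x ≠ y → Φ.Win x y s) ∧ P.N < 2 * (flt univ (fun y => Φ.Big x y s)).card

/-- the columns of agreement -/
def agr (x y : Fin P.N) (s s' : Fin P.k → SignType) : Finset (Fin P.k) :=
  flt (vw Φ.f x y) (fun a => s a = s' a ∧ s a ≠ 0)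

def Proper (col : Fin P.N → (Fin P.k → SignType) → Fin P.n) : Prop :=
  ∀ x y s s', x ≠ y → Φ.Valid x s → Φ.Valid y s' → col x s = col y s' → (Φ.agr x y s s').card ≠ 1

end Fam

/-- patterns: some columns carry a cell and a value -/
abbrev Pat (k q : ℕ) : Type := Fin k → Option (Fin q × SignType)

section pat
variable {N k q : ℕ}
def cols (φ : Pat k q) : Finset (Fin k) := flt univ (fun a => φ a ≠ none)
def zc (φ : Pat k q) : Finset (Fin k) := flt univ (fun a => ∃ b, φ a = some (b, 0))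
def nz (φ : Pat k q) : Finset (Fin k) := flt univ (fun a => ∃ b v, φ a = some (b, v) ∧ v ≠ 0)
def Has (f : Fin N → Fin k → Fin q) (x : Fin N) (φ : Pat k q) : Prop :=
  ∀ a b v, φ a = some (b, v) → f x a = b
def Fit (s : Fin k → SignType) (φ : Pat k q) : Prop := ∀ a b v, φ a = some (b, v) → s a = v
def Alw (φ : Pat k q) : Prop := (cols φ).card ≤ 2 ∧ (nz φ).card ≤ 1
def sgn (b : Bool) : SignType := if b then 1 else -1
/-- signs w, overwritten by the values of the pattern -/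
def ext (φ : Pat k q) (w : Fin k → Bool) (a : Fin k) : SignType :=
  match φ a with
  | some bv => bv.2
  | none => sgn (w a)
/-- signs w with zeros on C -/
def zer (C : Finset (Fin k)) (w : Fin k → Bool) (a : Fin k) : SignType :=
  if a ∈ C then 0 else sgn (w a)
end pat

/-- every small set of columns off F meets at most a 1/c part of the views of the pool -/
def Spread {Y ι : Type} [DecidableEq ι] (I : Y → Finset ι) (F : Finset ι) (z0 c : ℕ)
    (Pl : Finset Y) : Prop :=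
  ∀ U : Finset ι, Disjoint U F → U.card ≤ z0 →
    c * (flt Pl (fun y => (I y ∩ U).Nonempty)).card ≤ Pl.card

namespace Fam
variable {P : Par} (Φ : Fam P) (col : Fin P.N → (Fin P.k → SignType) → Fin P.n)

def Hit (γ : Fin P.n) (x y : Fin P.N) (φ : Pat P.k P.q) (w : Fin P.k → Bool) : Prop :=
  Φ.Pary x y (ext φ w) ∧ ∃ s, Φ.Valid x s ∧ col x s = γ ∧ ∀ a ∈ vw Φ.f x y, s a = ext φ w a

def Small (γ : Fin P.n) (x y : Fin P.N) (φ : Pat P.k P.q) : Prop :=
  Pr (unif (Fin P.k) Bool) (Φ.Hit col γ x y φ) ≤ 1 / 4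

def Arc (γ : Fin P.n) (φ : Pat P.k P.q) (x y : Fin P.N) : Prop :=
  x ≠ y ∧ Has Φ.f y φ ∧ (∀ a ∈ zc φ, a ∉ Φ.Z x y) ∧ Φ.Small col γ x y φ

def Killed (γ : Fin P.n) (μ : ℕ) (φ : Pat P.k P.q) (x : Fin P.N) : Prop :=
  ∃ Pl : Finset (Fin P.N), μ ≤ Pl.card ∧ (∀ y ∈ Pl, Φ.Arc col γ φ x y) ∧
    Spread (vw Φ.f x) (cols φ) P.z0 4 Pl

end Fam

end Pool.Agent.P.MP_b5e666_co.Lar
end
end

-- part Pool.Agent.P.MP_b5e666_co.LC0
section

set_option autoImplicit false

open Finset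

noncomputable section

namespace Pool.Agent.P.MP_b5e666_co.Lar

/-- the local picture at one universe -/
structure Loc (P : Par) where
  I : Fin P.N → Finset (Fin P.k)
  Z : Fin P.N → Finset (Fin P.k)
  M : Fin P.N → Finset (Fin P.k)
  Ys : Finset (Fin P.N)
  cp : Fin P.N → ℕ
  σ : Fin P.N → ℝ

/-- a target: fixed columns, a pool, and one event per member of the pool -/
structure Tgt (P : Par) where
  F : Finset (Fin P.k)
  Pl : Finset (Fin P.N)
  H : Fin P.N → (Fin P.k → Bool) → Prop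

namespace Loc
variable {P : Par} (D : Loc P)

structure Ok : Prop where
  hI : ∀ y, (D.I y).card ≤ P.iu
  hc1 : ∀ y y', y ≠ y' → (D.I y ∩ D.I y').card ≤ P.c1
  hZ : ∀ y, D.Z y ⊆ D.I y
  hM : ∀ y, D.M y ⊆ D.I y
  hmu : ∀ y, (D.M y).card ≤ P.mu
  hj : ∀ Q : Finset (Fin P.k), Q.card ≤ 2 * P.j →
    ((flt univ (fun y => Q ⊆ D.I y)).card : ℝ) ≤ P.bq Q.card
  hX : ∀ U ⊆ D.Ys, U.card ≤ P.du → P.lx * U.card ≤ (xr D.Z U).card
  h0 : ∀ y, 0 ≤ D.σ y
  h1 : ∀ y, D.σ y ≤ P.smax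
  hs : ∀ y, y ∉ D.Ys → D.σ y = 0
  ht : ∑ y, D.σ y ≤ P.Del

structure TOk (t : Tgt P) : Prop where
  big : 3 * P.mu0 ≤ 4 * t.Pl.card
  wt : ∀ y ∈ t.Pl, P.lam / t.Pl.card ≤ D.σ y
  spr : Spread D.I t.F P.z0 3 t.Pl
  dep : ∀ y ∈ t.Pl, Dep (t.H y) (D.I y \ t.F)
  sm : ∀ y ∈ t.Pl, Pr (unif (Fin P.k) Bool) (t.H y) ≤ 1 / 4

/-- expected number of chosen views through a column -/
def r (p : Fin P.k) : ℝ := ∑ y, D.σ y * ind (p ∈ D.I y)
/-- overloaded columns -/
def E : Finset (Fin P.k) := flt univ (fun p => P.V < D.r p)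
/-- number of chosen views through a column -/
def mult (S : Finset (Fin P.N)) (p : Fin P.k) : ℝ := ((flt S (fun y => p ∈ D.I y)).card : ℝ)
def bias (S : Finset (Fin P.N)) (p : Fin P.k) : ℝ :=
  if p ∈ D.E then P.eps else P.eps * (1 + D.r p - D.mult S p)
/-- the law of the signs given the chosen views -/
def law (S : Finset (Fin P.N)) : Fin P.k → Bool → ℝ := bern (fun p => (1 + D.bias S p) / 2)
def Good (S : Finset (Fin P.N)) : Prop :=
  S ⊆ D.Ys ∧ S.card ≤ P.du ∧ (∀ p, |D.bias S p| ≤ P.del) ∧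
    ∀ y, (if y ∈ S then 0 else P.eps * (D.M y).card) - P.nu ≤ ∑ p ∈ D.M y, D.bias S p
/-- weight of an event given the chosen views -/
def Qs (A : Finset (Fin P.N) → (Fin P.k → Bool) → Prop) (S : Finset (Fin P.N)) : ℝ :=
  ind (D.Good S) * (2 ^ S.card * Pr (D.law S) (fun w => par D.Z D.cp S w ∧ A S w))
/-- the planted measure -/
def Qm (A : Finset (Fin P.N) → (Fin P.k → Bool) → Prop) : ℝ :=
  Ex (bern D.σ) (fun ξ => D.Qs A (supp ξ))
/-- heavy pairs of columns -/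
def hv (p p' : Fin P.k) : Prop :=
  p ≠ p' ∧ p ∉ D.E ∧ p' ∉ D.E ∧ P.th < ∑ y, D.σ y * ind (p ∈ D.I y ∧ p' ∈ D.I y)
def Bad (y : Fin P.N) : Prop :=
  P.j ≤ (D.I y ∩ D.E).card ∨ ¬ ∃ T0 : Finset (Fin P.k), T0.card ≤ 2 * P.j ∧
    ∀ p ∈ D.I y, ∀ p' ∈ D.I y, D.hv p p' → p ∈ T0 ∨ p' ∈ T0
def Clean (F : Finset (Fin P.k)) (Ds : Finset (Fin P.N)) : Prop :=
  (∀ y ∈ Ds, ¬ D.Bad y) ∧ ∀ y ∈ Ds, ∀ y' ∈ Ds, y ≠ y' →
    Disjoint (D.I y \ F) (D.I y' \ F) ∧ ∀ p ∈ D.I y \ F, ∀ p' ∈ D.I y' \ F, ¬ D.hv p p'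
/-- unmarked views that meet T2 exactly in p -/
def Sing (D0 : Finset (Fin P.N)) (T2 : Finset (Fin P.k)) (p : Fin P.k) : Finset (Fin P.N) :=
  flt univ (fun y => y ∉ D0 ∧ D.I y ∩ T2 = {p})
/-- unmarked views that meet T2 at least twice -/
def Mul (D0 : Finset (Fin P.N)) (T2 : Finset (Fin P.k)) : Finset (Fin P.N) :=
  flt univ (fun y => y ∉ D0 ∧ 2 ≤ (D.I y ∩ T2).card)
def a0 (D0 : Finset (Fin P.N)) (T2 : Finset (Fin P.k)) (c : Fin P.N → ℝ) (p : Fin P.k) : ℝ :=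
  1 - D.mult D0 p + (D.r p - ∑ y ∈ D.Sing D0 T2 p, c y)

/-- hypotheses of the density bound -/
structure RhoH (D0 Ds : Finset (Fin P.N)) (T2 : Finset (Fin P.k)) (a c : Fin P.N → ℝ) : Prop where
  sub : Ds ⊆ D0
  c0 : D0.card ≤ P.lam2
  cs : Ds.card ≤ P.L
  one : ∀ p ∈ T2, (flt Ds (fun y => p ∈ D.I y)).card = 1
  nE : ∀ p ∈ T2, p ∉ D.E
  nh : ∀ p ∈ T2, ∀ p' ∈ T2, ¬ D.hv p p'
  ha : ∀ y, 0 ≤ a y
  hat : ∑ y, a y ≤ P.lam
  hc0 : ∀ y, 0 ≤ c y
  hc1 : ∀ y, c y ≤ D.σ y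
  hc2 : ∀ y, D.σ y - a y ≤ c y

theorem le_one (hP : P.Ok) (hD : D.Ok) (y : Fin P.N) : D.σ y ≤ 1 := by
  have := hD.h1 y; have := hP.hsmax; linarith

theorem isP_sig (hP : P.Ok) (hD : D.Ok) : IsP (bern D.σ) := isP_bern hD.h0 (D.le_one hP hD)

theorem isP_law (hP : P.Ok) {S : Finset (Fin P.N)} (h : ∀ p, |D.bias S p| ≤ P.del) :
    IsP (D.law S) := by
  refine isP_bern (fun p => ?_) (fun p => ?_)
  · have := (abs_le.1 (h p)).1; have := hP.hdel1; linarith
  · have := (abs_le.1 (h p)).2; have := hP.hdel1; linarith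

theorem mult_eq (S : Finset (Fin P.N)) (p : Fin P.k) :
    D.mult S p = ∑ y ∈ S, ind (p ∈ D.I y) := card_flt _ _

theorem r_le {p : Fin P.k} (h : p ∉ D.E) : D.r p ≤ P.V := by
  by_contra hc; exact h (mem_flt.2 ⟨mem_univ _, not_le.1 hc⟩)

end Loc

end Pool.Agent.P.MP_b5e666_co.Lar
end
end

-- part Pool.Agent.P.MP_b5e666_co.LF0
section

set_option autoImplicit false

open Finset

noncomputable section

namespace Pool.Agent.P.MP_b5e666_co.Lar

variable {N k q : ℕ}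

/-- subtract row x from all other rows -/
def shf [NeZero q] (x : Fin N) (f : Fin N → Fin k → Fin q) : Fin N → Fin k → Fin q :=
  fun y a => if y = x then f x a else f y a - f x a

/-- the zero set of row y -/
def zv [NeZero q] (x : Fin N) (f : Fin N → Fin k → Fin q) (y : Fin N) : Finset (Fin k) :=
  flt univ (fun a => x ≠ y ∧ f y a = 0)

theorem vw_eq_zv [NeZero q] (x : Fin N) (f : Fin N → Fin k → Fin q) :
    vw f x = zv x (shf x f) := by
  funext y
  ext a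
  simp only [mem_vw, zv, mem_flt, mem_univ, true_and, shf]
  constructor
  · rintro ⟨h1, h2⟩
    refine ⟨h1, ?_⟩
    rw [if_neg (fun h => h1 h.symm), h2, sub_self]
  · rintro ⟨h1, h2⟩
    refine ⟨h1, ?_⟩
    rw [if_neg (fun h => h1 h.symm)] at h2
    exact (sub_eq_zero.1 h2).symm

/-- the shift as a bijection -/
def shfE_LF0 [NeZero q] (x : Fin N) : (Fin N → Fin k → Fin q) ≃ (Fin N → Fin k → Fin q) where
  toFun := shf x
  invFun := fun g y a => if y = x then g x a else g y a + g x a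
  left_inv := by
    intro f
    funext y a
    by_cases h : y = x
    · subst h; simp [shf]
    · simp [shf, h]
  right_inv := by
    intro g
    funext y a
    by_cases h : y = x
    · subst h; simp [shf]
    · simp [shf, h]

/-- seen from x, the views are zero sets of independent uniform rows -/
theorem Pr_vw [NeZero q] (x : Fin N) (A : (Fin N → Finset (Fin k)) → Prop) :
    Pr (unif (Fin N) (Fin k → Fin q)) (fun f => A (vw f x)) =
      Pr (unif (Fin N) (Fin k → Fin q)) (fun f => A (zv x f)) := by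
  rw [← Pr_unif_equiv (shfE_LF0 (k := k) (q := q) x) (fun f => A (zv x f))]
  refine Pr_congr _ fun f => ?_
  rw [vw_eq_zv]
  rfl

/-- rows and columns may be exchanged -/
theorem Pr_swap {α β γ : Type} [Fintype α] [DecidableEq α] [Fintype β] [DecidableEq β]
    [Fintype γ] (A : (α → β → γ) → Prop) :
    Pr (unif α (β → γ)) A = Pr (unif β (α → γ)) (fun f => A (fun x a => f a x)) :=
  (Pr_unif_equiv (Equiv.piComm (fun (_ : β) (_ : α) => γ)) A).symm

/-- uncurried form -/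
theorem Pr_uncurry {α β γ : Type} [Fintype α] [DecidableEq α] [Fintype β] [DecidableEq β]
    [Fintype γ] (A : (α → β → γ) → Prop) :
    Pr (unif α (β → γ)) A = Pr (unif (α × β) γ) (fun f => A (fun x a => f (x, a))) :=
  (Pr_unif_equiv (Equiv.curry α β γ) A).symm

/-- cylinder events -/
theorem Pr_cyl {α γ : Type} [Fintype α] [DecidableEq α] [Fintype γ] [Nonempty γ] (W : Finset α)
    (B : α → γ → Prop) :
    Pr (unif α γ) (fun f => ∀ a ∈ W, B a (f a)) =
      ∏ a ∈ W, ((flt univ (B a)).card : ℝ) / Fintype.card γ := by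
  have hp : IsP (unif α γ) := isP_unif
  have h := Ex_prod (unif α γ) (fun a c => if a ∈ W then ind (B a c) else 1)
  have e1 : ∀ f : α → γ, ind (∀ a ∈ W, B a (f a)) =
      ∏ a, (if a ∈ W then ind (B a (f a)) else 1) := by
    intro f
    rw [ind_forall, Finset.prod_ite_mem, univ_inter]
  have e2 : ∀ a : α, (∑ c, unif α γ a c * (if a ∈ W then ind (B a c) else 1)) =
      if a ∈ W then ((flt univ (B a)).card : ℝ) / Fintype.card γ else 1 := by
    intro a
    by_cases ha : a ∈ W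
    · simp only [if_pos ha]
      rw [card_flt, sum_div]
      refine sum_congr rfl fun c _ => ?_
      unfold unif
      rw [div_eq_mul_inv, mul_comm]
    · simp only [if_neg ha, mul_one]
      exact hp.2 a
  unfold Pr
  rw [Ex_congr _ e1, h]
  simp only [e2]
  rw [Finset.prod_ite_mem, univ_inter]

theorem sum_unif_eq {α γ : Type} [Fintype γ] (a : α) (b : γ) :
    ∑ c, unif α γ a c * ind (c = b) = (Fintype.card γ : ℝ)⁻¹ := by
  rw [Finset.sum_eq_single b]
  · rw [ind_pos rfl, mul_one]; rfl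
  · intro c _ hc
    rw [ind_neg hc, mul_zero]
  · intro h
    exact absurd (mem_univ b) h

end Pool.Agent.P.MP_b5e666_co.Lar
end
end

-- part Pool.Agent.P.MP_b5e666_co.LT1
section

set_option autoImplicit false

open Finset

noncomputable section

namespace Pool.Agent.P.MP_b5e666_co.Lar

variable {P : Par} {Φ : Fam P} {col : Fin P.N → (Fin P.k → SignType) → Fin P.n}

theorem card_erase_LT1 {α : Type} [DecidableEq α] {Z : Finset α} {a : α} (ha : a ∈ Z)
    (p : α → Prop) [Decidable (p a)] :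
    (flt Z p).card = (flt (Z.erase a) p).card + if p a then 1 else 0 := by
  split_ifs with h
  · have e : flt Z p = insert a (flt (Z.erase a) p) := by
      ext b
      simp only [mem_flt, mem_insert, mem_erase]
      constructor
      · intro hb
        by_cases hba : b = a
        · exact Or.inl hba
        · exact Or.inr ⟨⟨hba, hb.1⟩, hb.2⟩
      · rintro (rfl | hb)
        · exact ⟨ha, h⟩
        · exact ⟨hb.1.2, hb.2⟩
    rw [e, card_insert_of_notMem (by simp)]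
  · rw [add_zero]
    congr 1
    ext b
    simp only [mem_flt, mem_erase]
    exact ⟨fun hb => ⟨⟨fun e => h (e ▸ hb.2), hb.1⟩, hb.2⟩, fun hb => ⟨hb.1.2, hb.2⟩⟩

theorem flt_congr_LT1 {α : Type} {Z : Finset α} {p q : α → Prop} (h : ∀ a ∈ Z, p a ↔ q a) :
    flt Z p = flt Z q := by
  ext a
  simp only [mem_flt]
  exact and_congr_right (h a)

theorem card_compl_LT1 {α : Type} {Z : Finset α} {p q : α → Prop} (h : ∀ a ∈ Z, q a ↔ ¬ p a) :
    (flt Z p).card + (flt Z q).card = Z.card := by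
  classical
  rw [flt_congr_LT1 h, flt_eq, flt_eq]
  exact card_filter_add_card_filter_not p

theorem ext_none_LT1 {k q : ℕ} {φ : Pat k q} {a : Fin k} (h : φ a = none) (w : Fin k → Bool) :
    ext φ w a = sgn (w a) := by
  unfold ext
  rw [h]

theorem ext_some_LT1 {k q : ℕ} {φ : Pat k q} {a : Fin k} {b : Fin q} {v : SignType}
    (h : φ a = some (b, v)) (w : Fin k → Bool) : ext φ w a = v := by
  unfold ext
  rw [h]

theorem ext_congr_LT1 {k q : ℕ} {φ : Pat k q} {a : Fin k} {w w' : Fin k → Bool}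
    (h : φ a = none → w a = w' a) : ext φ w a = ext φ w' a := by
  rcases hφ : φ a with _ | ⟨b, v⟩
  · rw [ext_none_LT1 hφ, ext_none_LT1 hφ, h hφ]
  · rw [ext_some_LT1 hφ, ext_some_LT1 hφ]

theorem sgn_not_LT1 (b : Bool) : sgn (!b) = -1 ↔ ¬ sgn b = -1 := by
  cases b <;> simp [sgn]

theorem sgn_ne_LT1 (b : Bool) : sgn b ≠ sgn (!b) := by
  cases b <;> simp [sgn]

theorem sgn_zero_LT1 (b : Bool) : sgn b ≠ 0 := by
  cases b <;> simp [sgn]

theorem Pr_inv_LT1 {ι : Type} [Fintype ι] [DecidableEq ι] {Ψ : (ι → Bool) → (ι → Bool)}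
    (h : Function.Involutive Ψ) (A : (ι → Bool) → Prop) :
    Pr (unif ι Bool) (fun w => A (Ψ w)) = Pr (unif ι Bool) A :=
  Pr_unif_equiv (h.toPerm Ψ) A

theorem card_Z (hP : P.Ok) (hΦ : Φ.Ok) {x y : Fin P.N} (hxy : x ≠ y) : 3 ≤ (Φ.Z x y).card := by
  have h := hΦ.v6 x {y} (by simpa using hxy) (by simpa using hP.hdu)
  have e : xr (Φ.Z x) {y} = Φ.Z x y := by
    ext a
    simp only [xr, mem_flt, mem_univ, true_and]
    by_cases ha : a ∈ Φ.Z x y
    · have : flt ({y} : Finset (Fin P.N)) (fun y' => a ∈ Φ.Z x y') = {y} := by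
        ext b
        simp only [mem_flt, mem_singleton]
        exact ⟨fun hb => hb.1, fun hb => ⟨hb, hb ▸ ha⟩⟩
      rw [this]
      simp [ha]
    · have : flt ({y} : Finset (Fin P.N)) (fun y' => a ∈ Φ.Z x y') = ∅ := by
        ext b
        simp only [mem_flt, mem_singleton, notMem_empty, iff_false, not_and]
        rintro rfl
        exact ha
      rw [this]
      simp [ha]
  rw [e, card_singleton, mul_one] at h
  exact hP.hlx.trans h

/-- the parity condition holds for half of the sign vectors -/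
theorem Pr_pary {x y : Fin P.N} {φ : Pat P.k P.q} (h : ∃ a ∈ Φ.Z x y, a ∉ cols φ) :
    Pr (unif (Fin P.k) Bool) (fun w => Φ.Pary x y (ext φ w)) = 1 / 2 := by
  obtain ⟨a, ha, hc⟩ := h
  have hn : φ a = none := by simpa [cols] using hc
  have hinv : Function.Involutive (fun w : Fin P.k → Bool => Function.update w a (!w a)) := by
    intro w
    simp
  have key : ∀ w : Fin P.k → Bool,
      Φ.Pary x y (ext φ (Function.update w a (!w a))) ↔ ¬ Φ.Pary x y (ext φ w) := by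
    intro w
    unfold Fam.Pary
    rw [card_erase_LT1 ha, card_erase_LT1 ha (fun b => ext φ w b = -1),
      flt_congr_LT1 (q := fun b => ext φ w b = -1) (fun b hb => by
        rw [ext_congr_LT1 (w' := w) fun _ => Function.update_of_ne (mem_erase.1 hb).1 _ _]),
      ext_none_LT1 hn, ext_none_LT1 hn, Function.update_self]
    by_cases h1 : sgn (w a) = -1
    · rw [if_pos h1, if_neg (fun h2 => (sgn_not_LT1 _).1 h2 h1), Nat.even_iff, Nat.even_iff]
      omega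
    · rw [if_neg h1, if_pos ((sgn_not_LT1 _).2 h1), Nat.even_iff, Nat.even_iff]
      omega
  have h1 := Pr_inv_LT1 hinv (fun w => Φ.Pary x y (ext φ w))
  rw [Pr_congr _ key, Pr_not isP_unif] at h1
  linarith

/-- antipodal coupling: one of the two traces of a colour class is small -/
theorem coupling (hP : P.Ok) (hΦ : Φ.Ok) (hc : Φ.Proper col) (γ : Fin P.n) {x y : Fin P.N}
    (hxy : x ≠ y) {φ : Pat P.k P.q} (hφ : Alw φ) (h1 : ∀ a ∈ nz φ, a ∈ Φ.Z x y)
    (h0 : ∀ a ∈ zc φ, a ∉ Φ.Z x y) : Φ.Small col γ x y φ ∨ Φ.Small col γ y x φ := by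
  have h3 := card_Z hP hΦ hxy
  obtain ⟨z, hz, hnz⟩ : ∃ z ∈ Φ.Z x y, ∀ a ∈ nz φ, a = z := by
    rcases (nz φ).eq_empty_or_nonempty with he | ⟨z, hz⟩
    · obtain ⟨z, hz⟩ : (Φ.Z x y).Nonempty := card_pos.1 (by omega)
      exact ⟨z, hz, fun a ha => by rw [he] at ha; exact absurd ha (notMem_empty a)⟩
    · exact ⟨z, h1 z hz, fun a ha => card_le_one.1 hφ.2 a ha z hz⟩
  have hex : ∃ a ∈ Φ.Z x y, a ∉ cols φ :=
    exists_mem_notMem_of_card_lt_card (by have := hφ.1; omega)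
  let Ψ : (Fin P.k → Bool) → (Fin P.k → Bool) := fun w a => if a = z then w a else !w a
  have hinv : Function.Involutive Ψ := by
    intro w
    funext a
    by_cases h : a = z <;> simp [Ψ, h]
  have hΨz : ∀ w, ext φ (Ψ w) z = ext φ w z := fun w =>
    ext_congr_LT1 fun _ => by simp [Ψ]
  have hΨ : ∀ w a, a ≠ z → Ψ w a = !w a := fun w a ha => by simp [Ψ, ha]
  have hzero : ∀ a b v, a ≠ z → φ a = some (b, v) → v = 0 := by
    intro a b v ha h
    by_contra hv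
    exact ha (hnz a (mem_flt.2 ⟨mem_univ _, b, v, h, hv⟩))
  have hnone : ∀ a ∈ Φ.Z x y, a ≠ z → φ a = none := by
    intro a haZ ha
    rcases h : φ a with _ | ⟨b, v⟩
    · rfl
    · obtain rfl := hzero a b v ha h
      exact absurd haZ (h0 a (mem_flt.2 ⟨mem_univ _, b, h⟩))
  have hz0 : ∀ w, ext φ w z ≠ 0 := by
    intro w
    rcases h : φ z with _ | ⟨b, v⟩
    · rw [ext_none_LT1 h]
      exact sgn_zero_LT1 _
    · rw [ext_some_LT1 h]
      rintro rfl
      exact h0 z (mem_flt.2 ⟨mem_univ _, b, h⟩) hz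
  have hboth : ∀ w, Φ.Hit col γ x y φ w → Φ.Hit col γ y x φ (Ψ w) → False := by
    rintro w ⟨-, s, hs, hcs, he⟩ ⟨-, s', hs', hcs', he'⟩
    rw [vw_symm] at he'
    refine hc x y s s' hxy hs hs' (hcs.trans hcs'.symm) (card_eq_one.2 ⟨z, ?_⟩)
    ext a
    simp only [Fam.agr, mem_flt, mem_singleton]
    constructor
    · rintro ⟨ha, h2, h4⟩
      by_contra haz
      rw [he a ha] at h2 h4
      rw [he' a ha] at h2
      rcases h : φ a with _ | ⟨b, v⟩
      · rw [ext_none_LT1 h, ext_none_LT1 h, hΨ w a haz] at h2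
        exact sgn_ne_LT1 _ h2
      · rw [ext_some_LT1 h] at h4
        exact h4 (hzero a b v haz h)
    · rintro rfl
      have ha := hΦ.Zs x y hz
      rw [he a ha, he' a ha]
      exact ⟨ha, (hΨz w).symm, hz0 w⟩
  have hcp : Φ.cp x y + Φ.cp y x = (Φ.Z x y).card + 1 := by
    unfold Fam.cp
    rcases lt_or_gt_of_ne hxy with h | h
    · rw [if_pos h, if_neg (not_lt.2 h.le), ← hΦ.Zc x y, zero_add]
    · rw [if_neg (not_lt.2 h.le), if_pos h]
  have hpar : ∀ w, Φ.Pary y x (ext φ (Ψ w)) → Φ.Pary x y (ext φ w) := by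
    intro w
    unfold Fam.Pary
    have hA := card_compl_LT1 (Z := (Φ.Z x y).erase z) (p := fun a => ext φ w a = -1)
      (q := fun a => ext φ (Ψ w) a = -1) fun a ha => by
        have hn := hnone a (mem_erase.1 ha).2 (mem_erase.1 ha).1
        rw [ext_none_LT1 hn, ext_none_LT1 hn, hΨ w a (mem_erase.1 ha).1]
        exact sgn_not_LT1 _
    rw [card_erase_of_mem hz] at hA
    rw [← hΦ.Zc x y, card_erase_LT1 hz, card_erase_LT1 hz (fun b => ext φ w b = -1), hΨz,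
      Nat.even_iff, Nat.even_iff]
    omega
  have hle : Pr (unif (Fin P.k) Bool) (Φ.Hit col γ x y φ) +
      Pr (unif (Fin P.k) Bool) (fun w => Φ.Hit col γ y x φ (Ψ w)) ≤ 1 / 2 := by
    rw [← Pr_pary hex]
    unfold Pr
    rw [← Ex_add]
    refine Ex_mono isP_unif fun w => ?_
    by_cases ha : Φ.Hit col γ x y φ w
    · rw [ind_pos ha, ind_neg (hboth w ha), ind_pos ha.1, add_zero]
    · rw [ind_neg ha, zero_add]
      exact ind_mono fun hb => hpar w hb.1
  rw [Pr_inv_LT1 hinv (Φ.Hit col γ y x φ)] at hle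
  unfold Fam.Small
  by_contra hn
  push Not at hn
  linarith [hn.1, hn.2]

theorem dep_Hit (hΦ : Φ.Ok) (γ : Fin P.n) (x y : Fin P.N) (φ : Pat P.k P.q) :
    Dep (Φ.Hit col γ x y φ) (vw Φ.f x y \ cols φ) := by
  intro w w' h
  have e : ∀ a ∈ vw Φ.f x y, ext φ w a = ext φ w' a := fun a ha =>
    ext_congr_LT1 fun hn => h a (mem_sdiff.2 ⟨ha, by simp [cols, hn]⟩)
  unfold Fam.Hit Fam.Pary
  rw [flt_congr_LT1 (q := fun a => ext φ w' a = -1) fun a ha => by rw [e a (hΦ.Zs x y ha)]]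
  refine propext (and_congr_right fun _ => exists_congr fun s => and_congr_right fun _ =>
    and_congr_right fun _ => forall₂_congr fun a ha => ?_)
  rw [e a ha]

end Pool.Agent.P.MP_b5e666_co.Lar
end
end
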