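import Pool.Agent.K.MP_b5e666_co.C0

-- part Pool.Agent.P.MP_b5e666_co.LT2
section

set_option autoImplicit false

open Finset

noncomputable section

namespace Pool.Agent.P.MP_b5e666_co.Lar

variable {N k q : ℕ}

/-- a sum of terms, each at most n / (c m), over at most m indices -/
theorem sum_small_LT2 {α : Type} (U : Finset α) (g : α → ℕ) (c m n : ℕ) (hm : 1 ≤ m)
    (hU : U.card ≤ m) (hg : ∀ a ∈ U, c * m * g a ≤ n) : c * ∑ a ∈ U, g a ≤ n := by
  have h1 : m * (c * ∑ a ∈ U, g a) ≤ m * n := by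
    calc m * (c * ∑ a ∈ U, g a) = ∑ a ∈ U, c * m * g a := by
          rw [← mul_assoc, mul_sum]; exact sum_congr rfl fun a _ => by ring
      _ ≤ U.card * n := by
          have := sum_le_card_nsmul U (fun a => c * m * g a) n hg
          simpa using this
      _ ≤ m * n := Nat.mul_le_mul_right _ hU
  exact Nat.le_of_mul_le_mul_left h1 hm

/-- few cells are heavy -/
theorem heavy_LT2 (f : Fin N → Fin k → Fin q) (j Mr z0 z2 μ : ℕ) (b2 : ℝ)
    (X' : Finset (Fin N)) (Q : Finset (Fin k × Fin q))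
    (hb2 : ∀ Q : Finset (Fin k × Fin q), Q.card ≤ z2 →
      ((flt univ (fun y => j ≤ (cel f y ∩ Q).card)).card : ℝ) ≤ b2)
    (hz2 : 128 * Mr * z0 * j ≤ z2) (hμ : z2 * b2 ≤ μ) (hj : 1 ≤ j) (hMr : 1 ≤ Mr) (hz0 : 1 ≤ z0)
    (hn : μ < X'.card)
    (hQ : ∀ p ∈ Q, X'.card < 64 * Mr * z0 * (flt X' (fun y => p ∈ cel f y)).card) :
    Q.card ≤ z2 := by
  by_contra hc
  obtain ⟨Q', hQ', hcard⟩ := exists_subset_card_eq (le_of_lt (not_le.1 hc))
  have h1 := sum_inter_le (cel f) (fun y => ind (y ∈ X')) j (smax := 1) (D := X'.card) (b := b2)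
    (fun y => ind_nonneg _) (fun y => ind_le_one _)
    (by
      rw [← card_flt]
      exact_mod_cast card_le_card fun y hy => (mem_flt.1 hy).2) Q' (hb2 Q' hcard.le) zero_le_one
  have h2 : ∀ p, ∑ y, ind (y ∈ X') * ind (p ∈ cel f y) =
      ((flt X' (fun y => p ∈ cel f y)).card : ℝ) := by
    intro p
    simp only [← ind_and]
    rw [← card_flt]
    congr 2
    ext y
    simp
  simp only [h2] at h1
  rw [hcard, mul_one] at h1
  have h3 : ∑ p ∈ Q', (flt X' (fun y => p ∈ cel f y)).card ≤ j * X'.card + μ := by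
    have : ((∑ p ∈ Q', (flt X' (fun y => p ∈ cel f y)).card : ℕ) : ℝ) ≤
        ((j * X'.card + μ : ℕ) : ℝ) := by
      push_cast; linarith
    exact_mod_cast this
  have h4 : z2 * X'.card ≤ 64 * Mr * z0 * ∑ p ∈ Q', (flt X' (fun y => p ∈ cel f y)).card := by
    rw [mul_sum]
    have := card_nsmul_le_sum Q' (fun p => 64 * Mr * z0 * (flt X' (fun y => p ∈ cel f y)).card)
      X'.card fun p hp => (hQ p (hQ' hp)).le
    rwa [hcard, smul_eq_mul] at this
  have h5 : 64 * Mr * z0 * (2 * (j * X'.card)) ≤ 64 * Mr * z0 * (j * X'.card + μ) := by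
    calc 64 * Mr * z0 * (2 * (j * X'.card)) = 128 * Mr * z0 * j * X'.card := by ring
      _ ≤ z2 * X'.card := Nat.mul_le_mul_right _ hz2
      _ ≤ _ := h4
      _ ≤ _ := Nat.mul_le_mul_left _ h3
  have h6 := Nat.le_of_mul_le_mul_left h5 (by positivity)
  have h7 : X'.card ≤ j * X'.card := Nat.le_mul_of_pos_left _ hj
  omega

/-- cover lemma for an abstract arc relation -/
theorem cover (f : Fin N → Fin k → Fin q) (j Mr z0 z2 s μ : ℕ) (b2 : ℝ) (F : Finset (Fin k))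
    (X : Finset (Fin N)) (R : Fin N → Fin N → Prop)
    (hb2 : ∀ Q : Finset (Fin k × Fin q), Q.card ≤ z2 →
      ((flt univ (fun y => j ≤ (cel f y ∩ Q).card)).card : ℝ) ≤ b2)
    (hR : ∀ X1 ⊆ X, Mr ≤ X1.card → ∃ x ∈ X1, ∃ y ∈ X1, x ≠ y ∧ R x y)
    (hs : (N : ℝ) < Real.exp (s / (64 * (Mr : ℝ) * j))) (hz2 : 128 * Mr * z0 * j ≤ z2)
    (hμ : z2 * b2 ≤ μ) (hj : 1 ≤ j) (hMr : 1 ≤ Mr) (hz0 : 1 ≤ z0) (hμ1 : 1 ≤ μ) :
    ∃ Cov : Finset (Fin k × Fin q), Cov.card ≤ s ∧ (∀ p ∈ Cov, p.1 ∉ F) ∧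
      ((flt X (fun x => ∀ p ∈ Cov, p ∉ cel f x)).card ≤ 8 * Mr * μ ∨
        ∃ x ∈ X, ∃ Pl : Finset (Fin N), μ ≤ Pl.card ∧ (∀ y ∈ Pl, y ∈ X ∧ R x y) ∧
          Spread (vw f x) F z0 4 Pl) := by
  classical
  have hpos : (0 : ℝ) < 64 * (Mr : ℝ) * j := by
    have h1 : (0 : ℝ) < Mr := by exact_mod_cast hMr
    have h2 : (0 : ℝ) < j := by exact_mod_cast hj
    positivity
  obtain ⟨Cov, hCov, hcs, hg⟩ := greedy X (cel f) (flt univ (fun p : Fin k × Fin q => p.1 ∉ F))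
    (κ := 1 / (64 * (Mr : ℝ) * j)) (by positivity) s (by
      have h1 : (X.card : ℝ) ≤ N := by
        have := card_le_univ X
        rw [Fintype.card_fin] at this
        exact_mod_cast this
      have h2 : 1 / (64 * (Mr : ℝ) * j) * s = s / (64 * (Mr : ℝ) * j) := by ring
      rw [h2]; linarith)
  refine ⟨Cov, hcs, fun p hp => (mem_flt.1 (hCov hp)).2, ?_⟩
  obtain ⟨X', hX'⟩ : ∃ X', X' = flt X (fun x => ∀ p ∈ Cov, p ∉ cel f x) := ⟨_, rfl⟩
  rw [← hX'] at hg ⊢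
  have hXX : X' ⊆ X := hX' ▸ flt_subset _ _
  have hlight : ∀ p : Fin k × Fin q, p.1 ∉ F →
      64 * Mr * j * (flt X' (fun y => p ∈ cel f y)).card ≤ X'.card := by
    intro p hp
    have h1 := hg p (mem_flt.2 ⟨mem_univ _, hp⟩)
    have h2 : flt X (fun y => (∀ c ∈ Cov, c ∉ cel f y) ∧ p ∈ cel f y) =
        flt X' (fun y => p ∈ cel f y) := by
      ext y; rw [hX']; simp only [mem_flt, and_assoc]
    rw [h2, one_div, inv_mul_eq_div, le_div_iff₀ hpos] at h1
    have h3 : ((64 * Mr * j * (flt X' (fun y => p ∈ cel f y)).card : ℕ) : ℝ) ≤ X'.card := by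
      push_cast; linarith
    exact_mod_cast h3
  by_cases hsm : X'.card ≤ 8 * Mr * μ
  · exact Or.inl hsm
  right
  rw [not_le] at hsm
  have hμM : μ ≤ Mr * μ := Nat.le_mul_of_pos_left _ hMr
  have h8 : 8 * μ < X'.card := by
    have : 8 * Mr * μ = 8 * (Mr * μ) := by ring
    omega
  obtain ⟨Q, hQ⟩ : ∃ Q : Finset (Fin k × Fin q), Q = flt univ (fun p =>
      X'.card < 64 * Mr * z0 * (flt X' (fun y => p ∈ cel f y)).card ∧ p.1 ∉ F) := ⟨_, rfl⟩
  have hQc : Q.card ≤ z2 := heavy_LT2 f j Mr z0 z2 μ b2 X' Q hb2 hz2 hμ hj hMr hz0 (by omega)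
    fun p hp => by rw [hQ] at hp; exact (mem_flt.1 hp).2.1
  have hb0 : 0 ≤ b2 := le_trans (Nat.cast_nonneg _) (hb2 Q hQc)
  have hz1 : 1 ≤ z2 := le_trans (by
    have : 0 < 128 * Mr * z0 * j := by positivity
    omega) hz2
  have hbμ : b2 ≤ μ := by
    have : (1 : ℝ) ≤ z2 := by exact_mod_cast hz1
    nlinarith
  obtain ⟨X2, hX2⟩ : ∃ X2, X2 = flt X' (fun x => (cel f x ∩ Q).card < j) := ⟨_, rfl⟩
  have hX2s : X2 ⊆ X' := hX2 ▸ flt_subset _ _
  have hX2c : X'.card ≤ X2.card + μ := by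
    have h1 : X' ⊆ X2 ∪ flt univ (fun y => j ≤ (cel f y ∩ Q).card) := by
      intro y hy
      rw [mem_union, hX2, mem_flt, mem_flt]
      by_cases h : (cel f y ∩ Q).card < j
      · exact Or.inl ⟨hy, h⟩
      · exact Or.inr ⟨mem_univ _, not_lt.1 h⟩
    have h2 : (flt univ (fun y => j ≤ (cel f y ∩ Q).card)).card ≤ μ := by
      exact_mod_cast (hb2 Q hQc).trans hbμ
    have h3 := (card_le_card h1).trans (card_union_le _ _)
    omega
  obtain ⟨d, hd⟩ : ∃ d, d = X'.card / (8 * Mr) := ⟨_, rfl⟩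
  have hM8 : 0 < 8 * Mr := by positivity
  have hd1 : μ ≤ d := by
    rw [hd, Nat.le_div_iff_mul_le hM8]
    have : μ * (8 * Mr) = 8 * Mr * μ := by ring
    omega
  have hd2 : 8 * (Mr * d) ≤ X'.card := by
    have := Nat.mul_div_le X'.card (8 * Mr)
    rw [← hd, mul_assoc] at this
    exact this
  have hd3 : X'.card < 8 * Mr * (d + 1) := by
    rw [hd]; exact Nat.lt_mul_div_succ _ hM8
  have hex : ∃ x ∈ X2, d < (flt X2 (fun y => R x y)).card := by
    by_contra hc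
    push Not at hc
    obtain ⟨X1, hX1, hc1, hi⟩ := indep_of_outdeg X2 R d hc
    have h1 : X1.card ≤ Mr := by
      by_contra h
      obtain ⟨x, hx, y, hy, hxy, hr⟩ := hR X1 (hX1.trans (hX2s.trans hXX)) (not_le.1 h).le
      exact hi x hx y hy hxy hr
    have h2 : (2 * d + 1) * X1.card ≤ 3 * (Mr * d) := by
      calc (2 * d + 1) * X1.card ≤ (3 * d) * Mr := Nat.mul_le_mul (by omega) h1
        _ = _ := by ring
    omega
  obtain ⟨x, hx, hxd⟩ := hex
  refine ⟨x, hXX (hX2s hx), flt X2 (fun y => R x y), by omega,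
    fun y hy => ⟨hXX (hX2s (mem_flt.1 hy).1), (mem_flt.1 hy).2⟩, fun U hU hUc => ?_⟩
  have hxQ : (cel f x ∩ Q).card < j := by rw [hX2] at hx; exact (mem_flt.1 hx).2
  have hUF : ∀ a ∈ U, a ∉ F := fun a ha => disjoint_left.1 hU ha
  have h1 : (flt (flt X2 (fun y => R x y)) (fun y => (vw f x y ∩ U).Nonempty)).card ≤
      ∑ a ∈ U, (flt X' (fun y => (a, f x a) ∈ cel f y)).card := by
    refine le_trans (card_le_card ?_) card_biUnion_le
    intro y hy
    obtain ⟨hy1, a, ha⟩ := mem_flt.1 hy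
    rw [mem_inter, mem_vw] at ha
    exact mem_biUnion.2 ⟨a, ha.2, mem_flt.2 ⟨hX2s (mem_flt.1 hy1).1, mem_cel.2 ha.1.2.symm⟩⟩
  have h2 := sum_small_LT2 (U.filter fun a => (a, f x a) ∈ Q)
    (fun a => (flt X' (fun y => (a, f x a) ∈ cel f y)).card) (64 * Mr) j X'.card hj
    (by
      refine le_trans (card_le_card_of_injOn (fun a => (a, f x a)) (fun a ha => ?_)
        fun a _ b _ hab => (Prod.ext_iff.1 hab).1) hxQ.le
      rw [coe_filter] at ha
      exact mem_coe.2 (mem_inter.2 ⟨mem_cel.2 rfl, ha.2⟩))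
    fun a ha => hlight (a, f x a) (hUF a (mem_filter.1 ha).1)
  have h3 := sum_small_LT2 (U.filter fun a => ¬ (a, f x a) ∈ Q)
    (fun a => (flt X' (fun y => (a, f x a) ∈ cel f y)).card) (64 * Mr) z0 X'.card hz0
    ((card_filter_le _ _).trans hUc)
    fun a ha => by
      obtain ⟨ha1, ha2⟩ := mem_filter.1 ha
      by_contra hc
      exact ha2 (hQ ▸ mem_flt.2 ⟨mem_univ _, not_le.1 hc, hUF a ha1⟩)
  rw [← sum_filter_add_sum_filter_not U (fun a => (a, f x a) ∈ Q)] at h1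
  have h4 : 16 * Mr * (4 * (flt (flt X2 (fun y => R x y))
      (fun y => (vw f x y ∩ U).Nonempty)).card) ≤ 16 * Mr * (flt X2 (fun y => R x y)).card := by
    have h5 := Nat.mul_le_mul_left (64 * Mr) h1
    have h6 := Nat.mul_le_mul_left (8 * Mr) (Nat.succ_le_of_lt hxd)
    rw [mul_add] at h5
    have e1 : ∀ t, 16 * Mr * (4 * t) = 64 * Mr * t := fun t => by ring
    have e2 : ∀ t, 16 * Mr * t = 2 * (8 * Mr * t) := fun t => by ring
    rw [e1, e2]
    rw [Nat.succ_eq_add_one] at h6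
    omega
  exact Nat.le_of_mul_le_mul_left h4 (by positivity)

end Pool.Agent.P.MP_b5e666_co.Lar
end
end

-- part Pool.Agent.P.MP_b5e666_co.LT3
section

set_option autoImplicit false

open Finset

noncomputable section

namespace Pool.Agent.P.MP_b5e666_co.Lar

variable {N k q : ℕ}

/-- one more cell with a value -/
def up_LT3 (φ : Pat k q) (a : (Fin k × Fin q) × SignType) : Pat k q :=
  Function.update φ a.1.1 (some (a.1.2, a.2))

theorem cols_LT3 (φ : Pat k q) (a : (Fin k × Fin q) × SignType) (c : Fin k) :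
    c ∈ cols (up_LT3 φ a) ↔ c = a.1.1 ∨ c ∈ cols φ := by
  by_cases h : c = a.1.1
  · subst h; simp [cols, up_LT3]
  · simp [cols, up_LT3, h]

theorem nz_LT3 (φ : Pat k q) (a : (Fin k × Fin q) × SignType) (c : Fin k)
    (h : c ∈ nz (up_LT3 φ a)) : (c = a.1.1 ∧ a.2 ≠ 0) ∨ c ∈ nz φ := by
  by_cases e : c = a.1.1
  · subst e
    simp only [nz, up_LT3, mem_flt, mem_univ, true_and, Function.update_self,
      Option.some.injEq, Prod.mk.injEq] at h
    obtain ⟨b, v, ⟨-, h1⟩, h2⟩ := h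
    exact Or.inl ⟨rfl, h1 ▸ h2⟩
  · right
    simpa [nz, up_LT3, e] using h

theorem has_LT3 {f : Fin N → Fin k → Fin q} {x : Fin N} {φ : Pat k q} (h : Has f x φ)
    {p : Fin k × Fin q} (hp : p ∈ cel f x) (v : SignType) : Has f x (up_LT3 φ (p, v)) := by
  intro a b w e
  by_cases h' : a = p.1
  · subst h'
    simp only [up_LT3, Function.update_self, Option.some.injEq, Prod.mk.injEq] at e
    rw [← e.1]; exact mem_cel.1 hp
  · exact h a b w (by simpa [up_LT3, h'] using e)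

theorem fit_LT3 {sv : Fin k → SignType} {φ : Pat k q} (h : Fit sv φ) (p : Fin k × Fin q) :
    Fit sv (up_LT3 φ (p, sv p.1)) := by
  intro a b w e
  by_cases h' : a = p.1
  · subst h'
    simp only [up_LT3, Function.update_self, Option.some.injEq, Prod.mk.injEq] at e
    exact e.2
  · exact h a b w (by simpa [up_LT3, h'] using e)

/-- the tree of patterns of depth two -/
theorem tree (f : Fin N → Fin k → Fin q) (s B : ℕ) (hs : 1 ≤ s) (Kl : Pat k q → Fin N → Prop)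
    (hcov : ∀ φ : Pat k q, Alw φ → ∃ Cov : Finset (Fin k × Fin q), Cov.card ≤ s ∧
      (∀ p ∈ Cov, p.1 ∉ cols φ) ∧ ∃ Lf : Finset (Fin N), Lf.card ≤ B ∧
        ∀ x, Has f x φ → Kl φ x ∨ x ∈ Lf ∨ ∃ p ∈ Cov, p ∈ cel f x) :
    ∃ (Nd : Finset (Pat k q)) (Lf : Finset (Fin N))
      (Γ : Finset ((Fin k × Fin q) × (Fin k × Fin q))) (Tr : Finset (Finset (Fin k × Fin q))),
      Nd.card ≤ 13 * s ^ 2 ∧ Lf.card ≤ 13 * s ^ 2 * B ∧ Γ.card ≤ 13 * s ^ 2 ∧
      (∀ e ∈ Γ, e.1.1 ≠ e.2.1) ∧ Tr.card ≤ 13 * s ^ 3 ∧ (∀ t ∈ Tr, t.card = 3) ∧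
      ∀ x, x ∉ Lf → (∀ t ∈ Tr, ¬ t ⊆ cel f x) → ∀ sv : Fin k → SignType,
        (∀ e ∈ edg f Γ x, sv e.1.1 = 0 ∨ sv e.2.1 = 0) → ∃ φ ∈ Nd, Fit sv φ ∧ Kl φ x := by
  classical
  have h0 : ∀ φ : Pat k q, ∃ Cov : Finset (Fin k × Fin q), Cov.card ≤ s ∧
      (∀ p ∈ Cov, p.1 ∉ cols φ) ∧ ∃ Lf : Finset (Fin N), Lf.card ≤ B ∧
        (Alw φ → ∀ x, Has f x φ → Kl φ x ∨ x ∈ Lf ∨ ∃ p ∈ Cov, p ∈ cel f x) := by
    intro φ
    by_cases h : Alw φ
    · obtain ⟨C, h1, h2, L, h3, h4⟩ := hcov φ h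
      exact ⟨C, h1, h2, L, h3, fun _ => h4⟩
    · exact ⟨∅, by simp, by simp, ∅, by simp, fun h' => absurd h' h⟩
  choose Cov h1 h2 Lf h3 h4 using h0
  let r : Pat k q := fun _ => none
  let A : Pat k q → Finset ((Fin k × Fin q) × SignType) := fun φ => Cov φ ×ˢ univ
  have hA : ∀ φ, (A φ).card ≤ 3 * s := fun φ => by
    have : Fintype.card SignType = 3 := rfl
    have := h1 φ
    simp only [A, card_product, card_univ]
    nlinarith
  have mA : ∀ φ p v, (p, v) ∈ A φ ↔ p ∈ Cov φ := fun φ p v => by simp [A]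
  let Nd : Finset (Pat k q) := insert r ((A r).image (up_LT3 r) ∪
    (A r).biUnion fun a => (A (up_LT3 r a)).image (up_LT3 (up_LT3 r a)))
  have hNd : Nd.card ≤ 13 * s ^ 2 := by
    have e1 : ((A r).image (up_LT3 r)).card ≤ 3 * s := card_image_le.trans (hA r)
    have e2 : ((A r).biUnion fun a => (A (up_LT3 r a)).image (up_LT3 (up_LT3 r a))).card ≤
        3 * s * (3 * s) :=
      (card_biUnion_le_card_mul _ _ _ fun a _ => card_image_le.trans (hA _)).trans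
        (Nat.mul_le_mul_right _ (hA r))
    have e3 := (card_insert_le r _).trans (Nat.add_le_add_right ((card_union_le _ _).trans
      (Nat.add_le_add e1 e2)) 1)
    refine e3.trans ?_
    nlinarith
  refine ⟨Nd, Nd.biUnion Lf, (A r).biUnion fun a => (Cov (up_LT3 r a)).image fun p => (a.1, p),
    (A r).biUnion fun a => (A (up_LT3 r a)).biUnion fun b =>
      (Cov (up_LT3 (up_LT3 r a) b)).image fun p => {a.1, b.1, p}, hNd,
    (card_biUnion_le_card_mul _ _ _ fun a _ => h3 a).trans (Nat.mul_le_mul_right _ hNd),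
    ?_, ?_, ?_, ?_, ?_⟩
  · refine ((card_biUnion_le_card_mul _ _ _ fun a _ => card_image_le.trans (h1 _)).trans
      (Nat.mul_le_mul_right _ (hA r))).trans ?_
    nlinarith
  · intro e he
    obtain ⟨a, -, he⟩ := mem_biUnion.1 he
    obtain ⟨p, hp, rfl⟩ := mem_image.1 he
    exact fun h => h2 _ p hp ((cols_LT3 _ _ _).2 (Or.inl h.symm))
  · refine ((card_biUnion_le_card_mul _ _ _ fun a _ => (card_biUnion_le_card_mul _ _ _
      fun b _ => card_image_le.trans (h1 _)).trans (Nat.mul_le_mul_right _ (hA _))).trans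
      (Nat.mul_le_mul_right _ (hA r))).trans ?_
    nlinarith [Nat.zero_le (s ^ 3)]
  · intro t ht
    obtain ⟨a, -, ht⟩ := mem_biUnion.1 ht
    obtain ⟨b, hb, ht⟩ := mem_biUnion.1 ht
    obtain ⟨p, hp, rfl⟩ := mem_image.1 ht
    have e1 := h2 _ b.1 ((mA _ b.1 b.2).1 hb)
    have e2 := h2 _ p hp
    simp only [cols_LT3, not_or] at e1 e2
    refine card_eq_three.2 ⟨_, _, _, fun h => e1.1 ?_, fun h => e2.2.1 ?_, fun h => e2.1 ?_, rfl⟩ <;>
      rw [h]
  · intro x hx hT sv hsv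
    have hL : ∀ φ ∈ Nd, x ∉ Lf φ := fun φ hφ h => hx (mem_biUnion.2 ⟨φ, hφ, h⟩)
    have c0 : ∀ c, c ∉ cols r := fun c => by simp [cols, r]
    have n0 : ∀ c, c ∉ nz r := fun c => by simp [nz, r]
    have H0 : Has f x r := fun a b v e => by simp [r] at e
    have F0 : Fit sv r := fun a b v e => by simp [r] at e
    have m0 : r ∈ Nd := mem_insert_self _ _
    have A0 : Alw r := ⟨by rw [eq_empty_of_forall_notMem c0]; simp,
      by rw [eq_empty_of_forall_notMem n0]; simp⟩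
    rcases h4 r A0 x H0 with h | h | ⟨p, hp, hp'⟩
    · exact ⟨r, m0, F0, h⟩
    · exact absurd h (hL r m0)
    have a1 := (mA r p (sv p.1)).2 hp
    have m1 : up_LT3 r (p, sv p.1) ∈ Nd :=
      mem_insert_of_mem (mem_union_left _ (mem_image_of_mem _ a1))
    have A1 : Alw (up_LT3 r (p, sv p.1)) := by
      refine ⟨(card_le_card (t := {p.1}) fun c hc => ?_).trans (by simp),
        (card_le_card (t := {p.1}) fun c hc => ?_).trans (by simp)⟩
      · exact mem_singleton.2 (((cols_LT3 _ _ _).1 hc).resolve_right (c0 c))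
      · exact mem_singleton.2 ((nz_LT3 _ _ _ hc).resolve_right (n0 c)).1
    rcases h4 _ A1 x (has_LT3 H0 hp' _) with h | h | ⟨p2, hp2, hp2'⟩
    · exact ⟨_, m1, fit_LT3 F0 p, h⟩
    · exact absurd h (hL _ m1)
    have a2 := (mA _ p2 (sv p2.1)).2 hp2
    have m2 : up_LT3 (up_LT3 r (p, sv p.1)) (p2, sv p2.1) ∈ Nd :=
      mem_insert_of_mem (mem_union_right _ (mem_biUnion.2 ⟨_, a1, mem_image_of_mem _ a2⟩))
    have hz := hsv (p, p2) (mem_flt.2 ⟨mem_biUnion.2 ⟨_, a1, mem_image_of_mem _ hp2⟩, hp', hp2'⟩)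
    have A2 : Alw (up_LT3 (up_LT3 r (p, sv p.1)) (p2, sv p2.1)) := by
      refine ⟨(card_le_card (t := {p2.1, p.1}) fun c hc => ?_).trans card_le_two, ?_⟩
      · simpa [cols_LT3, c0] using hc
      have hn : ∀ c ∈ nz (up_LT3 (up_LT3 r (p, sv p.1)) (p2, sv p2.1)),
          (c = p2.1 ∧ sv p2.1 ≠ 0) ∨ (c = p.1 ∧ sv p.1 ≠ 0) := fun c hc =>
        (nz_LT3 _ _ _ hc).imp_right fun h => (nz_LT3 _ _ _ h).resolve_right (n0 c)
      rcases hz with hz | hz
      · exact (card_le_card (t := {p2.1}) fun c hc =>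
          mem_singleton.2 ((hn c hc).resolve_right fun h => h.2 hz).1).trans (by simp)
      · exact (card_le_card (t := {p.1}) fun c hc =>
          mem_singleton.2 ((hn c hc).resolve_left fun h => h.2 hz).1).trans (by simp)
    rcases h4 _ A2 x (has_LT3 (has_LT3 H0 hp' _) hp2' _) with h | h | ⟨p3, hp3, hp3'⟩
    · exact ⟨_, m2, fit_LT3 (fit_LT3 F0 p) p2, h⟩
    · exact absurd h (hL _ m2)
    refine absurd (fun c hc => ?_) (hT {p, p2, p3} (mem_biUnion.2 ⟨_, a1, mem_biUnion.2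
      ⟨_, a2, mem_image_of_mem _ hp3⟩⟩))
    simp only [mem_insert, mem_singleton] at hc
    rcases hc with rfl | rfl | rfl <;> assumption

end Pool.Agent.P.MP_b5e666_co.Lar
end
end

-- part Pool.Agent.P.MP_b5e666_co.LT8
section

set_option autoImplicit false

open Finset

noncomputable section

namespace Pool.Agent.P.MP_b5e666_co.Lar

variable {P : Par} {Φ : Fam P}

theorem score_add_LT8 {k : ℕ} (A : Finset (Fin k)) (s s' : Fin k → SignType)
    (h : ∀ a ∈ A, ¬ (s a = 1 ∧ s' a = 1)) : score A s + score A s' ≤ 0 := by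
  unfold score
  rw [← sum_add_distrib]
  refine sum_nonpos fun a ha => ?_
  have := h a ha
  by_cases h1 : s a = 1 <;> by_cases h2 : s' a = 1 <;> simp_all

theorem score_le_LT8 {k : ℕ} (A : Finset (Fin k)) (s : Fin k → SignType) :
    score A s ≤ ((flt univ (fun a => s a ≠ 0)).card : ℤ) := by
  unfold score
  rw [flt_eq, card_filter]
  push_cast
  calc (∑ a ∈ A, if s a = 1 then (1 : ℤ) else -1) ≤ ∑ a ∈ A, if s a ≠ 0 then (1 : ℤ) else 0 := by
        refine sum_le_sum fun a _ => ?_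
        by_cases h1 : s a = 1
        · rw [if_pos h1, if_pos (by rw [h1]; decide)]
        · rw [if_neg h1]; split_ifs <;> norm_num
    _ ≤ _ := sum_le_sum_of_subset_of_nonneg (subset_univ A) fun a _ _ => by
        split_ifs <;> norm_num

theorem sign_ne_LT8 {u v : SignType} (hu : u ≠ 0) (hv : v ≠ 0) (h : u ≠ v) :
    v = -1 ↔ ¬ u = -1 := by
  revert u v; decide

theorem sign_eq_LT8 {u v : SignType} (hu : u ≠ 0) (hv : v ≠ 0)
    (h : decide (u = 1) = decide (v = 1)) : u = v := by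
  revert u v; decide

theorem inter_ne (hΦ : Φ.Ok) {x y : Fin P.N} (hxy : x ≠ y) {s s' : Fin P.k → SignType}
    (h : Φ.Valid x s) (h' : Φ.Valid y s') : (Φ.agr x y s s').Nonempty := by
  by_contra hne
  have hno : ∀ a ∈ vw Φ.f x y, ¬ (s a = s' a ∧ s a ≠ 0) := fun a ha hc =>
    hne ⟨a, mem_flt.2 ⟨ha, hc⟩⟩
  have h1 : score (Φ.M x y) s + score (Φ.M y x) s' ≤ 0 := by
    rw [hΦ.Mc y x]
    refine score_add_LT8 _ _ _ fun a ha hc => hno a (hΦ.Ms x y ha) ⟨hc.1.trans hc.2.symm, ?_⟩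
    rw [hc.1]; decide
  have w1 := h.1 y hxy
  have w2 := h'.1 x hxy.symm
  unfold Fam.Win Fam.Big at w1 w2
  have hnu : (0 : ℤ) ≤ P.nu := Nat.cast_nonneg _
  rcases w1 with w1 | ⟨w1, z1, p1⟩
  · rcases w2 with w2 | ⟨w2, -⟩ <;> omega
  rcases w2 with w2 | ⟨w2, z2, p2⟩
  · omega
  unfold Fam.Pary at p1 p2
  have hZ := hΦ.Zc y x
  have e1 : (flt (Φ.Z x y) (fun a => s a = -1)).card + (flt (Φ.Z y x) (fun a => s' a = -1)).card =
      (Φ.Z x y).card := by
    have e2 : flt (Φ.Z y x) (fun a => s' a = -1) = (Φ.Z x y).filter (fun a => ¬ s a = -1) := by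
      ext a
      rw [mem_flt, mem_filter, hZ]
      refine and_congr_right fun ha => sign_ne_LT8 (z1 a ha) (z2 a (hZ ▸ ha)) fun hc => ?_
      exact hno a (hΦ.Zs x y ha) ⟨hc, z1 a ha⟩
    rw [e2, flt_eq, card_filter_add_card_filter_not]
  have e3 : Φ.cp x y + Φ.cp y x = (Φ.Z x y).card + 1 := by
    unfold Fam.cp
    rw [hZ]
    rcases lt_or_gt_of_ne hxy with hl | hl
    · rw [if_pos hl, if_neg hl.not_gt]; omega
    · rw [if_neg hl.not_gt, if_pos hl]
  obtain ⟨a, ha⟩ := p1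
  obtain ⟨b, hb⟩ := p2
  omega

theorem inter_eq {x : Fin P.N} {s s' : Fin P.k → SignType} (h : Φ.Valid x s)
    (h' : Φ.Valid x s') : ∃ a, s a = 1 ∧ s' a = 1 := by
  classical
  have h1 : ∃ y, Φ.Big x y s ∧ Φ.Big x y s' := by
    by_contra hc
    have hd : Disjoint (flt univ (fun y => Φ.Big x y s)) (flt univ (fun y => Φ.Big x y s')) :=
      disjoint_left.2 fun y h1 h2 => hc ⟨y, (mem_flt.1 h1).2, (mem_flt.1 h2).2⟩
    have h2 := card_le_univ (flt univ (fun y => Φ.Big x y s) ∪ flt univ (fun y => Φ.Big x y s'))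
    rw [card_union_of_disjoint hd, Fintype.card_fin] at h2
    have := h.2
    have := h'.2
    omega
  obtain ⟨y, b1, b2⟩ := h1
  by_contra hc
  have h2 := score_add_LT8 (Φ.M x y) s s' fun a _ ha => hc ⟨a, ha⟩
  unfold Fam.Big at b1 b2
  have hnu : (0 : ℤ) ≤ P.nu := Nat.cast_nonneg _
  omega

theorem two_le (hP : P.Ok) {x : Fin P.N} {s : Fin P.k → SignType} (h : Φ.Valid x s) :
    2 ≤ (flt univ (fun a => s a ≠ 0)).card := by
  have h1 : 0 < (flt univ (fun y => Φ.Big x y s)).card := by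
    have := h.2
    omega
  obtain ⟨y, hy⟩ := card_pos.1 h1
  have h2 := (mem_flt.1 hy).2
  unfold Fam.Big at h2
  have h3 := score_le_LT8 (Φ.M x y) s
  have h4 := hP.hnu
  omega

/-- a decomposition of all intersecting families gives a proper colouring -/
theorem col_of_dec (hP : P.Ok) (hΦ : Φ.Ok)
    (h : ∀ H : Finset (Finset (Fin P.n)), (H : Set (Finset (Fin P.n))).Intersecting →
      ∃ f : Finset (Fin P.n) → Fin P.n,
        ∀ F ∈ H, ∀ F' ∈ H, F ≠ F' → f F = f F' → 2 ≤ (F ∩ F').card) :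
    ∃ col : Fin P.N → (Fin P.k → SignType) → Fin P.n, Φ.Proper col := by
  classical
  let e : Fin P.k × Fin P.q × Bool ≃ Fin P.n :=
    Fintype.equivFinOfCardEq (by simp [Par.n]; ring)
  let pt : Fin P.N → (Fin P.k → SignType) → Fin P.k → Fin P.n :=
    fun x s a => e (a, Φ.f x a, decide (s a = 1))
  have hpt : ∀ x y s s' a a', pt x s a = pt y s' a' →
      a = a' ∧ Φ.f x a = Φ.f y a' ∧ decide (s a = 1) = decide (s' a' = 1) := by
    intro x y s s' a a' hh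
    have := e.injective hh
    simpa only [Prod.mk.injEq] using this
  have hinj : ∀ x s, Function.Injective (pt x s) := fun x s a a' hh => (hpt _ _ _ _ _ _ hh).1
  let edge : Fin P.N → (Fin P.k → SignType) → Finset (Fin P.n) :=
    fun x s => (flt univ (fun a => s a ≠ 0)).image (pt x s)
  have hmem : ∀ x s z, z ∈ edge x s ↔ ∃ a, s a ≠ 0 ∧ pt x s a = z := by
    intro x s z
    simp only [edge, mem_image, mem_flt, mem_univ, true_and]
  have hint : ∀ x y s s', x ≠ y → edge x s ∩ edge y s' = (Φ.agr x y s s').image (pt x s) := by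
    intro x y s s' hxy
    ext z
    rw [mem_inter, hmem, hmem, mem_image]
    constructor
    · rintro ⟨⟨a, ha, rfl⟩, a', ha', hh⟩
      obtain ⟨rfl, h2, h3⟩ := hpt _ _ _ _ _ _ hh
      exact ⟨a', mem_flt.2 ⟨mem_vw.2 ⟨hxy, h2.symm⟩, (sign_eq_LT8 ha' ha h3).symm, ha⟩, rfl⟩
    · rintro ⟨a, ha, rfl⟩
      obtain ⟨h1, h2, h3⟩ := mem_flt.1 ha
      refine ⟨⟨a, h3, rfl⟩, a, h2 ▸ h3, ?_⟩
      simp only [pt, ← h2, (mem_vw.1 h1).2]
  let H : Finset (Finset (Fin P.n)) :=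
    (flt univ (fun p : Fin P.N × (Fin P.k → SignType) => Φ.Valid p.1 p.2)).image
      (fun p => edge p.1 p.2)
  have hH : ∀ x s, Φ.Valid x s → edge x s ∈ H := fun x s hv =>
    mem_image.2 ⟨(x, s), mem_flt.2 ⟨mem_univ _, hv⟩, rfl⟩
  obtain ⟨f, hf⟩ := h H (by
    intro F hF F' hF'
    obtain ⟨⟨x, s⟩, h1, rfl⟩ := mem_image.1 (mem_coe.1 hF)
    obtain ⟨⟨y, s'⟩, h2, rfl⟩ := mem_image.1 (mem_coe.1 hF')
    have v1 : Φ.Valid x s := (mem_flt.1 h1).2
    have v2 : Φ.Valid y s' := (mem_flt.1 h2).2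
    rw [not_disjoint_iff_nonempty_inter]
    show (edge x s ∩ edge y s').Nonempty
    by_cases hxy : x = y
    · subst hxy
      obtain ⟨a, h3, h4⟩ := inter_eq v1 v2
      refine ⟨pt x s a, mem_inter.2 ⟨(hmem _ _ _).2 ⟨a, by rw [h3]; decide, rfl⟩,
        (hmem _ _ _).2 ⟨a, by rw [h4]; decide, ?_⟩⟩⟩
      simp only [pt, h3, h4]
    · rw [hint x y s s' hxy]
      exact (inter_ne hΦ hxy v1 v2).image _)
  refine ⟨fun x s => f (edge x s), fun x y s s' hxy v1 v2 hc => ?_⟩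
  have h2 : 2 ≤ (edge x s ∩ edge y s').card := by
    by_cases he : edge x s = edge y s'
    · rw [← he, inter_self, card_image_of_injective _ (hinj x s)]
      exact two_le hP v1
    · exact hf _ (hH x s v1) _ (hH y s' v2) he hc
  rw [hint x y s s' hxy, card_image_of_injective _ (hinj x s)] at h2
  omega

end Pool.Agent.P.MP_b5e666_co.Lar
end
end

-- part Pool.Agent.P.MP_b5e666_co.LC1
section

set_option autoImplicit false

open Finset

noncomputable section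

namespace Pool.Agent.P.MP_b5e666_co.Lar

theorem bq_nonneg_LC1 (P : Par) (m : ℕ) : 0 ≤ P.bq m := by
  unfold Par.bq; positivity

namespace Loc
variable {P : Par} {D : Loc P}

theorem hj_eq_LC1 (hD : D.Ok) {m : ℕ} (hm : m ≤ 2 * P.j) (Q : Finset (Fin P.k)) (hQ : Q.card = m) :
    ((flt univ (fun y => Q ⊆ D.I y)).card : ℝ) ≤ P.bq m := by
  have := hD.hj Q (by omega)
  rwa [hQ] at this

theorem count_LC1 (hD : D.Ok) (Q : Finset (Fin P.k)) (hQ : Q.card ≤ P.z3) :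
    ((flt univ (fun y => P.j ≤ (D.I y ∩ Q).card)).card : ℝ) ≤ P.b3 :=
  count_j D.I P.j (hj_eq_LC1 hD (by omega)) (bq_nonneg_LC1 P _) Q hQ

theorem card_E (hP : P.Ok) (hD : D.Ok) : D.E.card ≤ P.z3 := by
  by_contra hc
  obtain ⟨Q, hQ, hq⟩ := exists_subset_card_eq (not_le.1 hc).le
  have hne : Q.Nonempty := card_pos.1 (by have := hP.hz3; omega)
  have h1 : ∑ _p ∈ Q, P.V < ∑ p ∈ Q, D.r p :=
    sum_lt_sum_of_nonempty hne fun p hp => (mem_flt.1 (hQ hp)).2
  have h2 := sum_inter_le D.I D.σ P.j hD.h0 hD.h1 hD.ht Q (count_LC1 hD Q hq.le) hP.hsmax0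
  rw [sum_const, nsmul_eq_mul, hq] at h1
  rw [hq] at h2
  have h3 := hP.c1a
  unfold r at h1
  linarith

theorem deg_hv (hP : P.Ok) (hD : D.Ok) (p : Fin P.k) :
    (flt univ (fun p' => D.hv p p')).card ≤ P.g := by
  by_cases hE : p ∈ D.E
  · have : flt univ (fun p' => D.hv p p') = ∅ :=
      eq_empty_of_forall_notMem fun p' hp' => (mem_flt.1 hp').2.2.1 hE
    rw [this]; exact Nat.zero_le _
  · have h1 : ∑ _p' ∈ flt univ (fun p' => D.hv p p'), P.th ≤
        ∑ p' ∈ flt univ (fun p' => D.hv p p'), ∑ y, D.σ y * ind (p ∈ D.I y ∧ p' ∈ D.I y) :=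
      sum_le_sum fun p' hp' => (mem_flt.1 hp').2.2.2.2.le
    have h2 : ∑ p' ∈ flt univ (fun p' => D.hv p p'), ∑ y, D.σ y * ind (p ∈ D.I y ∧ p' ∈ D.I y) ≤
        ∑ p', ∑ y, D.σ y * ind (p ∈ D.I y ∧ p' ∈ D.I y) :=
      sum_le_sum_of_subset_of_nonneg (subset_univ _) fun p' _ _ =>
        sum_nonneg fun y _ => mul_nonneg (hD.h0 y) (ind_nonneg _)
    have h3 : ∀ y, ∑ p', D.σ y * ind (p ∈ D.I y ∧ p' ∈ D.I y) ≤
        D.σ y * ind (p ∈ D.I y) * P.iu := by
      intro y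
      have e : ∑ p', ind (p' ∈ D.I y) = ((D.I y).card : ℝ) := by
        rw [← card_flt]; congr 2; ext a; simp
      simp only [ind_and, ← mul_assoc]
      rw [← mul_sum, e]
      exact mul_le_mul_of_nonneg_left (by exact_mod_cast hD.hI y)
        (mul_nonneg (hD.h0 y) (ind_nonneg _))
    have h4 : ∑ p', ∑ y, D.σ y * ind (p ∈ D.I y ∧ p' ∈ D.I y) ≤ D.r p * P.iu := by
      rw [sum_comm]; unfold r; rw [sum_mul]
      exact sum_le_sum fun y _ => h3 y
    have h5 : D.r p * P.iu ≤ P.V * P.iu :=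
      mul_le_mul_of_nonneg_right (D.r_le hE) (Nat.cast_nonneg _)
    have h6 := hP.c2a
    rw [sum_const, nsmul_eq_mul] at h1
    have h7 : P.th * ((flt univ (fun p' => D.hv p p')).card : ℝ) ≤ P.th * P.g := by linarith
    exact_mod_cast le_of_mul_le_mul_left h7 hP.hth

theorem card_Bad (hP : P.Ok) (hD : D.Ok) : ((flt univ D.Bad).card : ℝ) ≤ P.b3 + P.b4 := by
  have hH : (flt univ (fun e : Fin P.k × Fin P.k => D.hv e.1 e.2)).card ≤ P.k * P.g := by
    have : ((flt univ (fun e : Fin P.k × Fin P.k => D.hv e.1 e.2)).card : ℝ) ≤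
        ((P.k * P.g : ℕ) : ℝ) := by
      rw [card_flt, Fintype.sum_prod_type]
      calc ∑ p, ∑ p', ind (D.hv p p') ≤ ∑ _p : Fin P.k, (P.g : ℝ) :=
            sum_le_sum fun p _ => by
              rw [← card_flt]; exact_mod_cast deg_hv hP hD p
        _ = _ := by simp
    exact_mod_cast this
  have h1 := count_LC1 hD D.E (card_E hP hD)
  have h2 := count_match D.I P.j (hj_eq_LC1 hD le_rfl) (bq_nonneg_LC1 P _)
    (flt univ (fun e : Fin P.k × Fin P.k => D.hv e.1 e.2))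
    (fun e he => (mem_flt.1 he).2.1) hH
  refine le_trans ?_ (add_le_add h1 h2)
  rw [card_flt, card_flt, card_flt, ← sum_add_distrib]
  refine sum_le_sum fun y _ => le_trans (ind_mono fun hy => ?_) (ind_or_le _ _)
  rcases hy with hy | hy
  · exact Or.inl hy
  · refine Or.inr fun ⟨T0, hT, hc⟩ => hy ⟨T0, hT, fun p hp p' hp' hv => ?_⟩
    exact hc (p, p') (mem_flt.2 ⟨mem_univ _, hv⟩) hp hp'

theorem hv_symm {p p' : Fin P.k} (h : D.hv p p') : D.hv p' p := by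
  obtain ⟨h1, h2, h3, h4⟩ := h
  refine ⟨h1.symm, h3, h2, h4.trans_le (le_of_eq ?_)⟩
  exact sum_congr rfl fun y _ => by rw [ind_congr and_comm]

theorem clean_ext (hP : P.Ok) (hD : D.Ok) {t : Tgt P} (ht : D.TOk t) (Ds : Finset (Fin P.N))
    (hc : D.Clean t.F Ds) (hL : Ds.card < P.L) :
    ∃ Ac ⊆ t.Pl, Disjoint Ac Ds ∧ t.Pl.card ≤ 2 * Ac.card ∧
      ∀ y ∈ Ac, D.Clean t.F (insert y Ds) := by
  obtain ⟨T, hT⟩ : ∃ T, T = Ds.biUnion (fun y => D.I y \ t.F) := ⟨_, rfl⟩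
  obtain ⟨U, hU⟩ : ∃ U, U = (T ∪ T.biUnion (fun p => flt univ (fun p' => D.hv p p'))) \ t.F :=
    ⟨_, rfl⟩
  have hTc : T.card ≤ P.L * P.iu := by
    rw [hT]
    refine (card_biUnion_le_card_mul _ _ P.iu fun y _ => ?_).trans
      (Nat.mul_le_mul_right _ hL.le)
    exact (card_le_card sdiff_subset).trans (hD.hI y)
  have hUc : U.card ≤ P.z0 := by
    rw [hU]
    refine (card_le_card sdiff_subset).trans ((card_union_le _ _).trans ?_)
    have h1 := card_biUnion_le_card_mul T (fun p => flt univ (fun p' => D.hv p p')) P.g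
      fun p _ => deg_hv hP hD p
    have h2 := hP.c6a
    calc T.card + (T.biUnion (fun p => flt univ (fun p' => D.hv p p'))).card
        ≤ T.card * (1 + P.g) := by rw [mul_add, mul_one]; omega
      _ ≤ P.L * P.iu * (1 + P.g) := Nat.mul_le_mul_right _ hTc
      _ ≤ P.z0 := h2
  have hs := ht.spr U (by rw [hU]; exact sdiff_disjoint) hUc
  refine ⟨flt t.Pl (fun y => ¬ D.Bad y ∧ y ∉ Ds ∧ ¬ (D.I y ∩ U).Nonempty), flt_subset _ _,
    disjoint_left.2 fun y hy => (mem_flt.1 hy).2.2.1, ?_, fun y hy => ?_⟩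
  · have hsub : t.Pl ⊆ flt t.Pl (fun y => ¬ D.Bad y ∧ y ∉ Ds ∧ ¬ (D.I y ∩ U).Nonempty) ∪
        (flt univ D.Bad ∪ (Ds ∪ flt t.Pl (fun y => (D.I y ∩ U).Nonempty))) := by
      intro y hy
      simp only [mem_union, mem_flt, mem_univ, true_and]
      tauto
    have h1 := (card_le_card hsub).trans ((card_union_le _ _).trans (Nat.add_le_add_left
      ((card_union_le _ _).trans (Nat.add_le_add_left (card_union_le _ _) _)) _))
    have h2 := card_Bad hP hD
    have h3 := hP.c6b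
    have h4 : 8 * ((flt univ D.Bad).card + P.L) ≤ P.mu0 := by
      have : (8 : ℝ) * ((flt univ D.Bad).card + P.L) ≤ P.mu0 := by linarith
      exact_mod_cast this
    have h5 := ht.big
    omega
  · obtain ⟨_, hb, hn, hm⟩ := mem_flt.1 hy
    have key : ∀ y' ∈ Ds, Disjoint (D.I y \ t.F) (D.I y' \ t.F) ∧
        ∀ p ∈ D.I y \ t.F, ∀ p' ∈ D.I y' \ t.F, ¬ D.hv p' p := by
      intro y' hy'
      refine ⟨disjoint_left.2 fun p hp hp' => hm ⟨p, ?_⟩, fun p hp p' hp' hv => hm ⟨p, ?_⟩⟩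
      · rw [hU, hT]
        exact mem_inter.2 ⟨(mem_sdiff.1 hp).1, mem_sdiff.2
          ⟨mem_union_left _ (mem_biUnion.2 ⟨y', hy', hp'⟩), (mem_sdiff.1 hp).2⟩⟩
      · rw [hU, hT]
        exact mem_inter.2 ⟨(mem_sdiff.1 hp).1, mem_sdiff.2
          ⟨mem_union_right _ (mem_biUnion.2 ⟨p', mem_biUnion.2 ⟨y', hy', hp'⟩,
            mem_flt.2 ⟨mem_univ _, hv⟩⟩), (mem_sdiff.1 hp).2⟩⟩
    refine ⟨fun z hz => ?_, fun z hz z' hz' hne => ?_⟩
    · rcases mem_insert.1 hz with rfl | hz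
      · exact hb
      · exact hc.1 z hz
    · rcases mem_insert.1 hz with h1 | h1 <;> rcases mem_insert.1 hz' with h2 | h2
      · exact absurd (h1.trans h2.symm) hne
      · rw [h1]
        exact ⟨(key z' h2).1, fun p hp p' hp' hv => (key z' h2).2 p hp p' hp' (hv_symm hv)⟩
      · rw [h2]
        exact ⟨(key z h1).1.symm, fun p hp p' hp' hv => (key z h1).2 p' hp' p hp hv⟩
      · exact hc.2 z h1 z' h2 hne

theorem exists_T2 {F : Finset (Fin P.k)} {Ds : Finset (Fin P.N)} (hc : D.Clean F Ds) :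
    ∃ T2 ⊆ Ds.biUnion (fun y => D.I y \ F),
      (Ds.biUnion (fun y => D.I y \ F) \ T2).card ≤ 3 * P.j * Ds.card ∧
      (∀ p ∈ T2, (flt Ds (fun y => p ∈ D.I y)).card = 1) ∧ (∀ p ∈ T2, p ∉ D.E) ∧
      ∀ p ∈ T2, ∀ p' ∈ T2, ¬ D.hv p p' := by
  have h0 : ∀ y, ∃ T0 : Finset (Fin P.k), y ∈ Ds → ((D.I y ∩ D.E).card ≤ P.j ∧
      T0.card ≤ 2 * P.j ∧ ∀ p ∈ D.I y, ∀ p' ∈ D.I y, D.hv p p' → p ∈ T0 ∨ p' ∈ T0) := by
    intro y
    by_cases hy : y ∈ Ds
    · have hb := hc.1 y hy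
      unfold Bad at hb
      rw [not_or, not_not] at hb
      obtain ⟨h1, T0, h2, h3⟩ := hb
      exact ⟨T0, fun _ => ⟨(not_le.1 h1).le, h2, h3⟩⟩
    · exact ⟨∅, fun h => absurd h hy⟩
  choose T0 hT0 using h0
  refine ⟨Ds.biUnion (fun y => D.I y \ F) \ (D.E ∪ Ds.biUnion T0), sdiff_subset, ?_, ?_, ?_, ?_⟩
  · have hsub : Ds.biUnion (fun y => D.I y \ F) \
        (Ds.biUnion (fun y => D.I y \ F) \ (D.E ∪ Ds.biUnion T0)) ⊆
        Ds.biUnion (fun y => (D.I y ∩ D.E) ∪ T0 y) := by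
      intro p hp
      obtain ⟨h1, h2⟩ := mem_sdiff.1 hp
      have h3 : p ∈ D.E ∪ Ds.biUnion T0 := by
        by_contra h; exact h2 (mem_sdiff.2 ⟨h1, h⟩)
      rcases mem_union.1 h3 with h4 | h4
      · obtain ⟨y, hy, hpy⟩ := mem_biUnion.1 h1
        exact mem_biUnion.2 ⟨y, hy, mem_union_left _ (mem_inter.2 ⟨(mem_sdiff.1 hpy).1, h4⟩)⟩
      · obtain ⟨y, hy, hpy⟩ := mem_biUnion.1 h4
        exact mem_biUnion.2 ⟨y, hy, mem_union_right _ hpy⟩
    refine (card_le_card hsub).trans ((card_biUnion_le_card_mul _ _ (3 * P.j) fun y hy => ?_).trans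
      (le_of_eq (mul_comm _ _)))
    have := hT0 y hy
    have h5 := card_union_le (D.I y ∩ D.E) (T0 y)
    omega
  · intro p hp
    obtain ⟨y, hy, hpy⟩ := mem_biUnion.1 (mem_sdiff.1 hp).1
    refine card_eq_one.2 ⟨y, eq_singleton_iff_unique_mem.2
      ⟨mem_flt.2 ⟨hy, (mem_sdiff.1 hpy).1⟩, fun y' hy' => ?_⟩⟩
    by_contra hne
    obtain ⟨h1, h2⟩ := mem_flt.1 hy'
    exact disjoint_left.1 (hc.2 y' h1 y hy hne).1 (mem_sdiff.2 ⟨h2, (mem_sdiff.1 hpy).2⟩) hpy
  · intro p hp hE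
    exact (mem_sdiff.1 hp).2 (mem_union_left _ hE)
  · intro p hp p' hp' hv
    obtain ⟨y, hy, hpy⟩ := mem_biUnion.1 (mem_sdiff.1 hp).1
    obtain ⟨y', hy', hpy'⟩ := mem_biUnion.1 (mem_sdiff.1 hp').1
    by_cases hne : y = y'
    · subst hne
      rcases (hT0 y hy).2.2 p (mem_sdiff.1 hpy).1 p' (mem_sdiff.1 hpy').1 hv with h | h
      · exact (mem_sdiff.1 hp).2 (mem_union_right _ (mem_biUnion.2 ⟨y, hy, h⟩))
      · exact (mem_sdiff.1 hp').2 (mem_union_right _ (mem_biUnion.2 ⟨y, hy, h⟩))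
    · exact (hc.2 y hy y' hy' hne).2 p hpy p' hpy' hv

end Loc

end Pool.Agent.P.MP_b5e666_co.Lar
end
end

-- part Pool.Agent.P.MP_b5e666_co.LC2
section

set_option autoImplicit false

open Finset

noncomputable section

namespace Pool.Agent.P.MP_b5e666_co.Lar

namespace Loc
variable {P : Par} {D : Loc P}

theorem mult_supp_LC2 (ξ : Fin P.N → Bool) (p : Fin P.k) :
    D.mult (supp ξ) p = ∑ y, ind (p ∈ D.I y) * bit (ξ y) := by
  rw [mult_eq]
  have e : ∀ y, ind (p ∈ D.I y) * bit (ξ y) = if y ∈ supp ξ then ind (p ∈ D.I y) else 0 := by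
    intro y
    cases h : ξ y <;> simp [h]
  simp only [e]
  rw [sum_ite_mem, univ_inter]

theorem bias_supp_LC2 (ξ : Fin P.N → Bool) (p : Fin P.k) :
    D.bias (supp ξ) p =
      P.eps - P.eps * ∑ y, (ind (p ∉ D.E) * ind (p ∈ D.I y)) * (bit (ξ y) - D.σ y) := by
  unfold bias
  by_cases h : p ∈ D.E
  · rw [if_pos h, ind_neg (not_not.2 h)]; simp
  · rw [if_neg h, ind_pos h, mult_supp_LC2]
    unfold r
    have e : ∑ y, (1 * ind (p ∈ D.I y)) * (bit (ξ y) - D.σ y) =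
        ∑ y, ind (p ∈ D.I y) * bit (ξ y) - ∑ y, D.σ y * ind (p ∈ D.I y) := by
      rw [← sum_sub_distrib]; exact sum_congr rfl fun y _ => by ring
    rw [e]; ring

theorem wt_le_LC2 (hP : P.Ok) (p : Fin P.k) :
    ∑ y, D.σ y * (ind (p ∉ D.E) * ind (p ∈ D.I y)) ≤ P.V := by
  by_cases h : p ∈ D.E
  · rw [ind_neg (not_not.2 h)]; simpa using hP.hV.le
  · rw [ind_pos h]; simp only [one_mul]; exact D.r_le h

theorem ind_sq_LC2 (A B : Prop) : (ind A * ind B) ^ 2 = ind A * ind B := by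
  by_cases h : A <;> by_cases h' : B <;> simp [ind_pos, ind_neg, h, h']

theorem abs_ind_LC2 (A B : Prop) : |ind A * ind B| ≤ 1 := by
  by_cases h : A <;> by_cases h' : B <;> simp [ind_pos, ind_neg, h, h']

theorem Pr_bias (hP : P.Ok) (hD : D.Ok) :
    Pr (bern D.σ) (fun ξ => ¬ ∀ p, |D.bias (supp ξ) p| ≤ P.del) ≤ 1 / 20 := by
  have hp := D.isP_sig hP hD
  have he := hP.heps
  have key : ∀ (p : Fin P.k) (s : ℝ), |s| = 1 → Pr (bern D.σ) (fun ξ => P.del / (2 * P.eps) ≤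
      ∑ y, (s * (ind (p ∉ D.E) * ind (p ∈ D.I y))) * (bit (ξ y) - D.σ y)) ≤
      Real.exp (-(P.be1 * (P.del / (2 * P.eps))) + P.be1 ^ 2 * P.V) := by
    intro p s hs
    refine tail_bern hD.h0 (D.le_one hP hD) hP.hbe1 (fun y => ?_) ?_
    · rw [abs_mul, hs, one_mul]
      exact mul_le_one₀ hP.hbe1' (abs_nonneg _) (abs_ind_LC2 _ _)
    · have hs2 : s ^ 2 = 1 := by rw [← sq_abs, hs]; norm_num
      simp only [mul_pow s, hs2, one_mul, ind_sq_LC2]
      exact wt_le_LC2 hP p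
  have h1 : Pr (bern D.σ) (fun ξ => ¬ ∀ p, |D.bias (supp ξ) p| ≤ P.del) ≤
      Pr (bern D.σ) (fun ξ => ∃ p ∈ (univ : Finset (Fin P.k)), (P.del / (2 * P.eps) ≤
        ∑ y, (1 * (ind (p ∉ D.E) * ind (p ∈ D.I y))) * (bit (ξ y) - D.σ y)) ∨
        (P.del / (2 * P.eps) ≤
        ∑ y, ((-1) * (ind (p ∉ D.E) * ind (p ∈ D.I y))) * (bit (ξ y) - D.σ y))) := by
    refine Pr_mono hp fun ξ h => ?_
    push Not at h
    obtain ⟨p, h⟩ := h
    refine ⟨p, mem_univ _, ?_⟩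
    rw [bias_supp_LC2] at h
    simp only [one_mul, neg_mul, sum_neg_distrib]
    set X := ∑ y, (ind (p ∉ D.E) * ind (p ∈ D.I y)) * (bit (ξ y) - D.σ y)
    have hd := hP.hdel
    rw [div_le_iff₀ (by positivity), div_le_iff₀ (by positivity)]
    rcases lt_abs.1 h with h | h
    · right; nlinarith
    · left; nlinarith
  refine h1.trans ((Pr_exists_le hp _ _).trans ?_)
  have h2 := sum_le_card_nsmul (univ : Finset (Fin P.k)) _ _ (fun p _ =>
    (Pr_or_le hp _ _).trans (add_le_add (key p 1 (by simp)) (key p (-1) (by simp))))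
  refine h2.trans ?_
  have := hP.c3b
  simp only [card_univ, Fintype.card_fin, nsmul_eq_mul]
  linarith

theorem Pr_one_LC2 (hP : P.Ok) (hD : D.Ok) (y : Fin P.N) :
    Pr (bern D.σ) (fun ξ => ¬ (if y ∈ supp ξ then 0 else P.eps * (D.M y).card) - P.nu ≤
      ∑ p ∈ D.M y, D.bias (supp ξ) p) ≤
      Real.exp (-(P.be2 * (P.nu / P.eps)) + P.be2 ^ 2 * (P.c1 * P.mu * P.V)) := by
  have hp := D.isP_sig hP hD
  have he := hP.heps
  set m : Fin P.N → ℝ := fun y' => ∑ p ∈ D.M y, ind (p ∉ D.E) * ind (p ∈ D.I y') with hm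
  have m0 : ∀ y', 0 ≤ m y' := fun y' =>
    sum_nonneg fun p _ => mul_nonneg (ind_nonneg _) (ind_nonneg _)
  have m1 : m y ≤ (D.M y).card := by
    have := sum_le_card_nsmul (D.M y) (fun p => ind (p ∉ D.E) * ind (p ∈ D.I y)) 1
      (fun p _ => (le_abs_self _).trans (abs_ind_LC2 _ _))
    simpa using this
  have m2 : ∀ y', y' ≠ y → m y' ≤ P.c1 := by
    intro y' hy
    have a1 : m y' ≤ ∑ p ∈ D.M y, ind (p ∈ D.I y') :=
      sum_le_sum fun p _ => mul_le_of_le_one_left (ind_nonneg _) (ind_le_one _)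
    rw [← card_flt] at a1
    have a2 : (flt (D.M y) (fun p => p ∈ D.I y')).card ≤ P.c1 :=
      (card_le_card fun p hp' => mem_inter.2 ⟨(mem_flt.1 hp').2, hD.hM y (mem_flt.1 hp').1⟩).trans
        (hD.hc1 y' y hy)
    exact a1.trans (by exact_mod_cast a2)
  have m3 : ∑ y', D.σ y' * m y' ≤ P.mu * P.V := by
    simp only [hm, mul_sum]
    rw [sum_comm]
    refine (sum_le_card_nsmul _ _ P.V fun p _ => wt_le_LC2 hP p).trans ?_
    rw [nsmul_eq_mul]
    exact mul_le_mul_of_nonneg_right (by exact_mod_cast hD.hmu y) hP.hV.le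
  set c : Fin P.N → ℝ := fun y' => if y' = y then 0 else m y' with hc
  have c0 : ∀ y', 0 ≤ c y' := fun y' => by
    simp only [hc]; split_ifs
    · exact le_rfl
    · exact m0 y'
  have c1 : ∀ y', c y' ≤ P.c1 := fun y' => by
    simp only [hc]; split_ifs with h
    · positivity
    · exact m2 y' h
  have c2 : ∀ y', c y' ≤ m y' := fun y' => by
    simp only [hc]; split_ifs
    · exact m0 y'
    · exact le_rfl
  refine le_trans (Pr_mono hp fun ξ h => ?_) (tail_bern (c := c) hD.h0 (D.le_one hP hD) hP.hbe2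
    (fun y' => ?_) ?_)
  · have e1 : ∑ p ∈ D.M y, D.bias (supp ξ) p =
        P.eps * (D.M y).card - P.eps * ∑ y', m y' * (bit (ξ y') - D.σ y') := by
      simp only [bias_supp_LC2, sum_sub_distrib, sum_const, nsmul_eq_mul, hm, sum_mul]
      rw [← mul_sum, sum_comm, mul_comm]
    have e2 : ∑ y', m y' * (bit (ξ y') - D.σ y') =
        m y * (bit (ξ y) - D.σ y) + ∑ y', c y' * (bit (ξ y') - D.σ y') := by
      rw [← Finset.add_sum_erase univ _ (mem_univ y), ← Finset.add_sum_erase univ _ (mem_univ y)]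
      have : c y = 0 := by simp [hc]
      rw [this, zero_mul, zero_add]
      congr 1
      refine sum_congr rfl fun y' hy' => ?_
      simp only [hc, if_neg (ne_of_mem_erase hy')]
    rw [e1, e2] at h
    push Not at h
    set W := ∑ y', c y' * (bit (ξ y') - D.σ y')
    rw [div_le_iff₀ he]
    have a1 := mul_nonneg he.le (mul_nonneg (m0 y) (hD.h0 y))
    have a2 := mul_le_mul_of_nonneg_left m1 he.le
    cases hx : ξ y
    · rw [if_neg (by simp [hx]), hx, bit_false] at h; nlinarith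
    · rw [if_pos (by simp [hx]), hx, bit_true] at h; nlinarith
  · rw [abs_of_nonneg (c0 y')]
    exact (mul_le_mul_of_nonneg_left (c1 y') hP.hbe2).trans hP.hbe2'
  · have a1 : ∑ y', D.σ y' * c y' ^ 2 ≤ ∑ y', P.c1 * (D.σ y' * m y') := by
      refine sum_le_sum fun y' _ => ?_
      have := mul_le_mul (c1 y') (c2 y') (c0 y') (by positivity)
      have := mul_le_mul_of_nonneg_left this (hD.h0 y')
      nlinarith
    rw [← mul_sum] at a1
    have a2 := mul_le_mul_of_nonneg_left m3 (show (0 : ℝ) ≤ P.c1 by positivity)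
    rw [mul_assoc]
    exact a1.trans a2

theorem Pr_sum (hP : P.Ok) (hD : D.Ok) :
    Pr (bern D.σ) (fun ξ => ¬ ∀ y, (if y ∈ supp ξ then 0 else P.eps * (D.M y).card) - P.nu ≤
      ∑ p ∈ D.M y, D.bias (supp ξ) p) ≤ 1 / 20 := by
  have hp := D.isP_sig hP hD
  refine le_trans (Pr_mono hp (B := fun ξ => ∃ y ∈ (univ : Finset (Fin P.N)),
    ¬ (if y ∈ supp ξ then 0 else P.eps * (D.M y).card) - P.nu ≤
      ∑ p ∈ D.M y, D.bias (supp ξ) p) fun ξ h => ?_) ((Pr_exists_le hp _ _).trans ?_)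
  · obtain ⟨y, hy⟩ := not_forall.1 h
    exact ⟨y, mem_univ _, hy⟩
  · refine (sum_le_card_nsmul _ _ _ fun y _ => Pr_one_LC2 hP hD y).trans ?_
    have := hP.c3c
    simp only [card_univ, Fintype.card_fin, nsmul_eq_mul]
    linarith

theorem Pr_not_good (hP : P.Ok) (hD : D.Ok) :
    Pr (bern D.σ) (fun ξ => ¬ D.Good (supp ξ)) ≤ 3 / 20 := by
  have hp := D.isP_sig hP hD
  have h1 : Pr (bern D.σ) (fun ξ => ∃ y ∈ flt univ (fun y => y ∉ D.Ys), ξ y = true) ≤ 0 := by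
    refine (Pr_exists_le hp _ _).trans (le_of_eq (sum_eq_zero fun y hy => ?_))
    unfold Pr
    simp only [← bit_eq_ind]
    rw [Ex_bit hD.h0 (D.le_one hP hD), hD.hs y (mem_flt.1 hy).2]
  have hdu : (0 : ℝ) < P.du := by have := hP.hdu; exact_mod_cast this
  have h2 : Pr (bern D.σ) (fun ξ => (P.du : ℝ) ≤ ((supp ξ).card : ℝ)) ≤ 1 / 20 := by
    refine (markov hp (F := fun ξ => ((supp ξ).card : ℝ)) (fun _ => by positivity) hdu).trans ?_
    simp only [card_supp]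
    rw [Ex_sum (bern D.σ) univ (fun y ξ => bit (ξ y))]
    simp only [Ex_bit hD.h0 (D.le_one hP hD)]
    rw [div_le_iff₀ hdu]
    have := hD.ht; have := hP.c3a; linarith
  have h3 := Pr_bias hP hD
  have h4 := Pr_sum hP hD
  have h5 := (Pr_or_le hp _ _).trans (add_le_add h1 ((Pr_or_le hp _ _).trans
    (add_le_add h2 ((Pr_or_le hp _ _).trans (add_le_add h3 h4)))))
  refine le_trans (Pr_mono hp fun ξ h => ?_) (h5.trans (by norm_num))
  by_contra hc
  rw [not_or, not_or, not_or, not_not, not_not] at hc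
  refine h ⟨fun y hy => ?_, ?_, hc.2.2.1, hc.2.2.2⟩
  · by_contra hn
    exact hc.1 ⟨y, mem_flt.2 ⟨mem_univ _, hn⟩, mem_supp.1 hy⟩
  · have := (not_le.1 hc.2.1).le
    exact_mod_cast this

end Loc

end Pool.Agent.P.MP_b5e666_co.Lar
end
end

-- part Pool.Agent.P.MP_b5e666_co.LC4
section

set_option autoImplicit false

open Finset

noncomputable section

namespace Pool.Agent.P.MP_b5e666_co.Lar

theorem sum_ind_LC4 {α : Type} [Fintype α] [DecidableEq α] (S : Finset α) (f : α → ℝ) :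
    ∑ y, ind (y ∈ S) * f y = ∑ y ∈ S, f y := by
  simp only [ind_eq, ite_mul, one_mul, zero_mul, sum_ite_mem, univ_inter]

theorem card_inter_LC4 {α : Type} [DecidableEq α] (A T : Finset α) :
    ((A ∩ T).card : ℝ) = ∑ p ∈ T, ind (p ∈ A) := by
  rw [← card_flt]
  congr 2
  ext p
  simp only [mem_inter, mem_flt]
  exact and_comm

theorem card_off_LC4 {α : Type} [DecidableEq α] (A T : Finset α) (h : 2 ≤ (A ∩ T).card) :
    ((A ∩ T).card : ℝ) ≤ ∑ e ∈ T.offDiag, ind (e.1 ∈ A ∧ e.2 ∈ A) := by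
  rw [← card_flt]
  have e1 : flt T.offDiag (fun e => e.1 ∈ A ∧ e.2 ∈ A) = (A ∩ T).offDiag := by
    ext e
    simp only [mem_flt, mem_offDiag, mem_inter]
    tauto
  rw [e1, offDiag_card]
  have h2 : 2 * (A ∩ T).card ≤ (A ∩ T).card * (A ∩ T).card := Nat.mul_le_mul_right _ h
  exact_mod_cast (by omega : (A ∩ T).card ≤ (A ∩ T).card * (A ∩ T).card - (A ∩ T).card)

namespace Loc
variable {P : Par} {D : Loc P}

variable {D0 Ds : Finset (Fin P.N)} {T2 : Finset (Fin P.k)} {a c : Fin P.N → ℝ}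

theorem ex_LC4 (h : D.RhoH D0 Ds T2 a c) {p : Fin P.k} (hp : p ∈ T2) : ∃ y ∈ Ds, p ∈ D.I y := by
  obtain ⟨y, hy⟩ := card_pos.1 (by rw [h.one p hp]; exact Nat.one_pos :
    0 < (flt Ds (fun y => p ∈ D.I y)).card)
  exact ⟨y, mem_flt.1 hy⟩

theorem card_T2 (hD : D.Ok) (h : D.RhoH D0 Ds T2 a c) : T2.card ≤ P.L * P.iu := by
  have h1 : T2 ⊆ Ds.biUnion D.I := fun p hp => mem_biUnion.2 (ex_LC4 h hp)
  refine (card_le_card h1).trans (card_biUnion_le.trans ?_)
  refine (sum_le_card_nsmul _ _ P.iu fun y _ => hD.hI y).trans ?_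
  rw [smul_eq_mul]
  exact Nat.mul_le_mul_right _ h.cs

theorem inter_T2 (hD : D.Ok) (h : D.RhoH D0 Ds T2 a c) {y : Fin P.N} (hy : y ∉ Ds) :
    (D.I y ∩ T2).card ≤ P.c1 * P.L := by
  have h1 : D.I y ∩ T2 ⊆ Ds.biUnion (fun y' => D.I y ∩ D.I y') := fun p hp => by
    obtain ⟨y', h2, h3⟩ := ex_LC4 h (mem_inter.1 hp).2
    exact mem_biUnion.2 ⟨y', h2, mem_inter.2 ⟨(mem_inter.1 hp).1, h3⟩⟩
  refine (card_le_card h1).trans (card_biUnion_le.trans ?_)
  refine (sum_le_card_nsmul _ _ P.c1 fun y' hy' => hD.hc1 y y' fun e => hy (e ▸ hy')).trans ?_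
  rw [smul_eq_mul, mul_comm]
  exact Nat.mul_le_mul_left _ h.cs

theorem sum_Mul (hP : P.Ok) (hD : D.Ok) (h : D.RhoH D0 Ds T2 a c) :
    ∑ y ∈ D.Mul D0 T2, D.σ y * (D.I y ∩ T2).card ≤ 1 := by
  have h1 : ∑ y ∈ D.Mul D0 T2, D.σ y * (D.I y ∩ T2).card ≤
      ∑ y, ∑ e ∈ T2.offDiag, D.σ y * ind (e.1 ∈ D.I y ∧ e.2 ∈ D.I y) := by
    refine le_trans (sum_le_sum fun y hy => ?_) (sum_le_sum_of_subset_of_nonneg (subset_univ _)
      fun y _ _ => sum_nonneg fun e _ => mul_nonneg (hD.h0 y) (ind_nonneg _))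
    rw [← mul_sum]
    exact mul_le_mul_of_nonneg_left (card_off_LC4 _ _ (mem_flt.1 hy).2.2) (hD.h0 y)
  rw [sum_comm] at h1
  refine h1.trans ((sum_le_card_nsmul _ _ P.th fun e he => ?_).trans ?_)
  · obtain ⟨e1, e2, e3⟩ := mem_offDiag.1 he
    exact not_lt.1 fun k => h.nh _ e1 _ e2 ⟨e3, h.nE _ e1, h.nE _ e2, k⟩
  · rw [nsmul_eq_mul]
    refine le_trans (mul_le_mul_of_nonneg_right ?_ hP.hth.le) hP.c7a
    have h2 : T2.offDiag.card ≤ (P.L * P.iu) ^ 2 := by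
      rw [offDiag_card, sq]
      exact (Nat.sub_le _ _).trans (Nat.mul_le_mul (card_T2 hD h) (card_T2 hD h))
    exact_mod_cast h2

theorem mult_LC4 (h : D.RhoH D0 Ds T2 a c) {p : Fin P.k} (hp : p ∈ T2) :
    D.mult D0 p - 1 = ∑ y ∈ D0 \ Ds, ind (p ∈ D.I y) := by
  have h1 : ∑ y ∈ Ds, ind (p ∈ D.I y) = 1 := by
    rw [← card_flt, h.one p hp, Nat.cast_one]
  rw [mult_eq, ← sum_sdiff h.sub, h1, add_sub_cancel_right]

theorem rest_LC4 (p : Fin P.k) : D.r p - ∑ y ∈ D.Sing D0 T2 p, c y =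
    ∑ y, (D.σ y * ind (p ∈ D.I y) - ind (y ∈ D.Sing D0 T2 p) * c y) := by
  rw [sum_sub_distrib, sum_ind_LC4, r]

theorem rest0_LC4 (hD : D.Ok) (h : D.RhoH D0 Ds T2 a c) (p : Fin P.k) :
    0 ≤ D.r p - ∑ y ∈ D.Sing D0 T2 p, c y := by
  rw [rest_LC4]
  refine sum_nonneg fun y _ => ?_
  by_cases hy : y ∈ D.Sing D0 T2 p
  · have h1 : p ∈ D.I y ∩ T2 := by
      rw [(mem_flt.1 hy).2.2]
      exact mem_singleton_self p
    rw [ind_pos hy, ind_pos (mem_inter.1 h1).1]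
    linarith [h.hc1 y]
  · rw [ind_neg hy, zero_mul, sub_zero]
    exact mul_nonneg (hD.h0 y) (ind_nonneg _)

theorem col_LC4 (hP : P.Ok) (hD : D.Ok) (h : D.RhoH D0 Ds T2 a c) (y : Fin P.N) :
    ∑ p ∈ T2, (D.σ y * ind (p ∈ D.I y) - ind (y ∈ D.Sing D0 T2 p) * c y) ≤
      ind (y ∈ D0) * (P.smax * P.iu) + ind (y ∈ D.Mul D0 T2) * (D.σ y * (D.I y ∩ T2).card) +
        a y := by
  rw [sum_sub_distrib, ← mul_sum, ← sum_mul, ← card_inter_LC4]
  have k1 : 0 ≤ (∑ p ∈ T2, ind (y ∈ D.Sing D0 T2 p)) * c y :=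
    mul_nonneg (sum_nonneg fun p _ => ind_nonneg _) (h.hc0 y)
  have k2 : 0 ≤ ind (y ∈ D0) * (P.smax * P.iu) :=
    mul_nonneg (ind_nonneg _) (mul_nonneg hP.hsmax0 (Nat.cast_nonneg _))
  have k3 : 0 ≤ ind (y ∈ D.Mul D0 T2) * (D.σ y * (D.I y ∩ T2).card) :=
    mul_nonneg (ind_nonneg _) (mul_nonneg (hD.h0 y) (Nat.cast_nonneg _))
  have k4 := h.ha y
  by_cases h0 : y ∈ D0
  · have k5 : ((D.I y ∩ T2).card : ℝ) ≤ P.iu := by
      exact_mod_cast (card_le_card inter_subset_left).trans (hD.hI y)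
    have k6 := mul_le_mul (hD.h1 y) k5 (Nat.cast_nonneg _) hP.hsmax0
    rw [ind_pos h0]
    linarith
  by_cases h2 : 2 ≤ (D.I y ∩ T2).card
  · rw [ind_pos (show y ∈ D.Mul D0 T2 from mem_flt.2 ⟨mem_univ _, h0, h2⟩)]
    linarith
  rcases (by omega : (D.I y ∩ T2).card = 0 ∨ (D.I y ∩ T2).card = 1) with h3 | h3
  · rw [h3] at k3 ⊢
    rw [Nat.cast_zero, mul_zero] at k3 ⊢
    linarith
  · obtain ⟨p, hp⟩ := card_eq_one.1 h3
    have k5 : p ∈ T2 := (mem_inter.1 (hp ▸ mem_singleton_self p : p ∈ D.I y ∩ T2)).2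
    have k6 : (1 : ℝ) ≤ ∑ p ∈ T2, ind (y ∈ D.Sing D0 T2 p) := by
      refine le_trans (ind_pos (show y ∈ D.Sing D0 T2 p from mem_flt.2 ⟨mem_univ _, h0, hp⟩)).ge ?_
      exact single_le_sum (f := fun p => ind (y ∈ D.Sing D0 T2 p)) (fun _ _ => ind_nonneg _) k5
    have k7 := mul_le_mul_of_nonneg_right k6 (h.hc0 y)
    have k8 := h.hc2 y
    rw [h3] at k3 ⊢
    rw [Nat.cast_one, mul_one] at k3 ⊢
    linarith

theorem sum_a0 (hP : P.Ok) (hD : D.Ok) (h : D.RhoH D0 Ds T2 a c) :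
    ∑ p ∈ T2, |D.a0 D0 T2 c p| ≤
      P.lam2 * P.c1 * P.L + P.lam2 * P.smax * P.iu + P.lam + 1 := by
  have h0 : (D0.card : ℝ) ≤ P.lam2 := by exact_mod_cast h.c0
  have h1 : ∑ p ∈ T2, |D.a0 D0 T2 c p| ≤
      ∑ p ∈ T2, ((D.mult D0 p - 1) + (D.r p - ∑ y ∈ D.Sing D0 T2 p, c y)) := by
    refine sum_le_sum fun p hp => ?_
    have k1 : 0 ≤ D.mult D0 p - 1 := by
      rw [mult_LC4 h hp]
      exact sum_nonneg fun y _ => ind_nonneg _
    have k2 := rest0_LC4 hD h p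
    rw [a0, abs_le]
    constructor <;> linarith
  have h2 : ∑ p ∈ T2, (D.mult D0 p - 1) ≤ P.lam2 * P.c1 * P.L := by
    rw [sum_congr rfl fun p hp => mult_LC4 h hp, sum_comm]
    refine (sum_le_card_nsmul _ _ ((P.c1 : ℝ) * P.L) fun y hy => ?_).trans ?_
    · rw [← card_inter_LC4]
      exact_mod_cast inter_T2 hD h (mem_sdiff.1 hy).2
    · rw [nsmul_eq_mul, mul_assoc]
      refine mul_le_mul_of_nonneg_right (le_trans ?_ h0) (by positivity)
      exact_mod_cast card_le_card sdiff_subset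
  have h3 : ∑ p ∈ T2, (D.r p - ∑ y ∈ D.Sing D0 T2 p, c y) ≤
      P.lam2 * P.smax * P.iu + 1 + P.lam := by
    rw [sum_congr rfl fun p _ => rest_LC4 p, sum_comm]
    refine (sum_le_sum fun y _ => col_LC4 hP hD h y).trans ?_
    rw [sum_add_distrib, sum_add_distrib, sum_ind_LC4, sum_ind_LC4, sum_const, nsmul_eq_mul,
      mul_assoc]
    exact add_le_add (add_le_add (mul_le_mul_of_nonneg_right h0
      (mul_nonneg hP.hsmax0 (Nat.cast_nonneg _))) (sum_Mul hP hD h)) h.hat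
  rw [sum_add_distrib] at h1
  linarith

end Loc

end Pool.Agent.P.MP_b5e666_co.Lar
end
end

-- part Pool.Agent.P.MP_b5e666_co.LF1
section

set_option autoImplicit false

open Finset

noncomputable section

namespace Pool.Agent.P.MP_b5e666_co.Lar

theorem col_LF1 {N k q : ℕ} [NeZero q] (a : Fin k) (W : Finset (Fin N)) :
    ∑ c, unif (Fin k) (Fin N → Fin q) a c * ind (∀ y ∈ W, c y = 0) = (q : ℝ)⁻¹ ^ W.card := by
  rw [sum_unif_fun a (fun c : Fin N → Fin q => ind (∀ y ∈ W, c y = 0))]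
  have h := Pr_cyl (α := Fin N) (γ := Fin q) W (fun _ b => b = 0)
  have e : flt (univ : Finset (Fin q)) (fun b => b = 0) = {0} := by ext b; simp
  rw [e, card_singleton, prod_const, Fintype.card_fin, Nat.cast_one, one_div] at h
  exact h

theorem col_le_LF1 {N k q : ℕ} [NeZero q] (a : Fin k) (W : Finset (Fin N))
    (A : (Fin N → Fin q) → Prop) (h : ∀ c, A c → ∀ y ∈ W, c y = 0) :
    ∑ c, unif (Fin k) (Fin N → Fin q) a c * ind (A c) ≤ (q : ℝ)⁻¹ ^ W.card := by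
  rw [← col_LF1 a W]
  exact sum_le_sum fun c _ => mul_le_mul_of_nonneg_left (ind_mono (h c)) (isP_unif.1 a c)

theorem union_LF1 {ι β α : Type} [Fintype ι] [DecidableEq ι] [Fintype β] [Fintype α]
    {p : ι → β → ℝ} (hp : IsP p) (B : (ι → β) → Prop) (A : α → (ι → β) → Prop) (η : ℝ)
    (h : ∀ w, B w → ∃ a, A a w) (hA : ∀ a, Pr p (A a) ≤ η) :
    Pr p B ≤ Fintype.card α * η := by
  refine (Pr_mono hp (B := fun w => ∃ a ∈ univ, A a w) fun w hw => ?_).trans
    ((Pr_exists_le hp univ A).trans ?_)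
  · obtain ⟨a, ha⟩ := h w hw
    exact ⟨a, mem_univ a, ha⟩
  · refine (sum_le_card_nsmul _ _ η fun a _ => hA a).trans ?_
    rw [card_univ, nsmul_eq_mul]

variable {P : Par}

theorem kq_LF1 (hP : P.Ok) : (P.q : ℝ)⁻¹ * P.k = P.i := by
  have h : (P.q : ℝ) ≠ 0 := by
    have := hP.hq
    positivity
  rw [hP.hk]
  push_cast
  field_simp

theorem Pr_not_V1 (hP : P.Ok) :
    Pr (unif (Fin P.N) (Fin P.k → Fin P.q)) (fun f => ¬ V1 f P.iu) ≤ 1 / 10 := by
  have : NeZero P.q := ⟨by have := hP.hq; omega⟩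
  refine (union_LF1 isP_unif _ (fun (e : Fin P.N × Fin P.N) f =>
    (P.iu : ℝ) ≤ (vw f e.1 e.2).card) (Real.exp (-(P.iu : ℝ) + 2 * P.i)) ?_ ?_).trans ?_
  · intro f hf
    unfold V1 at hf
    push Not at hf
    obtain ⟨x, y, h⟩ := hf
    exact ⟨(x, y), by exact_mod_cast h.le⟩
  · rintro ⟨x, y⟩
    rw [Pr_vw x (fun v => (P.iu : ℝ) ≤ (v y).card), Pr_swap]
    have h := chern_up (isP_unif (ι := Fin P.k) (β := Fin P.N → Fin P.q)) univ
      (fun _ c => x ≠ y ∧ c y = 0) (π := (P.q : ℝ)⁻¹) (t := 1) (u := P.iu)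
      (fun a _ => by simpa using col_le_LF1 a {y} (fun c => x ≠ y ∧ c y = 0) (by simp))
      zero_le_one
    refine le_trans h (Real.exp_le_exp.2 ?_)
    rw [card_univ, Fintype.card_fin, mul_assoc, kq_LF1 hP]
    have h1 := Real.exp_one_lt_d9
    have h2 : (0 : ℝ) ≤ P.i := Nat.cast_nonneg _
    nlinarith
  · have := hP.f1
    simpa [sq] using this

theorem Pr_not_V1' (hP : P.Ok) :
    Pr (unif (Fin P.N) (Fin P.k → Fin P.q)) (fun f => ¬ V1' f P.i) ≤ 1 / 10 := by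
  have : NeZero P.q := ⟨by have := hP.hq; omega⟩
  refine (union_LF1 isP_unif _ (fun (e : Fin P.N × Fin P.N) f =>
    e.1 ≠ e.2 ∧ ((vw f e.1 e.2).card : ℝ) ≤ P.i / 2) (Real.exp (-((P.i : ℝ) / 10))) ?_ ?_).trans ?_
  · intro f hf
    unfold V1' at hf
    push Not at hf
    obtain ⟨x, y, hxy, h⟩ := hf
    refine ⟨(x, y), hxy, ?_⟩
    have : (2 : ℝ) * (vw f x y).card < P.i := by exact_mod_cast h
    change ((vw f x y).card : ℝ) ≤ P.i / 2
    linarith
  · rintro ⟨x, y⟩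
    by_cases hxy : x = y
    · rw [Pr_false isP_unif (fun _ h => h.1 hxy)]
      exact (Real.exp_pos _).le
    refine (Pr_mono isP_unif (B := fun f => ((vw f x y).card : ℝ) ≤ P.i / 2)
      fun _ h => h.2).trans ?_
    rw [Pr_vw x (fun v => ((v y).card : ℝ) ≤ P.i / 2), Pr_swap]
    have h := chern_lo (isP_unif (ι := Fin P.k) (β := Fin P.N → Fin P.q)) univ
      (fun _ c => x ≠ y ∧ c y = 0) (π := (P.q : ℝ)⁻¹) (u := P.i / 2)
      (fun a _ => by simpa [hxy] using (col_LF1 a {y}).ge)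
    refine le_trans h (Real.exp_le_exp.2 ?_)
    rw [card_univ, Fintype.card_fin, mul_assoc, kq_LF1 hP]
    linarith
  · have := hP.f1'
    simpa [sq] using this

theorem Pr_not_V2 (hP : P.Ok) :
    Pr (unif (Fin P.N) (Fin P.k → Fin P.q)) (fun f => ¬ V2 f P.c1) ≤ 1 / 10 := by
  have : NeZero P.q := ⟨by have := hP.hq; omega⟩
  have hq : (0 : ℝ) < P.q := by
    have := hP.hq
    positivity
  have hk : (0 : ℝ) < P.k := by
    have := hP.hi
    rw [hP.hk]
    push_cast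
    positivity
  have hr : (1 : ℝ) ≤ (P.q : ℝ) ^ 2 / P.k := by
    rw [le_div_iff₀ hk, one_mul]
    exact_mod_cast hP.f2a
  refine (union_LF1 isP_unif _ (fun (e : Fin P.N × Fin P.N × Fin P.N) f =>
    e.2.1 ≠ e.2.2 ∧ (P.c1 : ℝ) ≤ (vw f e.1 e.2.1 ∩ vw f e.1 e.2.2).card)
    (Real.exp 1 * ((P.k : ℝ) / (P.q : ℝ) ^ 2) ^ P.c1) ?_ ?_).trans ?_
  · intro f hf
    unfold V2 at hf
    push Not at hf
    obtain ⟨x, y, y', hy, h⟩ := hf
    exact ⟨(x, y, y'), hy, by exact_mod_cast h.le⟩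
  · rintro ⟨x, y, y'⟩
    by_cases hy : y = y'
    · rw [Pr_false isP_unif (fun _ h => h.1 hy)]
      positivity
    refine (Pr_mono isP_unif (B := fun f => (P.c1 : ℝ) ≤ (vw f x y ∩ vw f x y').card)
      fun _ h => h.2).trans ?_
    rw [Pr_vw x (fun v => (P.c1 : ℝ) ≤ (v y ∩ v y').card), Pr_swap]
    have h := chern_up (isP_unif (ι := Fin P.k) (β := Fin P.N → Fin P.q)) univ
      (fun _ c => c y = 0 ∧ c y' = 0) (π := (P.q : ℝ)⁻¹ ^ 2) (t := Real.log ((P.q : ℝ) ^ 2 / P.k))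
      (u := P.c1)
      (fun a _ => by
        have := col_le_LF1 a {y, y'} (fun c : Fin P.N → Fin P.q => c y = 0 ∧ c y' = 0) (by simp)
        rwa [card_pair hy] at this)
      (Real.log_nonneg hr)
    refine (Pr_mono isP_unif fun f hf => ?_).trans (h.trans ?_)
    · refine hf.trans (Nat.cast_le.2 (card_le_card fun a ha => ?_))
      simp only [zv, mem_inter, mem_flt] at ha
      exact mem_flt.2 ⟨mem_univ a, ha.1.2.2, ha.2.2.2⟩
    · rw [card_univ, Fintype.card_fin, Real.exp_log (by positivity), Real.exp_add, mul_comm _ (P.c1 : ℝ),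
        ← mul_neg, Real.exp_nat_mul, Real.exp_neg, Real.exp_log (by positivity), inv_div, mul_comm]
      refine mul_le_mul_of_nonneg_right (Real.exp_le_exp.2 ?_) (by positivity)
      have e : ((P.q : ℝ) ^ 2 / P.k - 1) * (P.q : ℝ)⁻¹ ^ 2 * P.k = 1 - P.k / (P.q : ℝ) ^ 2 := by
        field_simp
      rw [e]
      have : 0 ≤ (P.k : ℝ) / (P.q : ℝ) ^ 2 := by positivity
      linarith
  · refine le_of_eq_of_le ?_ hP.f2
    simp only [Fintype.card_prod, Fintype.card_fin]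
    push_cast
    ring

end Pool.Agent.P.MP_b5e666_co.Lar
end
end

-- part Pool.Agent.P.MP_b5e666_co.LF2
section

set_option autoImplicit false

open Finset

noncomputable section

namespace Pool.Agent.P.MP_b5e666_co.Lar

variable {P : Par}

theorem row_LF2 {k q : ℕ} (hq : 0 < q) (Q : Finset (Fin k × Fin q)) :
    Pr (unif (Fin k) (Fin q)) (fun c => ∀ p ∈ Q, c p.1 = p.2) ≤ ((q : ℝ) ^ Q.card)⁻¹ := by
  classical
  haveI : Nonempty (Fin q) := ⟨⟨0, hq⟩⟩
  have hq' : (0 : ℝ) < q := by exact_mod_cast hq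
  by_cases hinj : Set.InjOn Prod.fst (Q : Set (Fin k × Fin q))
  · have h1 : Pr (unif (Fin k) (Fin q)) (fun c => ∀ p ∈ Q, c p.1 = p.2) ≤
        Pr (unif (Fin k) (Fin q)) (fun c => ∀ a ∈ Q.image Prod.fst, (a, c a) ∈ Q) := by
      refine Pr_mono isP_unif fun c hc a ha => ?_
      obtain ⟨p, hp, rfl⟩ := mem_image.1 ha
      rw [hc p hp]
      exact hp
    refine h1.trans ?_
    rw [Pr_cyl (Q.image Prod.fst) (fun a b => (a, b) ∈ Q), ← card_image_of_injOn hinj, ← inv_pow,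
      ← prod_const]
    refine prod_le_prod (fun a _ => by positivity) fun a _ => ?_
    have h2 : (flt univ (fun b => (a, b) ∈ Q)).card ≤ 1 := by
      refine card_le_one.2 fun b hb b' hb' => ?_
      have := hinj (mem_coe.2 (mem_flt.1 hb).2) (mem_coe.2 (mem_flt.1 hb').2) rfl
      exact congrArg Prod.snd this
    have h3 : ((flt univ (fun b => (a, b) ∈ Q)).card : ℝ) ≤ 1 := by exact_mod_cast h2
    rw [Fintype.card_fin, ← one_div]
    exact div_le_div_of_nonneg_right h3 hq'.le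
  · rw [Pr_false isP_unif]
    · positivity
    · intro c hc
      refine hinj fun p hp p' hp' e => Prod.ext e ?_
      rw [← hc p hp, ← hc p' hp', e]

theorem one_LF2 {N k q jm : ℕ} (hq : 0 < q) (Q : Finset (Fin k × Fin q)) (hQ : Q.card ≤ jm) :
    Pr (unif (Fin N) (Fin k → Fin q))
      (fun f => 6 * N / (q : ℝ) ^ Q.card ≤ ((flt univ (fun y => Q ⊆ cel f y)).card : ℝ)) ≤
      Real.exp (-(3 * N / (q : ℝ) ^ jm)) := by
  haveI : Nonempty (Fin q) := ⟨⟨0, hq⟩⟩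
  have hq' : (1 : ℝ) ≤ q := by exact_mod_cast hq
  have h1 := chern_up (p := unif (Fin N) (Fin k → Fin q)) isP_unif univ
    (fun _ c => ∀ p ∈ Q, c p.1 = p.2) (π := ((q : ℝ) ^ Q.card)⁻¹) (t := 1)
    (u := 6 * N / (q : ℝ) ^ Q.card)
    (fun y _ => by
      rw [sum_unif_fun y (fun c : Fin k → Fin q => ind (∀ p ∈ Q, c p.1 = p.2))]
      exact row_LF2 hq Q) zero_le_one
  have e1 : ∀ f : Fin N → Fin k → Fin q, flt univ (fun y => Q ⊆ cel f y) =
      flt univ (fun y => ∀ p ∈ Q, f y p.1 = p.2) := by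
    intro f
    ext y
    simp only [mem_flt, mem_univ, true_and]
    exact ⟨fun h p hp => mem_cel.1 (h hp), fun h p hp => mem_cel.2 (h p hp)⟩
  simp only [e1]
  refine h1.trans (Real.exp_le_exp.2 ?_)
  rw [card_univ, Fintype.card_fin]
  have h2 : Real.exp 1 - 1 ≤ 2 := by linarith [Real.exp_one_lt_d9]
  have h3 : ((q : ℝ) ^ jm)⁻¹ ≤ ((q : ℝ) ^ Q.card)⁻¹ :=
    inv_anti₀ (by positivity) (pow_le_pow_right₀ hq' hQ)
  have hN : (0 : ℝ) ≤ N := Nat.cast_nonneg _
  have h4 := mul_le_mul_of_nonneg_left h3 hN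
  have h5 : (0 : ℝ) ≤ ((q : ℝ) ^ Q.card)⁻¹ * N := by positivity
  have h6 := mul_le_mul_of_nonneg_right h2 h5
  rw [div_eq_mul_inv, div_eq_mul_inv]
  linarith

theorem Pr_not_V3 (hP : P.Ok) :
    Pr (unif (Fin P.N) (Fin P.k → Fin P.q)) (fun f => ¬ V3 f (2 * P.j)) ≤ 1 / 10 := by
  have hq : 0 < P.q := lt_of_lt_of_le (by norm_num) hP.hq
  haveI : Nonempty (Fin P.q) := ⟨⟨0, hq⟩⟩
  have h1 : Pr (unif (Fin P.N) (Fin P.k → Fin P.q)) (fun f => ¬ V3 f (2 * P.j)) ≤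
      Pr (unif (Fin P.N) (Fin P.k → Fin P.q)) (fun f =>
        ∃ Q ∈ flt (univ : Finset (Finset (Fin P.k × Fin P.q))) (fun V => V.card ≤ 2 * P.j),
          6 * P.N / (P.q : ℝ) ^ Q.card ≤ ((flt univ (fun y => Q ⊆ cel f y)).card : ℝ)) := by
    refine Pr_mono isP_unif fun f hf => ?_
    unfold V3 at hf
    push Not at hf
    obtain ⟨Q, hQ, h⟩ := hf
    exact ⟨Q, mem_flt.2 ⟨mem_univ _, hQ⟩, h.le⟩
  refine h1.trans ((Pr_exists_le isP_unif _ (fun (Q : Finset (Fin P.k × Fin P.q)) f =>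
    6 * P.N / (P.q : ℝ) ^ Q.card ≤ ((flt univ (fun y => Q ⊆ cel f y)).card : ℝ))).trans ?_)
  refine (sum_le_card_nsmul _ _ _ fun Q hQ => one_LF2 hq Q (mem_flt.1 hQ).2).trans ?_
  rw [nsmul_eq_mul]
  refine le_trans (mul_le_mul_of_nonneg_right ?_ (Real.exp_pos _).le) hP.f3
  have h2 := card_small_le (Fin P.k × Fin P.q) (2 * P.j)
  rw [Fintype.card_prod, Fintype.card_fin, Fintype.card_fin] at h2
  exact_mod_cast h2

end Pool.Agent.P.MP_b5e666_co.Lar
end
end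

-- part Pool.Agent.P.MP_b5e666_co.LF3
section

set_option autoImplicit false

open Finset

noncomputable section

namespace Pool.Agent.P.MP_b5e666_co.Lar

theorem one_LF3 {N k q z c : ℕ} (hq : 1 ≤ q) (hz : 1 ≤ z) (hzq : z ^ 2 ≤ q) (x : Fin N)
    (W : Finset (Fin k)) (Y : Finset (Fin N)) :
    Pr (unif (Fin N) (Fin k → Fin q)) (fun f => W.card ≤ z ∧ Y.card ≤ z ∧
      c * (W.card + Y.card) < ∑ y ∈ Y, (W ∩ vw f x y).card) ≤
      3 * ((((z : ℝ) ^ 2 / q) ^ c) ^ W.card * (((z : ℝ) ^ 2 / q) ^ c) ^ Y.card) := by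
  have : NeZero q := ⟨by omega⟩
  have hq0 : (0 : ℝ) < q := by exact_mod_cast hq
  have hz0 : (0 : ℝ) < (z : ℝ) ^ 2 := by
    have : (0 : ℝ) < z := by exact_mod_cast hz
    positivity
  have hzq' : (z : ℝ) ^ 2 ≤ q := by exact_mod_cast hzq
  by_cases hc : W.card ≤ z ∧ Y.card ≤ z
  swap
  · rw [Pr_false isP_unif fun f h => hc ⟨h.1, h.2.1⟩]
    positivity
  rw [Pr_vw x (fun v => W.card ≤ z ∧ Y.card ≤ z ∧
    c * (W.card + Y.card) < ∑ y ∈ Y, (W ∩ v y).card), Pr_uncurry]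
  have ht : 0 ≤ Real.log (q / (z : ℝ) ^ 2) := Real.log_nonneg ((one_le_div hz0).2 hzq')
  have hch := chern_up (p := unif (Fin N × Fin k) (Fin q)) isP_unif (Y ×ˢ W)
    (fun _ b => b = 0) (π := (q : ℝ)⁻¹) (u := ((c * (W.card + Y.card) : ℕ) : ℝ))
    (fun i _ => by rw [sum_unif_eq, Fintype.card_fin]) ht
  refine (Pr_mono isP_unif fun g hg => ?_).trans (hch.trans ?_)
  · have h1 : ((∑ y ∈ Y, (W ∩ zv x (fun x a => g (x, a)) y).card : ℕ) : ℝ) ≤
        ((flt (Y ×ˢ W) (fun i => g i = 0)).card : ℝ) := by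
      rw [card_flt, sum_product, Nat.cast_sum]
      refine sum_le_sum fun y _ => ?_
      rw [← card_flt]
      refine Nat.cast_le.2 (card_le_card fun a ha => ?_)
      have h2 := mem_inter.1 ha
      exact mem_flt.2 ⟨h2.1, (mem_flt.1 h2.2).2.2⟩
    exact (Nat.cast_le.2 hg.2.2.le).trans h1
  · rw [Real.exp_add, mul_comm (3 : ℝ)]
    refine mul_le_mul (le_of_eq ?_) ?_ (Real.exp_pos _).le (by positivity)
    · rw [← pow_add, ← pow_mul, mul_comm (Real.log _), ← mul_neg, Real.exp_nat_mul, Real.exp_neg,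
        Real.exp_log (by positivity), inv_div]
    · refine le_trans (Real.exp_le_exp.2 ?_) (by linarith [Real.exp_one_lt_d9] : Real.exp 1 ≤ 3)
      rw [Real.exp_log (by positivity), card_product]
      have h1 : ((Y.card * W.card : ℕ) : ℝ) ≤ (z : ℝ) ^ 2 := by
        rw [sq]
        exact_mod_cast Nat.mul_le_mul hc.2 hc.1
      have h2 : (q / (z : ℝ) ^ 2 - 1) * (q : ℝ)⁻¹ ≤ ((z : ℝ) ^ 2)⁻¹ := by
        have e : (q / (z : ℝ) ^ 2 - 1) * (q : ℝ)⁻¹ = ((z : ℝ) ^ 2)⁻¹ - (q : ℝ)⁻¹ := by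
          field_simp
        rw [e]
        have : 0 ≤ (q : ℝ)⁻¹ := by positivity
        linarith
      calc _ ≤ ((z : ℝ) ^ 2)⁻¹ * (z : ℝ) ^ 2 :=
            mul_le_mul h2 h1 (Nat.cast_nonneg _) (by positivity)
        _ = 1 := inv_mul_cancel₀ hz0.ne'

variable {P : Par}

theorem Pr_not_V4 (hP : P.Ok) :
    Pr (unif (Fin P.N) (Fin P.k → Fin P.q)) (fun f => ¬ V4 f P.z4 P.c2) ≤ 1 / 10 := by
  have hq := hP.hq
  have : NeZero P.q := ⟨by omega⟩
  have hp : IsP (unif (Fin P.N) (Fin P.k → Fin P.q)) := isP_unif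
  have hf := hP.f4
  set η : ℝ := ((P.z4 : ℝ) ^ 2 / P.q) ^ P.c2 with hη
  have h0 : 0 ≤ η := by positivity
  have hN : (1 : ℝ) ≤ P.N := by exact_mod_cast hP.hN
  have hk : (1 : ℝ) ≤ P.k := by
    have : 1 ≤ P.k := by
      rw [hP.hk]
      exact Nat.mul_pos hP.hi (by omega)
    exact_mod_cast this
  have h1 : (P.N : ℝ) * η ≤ 1 / 20 := by
    have := mul_le_mul_of_nonneg_left hk (show 0 ≤ (P.N : ℝ) * η by positivity)
    linarith
  have h2 : (P.k : ℝ) * η ≤ 1 / 20 := by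
    have := mul_le_mul_of_nonneg_left hN (show 0 ≤ (P.k : ℝ) * η by positivity)
    linarith
  have s1 := sum_pow_card_le (α := Fin P.k) h0 (by rw [Fintype.card_fin]; linarith)
  have s2 := sum_pow_card_le (α := Fin P.N) h0 (by rw [Fintype.card_fin]; linarith)
  rw [Fintype.card_fin] at s1 s2
  calc _ ≤ Pr (unif (Fin P.N) (Fin P.k → Fin P.q)) (fun f => ∃ x ∈ (univ : Finset (Fin P.N)),
          ∃ W ∈ flt (univ : Finset (Finset (Fin P.k))) (fun V => V.Nonempty),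
          ∃ Y ∈ flt (univ : Finset (Finset (Fin P.N))) (fun V => V.Nonempty),
          W.card ≤ P.z4 ∧ Y.card ≤ P.z4 ∧
            P.c2 * (W.card + Y.card) < ∑ y ∈ Y, (W ∩ vw f x y).card) := by
        refine Pr_mono hp fun f hf => ?_
        unfold V4 at hf
        push Not at hf
        obtain ⟨x, W, Y, g1, g2, g3⟩ := hf
        refine ⟨x, mem_univ _, W, mem_flt.2 ⟨mem_univ _, ?_⟩, Y, mem_flt.2 ⟨mem_univ _, ?_⟩,
          g1, g2, g3⟩
        · rw [nonempty_iff_ne_empty]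
          rintro rfl
          simp at g3
        · rw [nonempty_iff_ne_empty]
          rintro rfl
          simp at g3
    _ ≤ ∑ _x ∈ (univ : Finset (Fin P.N)),
          ∑ W ∈ flt (univ : Finset (Finset (Fin P.k))) (fun V => V.Nonempty),
          ∑ Y ∈ flt (univ : Finset (Finset (Fin P.N))) (fun V => V.Nonempty),
          3 * (η ^ W.card * η ^ Y.card) := by
        refine (Pr_exists_le hp _ _).trans (sum_le_sum fun x _ => ?_)
        refine (Pr_exists_le hp _ _).trans (sum_le_sum fun W _ => ?_)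
        refine (Pr_exists_le hp _ _).trans (sum_le_sum fun Y _ => ?_)
        exact one_LF3 (by omega) hP.hz4 hP.f4a x W Y
    _ = P.N * (3 * ((∑ W ∈ flt (univ : Finset (Finset (Fin P.k))) (fun V => V.Nonempty),
          η ^ W.card) * ∑ Y ∈ flt (univ : Finset (Finset (Fin P.N))) (fun V => V.Nonempty),
          η ^ Y.card)) := by
        rw [sum_const, card_univ, Fintype.card_fin, nsmul_eq_mul, sum_mul_sum]
        simp only [mul_sum]
    _ ≤ P.N * (3 * ((2 * P.k * η) * (2 * P.N * η))) := by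
        refine mul_le_mul_of_nonneg_left (mul_le_mul_of_nonneg_left ?_ (by norm_num))
          (by positivity)
        exact mul_le_mul s1 s2 (sum_nonneg fun V _ => pow_nonneg h0 _) (by positivity)
    _ ≤ 1 / 10 := by
        have h3 : 0 ≤ (P.N : ℝ) * η := by positivity
        have h4 : (P.N : ℝ) * P.k * η ≤ 1 / 20 := by linarith
        have h5 := mul_le_mul h4 h1 h3 (by norm_num)
        nlinarith

end Pool.Agent.P.MP_b5e666_co.Lar
end
end

-- part Pool.Agent.P.MP_b5e666_co.LF4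
section

set_option autoImplicit false

open Finset

noncomputable section

namespace Pool.Agent.P.MP_b5e666_co.Lar

variable {P : Par}

theorem col_LF4 {N q : ℕ} [NeZero q] (U : Finset (Fin N)) (du : ℕ) (hU : U.card ≤ du) :
    (U.card : ℝ) / (q + du) ≤ Pr (unif (Fin N) (Fin q)) (fun c => ∃ y ∈ U, c y = 0) := by
  have hq : (0 : ℝ) < q := by exact_mod_cast Nat.pos_of_ne_zero (NeZero.ne q)
  have hq1 : (1 : ℝ) ≤ q := by exact_mod_cast Nat.pos_of_ne_zero (NeZero.ne q)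
  have e1 : Pr (unif (Fin N) (Fin q)) (fun c => ∃ y ∈ U, c y = 0) =
      1 - Pr (unif (Fin N) (Fin q)) (fun c => ∀ y ∈ U, c y ≠ 0) := by
    rw [← Pr_not isP_unif]
    exact Pr_congr _ fun c => by push Not; rfl
  have e2 : ((flt (univ : Finset (Fin q)) (fun b => b ≠ 0)).card : ℝ) = q - 1 := by
    have : flt (univ : Finset (Fin q)) (fun b => b ≠ 0) = univ.erase 0 := by
      ext b; simp
    rw [this, card_erase_of_mem (mem_univ _), card_univ, Fintype.card_fin,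
      Nat.cast_sub (Nat.pos_of_ne_zero (NeZero.ne q))]
    simp
  have e3 : Pr (unif (Fin N) (Fin q)) (fun c => ∀ y ∈ U, c y ≠ 0) =
      (1 - 1 / (q : ℝ)) ^ U.card := by
    rw [Pr_cyl U (fun _ b => b ≠ 0), prod_const, e2, Fintype.card_fin]
    congr 1
    field_simp
  rw [e1, e3]
  set u := U.card with hu
  have h0 : (0 : ℝ) ≤ 1 / q := by positivity
  have h1 : 1 / (q : ℝ) ≤ 1 := by rw [div_le_one hq]; exact hq1
  have hb : 1 + (u : ℝ) * (1 / q) ≤ (1 + 1 / (q : ℝ)) ^ u :=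
    one_add_mul_le_pow (by linarith) u
  have hr : (0 : ℝ) ≤ (1 - 1 / (q : ℝ)) ^ u := pow_nonneg (by linarith) u
  have hm : (1 - 1 / (q : ℝ)) ^ u * (1 + 1 / (q : ℝ)) ^ u ≤ 1 := by
    rw [← mul_pow]
    exact pow_le_one₀ (mul_nonneg (by linarith) (by linarith)) (by nlinarith)
  have h2 : (1 - 1 / (q : ℝ)) ^ u * (1 + (u : ℝ) * (1 / q)) ≤ 1 :=
    (mul_le_mul_of_nonneg_left hb hr).trans hm
  have hu0 : (0 : ℝ) ≤ u := Nat.cast_nonneg u
  have hud : (u : ℝ) ≤ du := by exact_mod_cast hU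
  have h3 : (1 - 1 / (q : ℝ)) ^ u * (q + u) ≤ q := by
    have : (1 - 1 / (q : ℝ)) ^ u * (q + u) =
        q * ((1 - 1 / (q : ℝ)) ^ u * (1 + (u : ℝ) * (1 / q))) := by
      field_simp
    rw [this]
    nlinarith
  have h4 : (u : ℝ) / (q + du) ≤ u / (q + u) :=
    div_le_div_of_nonneg_left hu0 (by linarith) (by linarith)
  refine h4.trans ?_
  rw [div_le_iff₀ (by linarith)]
  nlinarith

theorem fix_LF4 {N k q : ℕ} [NeZero q] (x : Fin N) (U : Finset (Fin N)) (du l2 : ℕ)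
    (hx : x ∉ U) (hU : U.card ≤ du) :
    Pr (unif (Fin N) (Fin k → Fin q)) (fun f => (U.biUnion (vw f x)).card < l2 * U.card) ≤
      Real.exp (l2 - 3 / 5 * ((k : ℝ) / (q + du))) ^ U.card := by
  rw [Pr_vw x (fun v => (U.biUnion v).card < l2 * U.card), Pr_swap]
  have h := chern_lo (isP_unif (ι := Fin k) (β := Fin N → Fin q)) univ
    (fun _ c => ∃ y ∈ U, c y = 0) (π := (U.card : ℝ) / (q + du)) (u := (l2 : ℝ) * U.card)
    (fun i _ => by
      rw [sum_unif_fun i (fun c : Fin N → Fin q => ind (∃ y ∈ U, c y = 0))]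
      exact col_LF4 U du hU)
  refine (Pr_mono isP_unif fun f hf => ?_).trans (h.trans (le_of_eq ?_))
  · have e : U.biUnion (zv x (fun y a => f a y)) = flt univ (fun a => ∃ y ∈ U, f a y = 0) := by
      ext a
      simp only [mem_biUnion, zv, mem_flt, mem_univ, true_and]
      constructor
      · rintro ⟨y, hy, _, h0⟩
        exact ⟨y, hy, h0⟩
      · rintro ⟨y, hy, h0⟩
        exact ⟨y, hy, fun hxy => hx (hxy ▸ hy), h0⟩
    rw [e] at hf
    exact_mod_cast hf.le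
  · rw [← Real.exp_nat_mul, card_univ, Fintype.card_fin]
    congr 1
    ring

theorem Pr_not_V9 (hP : P.Ok) :
    Pr (unif (Fin P.N) (Fin P.k → Fin P.q)) (fun f => ¬ V9 f P.du P.l2) ≤ 1 / 10 := by
  have : NeZero P.q := ⟨by have := hP.hq; omega⟩
  set η : ℝ := Real.exp (P.l2 - 3 / 5 * ((P.k : ℝ) / (P.q + P.du))) with hη
  have hη0 : 0 ≤ η := (Real.exp_pos _).le
  have hf : 20 * (P.N : ℝ) ^ 2 * η ≤ 1 := hP.f9
  have hN : (1 : ℝ) ≤ P.N := by exact_mod_cast hP.hN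
  have hNη : (P.N : ℝ) * η ≤ 1 := by nlinarith [mul_nonneg (by linarith : (0 : ℝ) ≤ P.N) hη0]
  have hs := sum_pow_card_le (α := Fin P.N) hη0 (by rw [Fintype.card_fin]; exact hNη)
  rw [Fintype.card_fin] at hs
  have h1 : Pr (unif (Fin P.N) (Fin P.k → Fin P.q)) (fun f => ¬ V9 f P.du P.l2) ≤
      Pr (unif (Fin P.N) (Fin P.k → Fin P.q)) (fun f => ∃ x ∈ (univ : Finset (Fin P.N)),
        ∃ U ∈ flt (univ : Finset (Finset (Fin P.N))) (fun V => V.Nonempty),
          x ∉ U ∧ U.card ≤ P.du ∧ (U.biUnion (vw f x)).card < P.l2 * U.card) := by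
    refine Pr_mono isP_unif fun f hf => ?_
    unfold V9 at hf
    push Not at hf
    obtain ⟨x, U, hx, hU, hlt⟩ := hf
    refine ⟨x, mem_univ _, U, mem_flt.2 ⟨mem_univ _, ?_⟩, hx, hU, hlt⟩
    rw [nonempty_iff_ne_empty]
    rintro rfl
    simp at hlt
  refine h1.trans ((Pr_exists_le isP_unif _ _).trans ?_)
  have h2 : ∀ x ∈ (univ : Finset (Fin P.N)),
      Pr (unif (Fin P.N) (Fin P.k → Fin P.q)) (fun f =>
        ∃ U ∈ flt (univ : Finset (Finset (Fin P.N))) (fun V => V.Nonempty),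
          x ∉ U ∧ U.card ≤ P.du ∧ (U.biUnion (vw f x)).card < P.l2 * U.card) ≤
        2 * (P.N : ℝ) * η := by
    intro x _
    refine (Pr_exists_le isP_unif _ _).trans (le_trans (sum_le_sum fun U _ => ?_) hs)
    by_cases hc : x ∉ U ∧ U.card ≤ P.du
    · exact (Pr_mono isP_unif fun f hf => hf.2.2).trans (fix_LF4 x U P.du P.l2 hc.1 hc.2)
    · rw [Pr_false isP_unif fun f hf => hc ⟨hf.1, hf.2.1⟩]
      exact pow_nonneg hη0 _
  refine (sum_le_card_nsmul _ _ _ h2).trans ?_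
  rw [card_univ, Fintype.card_fin, nsmul_eq_mul]
  nlinarith

end Pool.Agent.P.MP_b5e666_co.Lar
end
end

-- part Pool.Agent.P.MP_b5e666_co.LF5
section

set_option autoImplicit false

open Finset

noncomputable section

namespace Pool.Agent.P.MP_b5e666_co.Lar

variable {P : Par}

theorem split_LF5 {Y : Type} [DecidableEq Y] (S : Finset Y) {y0 : Y} (h0 : y0 ∈ S)
    (Q : Y → Prop) [DecidablePred Q] :
    (flt S Q).card = (flt (S.erase y0) Q).card + (if Q y0 then 1 else 0) := by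
  rw [flt_eq, flt_eq, card_filter, card_filter, add_comm]
  exact (add_sum_erase S (fun y => if Q y then 1 else 0) h0).symm

theorem half_LF5 {α Y : Type} [Fintype α] [DecidableEq α] (S : Finset Y) (φ : Y → α) {y0 : Y}
    (h0 : y0 ∈ S) (hinj : ∀ y ∈ S, φ y = φ y0 → y = y0) :
    Pr (unif α Bool) (fun c => Odd (flt S (fun y => c (φ y) = true)).card) = 1 / 2 := by
  classical
  have hinv : Function.Involutive
      (fun c : α → Bool => Function.update c (φ y0) (!c (φ y0))) := by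
    intro c
    funext a
    by_cases ha : a = φ y0
    · subst ha; simp
    · simp [Function.update_of_ne ha]
  have h1 := Pr_unif_equiv (hinv.toPerm _)
    (fun c : α → Bool => Odd (flt S (fun y => c (φ y) = true)).card)
  have h2 : ∀ c : α → Bool,
      Odd (flt S (fun y => (hinv.toPerm _ c) (φ y) = true)).card ↔
        ¬ Odd (flt S (fun y => c (φ y) = true)).card := by
    intro c
    have e : flt (S.erase y0) (fun y => (hinv.toPerm _ c) (φ y) = true) =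
        flt (S.erase y0) (fun y => c (φ y) = true) := by
      ext y
      simp only [mem_flt]
      refine and_congr_right fun hy => ?_
      have hne : φ y ≠ φ y0 := fun h => (mem_erase.1 hy).1 (hinj y (mem_erase.1 hy).2 h)
      show Function.update c (φ y0) (!c (φ y0)) (φ y) = true ↔ _
      rw [Function.update_of_ne hne]
    have e0 : (hinv.toPerm _ c) (φ y0) = !c (φ y0) := by
      show Function.update c (φ y0) (!c (φ y0)) (φ y0) = _
      rw [Function.update_self]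
    rw [split_LF5 S h0, split_LF5 S h0 (fun y => c (φ y) = true), e, e0]
    cases c (φ y0) <;> simp [Nat.odd_add_one]
  rw [Pr_congr _ h2, Pr_not isP_unif] at h1
  linarith

theorem one_LF5 {N k q : ℕ} (f : Fin N → Fin k → Fin q) (x : Fin N) (U : Finset (Fin N))
    {lx l2 : ℕ} (hW : l2 * U.card ≤ (U.biUnion (vw f x)).card) :
    Pr (unif (Sym2 (Fin N)) (Fin k → Bool))
        (fun g => (xr (lab f g true x) U).card < lx * U.card) ≤
      Real.exp (lx - 3 / 10 * (l2 : ℝ)) ^ U.card := by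
  rw [Pr_swap]
  have hc := chern_lo (p := unif (Fin k) (Sym2 (Fin N) → Bool)) isP_unif (U.biUnion (vw f x))
    (fun a c => Odd (flt (flt U (fun y => a ∈ vw f x y)) (fun y => c s(x, y) = true)).card)
    (π := 1 / 2) (u := (lx : ℝ) * U.card) (fun a ha => by
      obtain ⟨y0, hy0, hay⟩ := mem_biUnion.1 ha
      rw [sum_unif_fun a (fun c : Sym2 (Fin N) → Bool =>
        ind (Odd (flt (flt U (fun y => a ∈ vw f x y)) (fun y => c s(x, y) = true)).card))]
      exact (half_LF5 (flt U (fun y => a ∈ vw f x y)) (fun y => s(x, y))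
        (mem_flt.2 ⟨hy0, hay⟩) (fun y _ h => Sym2.congr_right.1 h)).ge)
  refine le_trans (Pr_mono isP_unif fun g hg => ?_) (hc.trans ?_)
  · have hsub : flt (U.biUnion (vw f x)) (fun a => Odd (flt (flt U (fun y => a ∈ vw f x y))
        (fun y => g a s(x, y) = true)).card) ⊆ xr (lab f (fun e a => g a e) true x) U := by
      intro a ha
      have e : flt U (fun y => a ∈ lab f (fun e a => g a e) true x y) =
          flt (flt U (fun y => a ∈ vw f x y)) (fun y => g a s(x, y) = true) := by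
        ext y
        simp only [mem_flt, lab, and_assoc]
      unfold xr
      rw [mem_flt, e]
      exact ⟨mem_univ _, (mem_flt.1 ha).2⟩
    have h1 := (card_le_card hsub).trans hg.le
    exact_mod_cast h1
  · rw [← Real.exp_nat_mul]
    refine Real.exp_le_exp.2 ?_
    have h1 : (l2 : ℝ) * U.card ≤ (U.biUnion (vw f x)).card := by exact_mod_cast hW
    linarith

theorem Pr_not_V6 (hP : P.Ok) (f : Fin P.N → Fin P.k → Fin P.q) (h9 : V9 f P.du P.l2) :
    Pr (unif (Sym2 (Fin P.N)) (Fin P.k → Bool)) (fun g => ¬ V6 (lab f g true) P.du P.lx) ≤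
      1 / 10 := by
  have hg := hP.g6
  set η : ℝ := Real.exp (P.lx - 3 / 10 * (P.l2 : ℝ)) with hη
  have hη0 : 0 ≤ η := (Real.exp_pos _).le
  have hN : (1 : ℝ) ≤ P.N := by exact_mod_cast hP.hN
  have hNη : (P.N : ℝ) * η ≤ 1 := by
    have h1 : 0 ≤ (P.N : ℝ) * η := by positivity
    nlinarith
  have hs := sum_pow_card_le (α := Fin P.N) hη0 (by rw [Fintype.card_fin]; exact hNη)
  rw [Fintype.card_fin] at hs
  have hp : IsP (unif (Sym2 (Fin P.N)) (Fin P.k → Bool)) := isP_unif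
  have step1 : ∀ g : Sym2 (Fin P.N) → Fin P.k → Bool, ¬ V6 (lab f g true) P.du P.lx →
      ∃ x ∈ (univ : Finset (Fin P.N)),
        ∃ U ∈ flt (univ : Finset (Finset (Fin P.N))) (fun V => V.Nonempty),
          (x ∉ U ∧ U.card ≤ P.du) ∧ (xr (lab f g true x) U).card < P.lx * U.card := by
    intro g hg6
    unfold V6 at hg6
    push Not at hg6
    obtain ⟨x, U, h1, h2, h3⟩ := hg6
    refine ⟨x, mem_univ _, U, mem_flt.2 ⟨mem_univ _, ?_⟩, ⟨h1, h2⟩, h3⟩
    rw [nonempty_iff_ne_empty]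
    rintro rfl
    simp at h3
  have step2 : ∀ (x : Fin P.N) (U : Finset (Fin P.N)),
      Pr (unif (Sym2 (Fin P.N)) (Fin P.k → Bool)) (fun g =>
        (x ∉ U ∧ U.card ≤ P.du) ∧ (xr (lab f g true x) U).card < P.lx * U.card) ≤
        η ^ U.card := by
    intro x U
    by_cases h : x ∉ U ∧ U.card ≤ P.du
    · exact (Pr_mono hp fun g hg' => hg'.2).trans (one_LF5 f x U (h9 x U h.1 h.2))
    · rw [Pr_false hp fun g hg' => h hg'.1]
      exact pow_nonneg hη0 _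
  refine (Pr_mono hp step1).trans ((Pr_exists_le hp _ _).trans ?_)
  have step3 : ∀ x ∈ (univ : Finset (Fin P.N)),
      Pr (unif (Sym2 (Fin P.N)) (Fin P.k → Bool)) (fun g =>
        ∃ U ∈ flt (univ : Finset (Finset (Fin P.N))) (fun V => V.Nonempty),
          (x ∉ U ∧ U.card ≤ P.du) ∧ (xr (lab f g true x) U).card < P.lx * U.card) ≤
        2 * P.N * η := fun x _ =>
    (Pr_exists_le hp _ _).trans ((sum_le_sum fun U _ => step2 x U).trans hs)
  refine (sum_le_sum step3).trans ?_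
  rw [sum_const, card_univ, Fintype.card_fin, nsmul_eq_mul]
  nlinarith

end Pool.Agent.P.MP_b5e666_co.Lar
end
end

-- part Pool.Agent.P.MP_b5e666_co.LF6
section

set_option autoImplicit false

open Finset

noncomputable section

namespace Pool.Agent.P.MP_b5e666_co.Lar

variable {P : Par}

theorem quarter_LF6 {k : ℕ} {A1 A0 : Finset (Fin k)} (hd : Disjoint A1 A0)
    (hc : A1.card + A0.card ≤ 2) :
    (1 / 4 : ℝ) ≤ Pr (unif (Fin k) Bool)
      (fun c => (∀ a ∈ A1, c a = true) ∧ ∀ a ∈ A0, c a = false) := by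
  have e : Pr (unif (Fin k) Bool) (fun c => (∀ a ∈ A1, c a = true) ∧ ∀ a ∈ A0, c a = false) =
      Pr (unif (Fin k) Bool) (fun c => ∀ a ∈ A1 ∪ A0, c a = decide (a ∈ A1)) := by
    refine Pr_congr _ fun c => ⟨fun h a ha => ?_, fun h => ⟨fun a ha => ?_, fun a ha => ?_⟩⟩
    · by_cases h1 : a ∈ A1
      · rw [h.1 a h1, decide_eq_true h1]
      · rw [h.2 a ((mem_union.1 ha).resolve_left h1), decide_eq_false h1]
    · rw [h a (mem_union_left _ ha), decide_eq_true ha]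
    · rw [h a (mem_union_right _ ha), decide_eq_false (disjoint_right.1 hd ha)]
  rw [e, Pr_cyl (A1 ∪ A0) (fun a v => v = decide (a ∈ A1))]
  have e2 : ∀ a ∈ A1 ∪ A0, ((flt (univ : Finset Bool) (fun v => v = decide (a ∈ A1))).card : ℝ) /
      Fintype.card Bool = 1 / 2 := fun a _ => by
    have : flt (univ : Finset Bool) (fun v => v = decide (a ∈ A1)) = {decide (a ∈ A1)} := by
      ext v
      simp only [mem_flt, mem_univ, true_and, mem_singleton]
    rw [this, card_singleton, Fintype.card_bool]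
    norm_num
  rw [prod_congr rfl e2, prod_const, card_union_of_disjoint hd]
  calc (1 / 4 : ℝ) = (1 / 2) ^ 2 := by norm_num
    _ ≤ _ := pow_le_pow_of_le_one (by norm_num) (by norm_num) hc

theorem one_LF6 {N k : ℕ} (X : Finset (Fin N)) (A1 A0 : Finset (Fin k)) :
    Pr (unif (Sym2 (Fin N)) (Fin k → Bool)) (fun g => (Disjoint A1 A0 ∧ A1.card + A0.card ≤ 2) ∧
      ((flt (X.offDiag.image Sym2.mk.uncurry)
        (fun e => (∀ a ∈ A1, g e a = true) ∧ ∀ a ∈ A0, g e a = false)).card : ℝ) ≤ 0) ≤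
      Real.exp (-(3 / 20 * ((X.card.choose 2 : ℕ) : ℝ))) := by
  by_cases h : Disjoint A1 A0 ∧ A1.card + A0.card ≤ 2
  · refine (Pr_mono isP_unif fun g hg => hg.2).trans ?_
    refine (chern_lo isP_unif (X.offDiag.image Sym2.mk.uncurry)
      (fun _ (c : Fin k → Bool) => (∀ a ∈ A1, c a = true) ∧ ∀ a ∈ A0, c a = false)
      (π := 1 / 4) (u := 0) fun e _ => ?_).trans (le_of_eq ?_)
    · rw [sum_unif_fun]
      exact quarter_LF6 h.1 h.2
    · rw [Sym2.card_image_offDiag]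
      congr 1
      ring
  · rw [Pr_false isP_unif fun g hg => h hg.1]
    exact (Real.exp_pos _).le

theorem Pr_not_V7 (hP : P.Ok) (f : Fin P.N → Fin P.k → Fin P.q) :
    Pr (unif (Sym2 (Fin P.N)) (Fin P.k → Bool)) (fun g => ¬ V7 f (lab f g true) P.Mr) ≤
      1 / 10 := by
  obtain ⟨S, hS⟩ : ∃ S, S = flt (univ : Finset (Finset (Fin P.k))) (fun V => V.card ≤ 2) :=
    ⟨_, rfl⟩
  have h1 : Pr (unif (Sym2 (Fin P.N)) (Fin P.k → Bool)) (fun g => ¬ V7 f (lab f g true) P.Mr) ≤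
      Pr (unif (Sym2 (Fin P.N)) (Fin P.k → Bool)) (fun g =>
        ∃ z ∈ powersetCard P.Mr (univ : Finset (Fin P.N)) ×ˢ S ×ˢ S,
          (Disjoint z.2.1 z.2.2 ∧ z.2.1.card + z.2.2.card ≤ 2) ∧
          ((flt (z.1.offDiag.image Sym2.mk.uncurry)
            (fun e => (∀ a ∈ z.2.1, g e a = true) ∧ ∀ a ∈ z.2.2, g e a = false)).card : ℝ) ≤ 0) := by
    refine Pr_mono isP_unif fun g hg => ?_
    by_contra hc
    refine hg fun X0 hX0 A1 A0 hd h2 => ?_
    obtain ⟨X, hX, hcard⟩ := exists_subset_card_eq hX0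
    by_contra hn
    refine hc ⟨(X, A1, A0), ?_, ⟨hd, h2⟩, ?_⟩
    · simp only [mem_product, mem_powersetCard, hS, mem_flt, mem_univ, true_and, subset_univ]
      exact ⟨hcard, by omega, by omega⟩
    · rw [Nat.cast_nonpos, card_eq_zero, eq_empty_iff_forall_notMem]
      intro e he
      obtain ⟨he1, he2, he3⟩ := mem_flt.1 he
      obtain ⟨⟨x, y⟩, hxy, rfl⟩ := mem_image.1 he1
      obtain ⟨hx, hy, hne⟩ := mem_offDiag.1 hxy
      refine hn ⟨x, hX hx, y, hX hy, hne, fun a ha hv => mem_flt.2 ⟨hv, he2 a ha⟩, fun a ha hl => ?_⟩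
      have h3 : g s(x, y) a = false := he3 a ha
      rw [(mem_flt.1 hl).2] at h3
      exact absurd h3 (by decide)
  refine h1.trans ((Pr_exists_le isP_unif _ _).trans ?_)
  refine (sum_le_card_nsmul _ _ (Real.exp (-(3 / 20 * ((P.Mr.choose 2 : ℕ) : ℝ))))
    fun z hz => ?_).trans ?_
  · have := one_LF6 z.1 z.2.1 z.2.2
    rwa [(mem_powersetCard.1 (mem_product.1 hz).1).2] at this
  · refine le_trans ?_ hP.g7
    rw [nsmul_eq_mul]
    refine mul_le_mul_of_nonneg_right ?_ (Real.exp_pos _).le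
    have c1 : S.card ≤ (P.k + 1) ^ 2 := by
      have := card_small_le (Fin P.k) 2
      rwa [Fintype.card_fin, ← hS] at this
    have c2 : (powersetCard P.Mr (univ : Finset (Fin P.N))).card ≤ P.N ^ P.Mr := by
      rw [card_powersetCard, card_univ, Fintype.card_fin]
      exact Nat.choose_le_pow _ _
    have c3 : (powersetCard P.Mr (univ : Finset (Fin P.N)) ×ˢ S ×ˢ S).card ≤
        P.N ^ P.Mr * (P.k + 1) ^ 4 := by
      rw [card_product, card_product]
      refine Nat.mul_le_mul c2 ?_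
      calc S.card * S.card ≤ (P.k + 1) ^ 2 * (P.k + 1) ^ 2 := Nat.mul_le_mul c1 c1
        _ = _ := by ring
    exact_mod_cast c3

theorem card_lab_LF6 {N k q G : ℕ} (f : Fin N → Fin k → Fin q) (b : Fin G) (x y : Fin N)
    (h : Sym2 (Fin N) × Fin k → Fin G) :
    (lab f (fun e a => h (e, a)) b x y).card =
      (flt ((vw f x y).image fun a => (s(x, y), a)) (fun i => h i = b)).card := by
  have inj : Function.Injective fun a : Fin k => (s(x, y), a) := fun a a' e => (Prod.ext_iff.1 e).2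
  rw [← card_image_of_injective _ inj]
  congr 1
  ext i
  simp only [lab, mem_image, mem_flt]
  constructor
  · rintro ⟨a, ⟨h1, h2⟩, rfl⟩
    exact ⟨⟨a, h1, rfl⟩, h2⟩
  · rintro ⟨⟨a, h1, rfl⟩, h2⟩
    exact ⟨a, ⟨h1, h2⟩, rfl⟩

theorem Pr_not_V5 (hP : P.Ok) (f : Fin P.N → Fin P.k → Fin P.q) (h1 : V1 f P.iu) (h1' : V1' f P.i)
    (b : Fin P.G) :
    Pr (unif (Sym2 (Fin P.N)) (Fin P.k → Fin P.G)) (fun h => ¬ V5 (lab f h b) P.ml P.mu) ≤
      1 / 10 := by
  have : Nonempty (Fin P.G) := ⟨b⟩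
  have hG : (0 : ℝ) < P.G := by exact_mod_cast hP.hG
  rw [Pr_uncurry]
  have s1 : Pr (unif (Sym2 (Fin P.N) × Fin P.k) (Fin P.G))
      (fun h => ¬ V5 (lab f (fun e a => h (e, a)) b) P.ml P.mu) ≤
      Pr (unif (Sym2 (Fin P.N) × Fin P.k) (Fin P.G)) (fun h =>
        ∃ z ∈ (univ : Finset (Fin P.N)).offDiag,
          ((flt ((vw f z.1 z.2).image fun a => (s(z.1, z.2), a)) (fun i => h i = b)).card : ℝ) ≤
            P.ml ∨ (P.mu : ℝ) ≤
          ((flt ((vw f z.1 z.2).image fun a => (s(z.1, z.2), a)) (fun i => h i = b)).card : ℝ)) := by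
    refine Pr_mono isP_unif fun h hh => ?_
    by_contra hc
    refine hh fun x y hxy => ?_
    by_contra hn
    refine hc ⟨(x, y), mem_offDiag.2 ⟨mem_univ _, mem_univ _, hxy⟩, ?_⟩
    rw [card_lab_LF6] at hn
    simp only [Nat.cast_le]
    omega
  refine s1.trans ((Pr_exists_le isP_unif _ _).trans ?_)
  refine (sum_le_card_nsmul _ _ (Real.exp (P.ml - 3 / 10 * ((P.i : ℝ) / P.G)) +
    Real.exp (-(P.mu : ℝ) + 2 * ((P.iu : ℝ) / P.G))) fun z hz => ?_).trans ?_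
  · have hne := (mem_offDiag.1 hz).2.2
    have inj : Function.Injective fun a : Fin P.k => (s(z.1, z.2), a) :=
      fun a a' e => (Prod.ext_iff.1 e).2
    have c1 : ((vw f z.1 z.2).card : ℝ) ≤ P.iu := by exact_mod_cast h1 z.1 z.2
    have c2 : (P.i : ℝ) ≤ 2 * (vw f z.1 z.2).card := by exact_mod_cast h1' z.1 z.2 hne
    have hg : (0 : ℝ) < (P.G : ℝ)⁻¹ := inv_pos.2 hG
    refine (Pr_or_le isP_unif _ _).trans (add_le_add ?_ ?_)
    · refine (chern_lo isP_unif _ (fun _ c => c = b) (π := (P.G : ℝ)⁻¹) fun i _ => ?_).trans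
        (Real.exp_le_exp.2 ?_)
      · rw [sum_unif_eq, Fintype.card_fin]
      · rw [card_image_of_injective _ inj, div_eq_mul_inv (P.i : ℝ)]
        nlinarith [mul_le_mul_of_nonneg_right c2 hg.le]
    · refine (chern_up isP_unif _ (fun _ c => c = b) (π := (P.G : ℝ)⁻¹) (t := 1) (fun i _ => ?_)
        zero_le_one).trans (Real.exp_le_exp.2 ?_)
      · rw [sum_unif_eq, Fintype.card_fin]
      · rw [card_image_of_injective _ inj, div_eq_mul_inv (P.iu : ℝ)]
        have e1 : Real.exp 1 - 1 ≤ 2 := by linarith [Real.exp_one_lt_d9]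
        have e2 : (0 : ℝ) ≤ (P.G : ℝ)⁻¹ * (vw f z.1 z.2).card := by positivity
        nlinarith [mul_le_mul_of_nonneg_right c1 hg.le, mul_le_mul_of_nonneg_right e1 e2]
  · refine le_trans ?_ hP.h5
    rw [nsmul_eq_mul]
    refine mul_le_mul_of_nonneg_right ?_ (by positivity)
    have : ((univ : Finset (Fin P.N)).offDiag).card ≤ P.N ^ 2 := by
      rw [offDiag_card, card_univ, Fintype.card_fin, sq]
      exact Nat.sub_le _ _
    exact_mod_cast this

end Pool.Agent.P.MP_b5e666_co.Lar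
end
end

-- part Pool.Agent.P.MP_b5e666_co.LF7
section

set_option autoImplicit false

open Finset

noncomputable section

namespace Pool.Agent.P.MP_b5e666_co.Lar

variable {P : Par} (f : Fin P.N → Fin P.k → Fin P.q)
  (Γ : Finset ((Fin P.k × Fin P.q) × (Fin P.k × Fin P.q)))

/-- columns touched by an edge inside x -/
def tch (x : Fin P.N) : Finset (Fin P.k) :=
  flt univ (fun a => ∃ e ∈ edg f Γ x, e.1.1 = a ∨ e.2.1 = a)

/-- the hubs of x -/
def hub (x : Fin P.N) : Finset (Fin P.N) :=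
  flt univ (fun y => (edg f Γ x).card ≤ P.z1 ∧ P.nu < (tch f Γ x ∩ vw f x y).card)

/-- touched columns that lie in many hub views -/
def vd (x : Fin P.N) : Finset (Fin P.k) :=
  flt (tch f Γ x) (fun a => 2 * P.c2 ≤ (flt (hub f Γ x) (fun y => a ∈ vw f x y)).card)

/-- number of hubs that have the column in their majority part -/
def psi (M : Fin P.N → Fin P.N → Finset (Fin P.k)) (x : Fin P.N) (a : Fin P.k) : ℕ :=
  (flt (hub f Γ x) (fun y => a ∈ M x y)).card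

def Psi (M : Fin P.N → Fin P.N → Finset (Fin P.k)) (x : Fin P.N) : ℕ :=
  ∑ a ∈ vd f Γ x, psi f Γ M x a +
    ∑ e ∈ flt (edg f Γ x) (fun e => e.1.1 ∉ vd f Γ x ∧ e.2.1 ∉ vd f Γ x),
      psi f Γ M x e.1.1 * psi f Γ M x e.2.1

theorem card_tch (x : Fin P.N) : (tch f Γ x).card ≤ 2 * (edg f Γ x).card := by
  classical
  have hsub : tch f Γ x ⊆ (edg f Γ x).image (fun e => e.1.1) ∪ (edg f Γ x).image (fun e => e.2.1) := by
    intro a ha
    obtain ⟨e, he, h⟩ := (mem_flt.1 ha).2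
    rcases h with h | h
    · exact mem_union_left _ (mem_image.2 ⟨e, he, h⟩)
    · exact mem_union_right _ (mem_image.2 ⟨e, he, h⟩)
  have h1 := card_le_card hsub
  have h2 := card_union_le ((edg f Γ x).image (fun e => e.1.1)) ((edg f Γ x).image (fun e => e.2.1))
  have h3 : ((edg f Γ x).image (fun e => e.1.1)).card ≤ (edg f Γ x).card := card_image_le
  have h4 : ((edg f Γ x).image (fun e => e.2.1)).card ≤ (edg f Γ x).card := card_image_le
  omega

theorem card_hub (hP : P.Ok) (h4 : V4 f P.z4 P.c2) (x : Fin P.N) : (hub f Γ x).card ≤ P.J := by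
  by_contra hc
  have hc' : P.J + 1 ≤ (hub f Γ x).card := by omega
  obtain ⟨Y, hY, hYc⟩ := exists_subset_card_eq hc'
  have hne : Y.Nonempty := by rw [← card_pos]; omega
  obtain ⟨y0, hy0⟩ := hne
  have he : (edg f Γ x).card ≤ P.z1 := (mem_flt.1 (hY hy0)).2.1
  have ht : (tch f Γ x).card ≤ 2 * P.z1 := (card_tch f Γ x).trans (by omega)
  have hup := h4 x (tch f Γ x) Y (ht.trans hP.h8c) (by rw [hYc]; exact hP.h8d)
  have hlo : Y.card * (P.nu + 1) ≤ ∑ y ∈ Y, (tch f Γ x ∩ vw f x y).card := by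
    have := card_nsmul_le_sum Y (fun y => (tch f Γ x ∩ vw f x y).card) (P.nu + 1)
      (fun y hy => (mem_flt.1 (hY hy)).2.2)
    simpa using this
  rw [hYc] at hup hlo
  have h1 : P.c2 * ((tch f Γ x).card + (P.J + 1)) ≤ P.c2 * (2 * P.z1 + (P.J + 1)) :=
    Nat.mul_le_mul_left _ (by omega)
  have h2 := hP.h8a
  have h3 := hP.h8b
  have h5 : 2 * P.c2 * (P.J + 1) ≤ P.nu * (P.J + 1) := Nat.mul_le_mul_right _ h2
  nlinarith

theorem inc_vd (hP : P.Ok) (h4 : V4 f P.z4 P.c2) (x : Fin P.N) :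
    ∑ a ∈ vd f Γ x, (flt (hub f Γ x) (fun y => a ∈ vw f x y)).card ≤ 2 * P.c2 * P.J := by
  classical
  rcases (hub f Γ x).eq_empty_or_nonempty with h0 | ⟨y0, hy0⟩
  · rw [sum_eq_zero]
    · exact Nat.zero_le _
    · intro a _
      have := card_flt_le (hub f Γ x) (fun y => a ∈ vw f x y)
      rw [h0] at this ⊢
      simpa using this
  have he : (edg f Γ x).card ≤ P.z1 := (mem_flt.1 hy0).2.1
  have ht : (tch f Γ x).card ≤ 2 * P.z1 := (card_tch f Γ x).trans (by omega)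
  have hv : (vd f Γ x).card ≤ P.z4 := (card_flt_le _ _).trans (ht.trans hP.h8c)
  have hJ := card_hub f Γ hP h4 x
  have hup := h4 x (vd f Γ x) (hub f Γ x) hv (hJ.trans (by have := hP.h8d; omega))
  have hdc : ∑ a ∈ vd f Γ x, (flt (hub f Γ x) (fun y => a ∈ vw f x y)).card =
      ∑ y ∈ hub f Γ x, (vd f Γ x ∩ vw f x y).card := by
    simp only [flt_eq, card_filter, ← filter_mem_eq_inter]
    exact sum_comm
  have hlo : (vd f Γ x).card * (2 * P.c2) ≤
      ∑ a ∈ vd f Γ x, (flt (hub f Γ x) (fun y => a ∈ vw f x y)).card := by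
    have := card_nsmul_le_sum (vd f Γ x) (fun a => (flt (hub f Γ x) (fun y => a ∈ vw f x y)).card)
      (2 * P.c2) (fun a ha => (mem_flt.1 ha).2)
    simpa using this
  rw [← hdc] at hup
  have h1 : P.c2 * (hub f Γ x).card ≤ P.c2 * P.J := Nat.mul_le_mul_left _ hJ
  nlinarith

theorem zer_of_Psi (M : Fin P.N → Fin P.N → Finset (Fin P.k)) (hM : ∀ x y, M x y ⊆ vw f x y)
    (x : Fin P.N) (he : (edg f Γ x).card ≤ P.z1) (h : Psi f Γ M x ≤ P.nu) :
    ∃ C, Zer f M Γ P.z1 P.nu x C := by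
  classical
  set E := flt (edg f Γ x) (fun e => e.1.1 ∉ vd f Γ x ∧ e.2.1 ∉ vd f Γ x) with hE
  set g : (Fin P.k × Fin P.q) × (Fin P.k × Fin P.q) → Fin P.k :=
    fun e => if psi f Γ M x e.1.1 ≤ psi f Γ M x e.2.1 then e.1.1 else e.2.1 with hg
  have hg1 : ∀ e, g e = e.1.1 ∨ g e = e.2.1 := fun e => by
    simp only [hg]; split_ifs
    · exact Or.inl rfl
    · exact Or.inr rfl
  have hg2 : ∀ e, psi f Γ M x (g e) ≤ psi f Γ M x e.1.1 * psi f Γ M x e.2.1 := fun e => by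
    simp only [hg]; split_ifs with h1
    · rcases Nat.eq_zero_or_pos (psi f Γ M x e.1.1) with h0 | h0
      · rw [h0]; exact Nat.zero_le _
      · exact Nat.le_mul_of_pos_right _ (by omega)
    · rcases Nat.eq_zero_or_pos (psi f Γ M x e.2.1) with h0 | h0
      · rw [h0]; exact Nat.zero_le _
      · exact Nat.le_mul_of_pos_left _ (by omega)
  have hC : vd f Γ x ∪ E.image g ⊆ tch f Γ x := by
    intro a ha
    rcases mem_union.1 ha with ha | ha
    · exact flt_subset _ _ ha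
    · obtain ⟨e, heE, rfl⟩ := mem_image.1 ha
      refine mem_flt.2 ⟨mem_univ _, e, (mem_flt.1 heE).1, ?_⟩
      rcases hg1 e with h1 | h1
      · exact Or.inl h1.symm
      · exact Or.inr h1.symm
  refine ⟨vd f Γ x ∪ E.image g, ?_, ?_, ?_⟩
  · exact (card_le_card hC).trans ((card_tch f Γ x).trans (by omega))
  · intro e hee
    by_cases h1 : e.1.1 ∈ vd f Γ x
    · exact Or.inl (mem_union_left _ h1)
    by_cases h2 : e.2.1 ∈ vd f Γ x
    · exact Or.inr (mem_union_left _ h2)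
    have hm : g e ∈ vd f Γ x ∪ E.image g :=
      mem_union_right _ (mem_image_of_mem g (mem_flt.2 ⟨hee, h1, h2⟩))
    rcases hg1 e with h3 | h3
    · exact Or.inl (h3 ▸ hm)
    · exact Or.inr (h3 ▸ hm)
  · intro y
    by_cases hy : y ∈ hub f Γ x
    · have a1 : ((vd f Γ x ∪ E.image g) ∩ M x y).card * 1 ≤
          ∑ a ∈ (vd f Γ x ∪ E.image g) ∩ M x y, psi f Γ M x a := by
        have := card_nsmul_le_sum ((vd f Γ x ∪ E.image g) ∩ M x y) (fun a => psi f Γ M x a) 1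
          (fun a ha => card_pos.2 ⟨y, mem_flt.2 ⟨hy, (mem_inter.1 ha).2⟩⟩)
        simpa using this
      have a2 : ∑ a ∈ (vd f Γ x ∪ E.image g) ∩ M x y, psi f Γ M x a ≤
          ∑ a ∈ vd f Γ x ∪ E.image g, psi f Γ M x a :=
        sum_le_sum_of_subset inter_subset_left
      have a3 : ∑ a ∈ vd f Γ x ∪ E.image g, psi f Γ M x a ≤
          ∑ a ∈ vd f Γ x, psi f Γ M x a + ∑ a ∈ E.image g, psi f Γ M x a := by
        rw [← sum_union_inter]; exact Nat.le_add_right _ _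
      have a4 : ∑ a ∈ E.image g, psi f Γ M x a ≤ ∑ e ∈ E, psi f Γ M x (g e) :=
        sum_image_le_of_nonneg (fun _ _ => Nat.zero_le _)
      have a5 : ∑ e ∈ E, psi f Γ M x (g e) ≤ ∑ e ∈ E, psi f Γ M x e.1.1 * psi f Γ M x e.2.1 :=
        sum_le_sum fun e _ => hg2 e
      unfold Psi at h
      rw [← hE] at h
      omega
    · have a1 : (tch f Γ x ∩ vw f x y).card ≤ P.nu := by
        by_contra hc
        exact hy (mem_flt.2 ⟨mem_univ _, he, by omega⟩)
      exact (card_le_card (inter_subset_inter hC (hM x y))).trans a1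

end Pool.Agent.P.MP_b5e666_co.Lar
end
end

-- part Pool.Agent.P.MP_b5e666_co.LT4
section

set_option autoImplicit false

open Finset

noncomputable section

namespace Pool.Agent.P.MP_b5e666_co.Lar

variable {P : Par} {Φ : Fam P} {col : Fin P.N → (Fin P.k → SignType) → Fin P.n}

theorem cover_killed (hP : P.Ok) (hΦ : Φ.Ok) (hc : Φ.Proper col) (γ : Fin P.n) {μ : ℕ}
    (hμ : P.mu0 ≤ μ) (φ : Pat P.k P.q) (hφ : Alw φ) :
    ∃ Cov : Finset (Fin P.k × Fin P.q), Cov.card ≤ P.s ∧ (∀ p ∈ Cov, p.1 ∉ cols φ) ∧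
      ∃ Lf : Finset (Fin P.N), Lf.card ≤ 8 * P.Mr * μ ∧
        ∀ x, Has Φ.f x φ → Φ.Killed col γ μ φ x ∨ x ∈ Lf ∨ ∃ p ∈ Cov, p ∈ cel Φ.f x := by
  have hq : (0 : ℝ) < P.q := by exact_mod_cast (by have := hP.hq; omega : 0 < P.q)
  have hb2 : ∀ Q : Finset (Fin P.k × Fin P.q), Q.card ≤ P.z2 →
      ((flt univ (fun y => P.j ≤ (cel Φ.f y ∩ Q).card)).card : ℝ) ≤ P.b2 := fun Q hQ =>
    count_j (cel Φ.f) P.j (β := P.bq P.j) (fun K hK => by
      have := hΦ.v3 K (by omega)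
      rw [hK] at this
      exact this) (by unfold Par.bq; positivity) Q hQ
  have hdis : Disjoint (nz φ) (zc φ) := by
    refine disjoint_left.2 fun a h1 h2 => ?_
    obtain ⟨b, v, e1, hv⟩ := (mem_flt.1 h1).2
    obtain ⟨b', e2⟩ := (mem_flt.1 h2).2
    rw [e1] at e2
    exact hv (congrArg Prod.snd (Option.some.inj e2))
  have hcard : (nz φ).card + (zc φ).card ≤ 2 := by
    rw [← card_union_of_disjoint hdis]
    refine le_trans (card_le_card fun a ha => mem_flt.2 ⟨mem_univ _, ?_⟩) hφ.1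
    rcases mem_union.1 ha with h | h
    · obtain ⟨b, v, e1, -⟩ := (mem_flt.1 h).2
      rw [e1]
      exact Option.some_ne_none _
    · obtain ⟨b, e1⟩ := (mem_flt.1 h).2
      rw [e1]
      exact Option.some_ne_none _
  have hμ' : (P.z2 : ℝ) * P.b2 ≤ μ := hP.t3.trans (by exact_mod_cast hμ)
  obtain ⟨Cov, c1, c2, c3⟩ := cover Φ.f P.j P.Mr P.z0 P.z2 P.s μ P.b2 (cols φ)
    (flt univ (fun x => Has Φ.f x φ ∧ ¬ Φ.Killed col γ μ φ x)) (Φ.Arc col γ φ) hb2
    (fun X1 hX1 hM => by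
      obtain ⟨x, hx, y, hy, hxy, a1, a0⟩ := hΦ.v7 X1 hM (nz φ) (zc φ) hdis hcard
      have hx' := (mem_flt.1 (hX1 hx)).2.1
      have hy' := (mem_flt.1 (hX1 hy)).2.1
      have a2 : ∀ a ∈ nz φ, a ∈ Φ.Z x y := fun a ha => a1 a ha (by
        obtain ⟨b, v, e1, -⟩ := (mem_flt.1 ha).2
        exact mem_vw.2 ⟨hxy, (hx' a b v e1).trans (hy' a b v e1).symm⟩)
      rcases coupling hP hΦ hc γ hxy hφ a2 a0 with h | h
      · exact ⟨x, hx, y, hy, hxy, hxy, hy', a0, h⟩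
      · exact ⟨y, hy, x, hx, hxy.symm, hxy.symm, hx', fun a ha => hΦ.Zc x y ▸ a0 a ha, h⟩)
    hP.t1 hP.t2 hμ' (by have := hP.hj; omega) hP.hMr hP.hz0 (hP.hmu0.trans hμ)
  refine ⟨Cov, c1, c2, ?_⟩
  rcases c3 with c3 | ⟨x, hx, Pl, p1, p2, p3⟩
  · refine ⟨_, c3, fun x hx => ?_⟩
    by_cases hk : Φ.Killed col γ μ φ x
    · exact Or.inl hk
    by_cases hp : ∃ p ∈ Cov, p ∈ cel Φ.f x
    · exact Or.inr (Or.inr hp)
    · exact Or.inr (Or.inl (mem_flt.2 ⟨mem_flt.2 ⟨mem_univ _, hx, hk⟩,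
        fun p h1 h2 => hp ⟨p, h1, h2⟩⟩))
  · exact absurd ⟨Pl, p1, fun y hy => (p2 y hy).2, p3⟩ (mem_flt.1 hx).2.2

/-- choice of the universe: counting -/
theorem choose_x (hP : P.Ok) (hΦ : Φ.Ok) (Lf0 Lf1 : Fin P.n → Finset (Fin P.N))
    (h0 : ∀ γ, (Lf0 γ).card ≤ P.s2 * (8 * P.Mr * P.mu0))
    (h1 : ∀ γ, (Lf1 γ).card ≤ P.s2 * (8 * P.Mr * P.mu1))
    (Γ : Finset ((Fin P.k × Fin P.q) × (Fin P.k × Fin P.q))) (hΓ : Γ.card ≤ P.e0)
    (hΓ' : ∀ e ∈ Γ, e.1.1 ≠ e.2.1) (Tr : Finset (Finset (Fin P.k × Fin P.q)))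
    (hT : Tr.card ≤ 2 * P.n * (13 * P.s ^ 3)) (hT' : ∀ t ∈ Tr, t.card = 3) :
    ∃ x, (∀ γ, x ∉ Lf0 γ) ∧ (∀ t ∈ Tr, ¬ t ⊆ cel Φ.f x) ∧
      (flt univ (fun γ => x ∈ Lf1 γ)).card ≤ P.R ∧ ∃ C, Zer Φ.f Φ.M Γ P.z1 P.nu x C := by
  have hq : (0 : ℝ) < P.q := by exact_mod_cast (by have := hP.hq; omega : 0 < P.q)
  have hN : (0 : ℝ) < P.N := by exact_mod_cast hP.hN
  have hj := hP.hj
  have hfl : ∀ S : Finset (Fin P.N), flt univ (fun y => y ∈ S) = S := fun S => by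
    ext y
    simp
  have b1 : ((flt univ (fun x : Fin P.N => ∃ γ, x ∈ Lf0 γ)).card : ℝ) ≤ P.N / 10 := by
    refine (union_bound_LB2 univ (fun γ y => y ∈ Lf0 γ) _
      (β := ((P.s2 * (8 * P.Mr * P.mu0) : ℕ) : ℝ)) (fun γ _ => ?_)
      (fun y ⟨γ, h⟩ => ⟨γ, mem_univ _, h⟩)).trans ?_
    · rw [hfl]
      exact_mod_cast h0 γ
    · have := (Nat.cast_le (α := ℝ)).2 hP.x1
      rw [card_univ, Fintype.card_fin]
      push_cast at this ⊢
      linarith
  have b2 : ((flt univ (fun x : Fin P.N => ∃ t ∈ Tr, t ⊆ cel Φ.f x)).card : ℝ) ≤ P.N / 10 := by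
    refine (union_bound_LB2 Tr (fun t y => t ⊆ cel Φ.f y) _
      (β := 6 * P.N / (P.q : ℝ) ^ 3) (fun t ht => ?_) (fun y h => h)).trans ?_
    · have := hΦ.v3 t (by rw [hT' t ht]; omega)
      rwa [hT' t ht] at this
    · have h1 := (Nat.cast_le (α := ℝ)).2 hP.x2
      have h2 := (Nat.cast_le (α := ℝ)).2 hT
      push_cast at h1 h2
      rw [← mul_div_assoc, div_le_div_iff₀ (by positivity) (by norm_num)]
      nlinarith
  have b3 : ((flt univ (fun x : Fin P.N => P.z1 < (edg Φ.f Γ x).card)).card : ℝ) ≤ P.N / 10 := by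
    refine card_markov univ (fun x => (edg Φ.f Γ x).card) P.z1 hP.hz1 ?_
    have e1 : ∑ x : Fin P.N, ((edg Φ.f Γ x).card : ℝ) =
        ∑ e ∈ Γ, ∑ x : Fin P.N, ind (e.1 ∈ cel Φ.f x ∧ e.2 ∈ cel Φ.f x) := by
      rw [sum_comm]
      exact sum_congr rfl fun x _ => card_flt _ _
    have e2 : ∀ e ∈ Γ, ∑ x : Fin P.N, ind (e.1 ∈ cel Φ.f x ∧ e.2 ∈ cel Φ.f x) ≤
        6 * P.N / (P.q : ℝ) ^ 2 := by
      intro e he
      have hc : ({e.1, e.2} : Finset (Fin P.k × Fin P.q)).card = 2 :=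
        card_pair fun h => hΓ' e he (congrArg Prod.fst h)
      have := hΦ.v3 {e.1, e.2} (by omega)
      rw [hc, card_flt] at this
      refine le_trans (le_of_eq (sum_congr rfl fun x _ => ind_congr ?_)) this
      rw [insert_subset_iff, singleton_subset_iff]
    rw [e1]
    refine (sum_le_card_nsmul _ _ _ e2).trans ?_
    have h1 := (Nat.cast_le (α := ℝ)).2 hP.x4
    have h2 := (Nat.cast_le (α := ℝ)).2 hΓ
    push_cast at h1 h2
    rw [nsmul_eq_mul, ← mul_div_assoc, ← mul_div_assoc,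
      div_le_div_iff₀ (by positivity) (by norm_num)]
    nlinarith
  have b4 : ((flt univ (fun x : Fin P.N =>
      P.R < (flt univ (fun γ => x ∈ Lf1 γ)).card)).card : ℝ) ≤ P.N / 10 := by
    refine card_markov univ (fun x => (flt univ (fun γ => x ∈ Lf1 γ)).card) P.R hP.hR ?_
    have e1 : ∑ x : Fin P.N, ((flt univ (fun γ => x ∈ Lf1 γ)).card : ℝ) =
        ∑ γ, ((Lf1 γ).card : ℝ) := by
      rw [sum_congr rfl fun x _ => card_flt univ (fun γ => x ∈ Lf1 γ), sum_comm]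
      refine sum_congr rfl fun γ _ => ?_
      rw [← card_flt univ (fun x => x ∈ Lf1 γ), hfl]
    rw [e1]
    refine (sum_le_card_nsmul _ _ ((P.s2 * (8 * P.Mr * P.mu1) : ℕ) : ℝ)
      (fun γ _ => by exact_mod_cast h1 γ)).trans ?_
    have := (Nat.cast_le (α := ℝ)).2 hP.x5
    rw [card_univ, Fintype.card_fin, nsmul_eq_mul]
    push_cast at this ⊢
    linarith
  have b5 := (Nat.cast_le (α := ℝ)).2 (hΦ.v8 Γ hΓ hΓ')
  push_cast at b5
  by_contra hn
  rw [card_flt] at b1 b2 b3 b4 b5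
  have hall : ∀ x : Fin P.N, (1 : ℝ) ≤ ind (∃ γ, x ∈ Lf0 γ) + ind (∃ t ∈ Tr, t ⊆ cel Φ.f x) +
      ind (P.z1 < (edg Φ.f Γ x).card) + ind (P.R < (flt univ (fun γ => x ∈ Lf1 γ)).card) +
      ind ((edg Φ.f Γ x).card ≤ P.z1 ∧ ¬ ∃ C, Zer Φ.f Φ.M Γ P.z1 P.nu x C) := by
    intro x
    have n1 := ind_nonneg (∃ γ, x ∈ Lf0 γ)
    have n2 := ind_nonneg (∃ t ∈ Tr, t ⊆ cel Φ.f x)
    have n3 := ind_nonneg (P.z1 < (edg Φ.f Γ x).card)
    have n4 := ind_nonneg (P.R < (flt univ (fun γ => x ∈ Lf1 γ)).card)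
    have n5 := ind_nonneg ((edg Φ.f Γ x).card ≤ P.z1 ∧ ¬ ∃ C, Zer Φ.f Φ.M Γ P.z1 P.nu x C)
    by_cases k1 : ∃ γ, x ∈ Lf0 γ
    · linarith [ind_pos k1]
    by_cases k2 : ∃ t ∈ Tr, t ⊆ cel Φ.f x
    · linarith [ind_pos k2]
    by_cases k3 : P.z1 < (edg Φ.f Γ x).card
    · linarith [ind_pos k3]
    by_cases k4 : P.R < (flt univ (fun γ => x ∈ Lf1 γ)).card
    · linarith [ind_pos k4]
    have k5 : (edg Φ.f Γ x).card ≤ P.z1 ∧ ¬ ∃ C, Zer Φ.f Φ.M Γ P.z1 P.nu x C :=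
      ⟨not_lt.1 k3, fun h => hn ⟨x, fun γ k => k1 ⟨γ, k⟩, fun t ht k => k2 ⟨t, ht, k⟩,
        not_lt.1 k4, h⟩⟩
    linarith [ind_pos k5]
  have hs := sum_le_sum fun x (_ : x ∈ (univ : Finset (Fin P.N))) => hall x
  rw [sum_add_distrib, sum_add_distrib, sum_add_distrib, sum_add_distrib, sum_const, card_univ,
    Fintype.card_fin, nsmul_eq_mul, mul_one] at hs
  linarith

end Pool.Agent.P.MP_b5e666_co.Lar
end
end

-- part Pool.Agent.P.MP_b5e666_co.LT6
section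

set_option autoImplicit false

open Finset

noncomputable section

namespace Pool.Agent.P.MP_b5e666_co.Lar

variable {P : Par} {Φ : Fam P} {col : Fin P.N → (Fin P.k → SignType) → Fin P.n}

/-- the local picture at x with zero columns C -/
def locOf (Φ : Fam P) (x : Fin P.N) (C : Finset (Fin P.k)) (σ : Fin P.N → ℝ) : Loc P where
  I := vw Φ.f x
  Z := Φ.Z x
  M := fun y => Φ.M x y \ C
  Ys := flt univ (fun y => x ≠ y ∧ Disjoint (Φ.Z x y) C)
  cp := Φ.cp x
  σ := σ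

theorem locOf_ok (hΦ : Φ.Ok) (x : Fin P.N) (C : Finset (Fin P.k)) {σ : Fin P.N → ℝ}
    (h0 : ∀ y, 0 ≤ σ y) (h1 : ∀ y, σ y ≤ P.smax) (hs : ∀ y, y ∉ (locOf Φ x C σ).Ys → σ y = 0)
    (ht : ∑ y, σ y ≤ P.Del) : (locOf Φ x C σ).Ok := by
  refine ⟨hΦ.v1 x, hΦ.v2 x, hΦ.Zs x, fun y => sdiff_subset.trans (hΦ.Ms x y), fun y => ?_,
    fun Q hQ => ?_, fun U hU hc => hΦ.v6 x U (fun h => (mem_flt.1 (hU h)).2.1 rfl) hc, h0, h1,
    hs, ht⟩
  · refine (card_le_card (sdiff_subset : Φ.M x y \ C ⊆ _)).trans ?_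
    by_cases h : x = y
    · subst h
      have := card_le_card (hΦ.Ms x x)
      rw [vw_self, card_empty] at this
      omega
    · exact (hΦ.v5 x y h).2
  · have e : (Q.image fun a => (a, Φ.f x a)).card = Q.card :=
      card_image_of_injective _ fun a b h => congrArg Prod.fst h
    have h2 := hΦ.v3 (Q.image fun a => (a, Φ.f x a)) (e ▸ hQ)
    rw [e] at h2
    refine le_trans ?_ h2
    refine Nat.cast_le.2 (card_le_card (flt_mono fun y hy h => ⟨hy, fun p hp => ?_⟩))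
    obtain ⟨a, ha, rfl⟩ := mem_image.1 hp
    exact mem_cel.2 (mem_vw.1 (h ha)).2.symm

theorem zer_off_LT6 {k : ℕ} {C : Finset (Fin k)} (w : Fin k → Bool) {a : Fin k} (h : a ∉ C) :
    zer C w a = sgn (w a) := if_neg h

theorem zer_on_LT6 {k : ℕ} {C : Finset (Fin k)} (w : Fin k → Bool) {a : Fin k} (h : a ∈ C) :
    zer C w a = 0 := if_pos h

theorem score_LT6 {k : ℕ} (A C : Finset (Fin k)) (w : Fin k → Bool) :
    (score A (zer C w) : ℝ) = ∑ p ∈ A \ C, sg (w p) - (C ∩ A).card := by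
  unfold score
  rw [← sum_inter_add_sum_sdiff A C, inter_comm C A]
  push_cast
  have e1 : ∑ a ∈ A ∩ C, (if zer C w a = 1 then (1 : ℝ) else -1) = -((A ∩ C).card : ℝ) := by
    rw [sum_congr rfl (g := fun _ => (-1 : ℝ)) fun a ha => by
      rw [zer_on_LT6 w (mem_inter.1 ha).2, if_neg (by decide)]]
    simp
  have e2 : ∑ a ∈ A \ C, (if zer C w a = 1 then (1 : ℝ) else -1) = ∑ p ∈ A \ C, sg (w p) :=
    sum_congr rfl fun a ha => by
      rw [zer_off_LT6 w (mem_sdiff.1 ha).2]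
      cases w a <;> simp [sgn]
  rw [e1, e2]
  ring

theorem pary_of_par {x : Fin P.N} {C : Finset (Fin P.k)} {w : Fin P.k → Bool} {y : Fin P.N}
    (hd : Disjoint (Φ.Z x y) C)
    (h : Even ((flt (Φ.Z x y) (fun a => w a = false)).card + Φ.cp x y)) :
    Φ.Pary x y (zer C w) := by
  have e : flt (Φ.Z x y) (fun a => zer C w a = -1) = flt (Φ.Z x y) (fun a => w a = false) := by
    ext a
    simp only [mem_flt]
    refine and_congr_right fun ha => ?_
    rw [zer_off_LT6 w (disjoint_left.1 hd ha)]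
    cases w a <;> simp [sgn]
  unfold Fam.Pary
  rwa [e]

theorem valid_of_core (hP : P.Ok) (hΦ : Φ.Ok) {x : Fin P.N} {C : Finset (Fin P.k)}
    (hC : ∀ y, (C ∩ Φ.M x y).card ≤ P.nu) {S : Finset (Fin P.N)} {w : Fin P.k → Bool}
    (hS : ∀ y ∈ S, Disjoint (Φ.Z x y) C) (hc : S.card ≤ P.du) (hp : par (Φ.Z x) (Φ.cp x) S w)
    (hw : ∀ y, (if y ∈ S then 0 else P.eps * (Φ.M x y \ C).card) - 2 * P.nu ≤
      ∑ p ∈ Φ.M x y \ C, sg (w p)) : Φ.Valid x (zer C w) := by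
  have hC' : ∀ y, ((C ∩ Φ.M x y).card : ℝ) ≤ P.nu := fun y => by exact_mod_cast hC y
  have big : ∀ y, x ≠ y → y ∉ S → Φ.Big x y (zer C w) := fun y hxy hy => by
    have h1 := hw y
    rw [if_neg hy] at h1
    have h2 : P.ml ≤ (Φ.M x y \ C).card + P.nu := by
      have a1 := (hΦ.v5 x y hxy).1
      have a2 := card_sdiff_add_card_inter (Φ.M x y) C
      have a3 := hC y
      rw [inter_comm] at a3
      omega
    have h3 : (P.ml : ℝ) ≤ (Φ.M x y \ C).card + P.nu := by exact_mod_cast h2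
    have h4 := mul_le_mul_of_nonneg_left h3 hP.heps.le
    have h5 := mul_le_mul_of_nonneg_right hP.heps4 (Nat.cast_nonneg (α := ℝ) P.nu)
    have h6 : (0 : ℝ) ≤ P.nu := Nat.cast_nonneg _
    have h7 : 3 * (P.nu : ℝ) + 1 ≤ score (Φ.M x y) (zer C w) := by
      rw [score_LT6]
      linarith [hP.m6, hC' y]
    unfold Fam.Big
    exact_mod_cast h7
  refine ⟨fun y hxy => ?_, ?_⟩
  · by_cases hy : y ∈ S
    · refine Or.inr ⟨?_, fun a ha => ?_, pary_of_par (hS y hy) (hp y hy)⟩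
      · have h1 := hw y
        rw [if_pos hy] at h1
        have h7 : -(3 * (P.nu : ℝ)) ≤ score (Φ.M x y) (zer C w) := by
          rw [score_LT6]
          linarith [hC' y]
        exact_mod_cast h7
      · rw [zer_off_LT6 w (disjoint_left.1 (hS y hy) ha)]
        cases w a <;> simp [sgn]
    · exact Or.inl (big y hxy hy)
  · have h1 : (insert x S)ᶜ ⊆ flt univ (fun y => Φ.Big x y (zer C w)) := fun y hy => by
      rw [mem_compl, mem_insert, not_or] at hy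
      exact mem_flt.2 ⟨mem_univ _, big y (Ne.symm hy.1) hy.2⟩
    have h2 := card_le_card h1
    have h3 := card_insert_le x S
    have h4 := hP.m7
    rw [card_compl, Fintype.card_fin] at h2
    omega

theorem thin (hP : P.Ok) (hΦ : Φ.Ok) {γ : Fin P.n} {μ : ℕ} {φ : Pat P.k P.q} {x : Fin P.N}
    {C : Finset (Fin P.k)} (hK : Φ.Killed col γ μ φ x) (hC : C.card ≤ 2 * P.z1)
    (hf : ∃ w, Fit (zer C w) φ) :
    ∃ Pl : Finset (Fin P.N), 3 * μ ≤ 4 * Pl.card ∧
      (∀ y ∈ Pl, Φ.Arc col γ φ x y ∧ Disjoint (Φ.Z x y) C ∧ Disjoint (vw Φ.f x y) (C \ cols φ)) ∧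
      Spread (vw Φ.f x) (cols φ) P.z0 3 Pl := by
  classical
  obtain ⟨Pl, h1, h2, h3⟩ := hK
  obtain ⟨w, hw⟩ := hf
  have h4 := h3 (C \ cols φ) sdiff_disjoint
    ((card_le_card sdiff_subset).trans (hC.trans hP.m1))
  have h5 : (flt Pl fun y => (vw Φ.f x y ∩ (C \ cols φ)).Nonempty).card +
      (flt Pl fun y => ¬ (vw Φ.f x y ∩ (C \ cols φ)).Nonempty).card = Pl.card := by
    rw [flt_eq, flt_eq, card_filter_add_card_filter_not]
  refine ⟨flt Pl fun y => ¬ (vw Φ.f x y ∩ (C \ cols φ)).Nonempty, by omega, fun y hy => ?_,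
    fun U hU hc => ?_⟩
  · obtain ⟨hy, hn⟩ := mem_flt.1 hy
    have hd : Disjoint (vw Φ.f x y) (C \ cols φ) :=
      disjoint_iff_inter_eq_empty.2 (not_nonempty_iff_eq_empty.1 hn)
    refine ⟨h2 y hy, disjoint_left.2 fun a ha hc => ?_, hd⟩
    by_cases h : a ∈ cols φ
    · obtain ⟨⟨b, v⟩, e⟩ := Option.ne_none_iff_exists'.1 (mem_flt.1 h).2
      have := hw a b v e
      rw [zer_on_LT6 w hc] at this
      subst this
      exact (h2 y hy).2.2.1 a (mem_flt.2 ⟨mem_univ _, b, e⟩) ha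
    · exact disjoint_left.1 hd (hΦ.Zs x y ha) (mem_sdiff.2 ⟨hc, h⟩)
  · have h6 := h3 U hU hc
    have h7 : (flt (flt Pl fun y => ¬ (vw Φ.f x y ∩ (C \ cols φ)).Nonempty)
        fun y => (vw Φ.f x y ∩ U).Nonempty).card ≤
        (flt Pl fun y => (vw Φ.f x y ∩ U).Nonempty).card :=
      card_le_card (flt_mono fun y hy h => ⟨(mem_flt.1 hy).1, h⟩)
    omega

theorem exists_sigma (hP : P.Ok) (Ys : Finset (Fin P.N)) {τ : Type} (Ts : Finset τ)
    (Pl : τ → Finset (Fin P.N)) (low : τ → Prop) (hsub : ∀ t ∈ Ts, Pl t ⊆ Ys)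
    (hb0 : ∀ t ∈ Ts, 3 * P.mu0 ≤ 4 * (Pl t).card)
    (hb1 : ∀ t ∈ Ts, ¬ low t → 3 * P.mu1 ≤ 4 * (Pl t).card)
    (hlow : (flt Ts low).card ≤ P.R * P.s2) :
    ∃ σ : Fin P.N → ℝ, (∀ y, 0 ≤ σ y) ∧ (∀ y, σ y ≤ P.smax) ∧ (∀ y, y ∉ Ys → σ y = 0) ∧
      ∑ y, σ y ≤ P.Del ∧ ∀ t ∈ Ts, ∀ y ∈ Pl t, P.lam / (Pl t).card ≤ σ y := by
  have hN : (0 : ℝ) < P.N := by exact_mod_cast hP.hN
  have hm : (0 : ℝ) < P.mu0 := by exact_mod_cast hP.hmu0
  have hl : 0 ≤ P.lam := by linarith [hP.hlam]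
  have hD := hP.hDel
  have hb : 0 ≤ P.Del / (2 * P.N) := by positivity
  have hpos : ∀ t ∈ Ts, (0 : ℝ) < (Pl t).card := fun t ht => by
    have := hb0 t ht
    have := hP.hmu0
    exact_mod_cast (by omega : 0 < (Pl t).card)
  have hlow' : ((flt Ts low).card : ℝ) * P.lam ≤ P.Del / 2 := by
    have : ((flt Ts low).card : ℝ) ≤ P.R * P.s2 := by exact_mod_cast hlow
    exact (mul_le_mul_of_nonneg_right this hl).trans hP.m2
  have n1 : ∀ y, 0 ≤ (if y ∈ Ys then P.Del / (2 * P.N) else 0) := fun y => by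
    split_ifs
    · exact hb
    · exact le_rfl
  have n2 : ∀ y t, 0 ≤ (if y ∈ Pl t then P.lam / (Pl t).card else 0) := fun y t => by
    split_ifs
    · positivity
    · exact le_rfl
  have u1 : ∀ y, (if y ∈ Ys then P.Del / (2 * P.N) else 0) ≤ P.Del / (2 * P.N) := fun y => by
    split_ifs
    · exact le_rfl
    · exact hb
  refine ⟨fun y => (if y ∈ Ys then P.Del / (2 * P.N) else 0) +
    ∑ t ∈ flt Ts low, if y ∈ Pl t then P.lam / (Pl t).card else 0,
    fun y => add_nonneg (n1 y) (sum_nonneg fun t _ => n2 y t), fun y => ?_, fun y hy => ?_, ?_,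
    fun t ht y hy => ?_⟩
  · have a1 : P.Del / (2 * P.N) ≤ P.smax / 4 := by
      have b1 : (P.mu0 : ℝ) ≤ P.N := by exact_mod_cast hP.m5
      have b2 := mul_le_mul_of_nonneg_left b1 hP.hsmax0
      rw [div_le_div_iff₀ (by positivity) (by positivity)]
      linarith [hP.m4]
    have a2 : ∑ t ∈ flt Ts low, (if y ∈ Pl t then P.lam / (Pl t).card else 0) ≤
        (flt Ts low).card • (P.lam * (4 / (3 * P.mu0))) := sum_le_card_nsmul _ _ _ fun t ht => by
      split_ifs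
      · have b1 : 3 * (P.mu0 : ℝ) ≤ 4 * (Pl t).card := by exact_mod_cast hb0 t (mem_flt.1 ht).1
        rw [div_eq_mul_one_div]
        refine mul_le_mul_of_nonneg_left ?_ hl
        rw [div_le_div_iff₀ (hpos t (mem_flt.1 ht).1) (by positivity)]
        linarith
      · positivity
    have a3 : P.Del / 2 * (4 / (3 * P.mu0)) ≤ P.smax / 3 := by
      rw [div_mul_div_comm, div_le_div_iff₀ (by positivity) (by positivity)]
      linarith [hP.m4]
    rw [nsmul_eq_mul, ← mul_assoc] at a2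
    have a4 := mul_le_mul_of_nonneg_right hlow' (by positivity : (0 : ℝ) ≤ 4 / (3 * P.mu0))
    have a5 := u1 y
    have a6 := hP.hsmax0
    dsimp only
    linarith
  · dsimp only
    rw [if_neg hy, zero_add]
    exact sum_eq_zero fun t ht => if_neg fun h => hy (hsub t (mem_flt.1 ht).1 h)
  · rw [sum_add_distrib, sum_comm]
    have a1 : ∑ y, (if y ∈ Ys then P.Del / (2 * P.N) else 0) ≤ P.Del / 2 := by
      refine (sum_le_card_nsmul _ _ _ fun y _ => u1 y).trans (le_of_eq ?_)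
      rw [card_univ, Fintype.card_fin, nsmul_eq_mul]
      field_simp
    have a2 : ∑ t ∈ flt Ts low, ∑ y, (if y ∈ Pl t then P.lam / (Pl t).card else 0) ≤
        (flt Ts low).card • P.lam := sum_le_card_nsmul _ _ _ fun t ht => by
      rw [sum_ite_mem, univ_inter, sum_const, nsmul_eq_mul,
        mul_div_cancel₀ _ (hpos t (mem_flt.1 ht).1).ne']
    rw [nsmul_eq_mul] at a2
    linarith
  · by_cases h : low t
    · refine le_trans ?_ (le_add_of_nonneg_left (n1 y))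
      have := single_le_sum (f := fun t => if y ∈ Pl t then P.lam / (Pl t).card else 0)
        (fun t _ => n2 y t) (mem_flt.2 ⟨ht, h⟩)
      rwa [if_pos hy] at this
    · refine le_trans ?_ (le_add_of_nonneg_right (sum_nonneg fun t _ => n2 y t))
      have b1 : 3 * (P.mu1 : ℝ) ≤ 4 * (Pl t).card := by exact_mod_cast hb1 t ht h
      have b2 := mul_le_mul_of_nonneg_left b1 hD.le
      rw [if_pos (hsub t ht hy), div_le_div_iff₀ (hpos t ht) (by positivity)]
      linarith [hP.m3]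

theorem hit_of_fit (hΦ : Φ.Ok) {x y : Fin P.N} {C : Finset (Fin P.k)} {w : Fin P.k → Bool}
    {φ : Pat P.k P.q} (hv : Φ.Valid x (zer C w)) (hf : Fit (zer C w) φ)
    (hd : Disjoint (vw Φ.f x y) (C \ cols φ)) (hp : Φ.Pary x y (zer C w)) :
    Φ.Hit col (col x (zer C w)) x y φ w := by
  have key : ∀ a ∈ vw Φ.f x y, zer C w a = ext φ w a := fun a ha => by
    unfold ext
    rcases e : φ a with _ | ⟨b, v⟩
    · exact zer_off_LT6 w fun hc => disjoint_left.1 hd ha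
        (mem_sdiff.2 ⟨hc, fun h => (mem_flt.1 h).2 e⟩)
    · exact hf a b v e
  refine ⟨?_, _, hv, rfl, key⟩
  have e : flt (Φ.Z x y) (fun a => ext φ w a = -1) = flt (Φ.Z x y) (fun a => zer C w a = -1) := by
    ext a
    simp only [mem_flt]
    exact and_congr_right fun ha => by rw [key a (hΦ.Zs x y ha)]
  unfold Fam.Pary at hp ⊢
  rwa [e]

end Pool.Agent.P.MP_b5e666_co.Lar
end
end
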