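import Pool.Agent.K.MP_b5e666_co.C1
import Pool.Agent.K.MP_b5e666_co.C0

-- part Pool.Agent.P.MP_b5e666_co.LC3
section

set_option autoImplicit false

open Finset

noncomputable section

namespace Pool.Agent.P.MP_b5e666_co.Lar

namespace Loc
variable {P : Par} {D : Loc P}

theorem hx_LC3 (hP : P.Ok) (hD : D.Ok) {S : Finset (Fin P.N)} (hS : D.Good S)
    (Ds : Finset (Fin P.N)) (hDs : Ds.card ≤ P.L) (U : Finset (Fin P.N)) (hU : U ⊆ S \ Ds) :
    P.l * U.card ≤ (xr D.Z U \ Ds.biUnion D.I).card := by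
  have hUS : U ⊆ S := hU.trans sdiff_subset
  have h1 := hD.hX U (hUS.trans hS.1) ((card_le_card hUS).trans hS.2.1)
  have h2 : xr D.Z U ∩ Ds.biUnion D.I ⊆
      U.biUnion (fun y => Ds.biUnion (fun y' => D.I y ∩ D.I y')) := by
    intro a ha
    obtain ⟨ha1, ha2⟩ := mem_inter.1 ha
    obtain ⟨y', hy', hay'⟩ := mem_biUnion.1 ha2
    have hodd := (mem_flt.1 ha1).2
    obtain ⟨y, hy⟩ := card_pos.1 hodd.pos
    obtain ⟨hyU, hay⟩ := mem_flt.1 hy
    exact mem_biUnion.2 ⟨y, hyU, mem_biUnion.2 ⟨y', hy', mem_inter.2 ⟨hD.hZ y hay, hay'⟩⟩⟩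
  have h3 : (xr D.Z U ∩ Ds.biUnion D.I).card ≤ U.card * (P.L * P.c1) := by
    refine (card_le_card h2).trans (card_biUnion_le_card_mul _ _ _ fun y hy => ?_)
    refine (card_biUnion_le_card_mul _ _ P.c1 fun y' hy' => ?_).trans
      (Nat.mul_le_mul_right _ hDs)
    refine hD.hc1 y y' fun h => ?_
    exact (mem_sdiff.1 (hU hy)).2 (h ▸ hy')
  have h4 := card_sdiff_add_card_inter (xr D.Z U) (Ds.biUnion D.I)
  have h5 : (P.l + P.c1 * P.L) * U.card ≤ P.lx * U.card := Nat.mul_le_mul_right _ hP.c4b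
  nlinarith

theorem hS_LC3 (hP : P.Ok) {S : Finset (Fin P.N)} (hS : D.Good S) {U : Finset (Fin P.N)}
    (hU : U ⊆ S) : (U.card : ℝ) * P.del ^ P.l ≤ 1 / 4 := by
  have h0 : 0 ≤ P.del := by have := hP.heps; have := hP.hdel; linarith
  have h1 : (U.card : ℝ) ≤ P.du := by exact_mod_cast (card_le_card hU).trans hS.2.1
  exact (mul_le_mul_of_nonneg_right h1 (pow_nonneg h0 _)).trans hP.c4a

theorem four_up (hP : P.Ok) (hD : D.Ok) {S : Finset (Fin P.N)} (hS : D.Good S)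
    (Ds : Finset (Fin P.N)) (hDs : Ds.card ≤ P.L) {A : (Fin P.k → Bool) → Prop}
    (hA : Dep A (Ds.biUnion D.I)) :
    2 ^ S.card * Pr (D.law S) (fun w => par D.Z D.cp S w ∧ A w) ≤
      3 / 2 * 2 ^ Ds.card * Pr (D.law S) A := by
  have hp := D.isP_law hP hS.2.2.1
  have hf := fourier D.Z D.cp (S \ Ds) (Ds.biUnion D.I) hS.2.2.1 hP.hdel1 P.l
    (hx_LC3 hP hD hS Ds hDs) (hS_LC3 hP hS sdiff_subset) (F := fun w => ind (A w))
    (fun w => ind_nonneg _) (hA.comp ind)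
  have hf2 : 2 ^ (S \ Ds).card *
      Ex (D.law S) (fun w => ind (A w) * ind (par D.Z D.cp (S \ Ds) w)) ≤
      3 / 2 * Pr (D.law S) A := by
    have := (abs_le.1 hf).2
    unfold Pr law
    linarith
  have h1 : Pr (D.law S) (fun w => par D.Z D.cp S w ∧ A w) ≤
      Ex (D.law S) (fun w => ind (A w) * ind (par D.Z D.cp (S \ Ds) w)) := by
    refine Ex_mono hp fun w => ?_
    rw [← ind_and]
    exact ind_mono fun h => ⟨h.2, fun y hy => h.1 y (mem_sdiff.1 hy).1⟩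
  have h2 : (2 : ℝ) ^ S.card ≤ 2 ^ Ds.card * 2 ^ (S \ Ds).card := by
    rw [← pow_add]
    refine pow_le_pow_right₀ (by norm_num) ?_
    have := card_le_card_sdiff_add_card (s := S) (t := Ds)
    omega
  have h3 := Pr_nonneg hp (fun w => par D.Z D.cp S w ∧ A w)
  calc 2 ^ S.card * Pr (D.law S) (fun w => par D.Z D.cp S w ∧ A w)
      ≤ (2 ^ Ds.card * 2 ^ (S \ Ds).card) *
          Ex (D.law S) (fun w => ind (A w) * ind (par D.Z D.cp (S \ Ds) w)) :=
        mul_le_mul h2 h1 h3 (by positivity)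
    _ = 2 ^ Ds.card * (2 ^ (S \ Ds).card *
          Ex (D.law S) (fun w => ind (A w) * ind (par D.Z D.cp (S \ Ds) w))) := by ring
    _ ≤ 2 ^ Ds.card * (3 / 2 * Pr (D.law S) A) :=
        mul_le_mul_of_nonneg_left hf2 (by positivity)
    _ = _ := by ring

theorem four_lo (hP : P.Ok) (hD : D.Ok) {S : Finset (Fin P.N)} (hS : D.Good S) :
    1 / 2 ≤ 2 ^ S.card * Pr (D.law S) (fun w => par D.Z D.cp S w) := by
  have hp := D.isP_law hP hS.2.2.1
  have hx : ∀ U ⊆ S, P.l * U.card ≤ (xr D.Z U \ (∅ : Finset (Fin P.k))).card := by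
    intro U hU
    have := hx_LC3 hP hD hS ∅ (by simp) U (by simpa using hU)
    simpa using this
  have hf := fourier D.Z D.cp S ∅ hS.2.2.1 hP.hdel1 P.l hx (hS_LC3 hP hS subset_rfl)
    (F := fun _ => 1) (fun _ => zero_le_one) (fun _ _ _ => rfl)
  have h1 : Ex (bern (fun p => (1 + D.bias S p) / 2)) (fun _ => (1 : ℝ)) = 1 := Ex_const hp 1
  rw [h1] at hf
  simp only [one_mul] at hf
  have := (abs_le.1 hf).1
  unfold Pr law
  linarith

theorem Qs_nonneg (hP : P.Ok) (A : Finset (Fin P.N) → (Fin P.k → Bool) → Prop)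
    (S : Finset (Fin P.N)) : 0 ≤ D.Qs A S := by
  unfold Qs
  by_cases hS : D.Good S
  · exact mul_nonneg (ind_nonneg _)
      (mul_nonneg (by positivity) (Pr_nonneg (D.isP_law hP hS.2.2.1) _))
  · rw [ind_neg hS, zero_mul]

theorem Qs_le (hP : P.Ok) (hD : D.Ok) (A : Finset (Fin P.N) → (Fin P.k → Bool) → Prop)
    (S : Finset (Fin P.N)) : D.Qs A S ≤ 3 / 2 := by
  unfold Qs
  by_cases hS : D.Good S
  · have hp := D.isP_law hP hS.2.2.1
    have h1 := four_up hP hD hS ∅ (by simp) (A := fun _ => True) (fun _ _ _ => rfl)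
    rw [Pr_true hp (A := fun _ => True) (fun _ => trivial)] at h1
    have h2 : Pr (D.law S) (fun w => par D.Z D.cp S w ∧ A S w) ≤
        Pr (D.law S) (fun w => par D.Z D.cp S w ∧ True) :=
      Pr_mono hp fun w h => ⟨h.1, trivial⟩
    have h3 := mul_le_mul_of_nonneg_left h2 (show (0 : ℝ) ≤ 2 ^ S.card by positivity)
    rw [ind_pos hS, one_mul]
    simp only [card_empty, pow_zero, mul_one] at h1
    exact h3.trans h1
  · rw [ind_neg hS, zero_mul]; norm_num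

theorem mass (hP : P.Ok) (hD : D.Ok) : 2 / 5 ≤ D.Qm (fun _ _ => True) := by
  have hp := D.isP_sig hP hD
  have h1 := Pr_not_good hP hD
  rw [Pr_not hp (fun ξ => D.Good (supp ξ))] at h1
  have h2 : Ex (bern D.σ) (fun ξ => 1 / 2 * ind (D.Good (supp ξ))) ≤ D.Qm (fun _ _ => True) := by
    refine Ex_mono hp fun ξ => ?_
    unfold Qs
    by_cases hS : D.Good (supp ξ)
    · have := four_lo hP hD hS
      simp only [ind_pos hS, and_true]
      linarith
    · rw [ind_neg hS]; simp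
  rw [Ex_const_mul] at h2
  unfold Pr at h1
  linarith

theorem tail_LC3 (hP : P.Ok) (hD : D.Ok) {S : Finset (Fin P.N)} (hS : D.Good S) (y : Fin P.N) :
    Pr (D.law S) (fun w => ¬ ((if y ∈ S then 0 else P.eps * (D.M y).card) - 2 * P.nu ≤
      ∑ p ∈ D.M y, sg (w p))) ≤ Real.exp (-((P.nu : ℝ) ^ 2 / (16 * P.mu))) := by
  have hp := D.isP_law hP hS.2.2.1
  have hmu : (0 : ℝ) < P.mu := by exact_mod_cast hP.hmu
  have hnu : (0 : ℝ) ≤ P.nu := Nat.cast_nonneg _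
  have h5 : (P.nu : ℝ) ≤ 4 * P.mu := by exact_mod_cast hP.c5a
  have hs0 : ∀ p, 0 ≤ (1 + D.bias S p) / 2 := fun p => by
    have := (abs_le.1 (hS.2.2.1 p)).1; have := hP.hdel1; linarith
  have hs1 : ∀ p, (1 + D.bias S p) / 2 ≤ 1 := fun p => by
    have := (abs_le.1 (hS.2.2.1 p)).2; have := hP.hdel1; linarith
  have ht := tail_bern (σ := fun p => (1 + D.bias S p) / 2)
    (c := fun p => if p ∈ D.M y then -2 else 0) hs0 hs1 (t := P.nu / (8 * P.mu)) (u := P.nu)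
    (v := 4 * P.mu) (by positivity) (fun p => by
      split_ifs
      · rw [abs_neg, abs_two, div_mul_eq_mul_div, div_le_one (by positivity)]; linarith
      · simp) (by
      have e : ∀ p, (1 + D.bias S p) / 2 * (if p ∈ D.M y then (-2 : ℝ) else 0) ^ 2 ≤
          if p ∈ D.M y then 4 else 0 := fun p => by
        have := hs1 p
        split_ifs
        · linarith
        · simp
      refine (sum_le_sum fun p _ => e p).trans ?_
      rw [sum_ite_mem, univ_inter, sum_const, nsmul_eq_mul]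
      have : ((D.M y).card : ℝ) ≤ P.mu := by exact_mod_cast hD.hmu y
      linarith)
  have e2 : -((P.nu : ℝ) / (8 * P.mu) * P.nu) + ((P.nu : ℝ) / (8 * P.mu)) ^ 2 * (4 * P.mu) =
      -((P.nu : ℝ) ^ 2 / (16 * P.mu)) := by
    field_simp
    ring
  rw [e2] at ht
  refine (Pr_mono hp fun w hw => ?_).trans ht
  have h1 := hS.2.2.2 y
  have e3 : ∑ p, (if p ∈ D.M y then (-2 : ℝ) else 0) * (bit (w p) - (1 + D.bias S p) / 2) =
      ∑ p ∈ D.M y, D.bias S p - ∑ p ∈ D.M y, sg (w p) := by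
    simp only [ite_mul, zero_mul]
    rw [sum_ite_mem, univ_inter, ← sum_sub_distrib]
    refine sum_congr rfl fun p _ => ?_
    rw [sg_eq]; ring
  show (P.nu : ℝ) ≤ _
  rw [e3]
  have h2 := not_le.1 hw
  linarith

theorem invalid (hP : P.Ok) (hD : D.Ok) :
    D.Qm (fun S w => ¬ ∀ y, (if y ∈ S then 0 else P.eps * (D.M y).card) - 2 * P.nu ≤
      ∑ p ∈ D.M y, sg (w p)) ≤ 1 / 20 := by
  refine Ex_le_const (D.isP_sig hP hD) fun ξ => ?_
  generalize supp ξ = S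
  unfold Qs
  by_cases hS : D.Good S
  · have hp := D.isP_law hP hS.2.2.1
    rw [ind_pos hS, one_mul]
    obtain ⟨B, hB⟩ : ∃ B : Fin P.N → (Fin P.k → Bool) → Prop, B = fun y w =>
        ¬ ((if y ∈ S then 0 else P.eps * (D.M y).card) - 2 * P.nu ≤ ∑ p ∈ D.M y, sg (w p)) :=
      ⟨_, rfl⟩
    have h1 : Pr (D.law S) (fun w => par D.Z D.cp S w ∧ ¬ ∀ y,
        (if y ∈ S then 0 else P.eps * (D.M y).card) - 2 * P.nu ≤ ∑ p ∈ D.M y, sg (w p)) ≤
        ∑ y : Fin P.N, Pr (D.law S) (fun w => par D.Z D.cp S w ∧ B y w) := by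
      refine le_trans (Pr_mono hp fun w hw => ?_)
        (Pr_exists_le hp univ (fun y w => par D.Z D.cp S w ∧ B y w))
      obtain ⟨y, hy⟩ := not_forall.1 hw.2
      exact ⟨y, mem_univ _, hw.1, by rw [hB]; exact hy⟩
    have h2 : ∀ y : Fin P.N, 2 ^ S.card * Pr (D.law S) (fun w => par D.Z D.cp S w ∧ B y w) ≤
        3 * Real.exp (-((P.nu : ℝ) ^ 2 / (16 * P.mu))) := by
      intro y
      have hdep : Dep (B y) (({y} : Finset (Fin P.N)).biUnion D.I) := by
        intro w w' h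
        rw [hB]
        have : ∑ p ∈ D.M y, sg (w p) = ∑ p ∈ D.M y, sg (w' p) :=
          sum_congr rfl fun p hp => by rw [h p (by simpa using hD.hM y hp)]
        simp only [this]
      have h3 := four_up hP hD hS {y} (by simpa using hP.hL) hdep
      have h4 : Pr (D.law S) (B y) ≤ Real.exp (-((P.nu : ℝ) ^ 2 / (16 * P.mu))) := by
        rw [hB]; exact tail_LC3 hP hD hS y
      rw [card_singleton] at h3
      linarith
    have h5 := mul_le_mul_of_nonneg_left h1 (show (0 : ℝ) ≤ 2 ^ S.card by positivity)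
    rw [mul_sum] at h5
    have h6 := sum_le_sum (s := univ) fun y _ => h2 y
    rw [sum_const, card_univ, Fintype.card_fin, nsmul_eq_mul] at h6
    have h7 := hP.c5b
    linarith
  · rw [ind_neg hS, zero_mul]; norm_num

end Loc

end Pool.Agent.P.MP_b5e666_co.Lar
end
end

-- part Pool.Agent.P.MP_b5e666_co.LC5
section

set_option autoImplicit false

open Finset

noncomputable section

namespace Pool.Agent.P.MP_b5e666_co.Lar

namespace Loc
variable {P : Par} {D : Loc P}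

variable {D0 Ds : Finset (Fin P.N)} {T2 : Finset (Fin P.k)} {a c : Fin P.N → ℝ}

theorem step_LC5 (z1 z2 t : ℝ) (h : |z2| ≤ t) :
    1 - z1 + z2 ≤ max (1 - z1) (1 / 2) * Real.exp (2 * t) := by
  have h1 : 1 - z1 ≤ max (1 - z1) (1 / 2) := le_max_left _ _
  have h2 : (1 / 2 : ℝ) ≤ max (1 - z1) (1 / 2) := le_max_right _ _
  have h3 := Real.add_one_le_exp (2 * t)
  have h4 := le_abs_self z2
  have h5 := abs_nonneg z2
  have h6 : max (1 - z1) (1 / 2) * (2 * t + 1) ≤ max (1 - z1) (1 / 2) * Real.exp (2 * t) :=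
    mul_le_mul_of_nonneg_left h3 (by linarith)
  nlinarith

theorem bit_nonneg_LC5 (b : Bool) : 0 ≤ bit b := by cases b <;> simp

theorem mult_LC5 (D : Loc P) (D0 : Finset (Fin P.N)) (T2 : Finset (Fin P.k))
    (e : Fin P.N → Bool) {p : Fin P.k} (hp : p ∈ T2) :
    D.mult (D0 ∪ supp e) p = D.mult D0 p + ∑ y ∈ D.Sing D0 T2 p, bit (e y) +
      ∑ y ∈ D.Mul D0 T2, ind (p ∈ D.I y) * bit (e y) := by
  have key : ∀ (S : Finset (Fin P.N)) (f : Fin P.N → ℝ),
      ∑ y ∈ S, f y = ∑ y, ind (y ∈ S) * f y := fun S f => by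
    simp only [ind_eq, ite_mul, one_mul, zero_mul]
    rw [sum_ite_mem, univ_inter]
  rw [mult_eq, mult_eq, key (D0 ∪ supp e), key D0, key (D.Sing D0 T2 p), key (D.Mul D0 T2),
    ← sum_add_distrib, ← sum_add_distrib]
  refine sum_congr rfl fun y _ => ?_
  by_cases h0 : y ∈ D0
  · have a1 : y ∉ D.Sing D0 T2 p := fun h => (mem_flt.1 h).2.1 h0
    have a2 : y ∉ D.Mul D0 T2 := fun h => (mem_flt.1 h).2.1 h0
    rw [ind_pos (mem_union_left _ h0), ind_pos h0, ind_neg a1, ind_neg a2]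
    ring
  · rw [ind_neg h0]
    have a0 : ind (y ∈ D0 ∪ supp e) = bit (e y) := by
      rw [bit_eq_ind]
      exact ind_congr (by simp [h0])
    rw [a0]
    by_cases hI : p ∈ D.I y
    · rw [ind_pos hI]
      by_cases h1 : D.I y ∩ T2 = {p}
      · have a1 : y ∈ D.Sing D0 T2 p := mem_flt.2 ⟨mem_univ _, h0, h1⟩
        have a2 : y ∉ D.Mul D0 T2 := fun h => by
          have := (mem_flt.1 h).2.2
          rw [h1, card_singleton] at this
          omega
        rw [ind_pos a1, ind_neg a2]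
        ring
      · have a1 : y ∉ D.Sing D0 T2 p := fun h => h1 (mem_flt.1 h).2.2
        have a2 : y ∈ D.Mul D0 T2 := by
          refine mem_flt.2 ⟨mem_univ _, h0, ?_⟩
          by_contra hc
          have hm : p ∈ D.I y ∩ T2 := mem_inter.2 ⟨hI, hp⟩
          exact h1 (eq_singleton_iff_unique_mem.2
            ⟨hm, fun x hx => card_le_one.1 (by omega) x hx p hm⟩)
        rw [ind_neg a1, ind_pos a2]
        ring
    · have a1 : y ∉ D.Sing D0 T2 p := fun h => by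
        have h2 : p ∈ D.I y ∩ T2 := by rw [(mem_flt.1 h).2.2]; exact mem_singleton_self p
        exact hI (mem_inter.1 h2).1
      rw [ind_neg hI, ind_neg a1]
      ring

theorem swap_LC5 (D : Loc P) (D0 : Finset (Fin P.N)) (T2 : Finset (Fin P.k))
    (e : Fin P.N → Bool) :
    ∑ p ∈ T2, 2 * (P.eps * ∑ y ∈ D.Mul D0 T2, ind (p ∈ D.I y) * bit (e y)) =
      ∑ y, (if y ∈ D.Mul D0 T2 then 2 * P.eps * (D.I y ∩ T2).card else 0) * bit (e y) := by
  simp only [ite_mul, zero_mul]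
  rw [sum_ite_mem, univ_inter]
  simp only [mul_sum]
  rw [sum_comm]
  refine sum_congr rfl fun y _ => ?_
  have : ((D.I y ∩ T2).card : ℝ) = ∑ p ∈ T2, ind (p ∈ D.I y) := by
    rw [← card_flt]
    congr 2
    ext p
    simp [and_comm]
  rw [this, mul_sum, sum_mul]
  exact sum_congr rfl fun p _ => by ring

theorem rho_point (hP : P.Ok) (h : D.RhoH D0 Ds T2 a c) (w : Fin P.k → Bool)
    (e : Fin P.N → Bool) (hb : ∀ p, |D.bias (D0 ∪ supp e) p| ≤ P.del) :
    ∏ p ∈ T2, (1 + D.bias (D0 ∪ supp e) p * sg (w p)) ≤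
      Real.exp (2 * P.eps * ∑ p ∈ T2, |D.a0 D0 T2 c p|) *
        ((∏ p ∈ T2, max (1 - P.eps * sg (w p) * ∑ y ∈ D.Sing D0 T2 p, (bit (e y) - c y)) (1 / 2)) *
          Real.exp (∑ y, (if y ∈ D.Mul D0 T2 then 2 * P.eps * (D.I y ∩ T2).card else 0) *
            bit (e y))) := by
  have he := hP.heps
  have pt : ∀ p ∈ T2, 1 + D.bias (D0 ∪ supp e) p * sg (w p) ≤
      Real.exp (2 * P.eps * |D.a0 D0 T2 c p|) *
        (max (1 - P.eps * sg (w p) * ∑ y ∈ D.Sing D0 T2 p, (bit (e y) - c y)) (1 / 2) *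
          Real.exp (2 * (P.eps * ∑ y ∈ D.Mul D0 T2, ind (p ∈ D.I y) * bit (e y)))) := by
    intro p hp
    have hm : 0 ≤ ∑ y ∈ D.Mul D0 T2, ind (p ∈ D.I y) * bit (e y) :=
      sum_nonneg fun y _ => mul_nonneg (ind_nonneg _) (bit_nonneg_LC5 _)
    have e1 : 1 + D.bias (D0 ∪ supp e) p * sg (w p) =
        1 - P.eps * sg (w p) * ∑ y ∈ D.Sing D0 T2 p, (bit (e y) - c y) +
          P.eps * sg (w p) * (D.a0 D0 T2 c p -
            ∑ y ∈ D.Mul D0 T2, ind (p ∈ D.I y) * bit (e y)) := by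
      unfold bias a0
      rw [if_neg (h.nE p hp), mult_LC5 D D0 T2 e hp, sum_sub_distrib]
      ring
    have e2 : |P.eps * sg (w p) * (D.a0 D0 T2 c p -
        ∑ y ∈ D.Mul D0 T2, ind (p ∈ D.I y) * bit (e y))| ≤
        P.eps * |D.a0 D0 T2 c p| + P.eps * ∑ y ∈ D.Mul D0 T2, ind (p ∈ D.I y) * bit (e y) := by
      rw [abs_mul, abs_mul, abs_sg, mul_one, abs_of_pos he, ← mul_add]
      refine mul_le_mul_of_nonneg_left ((abs_sub _ _).trans ?_) he.le
      rw [abs_of_nonneg hm]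
    rw [e1]
    refine (step_LC5 _ _ _ e2).trans (le_of_eq ?_)
    rw [mul_add, Real.exp_add, mul_assoc 2]
    ring
  refine (prod_le_prod (fun p _ => ?_) pt).trans (le_of_eq ?_)
  · have h1 := hb p
    have h2 := hP.hdel1
    have h3 : |D.bias (D0 ∪ supp e) p * sg (w p)| ≤ 1 := by
      rw [abs_mul, abs_sg, mul_one]
      linarith
    linarith [(abs_le.1 h3).1]
  · rw [prod_mul_distrib, prod_mul_distrib, ← Real.exp_sum, ← Real.exp_sum, swap_LC5, mul_sum]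

theorem rho (hP : P.Ok) (hD : D.Ok) (h : D.RhoH D0 Ds T2 a c) (w : Fin P.k → Bool) :
    Ex (bern c) (fun e => ind (∀ p, |D.bias (D0 ∪ supp e) p| ≤ P.del) *
      ∏ p ∈ T2, (1 + D.bias (D0 ∪ supp e) p * sg (w p))) ≤ Real.exp 2 := by
  have he := hP.heps
  have c1 : ∀ y, c y ≤ 1 := fun y => (h.hc1 y).trans (D.le_one hP hD y)
  have hc : IsP (bern c) := isP_bern h.hc0 c1
  have mx : ∀ (z : ℝ), 0 ≤ max z (1 / 2 : ℝ) := fun z =>
    le_trans (by norm_num) (le_max_right _ _)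
  have dep1 : ∀ p ∈ T2, Dep (fun e : Fin P.N → Bool =>
      max (1 - P.eps * sg (w p) * ∑ y ∈ D.Sing D0 T2 p, (bit (e y) - c y)) (1 / 2))
      (D.Sing D0 T2 p) := fun p _ e e' hee => by
    have : ∑ y ∈ D.Sing D0 T2 p, (bit (e y) - c y) = ∑ y ∈ D.Sing D0 T2 p, (bit (e' y) - c y) :=
      sum_congr rfl fun y hy => by rw [hee y hy]
    simp only [this]
  have dep2 : Dep (fun e : Fin P.N → Bool => ∏ p ∈ T2,
      max (1 - P.eps * sg (w p) * ∑ y ∈ D.Sing D0 T2 p, (bit (e y) - c y)) (1 / 2))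
      (T2.biUnion (D.Sing D0 T2)) := fun e e' hee =>
    prod_congr rfl fun p hp => dep1 p hp e e' fun y hy => hee y (mem_biUnion.2 ⟨p, hp, hy⟩)
  have dep3 : Dep (fun e : Fin P.N → Bool => Real.exp (∑ y,
      (if y ∈ D.Mul D0 T2 then 2 * P.eps * (D.I y ∩ T2).card else 0) * bit (e y)))
      (D.Mul D0 T2) := fun e e' hee => by
    refine congrArg Real.exp (sum_congr rfl fun y _ => ?_)
    by_cases hy : y ∈ D.Mul D0 T2
    · rw [hee y hy]
    · rw [if_neg hy, zero_mul, zero_mul]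
  have dj1 : Disjoint (T2.biUnion (D.Sing D0 T2)) (D.Mul D0 T2) := by
    refine disjoint_left.2 fun y hy hy' => ?_
    obtain ⟨p, _, hp⟩ := mem_biUnion.1 hy
    have := (mem_flt.1 hy').2.2
    rw [(mem_flt.1 hp).2.2, card_singleton] at this
    omega
  have dj2 : ∀ p ∈ T2, ∀ p' ∈ T2, p ≠ p' → Disjoint (D.Sing D0 T2 p) (D.Sing D0 T2 p') :=
    fun p _ p' _ hne => disjoint_left.2 fun y hy hy' =>
      hne (singleton_injective ((mem_flt.1 hy).2.2.symm.trans (mem_flt.1 hy').2.2))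
  have b1 : Real.exp (2 * P.eps * ∑ p ∈ T2, |D.a0 D0 T2 c p|) ≤ Real.exp (1 / 2) := by
    refine Real.exp_le_exp.2 ?_
    have := mul_le_mul_of_nonneg_left (sum_a0 hP hD h) he.le
    have := hP.c7b
    linarith
  have b2 : Ex (bern c) (fun e : Fin P.N → Bool => ∏ p ∈ T2,
      max (1 - P.eps * sg (w p) * ∑ y ∈ D.Sing D0 T2 p, (bit (e y) - c y)) (1 / 2)) ≤
      Real.exp (1 / 2) := by
    rw [Ex_prod_of_disjoint hc T2 (D.Sing D0 T2) _ dep1 dj2]
    have hη := Real.exp_pos (-(P.be3 / 2) + P.be3 ^ 2 * P.eps ^ 2 * P.V)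
    have one : ∀ p ∈ T2, Ex (bern c) (fun e : Fin P.N → Bool =>
        max (1 - P.eps * sg (w p) * ∑ y ∈ D.Sing D0 T2 p, (bit (e y) - c y)) (1 / 2)) ≤
        Real.exp (Real.exp (-(P.be3 / 2) + P.be3 ^ 2 * P.eps ^ 2 * P.V)) := by
      intro p hp
      have hv : ∑ y ∈ D.Sing D0 T2 p, c y ≤ P.V := by
        refine le_trans ?_ (D.r_le (h.nE p hp))
        unfold r
        refine le_trans (sum_le_sum fun y hy => ?_) (sum_le_sum_of_subset_of_nonneg
          (subset_univ (D.Sing D0 T2 p)) fun y _ _ => mul_nonneg (hD.h0 y) (ind_nonneg _))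
        have h2 : p ∈ D.I y ∩ T2 := by rw [(mem_flt.1 hy).2.2]; exact mem_singleton_self p
        rw [ind_pos (mem_inter.1 h2).1, mul_one]
        exact h.hc1 y
      have a1 := Ex_max_le h.hc0 c1 (D.Sing D0 T2 p) (e := P.eps * sg (w p)) hP.hbe3
        (by rw [abs_mul, abs_sg, mul_one, abs_of_pos he]; exact hP.hbe3') hv
      have a2 : (P.eps * sg (w p)) ^ 2 = P.eps ^ 2 := by
        rw [mul_pow, ← sq_abs (sg (w p)), abs_sg]
        ring
      rw [a2] at a1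
      refine a1.trans ?_
      rw [add_comm]
      exact Real.add_one_le_exp _
    refine (prod_le_prod (fun p _ => Ex_nonneg hc fun e => mx _) one).trans ?_
    rw [prod_const, ← Real.exp_nat_mul]
    refine Real.exp_le_exp.2 ?_
    have a3 : (T2.card : ℝ) ≤ (P.L : ℝ) * P.iu := by exact_mod_cast card_T2 hD h
    have a4 := mul_le_mul_of_nonneg_right a3 hη.le
    have := hP.c7e
    linarith
  have b3 : Ex (bern c) (fun e : Fin P.N → Bool => Real.exp (∑ y,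
      (if y ∈ D.Mul D0 T2 then 2 * P.eps * (D.I y ∩ T2).card else 0) * bit (e y))) ≤
      Real.exp 1 := by
    refine (mgf_bern_pos h.hc0 c1 (fun y => ?_) (fun y => ?_)).trans (Real.exp_le_exp.2 ?_)
    · split_ifs
      · positivity
      · exact le_rfl
    · split_ifs with hy
      · have a1 : ((D.I y ∩ T2).card : ℝ) ≤ (P.c1 : ℝ) * P.L := by
          exact_mod_cast inter_T2 hD h fun hs => (mem_flt.1 hy).2.1 (h.sub hs)
        have a2 := mul_le_mul_of_nonneg_left a1 he.le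
        have := hP.c7c
        linarith
      · exact zero_le_one
    · have a1 : ∑ y, c y * (if y ∈ D.Mul D0 T2 then 2 * P.eps * (D.I y ∩ T2).card else 0) ≤
          2 * P.eps * ∑ y ∈ D.Mul D0 T2, D.σ y * (D.I y ∩ T2).card := by
        simp only [mul_ite, mul_zero]
        rw [sum_ite_mem, univ_inter, mul_sum]
        refine sum_le_sum fun y _ => ?_
        have a2 := mul_le_mul_of_nonneg_right (h.hc1 y)
          (by positivity : 0 ≤ 2 * P.eps * ((D.I y ∩ T2).card : ℝ))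
        linarith
      have a2 := mul_le_mul_of_nonneg_left (sum_Mul hP hD h) he.le
      have := hP.heps4
      linarith
  refine le_trans (Ex_mono hc (G := fun e => Real.exp (2 * P.eps * ∑ p ∈ T2, |D.a0 D0 T2 c p|) *
    ((∏ p ∈ T2, max (1 - P.eps * sg (w p) * ∑ y ∈ D.Sing D0 T2 p, (bit (e y) - c y)) (1 / 2)) *
      Real.exp (∑ y, (if y ∈ D.Mul D0 T2 then 2 * P.eps * (D.I y ∩ T2).card else 0) *
        bit (e y)))) fun e => ?_) ?_
  · by_cases hb : ∀ p, |D.bias (D0 ∪ supp e) p| ≤ P.del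
    · rw [ind_pos hb, one_mul]
      exact rho_point hP h w e hb
    · rw [ind_neg hb, zero_mul]
      exact mul_nonneg (Real.exp_pos _).le
        (mul_nonneg (prod_nonneg fun p _ => mx _) (Real.exp_pos _).le)
  · rw [Ex_const_mul, Ex_mul_of_disjoint hc dep2 dep3 dj1]
    have n2 := Ex_nonneg hc (F := fun e : Fin P.N → Bool => Real.exp (∑ y,
      (if y ∈ D.Mul D0 T2 then 2 * P.eps * (D.I y ∩ T2).card else 0) * bit (e y)))
      fun e => (Real.exp_pos _).le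
    have n1 := Ex_nonneg hc (F := fun e : Fin P.N → Bool => ∏ p ∈ T2,
      max (1 - P.eps * sg (w p) * ∑ y ∈ D.Sing D0 T2 p, (bit (e y) - c y)) (1 / 2))
      fun e => prod_nonneg fun p _ => mx _
    refine (mul_le_mul b1 (mul_le_mul b2 b3 n2 (Real.exp_pos _).le) (mul_nonneg n1 n2)
      (Real.exp_pos _).le).trans (le_of_eq ?_)
    rw [← Real.exp_add, ← Real.exp_add]
    norm_num

end Loc

end Pool.Agent.P.MP_b5e666_co.Lar
end
end

-- part Pool.Agent.P.MP_b5e666_co.LF8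
section

set_option autoImplicit false

open Finset

noncomputable section

namespace Pool.Agent.P.MP_b5e666_co.Lar

theorem card_eq_LF8 {γ : Type} [Fintype γ] (b : γ) :
    ((flt univ (fun c : γ => c = b)).card : ℝ) = 1 := by
  have : flt univ (fun c : γ => c = b) = {b} := by
    ext c; simp
  rw [this, card_singleton, Nat.cast_one]

theorem one_LF8 {α β γ : Type} [Fintype α] [DecidableEq α] [Fintype β] [DecidableEq β]
    [Fintype γ] (i : α) (a : β) (b : γ) :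
    Ex (unif α (β → γ)) (fun h => ind (h i a = b)) = 1 / (Fintype.card γ : ℝ) := by
  have : Nonempty γ := ⟨b⟩
  have h1 := Pr_uncurry (fun h : α → β → γ => h i a = b)
  have h2 := Pr_cyl (α := α × β) {(i, a)} (fun _ (c : γ) => c = b)
  rw [prod_singleton, card_eq_LF8] at h2
  rw [← h2]
  refine Eq.trans h1 (Pr_congr _ fun w => ?_)
  simp

theorem two_LF8 {α β γ : Type} [Fintype α] [DecidableEq α] [Fintype β] [DecidableEq β]
    [Fintype γ] (i i' : α) {a a' : β} (ha : a ≠ a') (b : γ) :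
    Ex (unif α (β → γ)) (fun h => ind (h i a = b) * ind (h i' a' = b)) =
      1 / (Fintype.card γ : ℝ) ^ 2 := by
  have : Nonempty γ := ⟨b⟩
  have h1 := Pr_uncurry (fun h : α → β → γ => h i a = b ∧ h i' a' = b)
  have h2 := Pr_cyl (α := α × β) {(i, a), (i', a')} (fun _ (c : γ) => c = b)
  have h3 : (i, a) ≠ (i', a') := fun e => ha (congrArg Prod.snd e)
  rw [prod_pair h3, card_eq_LF8] at h2
  have h4 : Ex (unif α (β → γ)) (fun h => ind (h i a = b) * ind (h i' a' = b)) =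
      Pr (unif α (β → γ)) (fun h => h i a = b ∧ h i' a' = b) :=
    Ex_congr _ fun w => (ind_and _ _).symm
  rw [h4, h1, sq, ← one_div_mul_one_div, ← h2]
  refine Pr_congr _ fun w => ?_
  simp

variable {P : Par} (f : Fin P.N → Fin P.k → Fin P.q)
  (Γ : Finset ((Fin P.k × Fin P.q) × (Fin P.k × Fin P.q)))

theorem psi_eq_LF8 (h : Sym2 (Fin P.N) → Fin P.k → Fin P.G) (b : Fin P.G) (x : Fin P.N)
    (a : Fin P.k) : (psi f Γ (lab f h b) x a : ℝ) =
      ∑ y ∈ flt (hub f Γ x) (fun y => a ∈ vw f x y), ind (h s(x, y) a = b) := by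
  rw [← card_flt]
  unfold psi
  congr 2
  ext y
  simp only [lab, mem_flt, and_assoc]

theorem Ex_psi_LF8 (b : Fin P.G) (x : Fin P.N) (a : Fin P.k) :
    Ex (unif (Sym2 (Fin P.N)) (Fin P.k → Fin P.G)) (fun h => (psi f Γ (lab f h b) x a : ℝ)) =
      (flt (hub f Γ x) (fun y => a ∈ vw f x y)).card * (1 / (P.G : ℝ)) := by
  simp only [psi_eq_LF8]
  rw [Ex_sum _ _ (fun y (h : Sym2 (Fin P.N) → Fin P.k → Fin P.G) => ind (h s(x, y) a = b))]
  simp only [one_LF8, Fintype.card_fin, sum_const, nsmul_eq_mul]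

theorem Ex_psi2_LF8 (b : Fin P.G) (x : Fin P.N) {a a' : Fin P.k} (ha : a ≠ a') :
    Ex (unif (Sym2 (Fin P.N)) (Fin P.k → Fin P.G))
      (fun h => (psi f Γ (lab f h b) x a : ℝ) * psi f Γ (lab f h b) x a') =
      (flt (hub f Γ x) (fun y => a ∈ vw f x y)).card *
        ((flt (hub f Γ x) (fun y => a' ∈ vw f x y)).card * (1 / (P.G : ℝ) ^ 2)) := by
  simp only [psi_eq_LF8, sum_mul_sum]
  rw [Ex_sum _ _ (fun y (h : Sym2 (Fin P.N) → Fin P.k → Fin P.G) =>
    ∑ y' ∈ flt (hub f Γ x) (fun y => a' ∈ vw f x y),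
      ind (h s(x, y) a = b) * ind (h s(x, y') a' = b))]
  have e : ∀ y, Ex (unif (Sym2 (Fin P.N)) (Fin P.k → Fin P.G))
      (fun h => ∑ y' ∈ flt (hub f Γ x) (fun y => a' ∈ vw f x y),
        ind (h s(x, y) a = b) * ind (h s(x, y') a' = b)) =
      (flt (hub f Γ x) (fun y => a' ∈ vw f x y)).card * (1 / (P.G : ℝ) ^ 2) := fun y => by
    rw [Ex_sum _ _ (fun y' (h : Sym2 (Fin P.N) → Fin P.k → Fin P.G) =>
      ind (h s(x, y) a = b) * ind (h s(x, y') a' = b))]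
    simp only [two_LF8 _ _ ha, Fintype.card_fin, sum_const, nsmul_eq_mul]
  simp only [e, sum_const, nsmul_eq_mul]

theorem Pr_Psi (hP : P.Ok) (h4 : V4 f P.z4 P.c2) (hΓ : ∀ e ∈ Γ, e.1.1 ≠ e.2.1) (b : Fin P.G)
    (x : Fin P.N) :
    Pr (unif (Sym2 (Fin P.N)) (Fin P.k → Fin P.G))
      (fun h => (edg f Γ x).card ≤ P.z1 ∧ P.nu < Psi f Γ (lab f h b) x) ≤ 1 / 40 := by
  have : Nonempty (Fin P.G) := ⟨b⟩
  have hp : IsP (unif (Sym2 (Fin P.N)) (Fin P.k → Fin P.G)) := isP_unif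
  by_cases he : (edg f Γ x).card ≤ P.z1
  swap
  · rw [Pr_false hp fun h k => he k.1]; norm_num
  have hnu : (0 : ℝ) < P.nu := by exact_mod_cast hP.hnu
  have hG : (0 : ℝ) < P.G := by exact_mod_cast hP.hG
  refine le_trans (Pr_mono hp (B := fun h => (P.nu : ℝ) ≤ (Psi f Γ (lab f h b) x : ℝ))
    fun h k => by exact_mod_cast k.2.le) ?_
  refine (markov hp (F := fun h => (Psi f Γ (lab f h b) x : ℝ))
    (fun h => Nat.cast_nonneg _) hnu).trans ?_
  rw [div_le_iff₀ hnu]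
  refine le_trans ?_ (hP.h8e.trans (le_of_eq (by ring)))
  simp only [Psi, Nat.cast_add, Nat.cast_sum, Nat.cast_mul]
  rw [Ex_add, Ex_sum _ _ (fun a (h : Sym2 (Fin P.N) → Fin P.k → Fin P.G) =>
      (psi f Γ (lab f h b) x a : ℝ)),
    Ex_sum _ _ (fun (e : (Fin P.k × Fin P.q) × (Fin P.k × Fin P.q))
      (h : Sym2 (Fin P.N) → Fin P.k → Fin P.G) =>
      (psi f Γ (lab f h b) x e.1.1 : ℝ) * psi f Γ (lab f h b) x e.2.1)]
  refine add_le_add ?_ ?_
  · simp only [Ex_psi_LF8]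
    rw [← sum_mul, mul_one_div]
    refine div_le_div_of_nonneg_right ?_ hG.le
    exact_mod_cast inc_vd f Γ hP h4 x
  · have k : ∀ e ∈ flt (edg f Γ x) (fun e => e.1.1 ∉ vd f Γ x ∧ e.2.1 ∉ vd f Γ x),
        Ex (unif (Sym2 (Fin P.N)) (Fin P.k → Fin P.G))
          (fun h => (psi f Γ (lab f h b) x e.1.1 : ℝ) * psi f Γ (lab f h b) x e.2.1) ≤
          2 * (P.c2 : ℝ) * (2 * (P.c2 : ℝ) * (1 / (P.G : ℝ) ^ 2)) := fun e hm => by
      obtain ⟨h1, h2, h3⟩ := mem_flt.1 hm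
      have d : ∀ a, (e.1.1 = a ∨ e.2.1 = a) → a ∉ vd f Γ x →
          ((flt (hub f Γ x) (fun y => a ∈ vw f x y)).card : ℝ) ≤ 2 * (P.c2 : ℝ) :=
        fun a ha hv => by
        have h5 : a ∈ tch f Γ x := mem_flt.2 ⟨mem_univ _, e, h1, ha⟩
        have h6 : ¬ 2 * P.c2 ≤ (flt (hub f Γ x) (fun y => a ∈ vw f x y)).card :=
          fun k => hv (mem_flt.2 ⟨h5, k⟩)
        exact_mod_cast (not_le.1 h6).le
      rw [Ex_psi2_LF8 f Γ b x (hΓ e (mem_flt.1 h1).1)]
      have d1 := d _ (Or.inl rfl) h2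
      have d2 := d _ (Or.inr rfl) h3
      gcongr
    refine (sum_le_card_nsmul _ _ _ k).trans ?_
    rw [nsmul_eq_mul]
    have c : ((flt (edg f Γ x) (fun e => e.1.1 ∉ vd f Γ x ∧ e.2.1 ∉ vd f Γ x)).card : ℝ) ≤
        P.z1 := by exact_mod_cast (card_flt_le _ _).trans he
    refine (mul_le_mul_of_nonneg_right c (by positivity)).trans (le_of_eq ?_)
    ring

theorem dep_Psi (b : Fin P.G) (x : Fin P.N) :
    Dep (fun h : Sym2 (Fin P.N) → Fin P.k → Fin P.G =>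
      (edg f Γ x).card ≤ P.z1 ∧ P.nu < Psi f Γ (lab f h b) x)
      ((hub f Γ x).image (fun y => s(x, y))) := by
  intro w w' hw
  have e : ∀ a, psi f Γ (lab f w b) x a = psi f Γ (lab f w' b) x a := fun a => by
    unfold psi
    congr 1
    ext y
    simp only [lab, mem_flt]
    refine and_congr_right fun hy => ?_
    rw [hw _ (mem_image_of_mem (fun y => s(x, y)) hy)]
  simp only [Psi, e]

end Pool.Agent.P.MP_b5e666_co.Lar
end
end

-- part Pool.Agent.P.MP_b5e666_co.LT5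
section

set_option autoImplicit false

open Finset

noncomputable section

namespace Pool.Agent.P.MP_b5e666_co.Lar

variable {P : Par} {Φ : Fam P} {col : Fin P.N → (Fin P.k → SignType) → Fin P.n}

theorem card_bi_LT5 {n B : ℕ} {α : Type} [DecidableEq α] (A0 A1 : Fin n → Finset α)
    (h0 : ∀ γ, (A0 γ).card ≤ B) (h1 : ∀ γ, (A1 γ).card ≤ B) :
    (univ.biUnion fun γ => A0 γ ∪ A1 γ).card ≤ 2 * n * B := by
  have h : (univ.biUnion fun γ => A0 γ ∪ A1 γ).card ≤ (univ : Finset (Fin n)).card * (2 * B) :=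
    card_biUnion_le_card_mul _ _ _ fun γ _ => by
      have := card_union_le (A0 γ) (A1 γ)
      have := h0 γ
      have := h1 γ
      omega
  rw [card_univ, Fintype.card_fin] at h
  calc _ ≤ n * (2 * B) := h
    _ = 2 * n * B := by ring

/-- the universe, its zero columns, the low colours and the killed nodes -/
theorem select (hP : P.Ok) (hΦ : Φ.Ok) (hc : Φ.Proper col) :
    ∃ (x : Fin P.N) (C : Finset (Fin P.k)) (Low : Finset (Fin P.n))
      (Nd : Fin P.n → Finset (Pat P.k P.q)),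
      C.card ≤ 2 * P.z1 ∧ (∀ y, (C ∩ Φ.M x y).card ≤ P.nu) ∧ Low.card ≤ P.R ∧
      (∀ γ, (Nd γ).card ≤ P.s2) ∧
      ∀ γ (w : Fin P.k → Bool), ∃ φ ∈ Nd γ, Fit (zer C w) φ ∧
        Φ.Killed col γ (if γ ∈ Low then P.mu0 else P.mu1) φ x := by
  classical
  have T := fun (μ : ℕ) (hμ : P.mu0 ≤ μ) (γ : Fin P.n) =>
    tree Φ.f P.s (8 * P.Mr * μ) hP.hs (Φ.Killed col γ μ)
      (fun φ hφ => cover_killed hP hΦ hc γ hμ φ hφ)
  choose N0 L0 G0 T0 a1 a2 a3 a4 a5 a6 a7 using T P.mu0 le_rfl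
  choose N1 L1 G1 T1 b1 b2 b3 b4 b5 b6 b7 using T P.mu1 hP.hmu1
  obtain ⟨x, hx0, hxT, hxR, C, hC1, hC2, hC3⟩ := choose_x hP hΦ L0 L1 a2 b2
    (univ.biUnion fun γ => G0 γ ∪ G1 γ) ((card_bi_LT5 G0 G1 a3 b3).trans hP.x3)
    (fun e he => by
      obtain ⟨γ, -, h⟩ := mem_biUnion.1 he
      rcases mem_union.1 h with h | h
      · exact a4 γ e h
      · exact b4 γ e h)
    (univ.biUnion fun γ => T0 γ ∪ T1 γ) (card_bi_LT5 T0 T1 a5 b5)
    (fun t ht => by
      obtain ⟨γ, -, h⟩ := mem_biUnion.1 ht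
      rcases mem_union.1 h with h | h
      · exact a6 γ t h
      · exact b6 γ t h)
  have hz : ∀ (γ : Fin P.n) (w : Fin P.k → Bool) (G : Finset ((Fin P.k × Fin P.q) × (Fin P.k × Fin P.q))),
      G ⊆ G0 γ ∪ G1 γ → ∀ e ∈ edg Φ.f G x, zer C w e.1.1 = 0 ∨ zer C w e.2.1 = 0 := by
    intro γ w G hG e he
    have he' : e ∈ edg Φ.f (univ.biUnion fun γ => G0 γ ∪ G1 γ) x :=
      mem_flt.2 ⟨mem_biUnion.2 ⟨γ, mem_univ _, hG (mem_flt.1 he).1⟩, (mem_flt.1 he).2⟩
    rcases hC2 e he' with h | h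
    · exact Or.inl (if_pos h)
    · exact Or.inr (if_pos h)
  refine ⟨x, C, flt univ (fun γ => x ∈ L1 γ), fun γ => if x ∈ L1 γ then N0 γ else N1 γ,
    hC1, hC3, hxR, fun γ => ?_, fun γ w => ?_⟩
  · by_cases h : x ∈ L1 γ
    · simp only [if_pos h]; exact a1 γ
    · simp only [if_neg h]; exact b1 γ
  · by_cases h : x ∈ L1 γ
    · have h' : γ ∈ flt univ (fun γ => x ∈ L1 γ) := mem_flt.2 ⟨mem_univ _, h⟩
      simp only [if_pos h, if_pos h']
      exact a7 γ x (hx0 γ)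
        (fun t ht => hxT t (mem_biUnion.2 ⟨γ, mem_univ _, mem_union_left _ ht⟩)) _
        (hz γ w _ subset_union_left)
    · have h' : γ ∉ flt univ (fun γ => x ∈ L1 γ) := fun hh => h (mem_flt.1 hh).2
      simp only [if_neg h, if_neg h']
      exact b7 γ x h
        (fun t ht => hxT t (mem_biUnion.2 ⟨γ, mem_univ _, mem_union_right _ ht⟩)) _
        (hz γ w _ subset_union_right)

end Pool.Agent.P.MP_b5e666_co.Lar
end
end

-- part Pool.Agent.P.MP_b5e666_co.LC6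
section

set_option autoImplicit false

open Finset

noncomputable section

namespace Pool.Agent.P.MP_b5e666_co.Lar

namespace Loc
variable {P : Par} {D : Loc P}

theorem Pr_all_hit {t : Tgt P} (ht : D.TOk t) {Ds : Finset (Fin P.N)} (hs : Ds ⊆ t.Pl)
    (hc : D.Clean t.F Ds) :
    Pr (unif (Fin P.k) Bool) (fun w => ∀ y ∈ Ds, t.H y w) ≤ (1 / 4) ^ Ds.card := by
  unfold Pr
  simp only [ind_forall]
  rw [Ex_prod_of_disjoint isP_unif Ds (fun y => D.I y \ t.F) (fun y w => ind (t.H y w))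
    (fun y hy => (ht.dep y (hs hy)).comp ind) (fun y hy y' hy' hne => (hc.2 y hy y' hy' hne).1),
    ← prod_const]
  exact prod_le_prod (fun y _ => Pr_nonneg isP_unif _) (fun y hy => ht.sm y (hs hy))

theorem kill_good (hP : P.Ok) (hD : D.Ok) {t : Tgt P} (ht : D.TOk t) {D0 Ds : Finset (Fin P.N)}
    (hsub : Ds ⊆ D0) (hs : Ds ⊆ t.Pl) (hc : D.Clean t.F Ds) (hL : Ds.card = P.L)
    (h0 : D0.card ≤ P.lam2) {a c : Fin P.N → ℝ} (ha : ∀ y, 0 ≤ a y) (hat : ∑ y, a y ≤ P.lam)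
    (hc0 : ∀ y, 0 ≤ c y) (hc1 : ∀ y, c y ≤ D.σ y) (hc2 : ∀ y, D.σ y - a y ≤ c y) :
    Ex (bern c) (fun e => D.Qs (fun S w => ∀ y ∈ S, y ∈ t.Pl → t.H y w) (D0 ∪ supp e)) ≤
      3 / 2 * (Real.exp 2 * ((1 + P.del) ^ (3 * P.j) / 2) ^ P.L) := by
  obtain ⟨T2, hT2, hcard, h1, h2, h3⟩ := exists_T2 hc
  have hR : D.RhoH D0 Ds T2 a c := ⟨hsub, h0, hL.le, h1, h2, h3, ha, hat, hc0, hc1, hc2⟩
  have hpc : IsP (bern c) := isP_bern hc0 fun y => (hc1 y).trans (D.le_one hP hD y)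
  have hdel0 : 0 ≤ P.del := by have := hP.hdel; have := hP.heps; linarith
  have hA : Dep (fun w => ∀ y ∈ Ds, t.H y w) (Ds.biUnion (fun y => D.I y \ t.F)) := by
    intro w w' hw
    refine propext (forall₂_congr fun y hy => ?_)
    rw [ht.dep y (hs hy) w w' fun i hi => hw i (mem_biUnion.2 ⟨y, hy, hi⟩)]
  have hA' : Dep (fun w => ∀ y ∈ Ds, t.H y w) (Ds.biUnion D.I) :=
    hA.mono (biUnion_mono fun y _ => sdiff_subset)
  have hK : (0 : ℝ) ≤ 3 / 2 * 2 ^ P.L * (1 + P.del) ^ (3 * P.j * P.L) := by positivity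
  have key : ∀ e : Fin P.N → Bool,
      D.Qs (fun S w => ∀ y ∈ S, y ∈ t.Pl → t.H y w) (D0 ∪ supp e) ≤
        (3 / 2 * 2 ^ P.L * (1 + P.del) ^ (3 * P.j * P.L)) *
          Ex (unif (Fin P.k) Bool) (fun w => ind (∀ y ∈ Ds, t.H y w) *
            (ind (∀ p, |D.bias (D0 ∪ supp e) p| ≤ P.del) *
              ∏ p ∈ T2, (1 + D.bias (D0 ∪ supp e) p * sg (w p)))) := by
    intro e
    have hnn : ∀ w : Fin P.k → Bool, 0 ≤ ind (∀ p, |D.bias (D0 ∪ supp e) p| ≤ P.del) *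
        ∏ p ∈ T2, (1 + D.bias (D0 ∪ supp e) p * sg (w p)) := by
      intro w
      by_cases hb : ∀ p, |D.bias (D0 ∪ supp e) p| ≤ P.del
      · rw [ind_pos hb, one_mul]
        refine prod_nonneg fun p _ => ?_
        have e1 : |D.bias (D0 ∪ supp e) p * sg (w p)| ≤ 1 := by
          rw [abs_mul, abs_sg, mul_one]; exact (hb p).trans hP.hdel1
        linarith [(abs_le.1 e1).1]
      · rw [ind_neg hb, zero_mul]
    have hE := Ex_nonneg (isP_unif (ι := Fin P.k) (β := Bool))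
      (fun w => mul_nonneg (ind_nonneg (∀ y ∈ Ds, t.H y w)) (hnn w))
    unfold Qs
    by_cases hG : D.Good (D0 ∪ supp e)
    · have hb := hG.2.2.1
      rw [ind_pos hG, one_mul]
      simp only [ind_pos hb, one_mul] at hE ⊢
      have f1 := four_up hP hD hG Ds hL.le hA'
      have f2 := Pr_density_le hb hP.hdel1 hT2 hA
      have f3 : Pr (D.law (D0 ∪ supp e)) (fun w => par D.Z D.cp (D0 ∪ supp e) w ∧
          ∀ y ∈ D0 ∪ supp e, y ∈ t.Pl → t.H y w) ≤
          Pr (D.law (D0 ∪ supp e)) (fun w => par D.Z D.cp (D0 ∪ supp e) w ∧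
            ∀ y ∈ Ds, t.H y w) :=
        Pr_mono (D.isP_law hP hb) fun w hw =>
          ⟨hw.1, fun y hy => hw.2 y (mem_union_left _ (hsub hy)) (hs hy)⟩
      have f4 : (1 + P.del) ^ (Ds.biUnion (fun y => D.I y \ t.F) \ T2).card ≤
          (1 + P.del) ^ (3 * P.j * P.L) :=
        pow_le_pow_right₀ (by linarith) (hL ▸ hcard)
      rw [hL] at f1
      calc _ ≤ _ := mul_le_mul_of_nonneg_left f3 (by positivity)
        _ ≤ _ := f1
        _ ≤ 3 / 2 * 2 ^ P.L * ((1 + P.del) ^ (3 * P.j * P.L) * _) :=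
            mul_le_mul_of_nonneg_left (f2.trans (mul_le_mul_of_nonneg_right f4 hE))
              (by positivity)
        _ = _ := by ring
    · rw [ind_neg hG, zero_mul]
      exact mul_nonneg hK hE
  refine (Ex_mono hpc key).trans ?_
  rw [Ex_const_mul, Ex_comm]
  have k2 : Ex (unif (Fin P.k) Bool) (fun w => Ex (bern c) (fun e => ind (∀ y ∈ Ds, t.H y w) *
      (ind (∀ p, |D.bias (D0 ∪ supp e) p| ≤ P.del) *
        ∏ p ∈ T2, (1 + D.bias (D0 ∪ supp e) p * sg (w p))))) ≤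
      (1 / 4) ^ P.L * Real.exp 2 := by
    calc _ ≤ Ex (unif (Fin P.k) Bool) (fun w => ind (∀ y ∈ Ds, t.H y w) * Real.exp 2) := by
          refine Ex_mono isP_unif fun w => ?_
          rw [Ex_const_mul]
          exact mul_le_mul_of_nonneg_left (rho hP hD hR w) (ind_nonneg _)
      _ ≤ _ := by
          rw [Ex_mul_const, ← hL]
          exact mul_le_mul_of_nonneg_right (Pr_all_hit ht hs hc) (Real.exp_pos _).le
  refine (mul_le_mul_of_nonneg_left k2 hK).trans (le_of_eq ?_)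
  have e4 : (2 : ℝ) ^ P.L * (1 / 4) ^ P.L = (1 / 2) ^ P.L := by rw [← mul_pow]; norm_num
  rw [div_eq_mul_one_div ((1 + P.del) ^ (3 * P.j)), mul_pow, ← pow_mul, ← e4]
  ring

end Loc

end Pool.Agent.P.MP_b5e666_co.Lar
end
end

-- part Pool.Agent.P.MP_b5e666_co.LF9
section

set_option autoImplicit false

open Finset

noncomputable section

namespace Pool.Agent.P.MP_b5e666_co.Lar

variable {P : Par}

theorem sum_class_LF9 {α : Type} [Fintype α] {n : ℕ} (c : α → Fin n) (B : α → Prop) :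
    ∑ m : Fin n, ((flt (flt univ (fun x => c x = m)) B).card : ℝ) = ((flt univ B).card : ℝ) := by
  classical
  have h := Finset.card_eq_sum_card_fiberwise (f := c) (s := flt univ B) (t := univ)
    (fun _ _ => by simp)
  rw [h]; push_cast
  refine sum_congr rfl fun m _ => ?_
  congr 2
  ext x; simp [and_comm]

theorem fixed_LF9 (hP : P.Ok) (f : Fin P.N → Fin P.k → Fin P.q) (h4 : V4 f P.z4 P.c2)
    (b : Fin P.G) (Γ : Finset ((Fin P.k × Fin P.q) × (Fin P.k × Fin P.q))) :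
    Pr (unif (Sym2 (Fin P.N)) (Fin P.k → Fin P.G))
      (fun h => (∀ e ∈ Γ, e.1.1 ≠ e.2.1) ∧ ¬ 10 * (flt univ (fun x => (edg f Γ x).card ≤ P.z1 ∧
        ¬ ∃ C, Zer f (lab f h b) Γ P.z1 P.nu x C)).card ≤ P.N) ≤
      (2 * (P.J : ℝ) + 1) * Real.exp (-(P.N / (20 * (2 * (P.J : ℝ) + 1)))) := by
  classical
  haveI : Nonempty (Fin P.G) := ⟨b⟩
  have hp : IsP (unif (Sym2 (Fin P.N)) (Fin P.k → Fin P.G)) := isP_unif
  have hJ : (0 : ℝ) < 2 * (P.J : ℝ) + 1 := by positivity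
  by_cases hΓ : ∀ e ∈ Γ, e.1.1 ≠ e.2.1
  swap
  · rw [Pr_false hp fun h hh => hΓ hh.1]; positivity
  obtain ⟨c, hc⟩ := colour_digraph (univ : Finset (Fin P.N)) (fun x y => y ∈ hub f Γ x) P.J
    (fun x _ => (card_le_card (fun y hy => (mem_flt.1 hy).2)).trans (card_hub f Γ hP h4 x))
  set B : Fin P.N → (Sym2 (Fin P.N) → Fin P.k → Fin P.G) → Prop :=
    fun x h => (edg f Γ x).card ≤ P.z1 ∧ P.nu < Psi f Γ (lab f h b) x with hB
  set Cl : Fin (2 * P.J + 1) → Finset (Fin P.N) := fun m => flt univ (fun x => c x = m) with hCl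
  have h1 : ∀ m, Pr (unif (Sym2 (Fin P.N)) (Fin P.k → Fin P.G))
      (fun h => ((Cl m).card : ℝ) / 20 + P.N / (20 * (2 * (P.J : ℝ) + 1)) ≤
        ((flt (Cl m) (fun x => B x h)).card : ℝ)) ≤
      Real.exp (-(P.N / (20 * (2 * (P.J : ℝ) + 1)))) := by
    intro m
    refine (chern_groups hp (Cl m) (fun x => (hub f Γ x).image (fun y => s(x, y))) B
      (fun x _ => dep_Psi f Γ b x) ?_ (ρ := 1 / 40)
      (fun x _ => Pr_Psi f Γ hP h4 hΓ b x)).trans (le_of_eq ?_)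
    · intro x hx x' hx' hne
      rw [Finset.disjoint_left]
      intro e he he'
      obtain ⟨y, hy, rfl⟩ := mem_image.1 he
      obtain ⟨y', hy', hyy⟩ := mem_image.1 he'
      rcases Sym2.eq_iff.1 hyy with ⟨h1, _⟩ | ⟨h1, _⟩
      · exact hne h1.symm
      · subst h1
        exact hc x (mem_univ _) x' (mem_univ _) hne hy
          ((mem_flt.1 hx).2.trans (mem_flt.1 hx').2.symm)
    · congr 1; ring
  refine le_trans (Pr_mono hp (B := fun h => ∃ m ∈ (univ : Finset (Fin (2 * P.J + 1))),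
    ((Cl m).card : ℝ) / 20 + P.N / (20 * (2 * (P.J : ℝ) + 1)) ≤
        ((flt (Cl m) (fun x => B x h)).card : ℝ)) ?_) ?_
  · rintro h ⟨-, hh⟩
    by_contra hcon
    push Not at hcon
    apply hh
    have s1 := sum_class_LF9 c (fun x => B x h)
    have s2 := sum_class_LF9 c (fun _ => True)
    have e2 : ∀ s : Finset (Fin P.N), flt s (fun _ => True) = s := fun s => by ext; simp
    simp only [e2, card_univ, Fintype.card_fin] at s2
    have s3 : ∑ m : Fin (2 * P.J + 1), ((flt (Cl m) (fun x => B x h)).card : ℝ) ≤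
        ∑ m : Fin (2 * P.J + 1), (((Cl m).card : ℝ) / 20 + P.N / (20 * (2 * (P.J : ℝ) + 1))) :=
      sum_le_sum fun m hm => (hcon m hm).le
    rw [sum_add_distrib, ← sum_div, s1, s2] at s3
    simp only [sum_const, card_univ, Fintype.card_fin, nsmul_eq_mul] at s3
    have e3 : ((2 * P.J + 1 : ℕ) : ℝ) * (P.N / (20 * (2 * (P.J : ℝ) + 1))) = P.N / 20 := by
      push_cast; field_simp
    rw [e3] at s3
    have s4 : (flt univ (fun x => (edg f Γ x).card ≤ P.z1 ∧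
        ¬ ∃ C, Zer f (lab f h b) Γ P.z1 P.nu x C)).card ≤ (flt univ (fun x => B x h)).card := by
      refine card_le_card (flt_mono fun x hx hb => ⟨hx, hb.1, ?_⟩)
      by_contra hle
      exact hb.2 (zer_of_Psi f Γ (lab f h b) (fun x y => flt_subset _ _) x hb.1 (not_lt.1 hle))
    have s5 : ((flt univ (fun x => (edg f Γ x).card ≤ P.z1 ∧
        ¬ ∃ C, Zer f (lab f h b) Γ P.z1 P.nu x C)).card : ℝ) ≤
        (flt univ (fun x => B x h)).card := by exact_mod_cast s4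
    have s6 : (10 : ℝ) * ((flt univ (fun x => (edg f Γ x).card ≤ P.z1 ∧
        ¬ ∃ C, Zer f (lab f h b) Γ P.z1 P.nu x C)).card : ℝ) ≤ P.N := by linarith
    exact_mod_cast s6
  · refine (Pr_exists_le hp _ _).trans ((sum_le_sum fun m _ => h1 m).trans (le_of_eq ?_))
    simp only [sum_const, card_univ, Fintype.card_fin, nsmul_eq_mul]
    push_cast; ring

theorem Pr_not_V8 (hP : P.Ok) (f : Fin P.N → Fin P.k → Fin P.q) (h4 : V4 f P.z4 P.c2)
    (b : Fin P.G) :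
    Pr (unif (Sym2 (Fin P.N)) (Fin P.k → Fin P.G)) (fun h => ¬ V8 f (lab f h b) P.e0 P.z1 P.nu) ≤
      1 / 10 := by
  classical
  haveI : Nonempty (Fin P.G) := ⟨b⟩
  have hp : IsP (unif (Sym2 (Fin P.N)) (Fin P.k → Fin P.G)) := isP_unif
  refine le_trans (Pr_mono hp (B := fun h => ∃ Γ ∈ flt (univ : Finset (Finset ((Fin P.k × Fin P.q) ×
    (Fin P.k × Fin P.q)))) (fun V => V.card ≤ P.e0), (∀ e ∈ Γ, e.1.1 ≠ e.2.1) ∧
      ¬ 10 * (flt univ (fun x => (edg f Γ x).card ≤ P.z1 ∧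
        ¬ ∃ C, Zer f (lab f h b) Γ P.z1 P.nu x C)).card ≤ P.N) ?_) ?_
  · intro h hh
    by_contra hcon
    apply hh
    intro Γ h1 h2
    by_contra h3
    exact hcon ⟨Γ, mem_flt.2 ⟨mem_univ _, h1⟩, h2, h3⟩
  · refine (Pr_exists_le hp _ _).trans
      ((sum_le_sum fun Γ _ => fixed_LF9 hP f h4 b Γ).trans (le_trans ?_ hP.h8f))
    rw [sum_const, nsmul_eq_mul]
    have hc := card_small_le ((Fin P.k × Fin P.q) × (Fin P.k × Fin P.q)) P.e0
    have hc' : ((flt (univ : Finset (Finset ((Fin P.k × Fin P.q) × (Fin P.k × Fin P.q))))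
        (fun V => V.card ≤ P.e0)).card : ℝ) ≤ (((P.k : ℝ) * P.q) ^ 2 + 1) ^ P.e0 := by
      simp only [Fintype.card_prod, Fintype.card_fin] at hc
      have : ((flt (univ : Finset (Finset ((Fin P.k × Fin P.q) × (Fin P.k × Fin P.q))))
        (fun V => V.card ≤ P.e0)).card : ℝ) ≤ (((P.k * P.q * (P.k * P.q) + 1) ^ P.e0 : ℕ) : ℝ) := by
        exact_mod_cast hc
      refine this.trans (le_of_eq ?_)
      push_cast; ring
    have h0 : (0 : ℝ) ≤ (2 * (P.J : ℝ) + 1) * Real.exp (-(P.N / (20 * (2 * (P.J : ℝ) + 1)))) := by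
      positivity
    refine (mul_le_mul_of_nonneg_right hc' h0).trans (le_of_eq ?_)
    ring

end Pool.Agent.P.MP_b5e666_co.Lar
end
end

-- part Pool.Agent.P.MP_b5e666_co.LC7
section

set_option autoImplicit false

open Finset

noncomputable section

namespace Pool.Agent.P.MP_b5e666_co.Lar

namespace Loc
variable {P : Par} {D : Loc P}

theorem kb_nonneg_LC7 (hP : P.Ok) : 0 ≤ P.kb := by
  unfold Par.kb
  have h1 : 0 ≤ P.lam := by have := hP.hlam; linarith
  have h2 : 0 ≤ 1 + P.del := by have := hP.hdel; have := hP.heps; linarith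
  positivity

theorem kill (hP : P.Ok) (hD : D.Ok) {t : Tgt P} (ht : D.TOk t) :
    D.Qm (fun S w => ∀ y ∈ S, y ∈ t.Pl → t.H y w) ≤ P.kb := by
  have hcard : 0 < t.Pl.card := by
    have := ht.big; have := hP.hmu0; omega
  have hcR : (0 : ℝ) < t.Pl.card := by exact_mod_cast hcard
  have hlam0 : 0 ≤ P.lam := by have := hP.hlam; linarith
  have hle : P.lam ≤ t.Pl.card := by
    obtain ⟨y, hy⟩ := card_pos.1 hcard
    have h1 := ht.wt y hy
    have h2 := D.le_one hP hD y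
    have h3 : P.lam / t.Pl.card ≤ 1 := h1.trans h2
    rwa [div_le_one hcR] at h3
  set a : Fin P.N → ℝ := fun y => if y ∈ t.Pl then P.lam / t.Pl.card else 0 with ha_def
  have ha0 : ∀ y, 0 ≤ a y := fun y => by
    simp only [ha_def]; split_ifs
    · positivity
    · exact le_rfl
  have haσ : ∀ y, a y ≤ D.σ y := fun y => by
    simp only [ha_def]; split_ifs with hy
    · exact ht.wt y hy
    · exact hD.h0 y
  have hσ2 : ∀ y, D.σ y ≤ 1 / 2 := fun y => (hD.h1 y).trans hP.hsmax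
  have hpos : ∀ y, 0 < 1 - a y := fun y => by have := haσ y; have := hσ2 y; linarith
  have hat : ∑ y, a y ≤ P.lam := by
    simp only [ha_def]
    rw [Finset.sum_ite_mem, univ_inter, sum_const, nsmul_eq_mul, mul_div_cancel₀ _ hcR.ne']
  set c : Fin P.N → ℝ := fun y => (D.σ y - a y) / (1 - a y) with hc_def
  have hc0 : ∀ y, 0 ≤ c y := fun y => div_nonneg (by have := haσ y; linarith) (hpos y).le
  have hc1 : ∀ y, c y ≤ D.σ y := fun y => by
    simp only [hc_def]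
    rw [div_le_iff₀ (hpos y)]
    have h1 := ha0 y
    have h2 := hσ2 y
    nlinarith
  have hc2 : ∀ y, D.σ y - a y ≤ c y := fun y => by
    simp only [hc_def]
    rw [le_div_iff₀ (hpos y)]
    have h1 := ha0 y
    have h2 := haσ y
    nlinarith
  have hun : ∀ y, 1 - D.σ y = (1 - a y) * (1 - c y) := fun y => by
    simp only [hc_def]
    have := (hpos y).ne'
    field_simp
    ring
  have hPa : IsP (bern a) := isP_bern ha0 fun y => by have := hpos y; linarith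
  have hPc : IsP (bern c) := isP_bern hc0 fun y => by have := hc1 y; have := hσ2 y; linarith
  set K : ℝ := 3 / 2 * (Real.exp 2 * ((1 + P.del) ^ (3 * P.j) / 2) ^ P.L) with hK
  have hK0 : 0 ≤ K := by
    have h2 : 0 ≤ 1 + P.del := by have := hP.hdel; have := hP.heps; linarith
    positivity
  unfold Qm
  rw [Ex_union hun (fun S => D.Qs (fun S w => ∀ y ∈ S, y ∈ t.Pl → t.H y w) S)]
  have hin : ∀ d : Fin P.N → Bool,
      Ex (bern c) (fun e => D.Qs (fun S w => ∀ y ∈ S, y ∈ t.Pl → t.H y w) (supp d ∪ supp e)) ≤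
        3 / 2 * ind (P.lam2 < (supp d).card) +
          (3 / 2 * ind (¬ ∃ Ds ⊆ supp d, Ds ⊆ t.Pl ∧ D.Clean t.F Ds ∧ Ds.card = P.L) + K) := by
    intro d
    have htriv : Ex (bern c)
        (fun e => D.Qs (fun S w => ∀ y ∈ S, y ∈ t.Pl → t.H y w) (supp d ∪ supp e)) ≤ 3 / 2 :=
      Ex_le_const hPc fun e => Qs_le hP hD _ _
    have i1 := ind_nonneg (P.lam2 < (supp d).card)
    have i2 := ind_nonneg (¬ ∃ Ds ⊆ supp d, Ds ⊆ t.Pl ∧ D.Clean t.F Ds ∧ Ds.card = P.L)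
    by_cases h1 : P.lam2 < (supp d).card
    · rw [ind_pos h1]; linarith
    · by_cases h2 : ∃ Ds ⊆ supp d, Ds ⊆ t.Pl ∧ D.Clean t.F Ds ∧ Ds.card = P.L
      · obtain ⟨Ds, hsub, hs, hcl, hL⟩ := h2
        have := kill_good hP hD ht hsub hs hcl hL (not_lt.1 h1) ha0 hat hc0 hc1 hc2
        linarith
      · rw [ind_pos h2]; linarith
  refine (Ex_mono hPa hin).trans ?_
  rw [Ex_add, Ex_add, Ex_const_mul, Ex_const_mul, Ex_const hPa]
  have b1 := Pr_supp_big t.Pl hlam0 hle P.lam2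
  have b2 := Pr_no_clean t.Pl (D.Clean t.F) P.L hP.hlam hle
    ⟨fun y hy => absurd hy (notMem_empty y), fun y hy => absurd hy (notMem_empty y)⟩
    (fun Ds _ hcl hL => clean_ext hP hD ht Ds hcl hL)
  unfold Pr at b1 b2
  unfold Par.kb
  rw [hK]
  linarith

/-- the local theorem -/
theorem core (hP : P.Ok) (hD : D.Ok) {τ : Type} (Ts : Finset τ) (T : τ → Tgt P)
    (hT : ∀ t ∈ Ts, D.TOk (T t)) (hc : Ts.card ≤ P.n * P.s2) :
    ∃ (S : Finset (Fin P.N)) (w : Fin P.k → Bool), S ⊆ D.Ys ∧ S.card ≤ P.du ∧ par D.Z D.cp S w ∧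
      (∀ y, (if y ∈ S then 0 else P.eps * (D.M y).card) - 2 * P.nu ≤ ∑ p ∈ D.M y, sg (w p)) ∧
      ∀ t ∈ Ts, ∃ y ∈ S, y ∈ (T t).Pl ∧ ¬ (T t).H y w := by
  by_contra hcon
  have hpt : ∀ S : Finset (Fin P.N), D.Qs (fun _ _ => True) S ≤
      D.Qs (fun S w => ¬ ∀ y, (if y ∈ S then 0 else P.eps * (D.M y).card) - 2 * P.nu ≤
        ∑ p ∈ D.M y, sg (w p)) S +
      ∑ t ∈ Ts, D.Qs (fun S w => ∀ y ∈ S, y ∈ (T t).Pl → (T t).H y w) S := by
    intro S
    by_cases hG : D.Good S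
    · unfold Qs
      simp only [ind_pos hG, one_mul]
      rw [← mul_sum, ← mul_add]
      refine mul_le_mul_of_nonneg_left ?_ (by positivity)
      have hl : IsP (D.law S) := D.isP_law hP hG.2.2.1
      refine le_trans ?_ (add_le_add le_rfl (Pr_exists_le hl Ts
        (fun t w => par D.Z D.cp S w ∧ ∀ y ∈ S, y ∈ (T t).Pl → (T t).H y w)))
      refine le_trans (Pr_mono hl ?_) (Pr_or_le hl _ _)
      rintro w ⟨hw, -⟩
      by_cases hv : ∀ y, (if y ∈ S then 0 else P.eps * (D.M y).card) - 2 * P.nu ≤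
          ∑ p ∈ D.M y, sg (w p)
      · right
        by_contra hno
        refine hcon ⟨S, w, hG.1, hG.2.1, hw, hv, fun t ht => ?_⟩
        by_contra hno2
        refine hno ⟨t, ht, hw, fun y hy hy2 => ?_⟩
        by_contra hH
        exact hno2 ⟨y, hy, hy2, hH⟩
      · exact Or.inl ⟨hw, hv⟩
    · unfold Qs
      simp only [ind_neg hG, zero_mul, sum_const_zero, add_zero, le_refl]
  have h1 := mass hP hD
  have h2 := invalid hP hD
  have h3 : ∑ t ∈ Ts, D.Qm (fun S w => ∀ y ∈ S, y ∈ (T t).Pl → (T t).H y w) ≤ Ts.card * P.kb := by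
    rw [← nsmul_eq_mul]
    exact sum_le_card_nsmul _ _ _ fun t ht => kill hP hD (hT t ht)
  have h4 : (Ts.card : ℝ) * P.kb ≤ ((P.n * P.s2 : ℕ) : ℝ) * P.kb :=
    mul_le_mul_of_nonneg_right (by exact_mod_cast hc) (kb_nonneg_LC7 hP)
  have h5 := hP.c8
  have h6 := Ex_mono (D.isP_sig hP hD) (fun ξ => hpt (supp ξ))
  rw [Ex_add, Ex_sum] at h6
  unfold Qm at h1 h2 h3
  linarith

end Loc

end Pool.Agent.P.MP_b5e666_co.Lar
end
end

-- part Pool.Agent.P.MP_b5e666_co.LFZ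
section

set_option autoImplicit false

open Finset

noncomputable section

namespace Pool.Agent.P.MP_b5e666_co.Lar

variable {P : Par}

theorem exists_fam (hP : P.Ok) : ∃ Φ : Fam P, Φ.Ok := by
  haveI : Nonempty (Fin P.q) := ⟨⟨0, by have := hP.hq; omega⟩⟩
  haveI : Nonempty (Fin P.G) := ⟨⟨0, hP.hG⟩⟩
  have hp : IsP (unif (Fin P.N) (Fin P.k → Fin P.q)) := isP_unif
  have hg : IsP (unif (Sym2 (Fin P.N)) (Fin P.k → Bool)) := isP_unif
  have hh : IsP (unif (Sym2 (Fin P.N)) (Fin P.k → Fin P.G)) := isP_unif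
  obtain ⟨f, hf⟩ := exists_of_Pr_lt_one hp (A := fun f => ¬ V1 f P.iu ∨ ¬ V1' f P.i ∨
      ¬ V2 f P.c1 ∨ ¬ V3 f (2 * P.j) ∨ ¬ V4 f P.z4 P.c2 ∨ ¬ V9 f P.du P.l2) (by
    have a1 := Pr_or_le hp (fun f => ¬ V1 f P.iu) (fun f => ¬ V1' f P.i ∨
      ¬ V2 f P.c1 ∨ ¬ V3 f (2 * P.j) ∨ ¬ V4 f P.z4 P.c2 ∨ ¬ V9 f P.du P.l2)
    have a2 := Pr_or_le hp (fun f => ¬ V1' f P.i) (fun f =>
      ¬ V2 f P.c1 ∨ ¬ V3 f (2 * P.j) ∨ ¬ V4 f P.z4 P.c2 ∨ ¬ V9 f P.du P.l2)
    have a3 := Pr_or_le hp (fun f => ¬ V2 f P.c1) (fun f =>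
      ¬ V3 f (2 * P.j) ∨ ¬ V4 f P.z4 P.c2 ∨ ¬ V9 f P.du P.l2)
    have a4 := Pr_or_le hp (fun f => ¬ V3 f (2 * P.j)) (fun f =>
      ¬ V4 f P.z4 P.c2 ∨ ¬ V9 f P.du P.l2)
    have a5 := Pr_or_le hp (fun f => ¬ V4 f P.z4 P.c2) (fun f => ¬ V9 f P.du P.l2)
    linarith [Pr_not_V1 hP, Pr_not_V1' hP, Pr_not_V2 hP, Pr_not_V3 hP, Pr_not_V4 hP,
      Pr_not_V9 hP])
  simp only [not_or, not_not] at hf
  obtain ⟨h1, h1', h2, h3, h4, h9⟩ := hf
  obtain ⟨g, hg'⟩ := exists_of_Pr_lt_one hg (A := fun g => ¬ V6 (lab f g true) P.du P.lx ∨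
      ¬ V7 f (lab f g true) P.Mr) (by
    have a1 := Pr_or_le hg (fun g => ¬ V6 (lab f g true) P.du P.lx)
      (fun g => ¬ V7 f (lab f g true) P.Mr)
    linarith [Pr_not_V6 hP f h9, Pr_not_V7 hP f])
  let b : Fin P.G := ⟨0, hP.hG⟩
  obtain ⟨h, hh'⟩ := exists_of_Pr_lt_one hh (A := fun h => ¬ V5 (lab f h b) P.ml P.mu ∨
      ¬ V8 f (lab f h b) P.e0 P.z1 P.nu) (by
    have a1 := Pr_or_le hh (fun h => ¬ V5 (lab f h b) P.ml P.mu)
      (fun h => ¬ V8 f (lab f h b) P.e0 P.z1 P.nu)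
    linarith [Pr_not_V5 hP f h1 h1' b, Pr_not_V8 hP f h4 b])
  simp only [not_or, not_not] at hg' hh'
  refine ⟨⟨f, lab f g true, lab f h b⟩, fun x y => flt_subset _ _, fun x y => flt_subset _ _,
    fun x y => ?_, fun x y => ?_, h1, h2, h3, hh'.1, hg'.1, hg'.2, hh'.2⟩
  · simp only [lab]; rw [vw_symm f x y, Sym2.eq_swap]
  · simp only [lab]; rw [vw_symm f x y, Sym2.eq_swap]

end Pool.Agent.P.MP_b5e666_co.Lar
end
end

-- part Pool.Agent.P.MP_b5e666_co.LT7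
section

set_option autoImplicit false

open Finset

noncomputable section

namespace Pool.Agent.P.MP_b5e666_co.Lar

variable {P : Par} {Φ : Fam P}

theorem card_pairs_LT7 {α β : Type} [DecidableEq α] [DecidableEq β] (A : Finset α)
    (Nd : α → Finset β) (s : ℕ) (h : ∀ a, (Nd a).card ≤ s) :
    (A.biUnion (fun a => (Nd a).image (fun b => (a, b)))).card ≤ A.card * s := by
  refine card_biUnion_le.trans ?_
  calc ∑ a ∈ A, ((Nd a).image (fun b => (a, b))).card ≤ ∑ _a ∈ A, s :=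
        sum_le_sum fun a _ => card_image_le.trans (h a)
    _ = A.card * s := by rw [sum_const, smul_eq_mul]

theorem no_col (hP : P.Ok) (hΦ : Φ.Ok) (col : Fin P.N → (Fin P.k → SignType) → Fin P.n) :
    ¬ Φ.Proper col := by
  classical
  intro hc
  obtain ⟨x, C, Low, Nd, hC, hCM, hLow, hNd, hsel⟩ := select hP hΦ hc
  let G : Fin P.n × Pat P.k P.q → Prop := fun t =>
    (∃ w, Fit (zer C w) t.2) ∧ Φ.Killed col t.1 (if t.1 ∈ Low then P.mu0 else P.mu1) t.2 x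
  let Ts : Finset (Fin P.n × Pat P.k P.q) :=
    flt (univ.biUnion (fun γ => (Nd γ).image (fun φ => (γ, φ)))) G
  have hTs : Ts.card ≤ P.n * P.s2 := by
    refine (card_flt_le _ _).trans ?_
    have h := card_pairs_LT7 (univ : Finset (Fin P.n)) Nd P.s2 hNd
    rwa [card_univ, Fintype.card_fin] at h
  have hlow : (flt Ts (fun t => t.1 ∈ Low)).card ≤ P.R * P.s2 := by
    have hsub : flt Ts (fun t => t.1 ∈ Low) ⊆
        Low.biUnion (fun γ => (Nd γ).image (fun φ => (γ, φ))) := by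
      intro t ht
      obtain ⟨h1, h2⟩ := mem_flt.1 ht
      obtain ⟨γ, -, hγ⟩ := mem_biUnion.1 (mem_flt.1 h1).1
      obtain ⟨φ, hφ, rfl⟩ := mem_image.1 hγ
      exact mem_biUnion.2 ⟨γ, h2, mem_image.2 ⟨φ, hφ, rfl⟩⟩
    exact (card_le_card hsub).trans
      ((card_pairs_LT7 Low Nd P.s2 hNd).trans (Nat.mul_le_mul_right _ hLow))
  have hex : ∀ t : Fin P.n × Pat P.k P.q, ∃ Pl : Finset (Fin P.N), t ∈ Ts →
      3 * (if t.1 ∈ Low then P.mu0 else P.mu1) ≤ 4 * Pl.card ∧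
      (∀ y ∈ Pl, Φ.Arc col t.1 t.2 x y ∧ Disjoint (Φ.Z x y) C ∧
        Disjoint (vw Φ.f x y) (C \ cols t.2)) ∧
      Spread (vw Φ.f x) (cols t.2) P.z0 3 Pl := by
    intro t
    by_cases ht : t ∈ Ts
    · obtain ⟨h1, h2⟩ := (mem_flt.1 ht).2
      obtain ⟨Pl, h⟩ := thin hP hΦ h2 hC h1
      exact ⟨Pl, fun _ => h⟩
    · exact ⟨∅, fun h => absurd h ht⟩
  choose Pl hPl using hex
  have hb0 : ∀ t ∈ Ts, 3 * P.mu0 ≤ 4 * (Pl t).card := by
    intro t ht
    have h := (hPl t ht).1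
    have h1 := hP.hmu1
    split_ifs at h
    · exact h
    · omega
  have hb1 : ∀ t ∈ Ts, ¬ t.1 ∈ Low → 3 * P.mu1 ≤ 4 * (Pl t).card := by
    intro t ht hl
    have h := (hPl t ht).1
    rwa [if_neg hl] at h
  have hsub : ∀ t ∈ Ts, Pl t ⊆ flt univ (fun y => x ≠ y ∧ Disjoint (Φ.Z x y) C) := by
    intro t ht y hy
    obtain ⟨h1, h2, -⟩ := (hPl t ht).2.1 y hy
    exact mem_flt.2 ⟨mem_univ _, h1.1, h2⟩
  obtain ⟨σ, h0, h1, hs, ht, hwt⟩ :=
    exists_sigma hP _ Ts Pl (fun t => t.1 ∈ Low) hsub hb0 hb1 hlow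
  have hD : (locOf Φ x C σ).Ok := locOf_ok hΦ x C h0 h1 hs ht
  let T : Fin P.n × Pat P.k P.q → Tgt P := fun t =>
    ⟨cols t.2, Pl t, fun y => Φ.Hit col t.1 x y t.2⟩
  have hT : ∀ t ∈ Ts, (locOf Φ x C σ).TOk (T t) := fun t ht =>
    { big := hb0 t ht
      wt := hwt t ht
      spr := (hPl t ht).2.2
      dep := fun y _ => dep_Hit hΦ t.1 x y t.2
      sm := fun y hy => ((hPl t ht).2.1 y hy).1.2.2.2 }
  obtain ⟨S, w, hS, hSc, hpar, hw, hlast⟩ := Loc.core hP hD Ts T hT hTs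
  have hSd : ∀ y ∈ S, Disjoint (Φ.Z x y) C := fun y hy => (mem_flt.1 (hS hy)).2.2
  have hv : Φ.Valid x (zer C w) := valid_of_core hP hΦ hCM hSd hSc hpar hw
  obtain ⟨φ, hφ, hfit, hK⟩ := hsel (col x (zer C w)) w
  have hmem : (col x (zer C w), φ) ∈ Ts :=
    mem_flt.2 ⟨mem_biUnion.2 ⟨_, mem_univ _, mem_image.2 ⟨φ, hφ, rfl⟩⟩, ⟨w, hfit⟩, hK⟩
  obtain ⟨y, hyS, hyP, hn⟩ := hlast _ hmem
  obtain ⟨-, -, h3⟩ := (hPl _ hmem).2.1 y hyP
  exact hn (hit_of_fit hΦ hv hfit h3 (pary_of_par (hSd y hyS) (hpar y hyS)))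

end Pool.Agent.P.MP_b5e666_co.Lar
end
end

-- part Pool.Agent.P.MP_b5e666_co.LT9
section

set_option autoImplicit false

open Finset

noncomputable section

namespace Pool.Agent.P.MP_b5e666_co.Lar

theorem main :
    ¬ (∀ n : ℕ, 1 ≤ n → ∀ H : Finset (Finset (Fin n)),
      (H : Set (Finset (Fin n))).Intersecting →
      ∃ f : Finset (Fin n) → Fin n,
        ∀ F ∈ H, ∀ F' ∈ H, F ≠ F' → f F = f F' → 2 ≤ (F ∩ F').card) := by
  intro h
  obtain ⟨P, hP⟩ := exists_par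
  obtain ⟨Φ, hΦ⟩ := exists_fam hP
  have hn : 1 ≤ P.n := by
    have h1 := hP.hq; have h2 := hP.hi; have h3 := hP.hk
    unfold Par.n
    have : 0 < 2 * P.k * P.q := by rw [h3]; positivity
    omega
  obtain ⟨col, hc⟩ := col_of_dec hP hΦ (h P.n hn)
  exact no_col hP hΦ col hc

end Pool.Agent.P.MP_b5e666_co.Lar
end
end
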